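import Pool.Agent.Helper31.FM.Defs

/-!
# FM-RI: real inequalities used several times
-/

set_option autoImplicit false

namespace Pool.Agent.Helper31.FM

open Complex Real Finset MeasureTheory
open Pool.Agent.Helper31.FI (ee ze mains)

/-- `X^p exp (-cX)` is bounded on `[0, ∞)` -/
theorem sup_exp (p c : ℝ) (hp : 0 ≤ p) (hc : 0 < c) : ∃ C : ℝ, 0 < C ∧ ∀ X : ℝ, 0 ≤ X →
    X ^ p * Real.exp (-(c * X)) ≤ C := by
  have h := tendsto_rpow_mul_exp_neg_mul_atTop_nhds_zero p c hc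
  have h1 : ∀ᶠ x : ℝ in Filter.atTop, x ^ p * Real.exp (-c * x) < 1 :=
    h.eventually (gt_mem_nhds one_pos)
  obtain ⟨R, hR⟩ := Filter.eventually_atTop.1 h1
  refine ⟨1 + (max R 0) ^ p, by positivity, fun X hX => ?_⟩
  rcases le_total R X with h2 | h2
  · have h3 := hR X h2
    rw [neg_mul] at h3
    have h4 : 0 ≤ (max R 0) ^ p := Real.rpow_nonneg (le_max_right _ _) _
    linarith
  · have h3 : X ^ p ≤ (max R 0) ^ p := Real.rpow_le_rpow hX (h2.trans (le_max_left _ _)) hp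
    have h4 : Real.exp (-(c * X)) ≤ 1 := Real.exp_le_one_iff.2 (by nlinarith)
    have h5 : 0 ≤ X ^ p := Real.rpow_nonneg hX _
    nlinarith [Real.exp_pos (-(c * X))]

theorem log_pow_le (N : ℕ) (η : ℝ) (hη : 0 < η) : ∃ C : ℝ, 0 < C ∧ ∀ x : ℝ, 1 ≤ x →
    (1 + Real.log x) ^ N ≤ C * x ^ η := by
  set ε : ℝ := η / (N + 1) with hε
  have hN : (0 : ℝ) < N + 1 := by positivity
  have hε0 : 0 < ε := by positivity
  refine ⟨(1 + 1 / ε) ^ N, by positivity, fun x hx => ?_⟩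
  have h1 : Real.log x ≤ x ^ ε / ε := Real.log_le_rpow_div (by linarith) hε0
  have h2 : (1 : ℝ) ≤ x ^ ε := Real.one_le_rpow hx hε0.le
  have h3 : 1 + Real.log x ≤ (1 + 1 / ε) * x ^ ε := by
    have : (1 + 1 / ε) * x ^ ε = x ^ ε + x ^ ε / ε := by ring
    rw [this]; linarith
  have h0 : 0 ≤ 1 + Real.log x := by have := Real.log_nonneg hx; linarith
  calc (1 + Real.log x) ^ N ≤ ((1 + 1 / ε) * x ^ ε) ^ N := pow_le_pow_left₀ h0 h3 N
    _ = (1 + 1 / ε) ^ N * (x ^ ε) ^ N := mul_pow _ _ _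
    _ = (1 + 1 / ε) ^ N * x ^ (ε * N) := by
      rw [← Real.rpow_mul_natCast (by linarith)]
    _ ≤ (1 + 1 / ε) ^ N * x ^ η := by
      apply mul_le_mul_of_nonneg_left _ (by positivity)
      apply Real.rpow_le_rpow_of_exponent_le hx
      rw [hε, div_mul_eq_mul_div, div_le_iff₀ hN]
      nlinarith

theorem norm_add_pow4 (a b : ℂ) : ‖a + b‖ ^ 4 ≤ 8 * (‖a‖ ^ 4 + ‖b‖ ^ 4) := by
  have h1 : ‖a + b‖ ^ 4 ≤ (‖a‖ + ‖b‖) ^ 4 := pow_le_pow_left₀ (norm_nonneg _) (norm_add_le a b) 4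
  have h2 := add_pow_le (norm_nonneg a) (norm_nonneg b) 4
  norm_num at h2
  linarith

private theorem fm01_w {ι : Type*} (s : Finset ι) (w : ι → ℝ) (f : ι → ℂ) (hw : ∀ i ∈ s, 0 ≤ w i) :
    (∑ i ∈ s, w i * ‖f i‖) ^ 4 ≤ (∑ i ∈ s, w i) ^ 3 * ∑ i ∈ s, w i * ‖f i‖ ^ 4 := by
  have h1 : (∑ i ∈ s, w i * ‖f i‖) ^ 2 ≤ (∑ i ∈ s, w i) * ∑ i ∈ s, w i * ‖f i‖ ^ 2 :=
    Finset.sum_sq_le_sum_mul_sum_of_sq_le_mul s hw
      (fun i hi => mul_nonneg (hw i hi) (by positivity)) (fun i _ => le_of_eq (by ring))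
  have h2 : (∑ i ∈ s, w i * ‖f i‖ ^ 2) ^ 2 ≤ (∑ i ∈ s, w i) * ∑ i ∈ s, w i * ‖f i‖ ^ 4 :=
    Finset.sum_sq_le_sum_mul_sum_of_sq_le_mul s hw
      (fun i hi => mul_nonneg (hw i hi) (by positivity)) (fun i _ => le_of_eq (by ring))
  have h3 : 0 ≤ ∑ i ∈ s, w i := Finset.sum_nonneg hw
  calc (∑ i ∈ s, w i * ‖f i‖) ^ 4 = ((∑ i ∈ s, w i * ‖f i‖) ^ 2) ^ 2 := by ring
    _ ≤ ((∑ i ∈ s, w i) * ∑ i ∈ s, w i * ‖f i‖ ^ 2) ^ 2 := pow_le_pow_left₀ (sq_nonneg _) h1 2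
    _ = (∑ i ∈ s, w i) ^ 2 * (∑ i ∈ s, w i * ‖f i‖ ^ 2) ^ 2 := by ring
    _ ≤ (∑ i ∈ s, w i) ^ 2 * ((∑ i ∈ s, w i) * ∑ i ∈ s, w i * ‖f i‖ ^ 4) :=
      mul_le_mul_of_nonneg_left h2 (sq_nonneg _)
    _ = _ := by ring

theorem norm_sum_pow4 {ι : Type*} (s : Finset ι) (f : ι → ℂ) :
    ‖∑ i ∈ s, f i‖ ^ 4 ≤ (s.card : ℝ) ^ 3 * ∑ i ∈ s, ‖f i‖ ^ 4 := by
  have h := fm01_w s (fun _ => (1 : ℝ)) f (fun _ _ => zero_le_one)
  simp only [one_mul, Finset.sum_const, nsmul_eq_mul, mul_one] at h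
  exact (pow_le_pow_left₀ (norm_nonneg _) (norm_sum_le _ _) 4).trans h

/-- Hölder with weights -/
theorem norm_sum_pow4_w {ι : Type*} (s : Finset ι) (w : ι → ℝ) (f : ι → ℂ) (hw : ∀ i ∈ s, 0 ≤ w i) :
    (∑ i ∈ s, w i * ‖f i‖) ^ 4 ≤ (∑ i ∈ s, w i) ^ 3 * ∑ i ∈ s, w i * ‖f i‖ ^ 4 :=
  fm01_w s w f hw

theorem sum_kernel_tel (y : ℝ) (hy : 1 ≤ y) :
    y ^ (-(3 / 2) : ℝ) ≤ 4 * (y ^ (-(1 / 2) : ℝ) - (y + 1) ^ (-(1 / 2) : ℝ)) := by
  have hy0 : 0 < y := by linarith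
  have h1 : y ^ (-(1 / 2) : ℝ) = 1 / √y := by
    rw [Real.rpow_neg hy0.le, ← Real.sqrt_eq_rpow, one_div]
  have h2 : (y + 1) ^ (-(1 / 2) : ℝ) = 1 / √(y + 1) := by
    rw [Real.rpow_neg (by linarith), ← Real.sqrt_eq_rpow, one_div]
  have h3 : y ^ (-(3 / 2) : ℝ) = 1 / (y * √y) := by
    have : (-(3 / 2) : ℝ) = -(1 + 1 / 2) := by norm_num
    rw [this, Real.rpow_neg hy0.le, Real.rpow_add hy0, Real.rpow_one, ← Real.sqrt_eq_rpow, one_div]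
  rw [h1, h2, h3]
  set a := √y with ha
  set b := √(y + 1) with hb
  have ha2 : a ^ 2 = y := Real.sq_sqrt hy0.le
  have hb2 : b ^ 2 = y + 1 := Real.sq_sqrt (by linarith)
  have ha1 : 1 ≤ a := by rw [ha]; exact Real.one_le_sqrt.mpr hy
  have hab : a ≤ b := Real.sqrt_le_sqrt (by linarith)
  have hb0 : 0 < b := by linarith
  have ha0 : 0 < a := by linarith
  rw [← ha2]
  have e1 : b - a = 1 / (b + a) := by
    rw [eq_div_iff (by positivity)]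
    nlinarith
  have e2 : 1 / a - 1 / b = 1 / ((b + a) * (a * b)) := by
    rw [div_sub_div _ _ ha0.ne' hb0.ne', one_mul, mul_one, e1, div_div]
  rw [e2, mul_one_div, div_le_div_iff₀ (by positivity) (by positivity)]
  have e3 : b ^ 2 ≤ 2 * a ^ 2 := by rw [hb2, ha2]; linarith
  have e4 : (b + a) * (a * b) ≤ 2 * b * (a * b) := by
    apply mul_le_mul_of_nonneg_right _ (by positivity)
    linarith
  have e5 : 2 * b * (a * b) = 2 * a * b ^ 2 := by ring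
  have e6 : 2 * a * b ^ 2 ≤ 2 * a * (2 * a ^ 2) := mul_le_mul_of_nonneg_left e3 (by positivity)
  nlinarith

theorem sum_kernel_term (A x : ℝ) (hA : 1 ≤ A) (hx : 0 < x) :
    x ^ (-(3 / 2) : ℝ) * Real.exp (-(A / x)) ≤ 2 * (x + A) ^ (-(3 / 2) : ℝ) := by
  set t := A / x with ht
  have ht0 : 0 ≤ t := by positivity
  have h1 : x + A = x * (1 + t) := by rw [ht]; field_simp
  rw [h1, Real.mul_rpow hx.le (by positivity)]
  have h2 : Real.exp (-t) ≤ 2 * (1 + t) ^ (-(3 / 2) : ℝ) := by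
    rw [Real.exp_neg, Real.rpow_neg (by positivity)]
    rw [← div_eq_mul_inv, inv_eq_one_div, div_le_div_iff₀ (Real.exp_pos _) (by positivity), one_mul]
    have h3 : (1 + t) ^ (3 / 2 : ℝ) ≤ (1 + t) ^ (2 : ℝ) :=
      Real.rpow_le_rpow_of_exponent_le (by linarith) (by norm_num)
    have h4 : (1 + t) ^ (2 : ℝ) = 1 + 2 * t + t ^ 2 := by
      rw [Real.rpow_two]; ring
    have h5 := Real.quadratic_le_exp_of_nonneg ht0
    rw [h4] at h3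
    linarith
  calc x ^ (-(3 / 2) : ℝ) * Real.exp (-t) ≤ x ^ (-(3 / 2) : ℝ) * (2 * (1 + t) ^ (-(3 / 2) : ℝ)) :=
        mul_le_mul_of_nonneg_left h2 (by positivity)
    _ = 2 * (x ^ (-(3 / 2) : ℝ) * (1 + t) ^ (-(3 / 2) : ℝ)) := by ring

/-- `∑_{i ≥ 0} (ν+i)^(-3/2) exp (-A/(ν+i)) ≤ C A^(-1/2)` for `A ≥ 1` -/
theorem sum_kernel : ∃ C : ℝ, 0 < C ∧ ∀ A ν : ℝ, 1 ≤ A → 0 < ν → ν ≤ 1 →
    (Summable fun i : ℕ => (ν + i : ℝ) ^ (-(3 / 2) : ℝ) * Real.exp (-(A / (ν + i)))) ∧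
    ∑' i : ℕ, (ν + i : ℝ) ^ (-(3 / 2) : ℝ) * Real.exp (-(A / (ν + i))) ≤ C * A ^ (-(1 / 2) : ℝ) := by
  refine ⟨8, by norm_num, fun A ν hA hν _ => ?_⟩
  have hn : ∀ i : ℕ, 0 ≤ (ν + i : ℝ) ^ (-(3 / 2) : ℝ) * Real.exp (-(A / (ν + i))) :=
    fun i => by positivity
  have hb : ∀ n : ℕ, ∑ i ∈ Finset.range n,
      (ν + i : ℝ) ^ (-(3 / 2) : ℝ) * Real.exp (-(A / (ν + i))) ≤ 8 * A ^ (-(1 / 2) : ℝ) := by
    intro n
    have h1 : ∑ i ∈ Finset.range n, (ν + i : ℝ) ^ (-(3 / 2) : ℝ) * Real.exp (-(A / (ν + i))) ≤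
        8 * ((ν + A) ^ (-(1 / 2) : ℝ) - (ν + A + n) ^ (-(1 / 2) : ℝ)) := by
      induction n with
      | zero => simp
      | succ n ih =>
        rw [Finset.sum_range_succ]
        have h2 := sum_kernel_term A (ν + n) hA (by positivity)
        have h3 := sum_kernel_tel (ν + n + A) (by linarith [(Nat.cast_nonneg n : (0 : ℝ) ≤ n)])
        have h4 : ν + n + A = ν + A + n := by ring
        have h5 : ν + A + ((n + 1 : ℕ) : ℝ) = ν + A + n + 1 := by push_cast; ring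
        rw [h4] at h2 h3
        rw [h5]
        linarith
    have h2 : (0 : ℝ) ≤ (ν + A + n) ^ (-(1 / 2) : ℝ) := by positivity
    have h3 : (ν + A) ^ (-(1 / 2) : ℝ) ≤ A ^ (-(1 / 2) : ℝ) :=
      Real.rpow_le_rpow_of_nonpos (by linarith) (by linarith) (by norm_num)
    linarith
  exact ⟨summable_of_sum_range_le hn hb, Real.tsum_le_of_sum_range_le hn hb⟩

/-- a truncation parameter -/
theorem ex_J (N : ℕ) : ∃ C : ℝ, 0 < C ∧ ∀ U : ℝ, 1 ≤ U → ∃ J : ℕ, 1 ≤ J ∧ (N * U) ^ N ≤ (2 : ℝ) ^ J ∧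
    (1 + J : ℝ) ≤ C * (1 + Real.log U) := by
  have hl2 : 0 < Real.log 2 := Real.log_pos one_lt_two
  have hN1 : (0 : ℝ) ≤ N := Nat.cast_nonneg N
  have hlN : 0 ≤ Real.log (N + 1) := Real.log_nonneg (by linarith)
  refine ⟨3 + N * (Real.log (N + 1) + 1) / Real.log 2, by positivity, fun U hU => ?_⟩
  have hU0 : 0 < U := by linarith
  have hlU : 0 ≤ Real.log U := Real.log_nonneg hU
  set y : ℝ := N * (Real.log (N + 1) + Real.log U) / Real.log 2 with hy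
  have hy0 : 0 ≤ y := by positivity
  refine ⟨⌈y⌉₊ + 1, by omega, ?_, ?_⟩
  · have h1 : y ≤ ((⌈y⌉₊ + 1 : ℕ) : ℝ) := by
      push_cast
      linarith [Nat.le_ceil y]
    have h2 : (2 : ℝ) ^ (⌈y⌉₊ + 1) = Real.exp (((⌈y⌉₊ + 1 : ℕ) : ℝ) * Real.log 2) := by
      rw [Real.exp_nat_mul, Real.exp_log two_pos]
    have h3 : y * Real.log 2 = N * (Real.log (N + 1) + Real.log U) := by
      rw [hy]; field_simp
    have h4 : (((N : ℝ) + 1) * U) ^ N = Real.exp (N * (Real.log (N + 1) + Real.log U)) := by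
      rw [Real.exp_nat_mul, Real.exp_add, Real.exp_log (by linarith), Real.exp_log hU0]
    calc (N * U) ^ N ≤ (((N : ℝ) + 1) * U) ^ N := by
          apply pow_le_pow_left₀ (by positivity)
          nlinarith
      _ = Real.exp (N * (Real.log (N + 1) + Real.log U)) := h4
      _ ≤ (2 : ℝ) ^ (⌈y⌉₊ + 1) := by
          rw [h2, ← h3]
          exact Real.exp_le_exp.2 (mul_le_mul_of_nonneg_right h1 hl2.le)
  · have h1 : (⌈y⌉₊ : ℝ) ≤ y + 1 := (Nat.ceil_lt_add_one hy0).le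
    have h2 : y ≤ N * (Real.log (N + 1) + 1) / Real.log 2 * (1 + Real.log U) := by
      rw [hy, div_mul_eq_mul_div]
      apply div_le_div_of_nonneg_right _ hl2.le
      rw [mul_assoc]
      apply mul_le_mul_of_nonneg_left _ hN1
      nlinarith [mul_nonneg hlN hlU]
    push_cast
    nlinarith

/-- splitting a sum over `k ≥ 1` at `2^J` -/
theorem tsum_cut (f : ℕ → ℂ) (hf : Summable f) (J : ℕ) :
    ∑' k : ℕ, f (k + 1) = ∑ k ∈ Ico 1 (2 ^ J), f k + ∑' k : ℕ, f (k + 2 ^ J) := by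
  have h1 := hf.sum_add_tsum_nat_add 1
  have h2 := hf.sum_add_tsum_nat_add (2 ^ J)
  have h3 : ∑ k ∈ Finset.range (2 ^ J), f k = f 0 + ∑ k ∈ Ico 1 (2 ^ J), f k := by
    rw [Finset.range_eq_Ico, ← Finset.sum_eq_sum_Ico_succ_bot (by positivity) f]
  rw [h3] at h2
  rw [Finset.sum_range_one] at h1
  rw [← h2, add_assoc] at h1
  exact add_left_cancel h1

end Pool.Agent.Helper31.FM
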