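import Pool.Agent.Helper31.FM.Cn
import Pool.Agent.Helper31.FM.RI

/-!
# FM-BLK: fourth moment of a finite exponential sum with slowly varying coefficients

`ibp`: for a complex `C¹` function `G` on `[U, 4U]` with `‖G‖ ≤ B`, `‖G'‖ ≤ 4B/U` and real `x`,
`‖∫_U^{4U} G(u) e(ux) du‖ ≤ 3 B min (U, 1/|x|)`: trivial bound, and one integration by parts
`(2 B + 12 B)/(2 π |x|)`.
`blk`: open the fourth power, `‖∑‖⁴ = ∑_{a,b,c,d} W_a W_b conj W_c conj W_d e(u (w_a + w_b - w_c - w_d))`, apply `ibp` with `B⁴`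
(product rule: the derivative is at most `4 B⁴/U`).  Quadruples with `|x| ≤ 1/U`: at most `cn (1/U) ≤ P (1 + Q/U)`, each `≤ U`.
Quadruples with `2^i/U < |x| ≤ 2^(i+1)/U`, `i < I`: each `≤ U/2^i`, number `≤ P (1 + 2^(i+1) Q/U)`, total `P (U/2^i + 2Q)`.
Quadruples with `|x| > 2^I/U`, `2^I ≥ (#J)⁴`: each `≤ U/2^I`, total `≤ U ≤ P U` (as `P ≥ cn 0 ≥ 1` if `J` is not empty).
`I ≤ C (1 + log (#J))`.
`blks`: dyadic blocks `[2^j, 2^(j+1))`, `j < J`; Hölder: `‖∑_{j<J} s_j‖⁴ ≤ J³ ∑ ‖s_j‖⁴`; `log (1 + 2^j) ≤ 1 + J`.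
-/

set_option autoImplicit false

namespace Pool.Agent.Helper31.FM

open Complex Real Finset MeasureTheory
open Pool.Agent.Helper31.FI (ee ze mains)

private theorem ibp_nee (t : ℝ) : ‖ee t‖ = 1 := by
  unfold ee
  rw [Complex.norm_exp]
  simp

private theorem ibp_dee (x u : ℝ) :
    HasDerivAt (fun u : ℝ => ee (u * x)) (2 * π * I * x * ee (u * x)) u := by
  unfold ee
  have h : HasDerivAt (fun u : ℝ => (2 * π * I * ((u * x : ℝ) : ℂ) : ℂ)) (2 * π * I * x) u := by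
    have h0 : HasDerivAt (fun u : ℝ => ((u : ℝ) : ℂ)) 1 u := Complex.ofRealCLM.hasDerivAt
    have h1 := (h0.const_mul (2 * π * I * x : ℂ))
    refine (h1.congr_deriv (by ring)).congr_of_eventuallyEq ?_
    refine Filter.Eventually.of_forall fun v => ?_
    push_cast
    ring
  have h2 := h.cexp
  refine h2.congr_deriv ?_
  ring

theorem ibp (G G' : ℝ → ℂ) (U B x : ℝ) (hU : 0 < U) (hB : 0 ≤ B)
    (hd : ∀ u ∈ Set.Icc U (4 * U), HasDerivAt G (G' u) u) (hc : ContinuousOn G' (Set.Icc U (4 * U)))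
    (h1 : ∀ u ∈ Set.Icc U (4 * U), ‖G u‖ ≤ B) (h2 : ∀ u ∈ Set.Icc U (4 * U), ‖G' u‖ ≤ 4 * B / U) :
    ‖∫ u in U..(4 * U), G u * ee (u * x)‖ ≤ 3 * B * U ∧
      (x ≠ 0 → ‖∫ u in U..(4 * U), G u * ee (u * x)‖ ≤ 3 * B / |x|) := by
  have hle : U ≤ 4 * U := by linarith
  have hsub : Set.uIcc U (4 * U) = Set.Icc U (4 * U) := Set.uIcc_of_le hle
  have hioc : Set.uIoc U (4 * U) ⊆ Set.Icc U (4 * U) := by
    rw [Set.uIoc_of_le hle]
    exact Set.Ioc_subset_Icc_self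
  have hlen : |4 * U - U| = 3 * U := by
    rw [abs_of_nonneg (by linarith)]
    ring
  refine ⟨?_, fun hx => ?_⟩
  · have h := intervalIntegral.norm_integral_le_of_norm_le_const (a := U) (b := 4 * U) (C := B)
      (f := fun u => G u * ee (u * x)) (fun u hu => by
        rw [norm_mul, ibp_nee, mul_one]
        exact h1 u (hioc hu))
    rw [hlen] at h
    linarith
  · set c : ℂ := 2 * π * I * x with hcdef
    have hc0 : c ≠ 0 := by
      rw [hcdef]
      have : (x : ℂ) ≠ 0 := by exact_mod_cast hx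
      have hp : (π : ℂ) ≠ 0 := by exact_mod_cast Real.pi_ne_zero
      simp [hp, this, I_ne_zero]
    have hcn : ‖c‖ = 2 * π * |x| := by
      rw [hcdef]
      simp [abs_of_pos Real.pi_pos]
    have hcont : ContinuousOn G (Set.Icc U (4 * U)) := fun u hu =>
      (hd u hu).continuousAt.continuousWithinAt
    have hece : Continuous fun u : ℝ => ee (u * x) :=
      continuous_iff_continuousAt.mpr fun u => (ibp_dee x u).continuousAt
    have hI1 : IntervalIntegrable (fun u => G u * ee (u * x)) volume U (4 * U) := by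
      apply ContinuousOn.intervalIntegrable
      rw [hsub]
      exact hcont.mul hece.continuousOn
    have hI2 : IntervalIntegrable (fun u => G' u * ee (u * x) / c) volume U (4 * U) := by
      apply ContinuousOn.intervalIntegrable
      rw [hsub]
      exact (hc.mul hece.continuousOn).div_const c
    have hF : ∀ u ∈ Set.uIcc U (4 * U), HasDerivAt (fun u => G u * ee (u * x) / c)
        (G' u * ee (u * x) / c + G u * ee (u * x)) u := by
      intro u hu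
      rw [hsub] at hu
      have h := ((hd u hu).mul (ibp_dee x u)).div_const c
      refine h.congr_deriv ?_
      rw [← hcdef]
      field_simp
    have hint := intervalIntegral.integral_eq_sub_of_hasDerivAt hF (hI2.add hI1)
    rw [intervalIntegral.integral_add hI2 hI1] at hint
    have hmain : ∫ u in U..(4 * U), G u * ee (u * x) =
        G (4 * U) * ee (4 * U * x) / c - G U * ee (U * x) / c
          - ∫ u in U..(4 * U), G' u * ee (u * x) / c := by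
      rw [← hint]
      ring
    have hn1 : ‖G (4 * U) * ee (4 * U * x) / c‖ ≤ B / (2 * π * |x|) := by
      rw [norm_div, norm_mul, ibp_nee, mul_one, hcn]
      gcongr
      exact h1 _ ⟨hle, le_rfl⟩
    have hn2 : ‖G U * ee (U * x) / c‖ ≤ B / (2 * π * |x|) := by
      rw [norm_div, norm_mul, ibp_nee, mul_one, hcn]
      gcongr
      exact h1 _ ⟨le_rfl, hle⟩
    have hn3 : ‖∫ u in U..(4 * U), G' u * ee (u * x) / c‖ ≤ 12 * B / (2 * π * |x|) := by
      have h := intervalIntegral.norm_integral_le_of_norm_le_const (a := U) (b := 4 * U)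
        (C := (4 * B / U) / (2 * π * |x|)) (f := fun u => G' u * ee (u * x) / c) (fun u hu => by
          rw [norm_div, norm_mul, ibp_nee, mul_one, hcn]
          gcongr
          exact h2 u (hioc hu))
      rw [hlen] at h
      refine h.trans (le_of_eq ?_)
      field_simp
      ring
    have hx0 : 0 < |x| := abs_pos.mpr hx
    calc ‖∫ u in U..(4 * U), G u * ee (u * x)‖
        ≤ B / (2 * π * |x|) + B / (2 * π * |x|) + 12 * B / (2 * π * |x|) := by
          rw [hmain]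
          exact (norm_sub_le _ _).trans (add_le_add ((norm_sub_le _ _).trans
            (add_le_add hn1 hn2)) hn3)
      _ = (7 / π) * (B / |x|) := by
          field_simp
          ring
      _ ≤ 3 * (B / |x|) := by
          have : 7 / π ≤ 3 := by
            rw [div_le_iff₀ Real.pi_pos]
            have := Real.pi_gt_three
            linarith
          exact mul_le_mul_of_nonneg_right this (by positivity)
      _ = 3 * B / |x| := by ring

private lemma blk_m (U x : ℝ) (hU : 0 < U) (v : ℝ) (h1 : v ≤ U) (h2 : x ≠ 0 → v ≤ 1 / |x|) (N : ℕ) :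
    v ≤ 2 * ∑ i ∈ range (N + 1), (if |x| ≤ 2 ^ i / U then U / 2 ^ i else 0) + U / 2 ^ N := by
  induction N with
  | zero =>
    have h3 : 0 ≤ ∑ i ∈ range (0 + 1), (if |x| ≤ 2 ^ i / U then U / 2 ^ i else 0) :=
      Finset.sum_nonneg (fun i _ => by split_ifs <;> positivity)
    rw [pow_zero, div_one]
    linarith
  | succ N ih =>
    rw [Finset.sum_range_succ]
    by_cases h : |x| ≤ 2 ^ (N + 1) / U
    · rw [if_pos h]
      have h4 : U / 2 ^ N = 2 * (U / 2 ^ (N + 1)) := by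
        rw [pow_succ]
        field_simp
      have h3 : 0 ≤ U / 2 ^ (N + 1) := by positivity
      linarith
    · rw [if_neg h]
      have h' : 2 ^ (N + 1) / U < |x| := not_le.mp h
      have h0 : (0 : ℝ) < 2 ^ (N + 1) / U := by positivity
      have hx : x ≠ 0 := by
        rintro rfl
        rw [abs_zero] at h'
        linarith
      have h3 := h2 hx
      have h4 : 1 / |x| ≤ U / 2 ^ (N + 1) := by
        rw [div_le_div_iff₀ (abs_pos.mpr hx) (by positivity)]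
        rw [div_lt_iff₀ hU] at h'
        linarith
      have h5 : 0 ≤ ∑ i ∈ range (N + 1), (if |x| ≤ 2 ^ i / U then U / 2 ^ i else 0) :=
        Finset.sum_nonneg (fun i _ => by split_ifs <;> positivity)
      linarith

/-- the phase of a quadruple -/
private noncomputable def blk_x (w : ℕ → ℝ) (p : (ℕ × ℕ) × (ℕ × ℕ)) : ℝ :=
  w p.1.1 + w p.1.2 - (w p.2.1 + w p.2.2)

private lemma blk_cnt (J : Finset ℕ) (w : ℕ → ℝ) (δ c : ℝ) :
    ∑ p ∈ (J ×ˢ J) ×ˢ (J ×ˢ J), (if |blk_x w p| ≤ δ then c else 0) = c * cn J w δ := by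
  classical
  rw [← Finset.sum_filter, Finset.sum_const, nsmul_eq_mul, mul_comm]
  unfold cn blk_x
  congr 1

private lemma blk_log (n : ℕ) : ∃ N : ℕ, (n : ℝ) ^ 4 ≤ 2 ^ N ∧
    ((N : ℝ) + 1) ≤ 6 * (1 + Real.log (1 + n)) := by
  refine ⟨4 * (Nat.log 2 n + 1), ?_, ?_⟩
  · have h1 : n < 2 ^ (Nat.log 2 n + 1) := Nat.lt_pow_succ_log_self (by norm_num) n
    have h2 : (n : ℝ) ≤ 2 ^ (Nat.log 2 n + 1) := by exact_mod_cast h1.le
    calc (n : ℝ) ^ 4 ≤ ((2 : ℝ) ^ (Nat.log 2 n + 1)) ^ 4 := by gcongr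
      _ = 2 ^ (4 * (Nat.log 2 n + 1)) := by rw [← pow_mul, mul_comm]
  · have h3 : (Nat.log 2 n : ℝ) * Real.log 2 ≤ Real.log (1 + n) := by
      rcases Nat.eq_zero_or_pos n with h | h
      · subst h
        simp
      · have h4 : 2 ^ Nat.log 2 n ≤ n := Nat.pow_log_le_self 2 h.ne'
        have h5 : (2 : ℝ) ^ Nat.log 2 n ≤ 1 + n := by
          have : ((2 ^ Nat.log 2 n : ℕ) : ℝ) ≤ (n : ℝ) := by exact_mod_cast h4
          push_cast at this
          linarith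
        rw [← Real.log_pow]
        exact Real.log_le_log (by positivity) h5
    have h6 : (0.6931471803 : ℝ) < Real.log 2 := Real.log_two_gt_d9
    have h7 : (0 : ℝ) ≤ (Nat.log 2 n : ℝ) := Nat.cast_nonneg _
    push_cast
    nlinarith

private lemma blk_sum (J : Finset ℕ) (w : ℕ → ℝ) {U P Q D : ℝ} (hU : 0 < U) (hP : 0 ≤ P)
    (hQ : 0 ≤ Q) (hD : 0 ≤ D) (hcn : ∀ δ : ℝ, 0 ≤ δ → cn J w δ ≤ P * (1 + δ * Q))
    (v : (ℕ × ℕ) × (ℕ × ℕ) → ℝ) (h1 : ∀ p ∈ (J ×ˢ J) ×ˢ (J ×ˢ J), v p ≤ D * U)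
    (h2 : ∀ p ∈ (J ×ˢ J) ×ˢ (J ×ˢ J), blk_x w p ≠ 0 → v p ≤ D / |blk_x w p|) :
    ∑ p ∈ (J ×ˢ J) ×ˢ (J ×ˢ J), v p ≤
      D * (12 * ((P * (U + Q)) * (1 + Real.log (1 + J.card)))) := by
  classical
  have hL : 0 ≤ Real.log (1 + (J.card : ℝ)) := Real.log_nonneg (by
    have : (0 : ℝ) ≤ J.card := Nat.cast_nonneg _
    linarith)
  rcases J.eq_empty_or_nonempty with hJ | hJ
  · subst hJ
    simp only [Finset.product_empty, Finset.sum_empty]
    simp only [Finset.card_empty, Nat.cast_zero] at hL ⊢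
    positivity
  have hP1 : 1 ≤ P := by
    have e1 := cn_diag J w (le_refl (0 : ℝ))
    have e2 := hcn 0 le_rfl
    have e3 : (1 : ℝ) ≤ (J.card : ℝ) := by exact_mod_cast hJ.card_pos
    nlinarith
  obtain ⟨N, hN1, hN2⟩ := blk_log J.card
  have hN1' : (J.card : ℝ) ^ 4 * (U / 2 ^ N) ≤ U := by
    rw [mul_div_assoc', div_le_iff₀ (by positivity)]
    nlinarith
  have key : ∑ p ∈ (J ×ˢ J) ×ˢ (J ×ˢ J), v p ≤
      ∑ p ∈ (J ×ˢ J) ×ˢ (J ×ˢ J), D * (2 * ∑ i ∈ range (N + 1),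
        (if |blk_x w p| ≤ 2 ^ i / U then U / 2 ^ i else 0) + U / 2 ^ N) := by
    refine Finset.sum_le_sum fun p hp => ?_
    have e1 := blk_m U (blk_x w p) hU (if blk_x w p = 0 then U else min U (1 / |blk_x w p|))
      (by split_ifs with h; exacts [le_rfl, min_le_left _ _])
      (fun h => by rw [if_neg h]; exact min_le_right _ _) N
    refine le_trans ?_ (mul_le_mul_of_nonneg_left e1 hD)
    split_ifs with h
    · exact h1 p hp
    · rw [mul_min_of_nonneg _ _ hD]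
      refine le_min (h1 p hp) ?_
      have := h2 p hp h
      rwa [mul_one_div]
  refine key.trans ?_
  rw [← Finset.mul_sum]
  refine mul_le_mul_of_nonneg_left ?_ hD
  rw [Finset.sum_add_distrib, ← Finset.mul_sum, Finset.sum_comm, Finset.sum_const, nsmul_eq_mul]
  have e2 : ∑ i ∈ range (N + 1), ∑ p ∈ (J ×ˢ J) ×ˢ (J ×ˢ J),
      (if |blk_x w p| ≤ 2 ^ i / U then U / 2 ^ i else 0) ≤ P * (2 * U + ((N : ℝ) + 1) * Q) := by
    have e3 : ∀ i ∈ range (N + 1), ∑ p ∈ (J ×ˢ J) ×ˢ (J ×ˢ J),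
        (if |blk_x w p| ≤ 2 ^ i / U then U / 2 ^ i else 0) ≤ P * (U * (1 / 2) ^ i + Q) := by
      intro i _
      rw [blk_cnt]
      have e4 := mul_le_mul_of_nonneg_left (hcn (2 ^ i / U) (by positivity))
        (by positivity : 0 ≤ U / 2 ^ i)
      refine e4.trans (le_of_eq ?_)
      rw [one_div, inv_pow]
      field_simp
    refine (Finset.sum_le_sum e3).trans ?_
    rw [← Finset.mul_sum, Finset.sum_add_distrib, ← Finset.mul_sum, Finset.sum_const,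
      Finset.card_range, nsmul_eq_mul]
    have e5 : ∑ i ∈ range (N + 1), ((1 : ℝ) / 2) ^ i ≤ 2 := by
      have := sum_geometric_two_le (N + 1)
      simpa using this
    have e6 : U * ∑ i ∈ range (N + 1), ((1 : ℝ) / 2) ^ i ≤ 2 * U := by nlinarith
    refine mul_le_mul_of_nonneg_left ?_ hP
    push_cast
    linarith
  have e7 : (((J ×ˢ J) ×ˢ (J ×ˢ J)).card : ℝ) * (U / 2 ^ N) ≤ P * U := by
    have : (((J ×ˢ J) ×ˢ (J ×ˢ J)).card : ℝ) = (J.card : ℝ) ^ 4 := by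
      rw [Finset.card_product, Finset.card_product]
      push_cast
      ring
    rw [this]
    nlinarith
  have e8 : 0 ≤ P * U := by positivity
  have e9 : 0 ≤ P * Q := by positivity
  nlinarith [mul_le_mul_of_nonneg_right hN2 e9, mul_nonneg e8 hL]

private lemma blk_ee_add (s t : ℝ) : ee (s + t) = ee s * ee t := by
  unfold ee
  rw [← Complex.exp_add]
  congr 1
  push_cast
  ring

private lemma blk_ee_conj (s : ℝ) : (starRingEnd ℂ) (ee s) = ee (-s) := by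
  unfold ee
  rw [← Complex.exp_conj]
  congr 1
  rw [map_mul, map_mul, map_mul, Complex.conj_I, Complex.conj_ofReal, Complex.conj_ofReal, map_ofNat]
  push_cast
  ring

private lemma blk_four (J : Finset ℕ) (z : ℕ → ℂ) :
    ((‖∑ k ∈ J, z k‖ ^ 4 : ℝ) : ℂ) = ∑ p ∈ (J ×ˢ J) ×ˢ (J ×ˢ J),
      (z p.1.1 * z p.1.2) * ((starRingEnd ℂ) (z p.2.1) * (starRingEnd ℂ) (z p.2.2)) := by
  have h1 : ∑ p ∈ (J ×ˢ J) ×ˢ (J ×ˢ J),
      (z p.1.1 * z p.1.2) * ((starRingEnd ℂ) (z p.2.1) * (starRingEnd ℂ) (z p.2.2)) =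
      ((∑ k ∈ J, z k) * (∑ k ∈ J, z k)) *
        ((starRingEnd ℂ) (∑ k ∈ J, z k) * (starRingEnd ℂ) (∑ k ∈ J, z k)) := by
    rw [map_sum, Finset.sum_mul_sum, Finset.sum_mul_sum, ← Finset.sum_product',
      ← Finset.sum_product', Finset.sum_mul_sum, ← Finset.sum_product']
  rw [h1]
  set s := ∑ k ∈ J, z k
  have h2 : s * (starRingEnd ℂ) s = ((‖s‖ : ℝ) : ℂ) ^ 2 := Complex.mul_conj' s
  push_cast
  calc ((‖s‖ : ℝ) : ℂ) ^ 4 = (((‖s‖ : ℝ) : ℂ) ^ 2) ^ 2 := by ring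
    _ = s * s * ((starRingEnd ℂ) s * (starRingEnd ℂ) s) := by rw [← h2]; ring

theorem blk : ∃ C : ℝ, 0 < C ∧ ∀ (J : Finset ℕ) (w : ℕ → ℝ) (W W' : ℕ → ℝ → ℂ) (U B P Q : ℝ),
    0 < U → 0 ≤ B → 0 ≤ P → 0 ≤ Q → (∀ δ : ℝ, 0 ≤ δ → cn J w δ ≤ P * (1 + δ * Q)) →
    (∀ k ∈ J, ∀ u ∈ Set.Icc U (4 * U), HasDerivAt (W k) (W' k u) u) →
    (∀ k ∈ J, ContinuousOn (W' k) (Set.Icc U (4 * U))) →
    (∀ k ∈ J, ∀ u ∈ Set.Icc U (4 * U), ‖W k u‖ ≤ B) →
    (∀ k ∈ J, ∀ u ∈ Set.Icc U (4 * U), ‖W' k u‖ ≤ B / U) →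
    ∫ u in U..(4 * U), ‖∑ k ∈ J, W k u * ee (u * w k)‖ ^ 4 ≤
      C * (B ^ 4 * (P * (U + Q)) * (1 + Real.log (1 + J.card))) := by
  refine ⟨36, by norm_num, ?_⟩
  intro J w W W' U B P Q hU hB hP hQ hcn hd hc hW hW'
  -- the amplitude of a quadruple and its derivative
  let G : (ℕ × ℕ) × (ℕ × ℕ) → ℝ → ℂ := fun p u =>
    (W p.1.1 u * W p.1.2 u) * ((starRingEnd ℂ) (W p.2.1 u) * (starRingEnd ℂ) (W p.2.2 u))
  let G' : (ℕ × ℕ) × (ℕ × ℕ) → ℝ → ℂ := fun p u =>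
    (W' p.1.1 u * W p.1.2 u + W p.1.1 u * W' p.1.2 u) *
      ((starRingEnd ℂ) (W p.2.1 u) * (starRingEnd ℂ) (W p.2.2 u)) +
    (W p.1.1 u * W p.1.2 u) *
      ((starRingEnd ℂ) (W' p.2.1 u) * (starRingEnd ℂ) (W p.2.2 u) +
        (starRingEnd ℂ) (W p.2.1 u) * (starRingEnd ℂ) (W' p.2.2 u))
  have hconj : ∀ (f : ℝ → ℂ) (f' : ℂ) (u : ℝ), HasDerivAt f f' u →
      HasDerivAt (fun t => (starRingEnd ℂ) (f t)) ((starRingEnd ℂ) f') u := by
    intro f f' u h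
    exact h.star
  have hmem : ∀ p ∈ (J ×ˢ J) ×ˢ (J ×ˢ J), p.1.1 ∈ J ∧ p.1.2 ∈ J ∧ p.2.1 ∈ J ∧ p.2.2 ∈ J := by
    intro p hp
    rw [Finset.mem_product, Finset.mem_product, Finset.mem_product] at hp
    exact ⟨hp.1.1, hp.1.2, hp.2.1, hp.2.2⟩
  have hG : ∀ p ∈ (J ×ˢ J) ×ˢ (J ×ˢ J), ∀ u ∈ Set.Icc U (4 * U),
      HasDerivAt (G p) (G' p u) u := by
    intro p hp u hu
    obtain ⟨ha, hb, hc', hd'⟩ := hmem p hp
    exact ((hd _ ha u hu).mul (hd _ hb u hu)).mul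
      ((hconj _ _ u (hd _ hc' u hu)).mul (hconj _ _ u (hd _ hd' u hu)))
  have hWc : ∀ k ∈ J, ContinuousOn (W k) (Set.Icc U (4 * U)) := fun k hk u hu =>
    (hd k hk u hu).continuousAt.continuousWithinAt
  have hcc : ∀ f : ℝ → ℂ, ContinuousOn f (Set.Icc U (4 * U)) →
      ContinuousOn (fun t => (starRingEnd ℂ) (f t)) (Set.Icc U (4 * U)) := fun f hf =>
    Complex.continuous_conj.comp_continuousOn hf
  have hG'c : ∀ p ∈ (J ×ˢ J) ×ˢ (J ×ˢ J), ContinuousOn (G' p) (Set.Icc U (4 * U)) := by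
    intro p hp
    obtain ⟨ha, hb, hc', hd'⟩ := hmem p hp
    exact ((((hc _ ha).mul (hWc _ hb)).add ((hWc _ ha).mul (hc _ hb))).mul
      ((hcc _ (hWc _ hc')).mul (hcc _ (hWc _ hd')))).add
      (((hWc _ ha).mul (hWc _ hb)).mul
        (((hcc _ (hc _ hc')).mul (hcc _ (hWc _ hd'))).add
          ((hcc _ (hWc _ hc')).mul (hcc _ (hc _ hd')))))
  have hGB : ∀ p ∈ (J ×ˢ J) ×ˢ (J ×ˢ J), ∀ u ∈ Set.Icc U (4 * U), ‖G p u‖ ≤ B ^ 4 := by
    intro p hp u hu
    obtain ⟨ha, hb, hc', hd'⟩ := hmem p hp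
    show ‖(W p.1.1 u * W p.1.2 u) * ((starRingEnd ℂ) (W p.2.1 u) * (starRingEnd ℂ) (W p.2.2 u))‖ ≤ _
    rw [norm_mul, norm_mul, norm_mul, RCLike.norm_conj, RCLike.norm_conj]
    calc ‖W p.1.1 u‖ * ‖W p.1.2 u‖ * (‖W p.2.1 u‖ * ‖W p.2.2 u‖)
        ≤ B * B * (B * B) := by
          gcongr
          exacts [hW _ ha u hu, hW _ hb u hu, hW _ hc' u hu, hW _ hd' u hu]
      _ = B ^ 4 := by ring
  have hGB' : ∀ p ∈ (J ×ˢ J) ×ˢ (J ×ˢ J), ∀ u ∈ Set.Icc U (4 * U),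
      ‖G' p u‖ ≤ 4 * B ^ 4 / U := by
    intro p hp u hu
    obtain ⟨ha, hb, hc', hd'⟩ := hmem p hp
    have a1 := hW _ ha u hu
    have a2 := hW _ hb u hu
    have a3 := hW _ hc' u hu
    have a4 := hW _ hd' u hu
    have b1 := hW' _ ha u hu
    have b2 := hW' _ hb u hu
    have b3 := hW' _ hc' u hu
    have b4 := hW' _ hd' u hu
    have hBU : 0 ≤ B / U := by positivity
    show ‖(W' p.1.1 u * W p.1.2 u + W p.1.1 u * W' p.1.2 u) *
      ((starRingEnd ℂ) (W p.2.1 u) * (starRingEnd ℂ) (W p.2.2 u)) +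
    (W p.1.1 u * W p.1.2 u) *
      ((starRingEnd ℂ) (W' p.2.1 u) * (starRingEnd ℂ) (W p.2.2 u) +
        (starRingEnd ℂ) (W p.2.1 u) * (starRingEnd ℂ) (W' p.2.2 u))‖ ≤ _
    calc _ ≤ (‖W' p.1.1 u‖ * ‖W p.1.2 u‖ + ‖W p.1.1 u‖ * ‖W' p.1.2 u‖) *
          (‖W p.2.1 u‖ * ‖W p.2.2 u‖) + (‖W p.1.1 u‖ * ‖W p.1.2 u‖) *
          (‖W' p.2.1 u‖ * ‖W p.2.2 u‖ + ‖W p.2.1 u‖ * ‖W' p.2.2 u‖) := by
          refine (norm_add_le _ _).trans (add_le_add ?_ ?_)
          · rw [norm_mul, norm_mul, RCLike.norm_conj, RCLike.norm_conj]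
            refine mul_le_mul_of_nonneg_right ?_ (by positivity)
            refine (norm_add_le _ _).trans (le_of_eq ?_)
            rw [norm_mul, norm_mul]
          · rw [norm_mul, norm_mul]
            refine mul_le_mul_of_nonneg_left ?_ (by positivity)
            refine (norm_add_le _ _).trans (le_of_eq ?_)
            rw [norm_mul, norm_mul, RCLike.norm_conj, RCLike.norm_conj, RCLike.norm_conj,
              RCLike.norm_conj]
      _ ≤ (B / U * B + B * (B / U)) * (B * B) + (B * B) * (B / U * B + B * (B / U)) := by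
          gcongr
      _ = 4 * B ^ 4 / U := by ring
  -- the expansion
  have hle : U ≤ 4 * U := by linarith
  have hexp : ∀ u : ℝ, ((‖∑ k ∈ J, W k u * ee (u * w k)‖ ^ 4 : ℝ) : ℂ) =
      ∑ p ∈ (J ×ˢ J) ×ˢ (J ×ˢ J), G p u * ee (u * blk_x w p) := by
    intro u
    rw [blk_four]
    refine Finset.sum_congr rfl fun p _ => ?_
    have : u * blk_x w p = (u * w p.1.1 + u * w p.1.2) + (-(u * w p.2.1) + -(u * w p.2.2)) := by
      unfold blk_x
      ring
    rw [this, blk_ee_add, blk_ee_add, blk_ee_add, map_mul, map_mul, blk_ee_conj, blk_ee_conj]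
    show _ = (W p.1.1 u * W p.1.2 u) * ((starRingEnd ℂ) (W p.2.1 u) *
      (starRingEnd ℂ) (W p.2.2 u)) * _
    ring
  have hee : ∀ x : ℝ, Continuous fun u : ℝ => ee (u * x) := by
    intro x
    unfold ee
    fun_prop
  have hint : ∀ p ∈ (J ×ˢ J) ×ˢ (J ×ˢ J), IntervalIntegrable
      (fun u => G p u * ee (u * blk_x w p)) volume U (4 * U) := by
    intro p hp
    apply ContinuousOn.intervalIntegrable
    rw [Set.uIcc_of_le hle]
    have hGc : ContinuousOn (G p) (Set.Icc U (4 * U)) := fun u hu =>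
      (hG p hp u hu).continuousAt.continuousWithinAt
    exact hGc.mul (hee _).continuousOn
  have hcx : ((∫ u in U..(4 * U), ‖∑ k ∈ J, W k u * ee (u * w k)‖ ^ 4 : ℝ) : ℂ) =
      ∑ p ∈ (J ×ˢ J) ×ˢ (J ×ˢ J), ∫ u in U..(4 * U), G p u * ee (u * blk_x w p) := by
    rw [← intervalIntegral.integral_ofReal, ← intervalIntegral.integral_finsetSum hint]
    exact intervalIntegral.integral_congr fun u _ => hexp u
  have hnn : 0 ≤ ∫ u in U..(4 * U), ‖∑ k ∈ J, W k u * ee (u * w k)‖ ^ 4 :=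
    intervalIntegral.integral_nonneg hle fun u _ => by positivity
  have hfin : ∫ u in U..(4 * U), ‖∑ k ∈ J, W k u * ee (u * w k)‖ ^ 4 ≤
      ∑ p ∈ (J ×ˢ J) ×ˢ (J ×ˢ J), ‖∫ u in U..(4 * U), G p u * ee (u * blk_x w p)‖ := by
    rw [← Real.norm_of_nonneg hnn, ← Complex.norm_real, hcx]
    exact norm_sum_le _ _
  refine hfin.trans ?_
  have h4 : 0 ≤ B ^ 4 := by positivity
  have hsum := blk_sum J w hU hP hQ (by positivity : 0 ≤ 3 * B ^ 4) hcn
    (fun p => ‖∫ u in U..(4 * U), G p u * ee (u * blk_x w p)‖)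
    (fun p hp => (ibp (G p) (G' p) U (B ^ 4) (blk_x w p) hU h4 (hG p hp) (hG'c p hp)
      (hGB p hp) (hGB' p hp)).1)
    (fun p hp => (ibp (G p) (G' p) U (B ^ 4) (blk_x w p) hU h4 (hG p hp) (hG'c p hp)
      (hGB p hp) (hGB' p hp)).2)
  refine hsum.trans (le_of_eq ?_)
  ring

private lemma blks_split (f : ℕ → ℂ) (J : ℕ) :
    ∑ k ∈ Ico 1 (2 ^ J), f k = ∑ j ∈ range J, ∑ k ∈ Ico (2 ^ j) (2 ^ (j + 1)), f k := by
  induction J with
  | zero => simp
  | succ n ih =>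
    rw [Finset.sum_range_succ, ← ih]
    exact (Finset.sum_Ico_consecutive f Nat.one_le_two_pow
      (Nat.pow_le_pow_right (by norm_num) (Nat.le_succ n))).symm

theorem blks : ∃ C : ℝ, 0 < C ∧ ∀ (w : ℕ → ℝ) (W W' : ℕ → ℝ → ℂ) (U : ℝ) (J : ℕ) (B P Q : ℕ → ℝ),
    0 < U → (∀ j < J, 0 ≤ B j ∧ 0 ≤ P j ∧ 0 ≤ Q j) →
    (∀ j < J, ∀ δ : ℝ, 0 ≤ δ → cn (Ico (2 ^ j) (2 ^ (j + 1))) w δ ≤ P j * (1 + δ * Q j)) →
    (∀ k : ℕ, 1 ≤ k → ∀ u ∈ Set.Icc U (4 * U), HasDerivAt (W k) (W' k u) u) →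
    (∀ k : ℕ, 1 ≤ k → ContinuousOn (W' k) (Set.Icc U (4 * U))) →
    (∀ j < J, ∀ k ∈ Ico (2 ^ j) (2 ^ (j + 1)), ∀ u ∈ Set.Icc U (4 * U), ‖W k u‖ ≤ B j ∧ ‖W' k u‖ ≤ B j / U) →
    ∫ u in U..(4 * U), ‖∑ k ∈ Ico 1 (2 ^ J), W k u * ee (u * w k)‖ ^ 4 ≤
      C * ((1 + J) ^ 4 * ∑ j ∈ range J, B j ^ 4 * (P j * (U + Q j))) := by
  obtain ⟨C, hC, hblk⟩ := blk
  refine ⟨C, hC, fun w W W' U J B P Q hU h0 hcn hd hc hb => ?_⟩
  have hle : U ≤ 4 * U := by linarith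
  have hone : ∀ j k : ℕ, k ∈ Ico (2 ^ j) (2 ^ (j + 1)) → 1 ≤ k := fun j k hk =>
    le_trans Nat.one_le_two_pow (Finset.mem_Ico.1 hk).1
  have hce : ∀ k : ℕ, Continuous fun u : ℝ => ee (u * w k) := by
    intro k
    unfold ee
    fun_prop
  have hcW : ∀ k : ℕ, 1 ≤ k → ContinuousOn (W k) (Set.Icc U (4 * U)) := fun k hk u hu =>
    (hd k hk u hu).continuousAt.continuousWithinAt
  have hint : ∀ s : Finset ℕ, (∀ k ∈ s, 1 ≤ k) → IntervalIntegrable
      (fun u => ‖∑ k ∈ s, W k u * ee (u * w k)‖ ^ 4) volume U (4 * U) := by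
    intro s hs
    apply ContinuousOn.intervalIntegrable
    rw [Set.uIcc_of_le hle]
    exact (continuousOn_finsetSum _ fun k hk => (hcW k (hs k hk)).mul (hce k).continuousOn).norm.pow 4
  have h1 : ∫ u in U..(4 * U), ‖∑ k ∈ Ico 1 (2 ^ J), W k u * ee (u * w k)‖ ^ 4 ≤
      ∫ u in U..(4 * U), (J : ℝ) ^ 3 * ∑ j ∈ range J,
        ‖∑ k ∈ Ico (2 ^ j) (2 ^ (j + 1)), W k u * ee (u * w k)‖ ^ 4 := by
    refine intervalIntegral.integral_mono_on hle (hint _ fun k hk => (Finset.mem_Ico.1 hk).1) ?_ ?_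
    · refine IntervalIntegrable.const_mul ?_ _
      have := IntervalIntegrable.sum (μ := volume) (a := U) (b := 4 * U) (range J)
        (f := fun j u => ‖∑ k ∈ Ico (2 ^ j) (2 ^ (j + 1)), W k u * ee (u * w k)‖ ^ 4)
        (fun j _ => hint _ (hone j))
      refine this.congr ?_
      intro u _
      simp
    · intro u _
      rw [blks_split]
      have := norm_sum_pow4 (range J) (fun j => ∑ k ∈ Ico (2 ^ j) (2 ^ (j + 1)), W k u * ee (u * w k))
      rwa [Finset.card_range] at this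
  refine h1.trans ?_
  rw [intervalIntegral.integral_const_mul, intervalIntegral.integral_finsetSum (fun j _ => hint _ (hone j))]
  have h2 : ∀ j ∈ range J, ∫ u in U..(4 * U), ‖∑ k ∈ Ico (2 ^ j) (2 ^ (j + 1)), W k u * ee (u * w k)‖ ^ 4 ≤
      C * (1 + J) * (B j ^ 4 * (P j * (U + Q j))) := by
    intro j hj
    have hj' := Finset.mem_range.1 hj
    obtain ⟨b0, p0, q0⟩ := h0 j hj'
    have h3 := hblk (Ico (2 ^ j) (2 ^ (j + 1))) w W W' U (B j) (P j) (Q j) hU b0 p0 q0 (hcn j hj')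
      (fun k hk => hd k (hone j k hk)) (fun k hk => hc k (hone j k hk))
      (fun k hk u hu => (hb j hj' k hk u hu).1) (fun k hk u hu => (hb j hj' k hk u hu).2)
    have h4 : (1 : ℝ) + Real.log (1 + ((Ico (2 ^ j) (2 ^ (j + 1)) : Finset ℕ).card : ℝ)) ≤ 1 + J := by
      have e1 : ((Ico (2 ^ j) (2 ^ (j + 1)) : Finset ℕ).card : ℝ) = 2 ^ j := by
        rw [Nat.card_Ico, pow_succ, show 2 ^ j * 2 - 2 ^ j = 2 ^ j by omega]
        push_cast
        ring
      rw [e1]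
      have h5 : Real.log (1 + 2 ^ j) ≤ Real.log (2 ^ (j + 1)) := by
        apply Real.log_le_log (by positivity)
        have : (1 : ℝ) ≤ 2 ^ j := one_le_pow₀ (by norm_num)
        rw [pow_succ]
        linarith
      rw [Real.log_pow] at h5
      have h6 : Real.log 2 ≤ 1 := by
        have := Real.log_two_lt_d9
        linarith
      have h7 : ((j + 1 : ℕ) : ℝ) ≤ J := by exact_mod_cast hj'
      have h8 : ((j + 1 : ℕ) : ℝ) * Real.log 2 ≤ ((j + 1 : ℕ) : ℝ) * 1 :=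
        mul_le_mul_of_nonneg_left h6 (by positivity)
      linarith
    refine h3.trans ?_
    have h9 : 0 ≤ B j ^ 4 * (P j * (U + Q j)) := by positivity
    calc C * (B j ^ 4 * (P j * (U + Q j)) * (1 + Real.log (1 + ((Ico (2 ^ j) (2 ^ (j + 1)) : Finset ℕ).card : ℝ))))
        ≤ C * (B j ^ 4 * (P j * (U + Q j)) * (1 + J)) := by gcongr
      _ = _ := by ring
  have h3 := Finset.sum_le_sum h2
  rw [← Finset.mul_sum] at h3
  have h4 : 0 ≤ ∑ j ∈ range J, B j ^ 4 * (P j * (U + Q j)) := by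
    refine Finset.sum_nonneg fun j hj => ?_
    obtain ⟨b0, p0, q0⟩ := h0 j (Finset.mem_range.1 hj)
    positivity
  have hJ : (0 : ℝ) ≤ J := by positivity
  calc (J : ℝ) ^ 3 * ∑ j ∈ range J, ∫ u in U..(4 * U), ‖∑ k ∈ Ico (2 ^ j) (2 ^ (j + 1)), W k u * ee (u * w k)‖ ^ 4
      ≤ (J : ℝ) ^ 3 * (C * (1 + J) * ∑ j ∈ range J, B j ^ 4 * (P j * (U + Q j))) := by gcongr
    _ ≤ (1 + J : ℝ) ^ 3 * (C * (1 + J) * ∑ j ∈ range J, B j ^ 4 * (P j * (U + Q j))) := by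
        gcongr
        linarith
    _ = _ := by ring

end Pool.Agent.Helper31.FM
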