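import Pool.Agent.Helper31.FM.Cn

/-!
# FM-FEJ: lower bound of a fourth moment by the counting function

With the Fejér weight: `∫_{-T}^{T} (1 - |u|/T) e(u x) du = T (sin (π T x)/(π T x))² ≥ 0`, and `≥ T (2/π)² ≥ T/4` for
`|x| ≤ 1/(2T)` (`sin y ≥ 2y/π` on `[0, π/2]`); for `x = 0` it is `T`.
For the finite sums `S_N(u) = ∑_{k<N} c_k e(-u w_k)`: `∫ (1-|u|/T) ‖S_N‖⁴ = ∑_{a,b,c,d<N} c_a c_b c_c c_d · (kernel at w_a+w_b-w_c-w_d)`
`≥ c0⁴ (T/4) cn J w (1/(2T))` as soon as `J ⊆ range N`.  `S_N → S` uniformly (`c` summable), so the inequality passes to `S`;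
`‖S(-u)‖ = ‖S(u)‖` (complex conjugation) and `1 - |u|/T ≤ 1` give `C = 8`.
-/

set_option autoImplicit false

namespace Pool.Agent.Helper31.FM

open Complex Real Finset MeasureTheory
open Pool.Agent.Helper31.FI (ee ze mains)

private lemma fej_add (s t : ℝ) : ee (s + t) = ee s * ee t := by
  unfold ee
  rw [← Complex.exp_add]
  congr 1
  push_cast
  ring

private lemma fej_conj (s : ℝ) : (starRingEnd ℂ) (ee s) = ee (-s) := by
  unfold ee
  rw [← Complex.exp_conj]
  congr 1
  rw [map_mul, map_mul, map_mul, Complex.conj_I, Complex.conj_ofReal, Complex.conj_ofReal, map_ofNat]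
  push_cast
  ring

private lemma fej_nee (t : ℝ) : ‖ee t‖ = 1 := by
  unfold ee
  rw [Complex.norm_exp]
  simp

private lemma fej_re (t : ℝ) : (ee t).re = Real.cos (2 * π * t) := by
  unfold ee
  rw [Complex.exp_re]
  simp

private lemma fej_cont (x : ℝ) : Continuous fun s : ℝ => ee (s * x) := by
  unfold ee
  fun_prop

private lemma fej_K (x T : ℝ) (hT : 0 < T) (hx : |x| ≤ 1 / (2 * T)) :
    T / 2 ≤ ‖∫ s in (0 : ℝ)..T, ee (s * x)‖ := by
  have h1 : (∫ s in (0 : ℝ)..T, ee (s * x)) * ee (-(T / 2 * x)) =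
      ∫ s in (0 : ℝ)..T, ee ((s - T / 2) * x) := by
    rw [← intervalIntegral.integral_mul_const]
    refine intervalIntegral.integral_congr fun s _ => ?_
    show ee (s * x) * ee (-(T / 2 * x)) = ee ((s - T / 2) * x)
    rw [← fej_add]
    congr 1
    ring
  have h2 : ‖∫ s in (0 : ℝ)..T, ee (s * x)‖ = ‖∫ s in (0 : ℝ)..T, ee ((s - T / 2) * x)‖ := by
    rw [← h1, norm_mul, fej_nee, mul_one]
  have hc : Continuous fun s : ℝ => ee ((s - T / 2) * x) :=
    (fej_cont x).comp (continuous_id.sub continuous_const)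
  have h3 : (∫ s in (0 : ℝ)..T, ee ((s - T / 2) * x)).re =
      ∫ s in (0 : ℝ)..T, Real.cos (2 * π * ((s - T / 2) * x)) := by
    have := Complex.reCLM.intervalIntegral_comp_comm (μ := volume) (hc.intervalIntegrable (0 : ℝ) T)
    simp only [Complex.reCLM_apply] at this
    rw [← this]
    refine intervalIntegral.integral_congr fun s _ => ?_
    exact fej_re _
  set c : ℝ := (2 * π * x) ^ 2 / 2 with hcd
  have h4 : ∫ s in (0 : ℝ)..T, (1 - c * (s - T / 2) ^ 2) ≤
      ∫ s in (0 : ℝ)..T, Real.cos (2 * π * ((s - T / 2) * x)) := by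
    refine intervalIntegral.integral_mono_on hT.le ?_ ?_ ?_
    · exact (by fun_prop : Continuous fun s : ℝ => (1 - c * (s - T / 2) ^ 2)).intervalIntegrable _ _
    · exact (by fun_prop : Continuous fun s : ℝ =>
        Real.cos (2 * π * ((s - T / 2) * x))).intervalIntegrable _ _
    · intro s _
      have := Real.one_sub_sq_div_two_le_cos (x := 2 * π * ((s - T / 2) * x))
      refine le_trans (le_of_eq ?_) this
      rw [hcd]
      ring
  have h5 : ∫ s in (0 : ℝ)..T, (1 - c * (s - T / 2) ^ 2) = T - c * T ^ 3 / 12 := by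
    rw [intervalIntegral.integral_sub ((by fun_prop : Continuous fun s : ℝ => (1 : ℝ)).intervalIntegrable _ _)
      ((by fun_prop : Continuous fun s : ℝ => c * (s - T / 2) ^ 2).intervalIntegrable _ _),
      intervalIntegral.integral_const_mul,
      intervalIntegral.integral_comp_sub_right (fun s : ℝ => s ^ 2) (T / 2), integral_pow]
    simp
    ring
  have h6 : c * T ^ 3 / 12 ≤ T / 2 := by
    have h7 : x ^ 2 ≤ (1 / (2 * T)) ^ 2 := by
      rw [← sq_abs x]
      exact pow_le_pow_left₀ (abs_nonneg x) hx 2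
    have h8 : π ^ 2 ≤ 10 := by
      have := Real.pi_lt_d2
      have := Real.pi_pos
      nlinarith
    have h9 : x ^ 2 * T ^ 2 ≤ 1 / 4 := by
      calc x ^ 2 * T ^ 2 ≤ (1 / (2 * T)) ^ 2 * T ^ 2 := by gcongr
        _ = 1 / 4 := by field_simp; norm_num
    have h10 : π ^ 2 * (x ^ 2 * T ^ 2) ≤ 10 * (1 / 4) := by
      have : 0 ≤ x ^ 2 * T ^ 2 := by positivity
      have : 0 ≤ π ^ 2 := by positivity
      gcongr
    have : c * T ^ 3 / 12 = π ^ 2 * (x ^ 2 * T ^ 2) * T / 6 := by
      rw [hcd]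
      ring
    rw [this]
    nlinarith
  rw [h2]
  calc T / 2 ≤ T - c * T ^ 3 / 12 := by linarith
    _ ≤ (∫ s in (0 : ℝ)..T, ee ((s - T / 2) * x)).re := by rw [h3, ← h5]; exact h4
    _ ≤ _ := Complex.re_le_norm _

private lemma fej_four (J : Finset ℕ) (z : ℕ → ℂ) :
    ((‖∑ k ∈ J, z k‖ ^ 4 : ℝ) : ℂ) = ∑ p ∈ (J ×ˢ J) ×ˢ (J ×ˢ J),
      (z p.1.1 * z p.1.2) * ((starRingEnd ℂ) (z p.2.1) * (starRingEnd ℂ) (z p.2.2)) := by
  have h1 : ((‖∑ k ∈ J, z k‖ ^ 4 : ℝ) : ℂ) =
      ((∑ k ∈ J, z k) * (∑ k ∈ J, z k)) *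
        ((starRingEnd ℂ) (∑ k ∈ J, z k) * (starRingEnd ℂ) (∑ k ∈ J, z k)) := by
    have h := Complex.mul_conj (∑ k ∈ J, z k)
    rw [Complex.normSq_eq_norm_sq] at h
    push_cast at h ⊢
    calc ((‖∑ k ∈ J, z k‖ : ℂ)) ^ 4 = (((‖∑ k ∈ J, z k‖ : ℂ)) ^ 2) * (((‖∑ k ∈ J, z k‖ : ℂ)) ^ 2) := by ring
      _ = _ := by rw [← h]; ring
  rw [h1, map_sum, Finset.sum_mul_sum, Finset.sum_mul_sum, ← Finset.sum_product', ← Finset.sum_product',
    Finset.sum_mul_sum, ← Finset.sum_product']

private lemma fej_fin (R J : Finset ℕ) (w c : ℕ → ℝ) (c0 T : ℝ) (hT : 0 < T) (h0 : 0 < c0)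
    (hc : ∀ k, 0 ≤ c k) (hJ : ∀ k ∈ J, c0 ≤ c k) (hR : J ⊆ R) :
    cn J w (1 / (2 * T)) ≤
      8 / (c0 ^ 4 * T) * ∫ u in (0 : ℝ)..T, ‖∑ k ∈ R, (c k : ℂ) * ee (-(u * w k))‖ ^ 4 := by
  classical
  set f : ℝ → ℝ := fun u => ‖∑ k ∈ R, (c k : ℂ) * ee (-(u * w k))‖ ^ 4 with hf
  set X : (ℕ × ℕ) × (ℕ × ℕ) → ℝ := fun p => w p.1.1 + w p.1.2 - (w p.2.1 + w p.2.2) with hX
  set D : (ℕ × ℕ) × (ℕ × ℕ) → ℝ := fun p => (c p.1.1 * c p.1.2) * (c p.2.1 * c p.2.2) with hD
  have hcf : Continuous f := by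
    have : ∀ k, Continuous fun u : ℝ => ee (-(u * w k)) := by
      intro k
      unfold ee
      fun_prop
    rw [hf]
    refine (Continuous.norm (continuous_finsetSum _ fun k _ => continuous_const.mul (this k))).pow 4
  have hfe : ∀ u, ((f u : ℝ) : ℂ) = ∑ p ∈ (R ×ˢ R) ×ˢ (R ×ˢ R), (D p : ℂ) * ee (-(u * X p)) := by
    intro u
    rw [hf]
    simp only
    rw [fej_four]
    refine Finset.sum_congr rfl fun p _ => ?_
    have e1 : -(u * X p) = (-(u * w p.1.1) + -(u * w p.1.2)) + (u * w p.2.1 + u * w p.2.2) := by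
      rw [hX]
      ring
    rw [e1, fej_add, fej_add, fej_add, map_mul, map_mul, fej_conj, fej_conj, Complex.conj_ofReal,
      Complex.conj_ofReal, neg_neg, neg_neg, hD]
    push_cast
    ring
  have heven : ∀ u, f (-u) = f u := by
    intro u
    have : (∑ k ∈ R, (c k : ℂ) * ee (-(-u * w k))) =
        (starRingEnd ℂ) (∑ k ∈ R, (c k : ℂ) * ee (-(u * w k))) := by
      rw [map_sum]
      refine Finset.sum_congr rfl fun k _ => ?_
      rw [map_mul, Complex.conj_ofReal, fej_conj]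
      congr 2
      ring
    rw [hf]
    simp only
    rw [this, Complex.norm_conj]
  have hf0 : ∀ u, 0 ≤ f u := fun u => by rw [hf]; positivity
  set K : ℝ → ℂ := fun x => ∫ s in (0 : ℝ)..T, ee (s * x) with hK
  -- the double integral
  have hdbl : ∀ x : ℝ, (∫ s in (0 : ℝ)..T, ∫ t in (0 : ℝ)..T, ee (-((s - t) * x))) =
      ((‖K x‖ ^ 2 : ℝ) : ℂ) := by
    intro x
    have e1 : ∀ s t : ℝ, ee (-((s - t) * x)) = ee (-(s * x)) * ee (t * x) := by
      intro s t
      rw [← fej_add]
      congr 1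
      ring
    simp only [e1, intervalIntegral.integral_const_mul, intervalIntegral.integral_mul_const]
    have e2 : (∫ s in (0 : ℝ)..T, ee (-(s * x))) = (starRingEnd ℂ) (K x) := by
      have e3 : (∫ s in (0 : ℝ)..T, (starRingEnd ℂ) (ee (s * x))) = (starRingEnd ℂ) (K x) := by
        rw [hK]
        simp only
        rw [intervalIntegral.integral_of_le hT.le, intervalIntegral.integral_of_le hT.le, integral_conj]
      rw [← e3]
      refine intervalIntegral.integral_congr fun s _ => ?_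
      exact (fej_conj _).symm
    rw [e2, mul_comm]
    have h := Complex.mul_conj (K x)
    rw [Complex.normSq_eq_norm_sq] at h
    exact h
  have hsum : (((∫ s in (0 : ℝ)..T, ∫ t in (0 : ℝ)..T, f (s - t)) : ℝ) : ℂ) =
      ∑ p ∈ (R ×ˢ R) ×ˢ (R ×ˢ R), (D p : ℂ) * ((‖K (X p)‖ ^ 2 : ℝ) : ℂ) := by
    have hce : ∀ (x s : ℝ), Continuous fun t : ℝ => ee (-((s - t) * x)) := by
      intro x s
      unfold ee
      fun_prop
    have hi1 : ∀ s : ℝ, (∫ t in (0 : ℝ)..T, ((f (s - t) : ℝ) : ℂ)) =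
        ∑ p ∈ (R ×ˢ R) ×ˢ (R ×ˢ R), (D p : ℂ) * (ee (-(s * X p)) * K (X p)) := by
      intro s
      simp only [hfe]
      rw [intervalIntegral.integral_finsetSum]
      · refine Finset.sum_congr rfl fun p _ => ?_
        rw [intervalIntegral.integral_const_mul]
        congr 1
        have e1 : ∀ t : ℝ, ee (-((s - t) * X p)) = ee (-(s * X p)) * ee (t * X p) := by
          intro t
          rw [← fej_add]
          congr 1
          ring
        simp only [e1]
        rw [intervalIntegral.integral_const_mul]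
      · intro p _
        exact (continuous_const.mul (hce _ _)).intervalIntegrable _ _
    rw [← intervalIntegral.integral_ofReal]
    have hi2 : ∀ s : ℝ, (((∫ t in (0 : ℝ)..T, f (s - t)) : ℝ) : ℂ) =
        ∑ p ∈ (R ×ˢ R) ×ˢ (R ×ˢ R), (D p : ℂ) * (ee (-(s * X p)) * K (X p)) := by
      intro s
      rw [← intervalIntegral.integral_ofReal]
      exact hi1 s
    simp only [hi2]
    rw [intervalIntegral.integral_finsetSum]
    · refine Finset.sum_congr rfl fun p _ => ?_
      rw [intervalIntegral.integral_const_mul, ← hdbl]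
      congr 1
      refine intervalIntegral.integral_congr fun s _ => ?_
      have e1 : ∀ t : ℝ, ee (-((s - t) * X p)) = ee (-(s * X p)) * ee (t * X p) := by
        intro t
        rw [← fej_add]
        congr 1
        ring
      simp only [e1]
      rw [intervalIntegral.integral_const_mul]
    · intro p _
      have : Continuous fun s : ℝ => ee (-(s * X p)) := by
        unfold ee
        fun_prop
      exact (continuous_const.mul (this.mul continuous_const)).intervalIntegrable _ _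
  have hsum' : (∫ s in (0 : ℝ)..T, ∫ t in (0 : ℝ)..T, f (s - t)) =
      ∑ p ∈ (R ×ˢ R) ×ˢ (R ×ˢ R), D p * ‖K (X p)‖ ^ 2 := by
    exact_mod_cast hsum
  -- upper bound
  have hup : (∫ s in (0 : ℝ)..T, ∫ t in (0 : ℝ)..T, f (s - t)) ≤ T * (2 * ∫ u in (0 : ℝ)..T, f u) := by
    have h1 : ∀ s ∈ Set.Icc (0 : ℝ) T, (∫ t in (0 : ℝ)..T, f (s - t)) ≤ 2 * ∫ u in (0 : ℝ)..T, f u := by
      intro s hs
      rw [intervalIntegral.integral_comp_sub_left (fun u => f u) s]
      have h2 : ∫ u in (s - T)..(s - 0), f u ≤ ∫ u in (-T)..T, f u := by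
        refine intervalIntegral.integral_mono_interval (by linarith [hs.1]) (by linarith) (by linarith [hs.2])
          (Filter.Eventually.of_forall hf0) (hcf.intervalIntegrable _ _)
      refine h2.trans (le_of_eq ?_)
      rw [← intervalIntegral.integral_add_adjacent_intervals (b := 0) (hcf.intervalIntegrable _ _)
        (hcf.intervalIntegrable _ _)]
      have h3 : ∫ u in (-T)..0, f u = ∫ u in (0 : ℝ)..T, f u := by
        have := intervalIntegral.integral_comp_neg (a := 0) (b := T) (fun u => f u)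
        simp only [heven, neg_zero] at this
        exact this.symm
      rw [h3]
      ring
    have h4 : (∫ s in (0 : ℝ)..T, ∫ t in (0 : ℝ)..T, f (s - t)) ≤
        ∫ _s in (0 : ℝ)..T, (2 * ∫ u in (0 : ℝ)..T, f u) := by
      refine intervalIntegral.integral_mono_on hT.le ?_ ?_ h1
      · have e : (fun s : ℝ => ∫ t in (0 : ℝ)..T, f (s - t)) =
            fun s : ℝ => (∫ u in (0 : ℝ)..s, f u) - ∫ u in (0 : ℝ)..(s - T), f u := by
          funext s
          rw [intervalIntegral.integral_comp_sub_left (fun u => f u) s, sub_zero,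
            intervalIntegral.integral_interval_sub_left (hcf.intervalIntegrable _ _)
              (hcf.intervalIntegrable _ _)]
        rw [e]
        have hp : Continuous fun s : ℝ => ∫ u in (0 : ℝ)..s, f u :=
          intervalIntegral.continuous_primitive (fun a b => hcf.intervalIntegrable a b) 0
        exact (hp.sub (hp.comp (continuous_id.sub continuous_const))).intervalIntegrable _ _
      · exact continuous_const.intervalIntegrable _ _
    refine h4.trans (le_of_eq ?_)
    rw [intervalIntegral.integral_const, smul_eq_mul, sub_zero]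
  -- lower bound
  have hlow : c0 ^ 4 * (T / 2) ^ 2 * cn J w (1 / (2 * T)) ≤
      ∑ p ∈ (R ×ˢ R) ×ˢ (R ×ˢ R), D p * ‖K (X p)‖ ^ 2 := by
    unfold cn
    rw [mul_comm, ← nsmul_eq_mul, ← Finset.sum_const]
    have hsub : ((J ×ˢ J) ×ˢ (J ×ˢ J)).filter
        (fun p : (ℕ × ℕ) × (ℕ × ℕ) => |w p.1.1 + w p.1.2 - (w p.2.1 + w p.2.2)| ≤ 1 / (2 * T)) ⊆
        (R ×ˢ R) ×ˢ (R ×ˢ R) :=
      (Finset.filter_subset _ _).trans (Finset.product_subset_product
        (Finset.product_subset_product hR hR) (Finset.product_subset_product hR hR))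
    refine le_trans ?_ (Finset.sum_le_sum_of_subset_of_nonneg hsub ?_)
    · refine Finset.sum_le_sum fun p hp => ?_
      rw [Finset.mem_filter, Finset.mem_product, Finset.mem_product, Finset.mem_product] at hp
      obtain ⟨⟨⟨p1, p2⟩, ⟨p3, p4⟩⟩, hx⟩ := hp
      have hk := fej_K (X p) T hT hx
      have d1 : c0 ^ 4 ≤ D p := by
        have a1 := hJ _ p1
        have a2 := hJ _ p2
        have a3 := hJ _ p3
        have a4 := hJ _ p4
        have q1 := hc p.1.1
        have q2 := hc p.1.2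
        have q3 := hc p.2.1
        have q4 := hc p.2.2
        calc c0 ^ 4 = (c0 * c0) * (c0 * c0) := by ring
          _ ≤ (c p.1.1 * c p.1.2) * (c p.2.1 * c p.2.2) := by gcongr
      have d2 : (T / 2) ^ 2 ≤ ‖K (X p)‖ ^ 2 := by
        exact pow_le_pow_left₀ (by positivity) hk 2
      exact mul_le_mul d1 d2 (by positivity) (le_trans (by positivity) d1)
    · intro p _ _
      have : 0 ≤ D p := by
        rw [hD]
        have a1 := hc p.1.1
        have a2 := hc p.1.2
        have a3 := hc p.2.1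
        have a4 := hc p.2.2
        positivity
      positivity
  rw [hsum'] at hup
  have hfin := hlow.trans hup
  have hden : 0 < c0 ^ 4 * (T / 2) ^ 2 := by positivity
  have h1 : cn J w (1 / (2 * T)) ≤ (T * (2 * ∫ u in (0 : ℝ)..T, f u)) / (c0 ^ 4 * (T / 2) ^ 2) := by
    rw [le_div_iff₀ hden]
    linarith
  refine h1.trans (le_of_eq ?_)
  field_simp
  ring

theorem fej : ∃ C : ℝ, 0 < C ∧ ∀ (J : Finset ℕ) (w c : ℕ → ℝ) (c0 T : ℝ), 0 < T → 0 < c0 →
    (∀ k, 0 ≤ c k) → Summable c → (∀ k ∈ J, c0 ≤ c k) →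
    cn J w (1 / (2 * T)) ≤
      C / (c0 ^ 4 * T) * ∫ u in (0 : ℝ)..T, ‖∑' k : ℕ, (c k : ℂ) * ee (-(u * w k))‖ ^ 4 := by
  refine ⟨8, by norm_num, fun J w c c0 T hT h0 hc hs hJ => ?_⟩
  have hce : ∀ k, Continuous fun u : ℝ => ee (-(u * w k)) := by
    intro k
    unfold ee
    fun_prop
  have hsm : ∀ u : ℝ, Summable fun k : ℕ => (c k : ℂ) * ee (-(u * w k)) := by
    intro u
    refine Summable.of_norm_bounded hs fun k => ?_
    rw [norm_mul, fej_nee, mul_one, Complex.norm_real, Real.norm_of_nonneg (hc k)]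
  have hlim : Filter.Tendsto (fun N : ℕ => ∫ u in (0 : ℝ)..T,
      ‖∑ k ∈ range N, (c k : ℂ) * ee (-(u * w k))‖ ^ 4) Filter.atTop
      (nhds (∫ u in (0 : ℝ)..T, ‖∑' k : ℕ, (c k : ℂ) * ee (-(u * w k))‖ ^ 4)) := by
    refine intervalIntegral.tendsto_integral_filter_of_dominated_convergence
      (fun _ => (∑' k, c k) ^ 4) ?_ ?_ ?_ ?_
    · refine Filter.Eventually.of_forall fun N => ?_
      exact ((continuous_finsetSum _ fun k _ => continuous_const.mul (hce k)).norm.pow 4).aestronglyMeasurable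
    · refine Filter.Eventually.of_forall fun N => Filter.Eventually.of_forall fun u _ => ?_
      rw [norm_pow, norm_norm]
      refine pow_le_pow_left₀ (norm_nonneg _) ?_ 4
      refine (norm_sum_le _ _).trans ?_
      refine le_trans (Finset.sum_le_sum fun k _ => ?_) (hs.sum_le_tsum (range N) fun k _ => hc k)
      rw [norm_mul, fej_nee, mul_one, Complex.norm_real, Real.norm_of_nonneg (hc k)]
    · exact continuous_const.intervalIntegrable _ _
    · refine Filter.Eventually.of_forall fun u _ => ?_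
      exact ((hsm u).hasSum.tendsto_sum_nat.norm).pow 4
  refine ge_of_tendsto (hlim.const_mul (8 / (c0 ^ 4 * T))) ?_
  obtain ⟨N0, hN0⟩ : ∃ N0, J ⊆ range N0 := by
    obtain ⟨N, hN⟩ := J.exists_nat_subset_range
    exact ⟨N, hN⟩
  filter_upwards [Filter.eventually_ge_atTop N0] with N hN
  exact fej_fin (range N) J w c c0 T hT h0 hc hJ (hN0.trans (Finset.range_mono hN))

end Pool.Agent.Helper31.FM
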