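import Pool.Agent.Helper31.FM.Poi1

/-!
# FM-PO2: Poisson summation for `∑ (ν+i)^(-3/2) exp (-z/(ν+i)) e(iθ)`

`f x = gz z x * ee (θ (x - ν))` is continuous, `O(|x|^(-3/2))`; its Fourier transform at `k` is
`ee (-(θ ν)) * √(π/z) Lz z (k - θ)` by `four_int`.  Decay: `‖Lz z ξ‖ = exp (-2 Re (2 π i ξ z)^(1/2)) ≤ exp (-2 κ √|ξ|)` with
`κ = κ(z) > 0` (`Re (i r z)^(1/2) = √r Re (i z)^(1/2)` for `r > 0`, similarly for `-i`).
`Real.tsum_eq_tsum_fourierIntegral_of_rpow_decay` (or its current name) at `x = ν` with exponent `3/2`; `f (ν + i) = 0` for `i < 0`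
(as `ν ≤ 1`), and `ee (-(θ ν)) * ee (k ν) = ee ((k - θ) ν)`.
-/

set_option autoImplicit false

namespace Pool.Agent.Helper31.FM

open Complex Real Finset MeasureTheory
open Pool.Agent.Helper31.FI (ee ze mains)

theorem Lz_zero (z : ℂ) : Lz z 0 = 1 := by
  unfold Lz
  simp

/-- the decay of `Lz` -/
private theorem poi_sum_decay (z : ℂ) (hz : 0 < z.re) : ∃ κ : ℝ, 0 < κ ∧ ∀ ξ : ℝ,
    ‖Lz z ξ‖ ≤ Real.exp (-(κ * √|ξ|)) := by
  have hre : ∀ w : ℂ, w.im ≠ 0 → 0 < (w ^ (1 / 2 : ℂ)).re := by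
    intro w hw
    have hw0 : w ≠ 0 := by
      rintro rfl
      simp at hw
    have harg : |w.arg| < π := by
      rcases lt_or_eq_of_le (Complex.abs_arg_le_pi w) with h | h
      · exact h
      · exfalso
        have h1 : w.arg = π := by
          rcases abs_eq Real.pi_pos.le |>.1 h with h2 | h2
          · exact h2
          · exact absurd h2 (Complex.neg_pi_lt_arg w).ne'
        rw [Complex.arg_eq_pi_iff] at h1
        exact hw h1.2
    have h2 : (w ^ (1 / 2 : ℂ)).re = ‖w‖ ^ (1 / 2 : ℝ) * Real.cos (w.arg / 2) := by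
      have h3 := Complex.cpow_ofReal_re w (1 / 2)
      push_cast at h3
      rw [h3]
      congr 2
      ring
    rw [h2]
    have h4 := abs_lt.1 harg
    refine mul_pos (Real.rpow_pos_of_pos (norm_pos_iff.2 hw0) _) (Real.cos_pos_of_mem_Ioo ⟨?_, ?_⟩)
    · linarith [h4.1]
    · linarith [h4.2]
  have ha := hre (I * z) (by simp; exact hz.ne')
  have hb := hre (-I * z) (by simp; exact hz.ne')
  have h2π : (0 : ℝ) < √(2 * π) := Real.sqrt_pos.2 (by positivity)
  refine ⟨2 * √(2 * π) * min ((I * z) ^ (1 / 2 : ℂ)).re ((-I * z) ^ (1 / 2 : ℂ)).re,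
    mul_pos (by positivity) (lt_min ha hb), fun ξ => ?_⟩
  have hfac : ∀ (r : ℝ) (w : ℂ), 0 ≤ r →
      (((2 * π * r : ℝ) : ℂ) * w) ^ (1 / 2 : ℂ) = ((√(2 * π) * √r : ℝ) : ℂ) * w ^ (1 / 2 : ℂ) := by
    intro r w hr
    rcases eq_or_ne w 0 with hw | hw
    · rw [hw, mul_zero, Complex.zero_cpow (by norm_num), mul_zero]
    rcases hr.eq_or_lt with h0 | h0
    · rw [← h0]
      simp
    have hpos : 0 < 2 * π * r := by positivity
    have h5 : ((2 * π * r : ℝ) : ℂ) ≠ 0 := by exact_mod_cast hpos.ne'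
    rw [Complex.cpow_def_of_ne_zero (mul_ne_zero h5 hw), Complex.log_ofReal_mul hpos hw, add_mul,
      Complex.exp_add, ← Complex.cpow_def_of_ne_zero hw]
    congr 1
    rw [← Real.sqrt_mul (by positivity), Real.sqrt_eq_rpow, Real.rpow_def_of_pos hpos]
    push_cast
    rfl
  unfold Lz
  rw [Complex.norm_exp, Complex.neg_re]
  refine Real.exp_le_exp.2 (neg_le_neg ?_)
  have key : ∀ w : ℂ, 2 * π * I * ξ * z = ((2 * π * |ξ| : ℝ) : ℂ) * w →
      min ((I * z) ^ (1 / 2 : ℂ)).re ((-I * z) ^ (1 / 2 : ℂ)).re ≤ (w ^ (1 / 2 : ℂ)).re →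
      2 * √(2 * π) * min ((I * z) ^ (1 / 2 : ℂ)).re ((-I * z) ^ (1 / 2 : ℂ)).re * √|ξ| ≤
        (2 * (2 * π * I * ξ * z) ^ (1 / 2 : ℂ)).re := by
    intro w hw hmin
    rw [hw, hfac _ _ (abs_nonneg ξ)]
    have h6 : (2 * (((√(2 * π) * √|ξ| : ℝ) : ℂ) * w ^ (1 / 2 : ℂ)) : ℂ).re =
        2 * (√(2 * π) * √|ξ|) * (w ^ (1 / 2 : ℂ)).re := by
      have h7 : (2 * (((√(2 * π) * √|ξ| : ℝ) : ℂ) * w ^ (1 / 2 : ℂ)) : ℂ) =
          ((2 * (√(2 * π) * √|ξ|) : ℝ) : ℂ) * w ^ (1 / 2 : ℂ) := by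
        push_cast
        ring
      rw [h7, Complex.re_ofReal_mul]
    rw [h6]
    have h8 : 0 ≤ 2 * (√(2 * π) * √|ξ|) := by positivity
    calc 2 * √(2 * π) * min ((I * z) ^ (1 / 2 : ℂ)).re ((-I * z) ^ (1 / 2 : ℂ)).re * √|ξ|
        = 2 * (√(2 * π) * √|ξ|) *
          min ((I * z) ^ (1 / 2 : ℂ)).re ((-I * z) ^ (1 / 2 : ℂ)).re := by ring
      _ ≤ _ := mul_le_mul_of_nonneg_left hmin h8
  rcases le_total 0 ξ with h9 | h9
  · refine key (I * z) ?_ (min_le_left _ _)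
    rw [abs_of_nonneg h9]
    push_cast
    ring
  · refine key (-I * z) ?_ (min_le_right _ _)
    rw [abs_of_nonpos h9]
    push_cast
    ring

theorem poi_sum (z : ℂ) (θ : ℝ) (hz : 0 < z.re) : Summable fun k : ℤ => ‖Lz z ((k : ℝ) - θ)‖ := by
  obtain ⟨κ, hκ, hdec⟩ := poi_sum_decay z hz
  have hO : (fun x : ℝ => ‖Lz z (x - θ)‖) =O[Filter.cocompact ℝ] (|·| ^ (-2 : ℝ)) := by
    refine Asymptotics.IsBigO.of_bound (24 * 4 / κ ^ 4) ?_
    filter_upwards [(tendsto_norm_cocompact_atTop (E := ℝ)).eventually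
      (Filter.eventually_ge_atTop (2 * |θ| + 1))] with x hx
    rw [Real.norm_eq_abs] at hx
    have hθ := abs_nonneg θ
    have hx0 : 0 < |x| := by linarith
    have h1 : |x| / 2 ≤ |x - θ| := by
      have h2 := abs_sub_abs_le_abs_sub x θ
      linarith
    have h3 : 0 < |x - θ| := lt_of_lt_of_le (by positivity) h1
    rw [norm_norm, Real.norm_of_nonneg (by positivity : (0 : ℝ) ≤ |x| ^ (-2 : ℝ))]
    refine (hdec (x - θ)).trans ?_
    have h4 : 0 < κ * √|x - θ| := mul_pos hκ (Real.sqrt_pos.2 h3)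
    have h5 : (κ * √|x - θ|) ^ 4 / 24 ≤ Real.exp (κ * √|x - θ|) := by
      have h6 := Real.pow_div_factorial_le_exp (κ * √|x - θ|) h4.le 4
      have h7 : ((Nat.factorial 4 : ℕ) : ℝ) = 24 := by norm_num [Nat.factorial]
      rwa [h7] at h6
    have h8 : (κ * √|x - θ|) ^ 4 = κ ^ 4 * |x - θ| ^ 2 := by
      have h9 : √|x - θ| ^ 2 = |x - θ| := Real.sq_sqrt h3.le
      calc (κ * √|x - θ|) ^ 4 = κ ^ 4 * (√|x - θ| ^ 2) ^ 2 := by ring
        _ = _ := by rw [h9]
    rw [h8] at h5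
    rw [Real.exp_neg, Real.rpow_neg hx0.le, Real.rpow_ofNat]
    have h10 : κ ^ 4 * (|x| ^ 2 / 4) / 24 ≤ Real.exp (κ * √|x - θ|) := by
      refine le_trans ?_ h5
      have h11 : |x| ^ 2 / 4 ≤ |x - θ| ^ 2 := by
        have h12 : (|x| / 2) ^ 2 ≤ |x - θ| ^ 2 := pow_le_pow_left₀ (by positivity) h1 2
        calc |x| ^ 2 / 4 = (|x| / 2) ^ 2 := by ring
          _ ≤ _ := h12
      gcongr
    calc (Real.exp (κ * √|x - θ|))⁻¹ ≤ (κ ^ 4 * (|x| ^ 2 / 4) / 24)⁻¹ :=
          inv_anti₀ (by positivity) h10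
      _ = 24 * 4 / κ ^ 4 * (|x| ^ 2)⁻¹ := by field_simp
  exact summable_of_isBigO (Real.summable_abs_int_rpow one_lt_two)
    (hO.comp_tendsto Int.tendsto_coe_cofinite)

/-- bound of the kernel near `0` -/
private theorem poi_gz_bound (z : ℂ) (hz : 0 < z.re) (x : ℝ) :
    ‖gz z x‖ ≤ 2 / z.re ^ 2 * √|x| := by
  unfold gz
  split_ifs with h
  · rw [norm_mul, Complex.norm_real, Complex.norm_exp, Real.norm_of_nonneg (by positivity)]
    have h1 : (-(z / (x : ℂ))).re = -(z.re / x) := by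
      rw [Complex.neg_re, Complex.div_ofReal_re]
    rw [h1, abs_of_pos h]
    have h2 : 0 < z.re / x := by positivity
    have h3 : (z.re / x) ^ 2 / 2 ≤ Real.exp (z.re / x) := by
      have h4 := Real.pow_div_factorial_le_exp (z.re / x) h2.le 2
      have h5 : ((Nat.factorial 2 : ℕ) : ℝ) = 2 := by norm_num [Nat.factorial]
      rwa [h5] at h4
    have h6 : Real.exp (-(z.re / x)) ≤ 2 / z.re ^ 2 * x ^ 2 := by
      rw [Real.exp_neg]
      calc (Real.exp (z.re / x))⁻¹ ≤ ((z.re / x) ^ 2 / 2)⁻¹ := inv_anti₀ (by positivity) h3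
        _ = _ := by field_simp
    calc x ^ (-(3 / 2) : ℝ) * Real.exp (-(z.re / x))
        ≤ x ^ (-(3 / 2) : ℝ) * (2 / z.re ^ 2 * x ^ 2) := by gcongr
      _ = 2 / z.re ^ 2 * (x ^ (-(3 / 2) : ℝ) * x ^ (2 : ℝ)) := by
          rw [Real.rpow_ofNat]; ring
      _ = 2 / z.re ^ 2 * √x := by
          rw [← Real.rpow_add h, Real.sqrt_eq_rpow]
          norm_num
  · rw [norm_zero]
    positivity

private theorem poi_gz_cont (z : ℂ) (hz : 0 < z.re) : Continuous (gz z) := by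
  rw [continuous_iff_continuousAt]
  intro x
  rcases lt_trichotomy x 0 with h | h | h
  · have h1 : gz z =ᶠ[nhds x] fun _ => (0 : ℂ) := by
      filter_upwards [gt_mem_nhds h] with y hy
      exact if_neg (not_lt.2 (le_of_lt hy))
    exact (continuousAt_const).congr h1.symm
  · subst h
    have h0 : gz z 0 = 0 := if_neg (lt_irrefl 0)
    rw [ContinuousAt, h0]
    refine squeeze_zero_norm (poi_gz_bound z hz) ?_
    have h2 : Continuous fun x : ℝ => 2 / z.re ^ 2 * √|x| := by fun_prop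
    have h3 := h2.tendsto 0
    simpa using h3
  · have h1 : gz z =ᶠ[nhds x]
        fun y : ℝ => ((y ^ (-(3 / 2) : ℝ) : ℝ) : ℂ) * cexp (-(z / y)) := by
      filter_upwards [lt_mem_nhds h] with y hy
      exact if_pos hy
    refine ContinuousAt.congr ?_ h1.symm
    have h2 : ContinuousAt (fun y : ℝ => y ^ (-(3 / 2) : ℝ)) x :=
      Real.continuousAt_rpow_const x _ (Or.inl h.ne')
    have h3 : ContinuousAt (fun y : ℝ => (y : ℂ)) x := Complex.continuous_ofReal.continuousAt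
    refine (Complex.continuous_ofReal.continuousAt.comp h2).mul ?_
    refine ContinuousAt.cexp (ContinuousAt.neg (ContinuousAt.div continuousAt_const h3 ?_))
    exact_mod_cast h.ne'

private theorem poi_gz_far (z : ℂ) (hz : 0 < z.re) (x : ℝ) :
    ‖gz z x‖ ≤ |x| ^ (-(3 / 2) : ℝ) := by
  unfold gz
  split_ifs with h
  · rw [norm_mul, Complex.norm_real, Complex.norm_exp, Real.norm_of_nonneg (by positivity),
      abs_of_pos h]
    have h1 : (-(z / (x : ℂ))).re = -(z.re / x) := by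
      rw [Complex.neg_re, Complex.div_ofReal_re]
    rw [h1]
    have h2 : Real.exp (-(z.re / x)) ≤ 1 := Real.exp_le_one_iff.2 (by
      have : 0 < z.re / x := by positivity
      linarith)
    have h3 : 0 ≤ x ^ (-(3 / 2) : ℝ) := by positivity
    exact mul_le_of_le_one_right h3 h2
  · rw [norm_zero]
    positivity

private theorem poi_ee_norm (t : ℝ) : ‖ee t‖ = 1 := by
  unfold Pool.Agent.Helper31.FI.ee
  have h : (2 * π * I * t : ℂ) = ((2 * π * t : ℝ) : ℂ) * I := by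
    push_cast
    ring
  rw [h, Complex.norm_exp_ofReal_mul_I]

private theorem poi_ee_add (s t : ℝ) : ee (s + t) = ee s * ee t := by
  unfold Pool.Agent.Helper31.FI.ee
  rw [← Complex.exp_add]
  congr 1
  push_cast
  ring

private theorem poi_ee_cont : Continuous ee := by
  unfold Pool.Agent.Helper31.FI.ee
  fun_prop

theorem poi (z : ℂ) (ν θ : ℝ) (hz : 0 < z.re) (hν : 0 < ν) (hν' : ν ≤ 1) :
    Fs z ν θ = (π / z) ^ (1 / 2 : ℂ) * ∑' k : ℤ, ee (((k : ℝ) - θ) * ν) * Lz z ((k : ℝ) - θ) := by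
  have hcont : Continuous fun x : ℝ => gz z x * ee (θ * (x - ν)) :=
    (poi_gz_cont z hz).mul (poi_ee_cont.comp (by fun_prop))
  have hO : (fun x : ℝ => gz z x * ee (θ * (x - ν))) =O[Filter.cocompact ℝ]
      (|·| ^ (-(3 / 2) : ℝ)) := by
    refine Asymptotics.IsBigO.of_bound 1 (Filter.Eventually.of_forall fun x => ?_)
    rw [norm_mul, poi_ee_norm, mul_one, one_mul, Real.norm_of_nonneg (by positivity)]
    exact poi_gz_far z hz x
  have hF : ∀ ξ : ℝ, FourierTransform.fourier (fun x : ℝ => gz z x * ee (θ * (x - ν))) ξ =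
      ee (-(θ * ν)) * ((π / z) ^ (1 / 2 : ℂ) * Lz z (ξ - θ)) := by
    intro ξ
    rw [← four_int z (ξ - θ) hz, ← integral_const_mul, Real.fourier_real_eq_integral_exp_smul]
    refine integral_congr_ae (Filter.Eventually.of_forall fun x => ?_)
    simp only [smul_eq_mul]
    unfold Pool.Agent.Helper31.FI.ee
    rw [mul_comm (gz z x), ← mul_assoc, ← Complex.exp_add, mul_comm (gz z x) (cexp _), ← mul_assoc,
      ← Complex.exp_add]
    congr 2
    push_cast
    ring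
  have hsum : Summable fun n : ℤ =>
      FourierTransform.fourier (fun x : ℝ => gz z x * ee (θ * (x - ν))) (n : ℝ) := by
    refine Summable.of_norm ?_
    refine ((poi_sum z θ hz).mul_left ‖(π / z) ^ (1 / 2 : ℂ)‖).congr fun n => ?_
    rw [hF, norm_mul, norm_mul, poi_ee_norm, one_mul]
  have hP := Real.tsum_eq_tsum_fourier_of_rpow_decay_of_summable hcont
    (by norm_num : (1 : ℝ) < 3 / 2) hO hsum ν
  have hL : Fs z ν θ = ∑' n : ℤ, gz z (ν + n) * ee (θ * ((ν + n) - ν)) := by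
    have hsupp : (Function.support fun n : ℤ => gz z (ν + n) * ee (θ * ((ν + n) - ν))) ⊆
        Set.range ((↑) : ℕ → ℤ) := by
      intro n hn
      by_contra hneg
      apply hn
      have hn0 : n < 0 := by
        by_contra h
        exact hneg ⟨n.toNat, by simpa using not_lt.1 h⟩
      have h1 : (n : ℝ) ≤ -1 := by
        have h2 : n ≤ -1 := by omega
        exact_mod_cast h2
      have h3 : ¬ 0 < ν + (n : ℝ) := by linarith
      simp only [gz, if_neg h3, zero_mul]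
    have h4 := (Nat.cast_injective (R := ℤ)).tsum_eq hsupp
    rw [← h4]
    unfold Fs
    refine tsum_congr fun i => ?_
    have h5 : 0 < ν + ((i : ℤ) : ℝ) := by
      rw [Int.cast_natCast]
      positivity
    have h6 : θ * (ν + ((i : ℤ) : ℝ) - ν) = i * θ := by
      rw [Int.cast_natCast]
      ring
    rw [gz, if_pos h5, h6, Int.cast_natCast]
  rw [hL, hP, ← tsum_mul_left]
  refine tsum_congr fun k => ?_
  rw [hF, fourier_coe_apply]
  have h7 : cexp (2 * π * I * k * ν / (1 : ℝ)) = ee (k * ν) := by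
    unfold Pool.Agent.Helper31.FI.ee
    congr 1
    push_cast
    ring
  rw [h7]
  have h8 : ee (((k : ℝ) - θ) * ν) = ee (-(θ * ν)) * ee (k * ν) := by
    rw [← poi_ee_add]
    congr 1
    ring
  rw [h8]
  ring

end Pool.Agent.Helper31.FM
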