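import Pool.Agent.Helper31.FM.Di
import Pool.Agent.Helper31.FM.Fej
import Pool.Agent.Helper31.FM.Poi2

/-!
# FM-D2: from reciprocals to square roots

`a = M^(-1/2)`, `ρ = (β-2)/(β-1)`, `R = M^ρ`, `V = M^(3/2)/(2R)`, so `1/(2V) = R/M^(3/2) ≥ M^(-3/2)`; `cn_mono`, `d2_fej`, `d2_sum`:
`(1/V)(M^(7/2) + V + L⁶ V^(β-1) M^(3-β/2)) ≤ C L⁶ M^(2+ρ)`.
-/

set_option autoImplicit false

namespace Pool.Agent.Helper31.FM

open Complex Real Finset MeasureTheory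
open Pool.Agent.Helper31.FI (ee ze mains)

/-- the smoothed sum over square roots -/
noncomputable def Dq (a u : ℝ) : ℂ := ∑' m : ℕ, ((Real.exp (-(a * √(m : ℝ))) : ℝ) : ℂ) * ee (-(u * √(m : ℝ)))

/-- the dual sum of `Dq` -/
noncomputable def Eq2 (a u : ℝ) : ℂ :=
  ∑' i : ℕ, (((1 + i : ℝ) ^ (-(3 / 2) : ℝ) : ℝ) : ℂ) *
    cexp (-((((a * u / 2 : ℝ) : ℂ) - ((a ^ 2 / (8 * π) : ℝ) : ℂ) * I) / ((1 + i : ℝ) : ℂ))) *
      ee (-(u ^ 2 / 4 / (1 + i)))

/-- one step of the telescoping bound -/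
private theorem fm26_step (c : ℝ) (hc : 0 < c) (m : ℕ) :
    Real.exp (-(c * √((m : ℝ) + 1))) ≤
      2 / c ^ 2 * ((1 + c * √(m : ℝ)) * Real.exp (-(c * √(m : ℝ)))) -
        2 / c ^ 2 * ((1 + c * √((m : ℝ) + 1)) * Real.exp (-(c * √((m : ℝ) + 1)))) := by
  set s : ℝ := √(m : ℝ) with hs
  set t : ℝ := √((m : ℝ) + 1) with ht
  have hs0 : 0 ≤ s := Real.sqrt_nonneg _
  have ht0 : 0 ≤ t := Real.sqrt_nonneg _
  have hst : s ≤ t := Real.sqrt_le_sqrt (by linarith)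
  have hs2 : s ^ 2 = m := Real.sq_sqrt (by positivity)
  have ht2 : t ^ 2 = m + 1 := Real.sq_sqrt (by positivity)
  have hts : t ^ 2 - s ^ 2 = 1 := by rw [hs2, ht2]; ring
  have hx : 0 ≤ c * (t - s) := mul_nonneg hc.le (by linarith)
  have hq := Real.quadratic_le_exp_of_nonneg hx
  have he : Real.exp (-(c * s)) = Real.exp (c * (t - s)) * Real.exp (-(c * t)) := by
    rw [← Real.exp_add]; congr 1; ring
  have hpos : 0 < Real.exp (-(c * t)) := Real.exp_pos _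
  have key : c ^ 2 / 2 ≤ (1 + c * s) * Real.exp (c * (t - s)) - (1 + c * t) := by
    have h1 : (1 + c * s) * (1 + c * (t - s) + (c * (t - s)) ^ 2 / 2) ≤
        (1 + c * s) * Real.exp (c * (t - s)) :=
      mul_le_mul_of_nonneg_left hq (by positivity)
    have h2 : (1 + c * s) * (1 + c * (t - s) + (c * (t - s)) ^ 2 / 2) - (1 + c * t) =
        c ^ 2 / 2 * (t ^ 2 - s ^ 2) + c * s * (c * (t - s)) ^ 2 / 2 := by ring
    have h3 : 0 ≤ c * s * (c * (t - s)) ^ 2 / 2 := by positivity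
    rw [hts] at h2
    linarith
  have h4 : 2 / c ^ 2 * ((1 + c * s) * Real.exp (-(c * s))) -
        2 / c ^ 2 * ((1 + c * t) * Real.exp (-(c * t))) =
      2 / c ^ 2 * ((1 + c * s) * Real.exp (c * (t - s)) - (1 + c * t)) * Real.exp (-(c * t)) := by
    rw [he]; ring
  rw [h4]
  have h5 : 1 ≤ 2 / c ^ 2 * ((1 + c * s) * Real.exp (c * (t - s)) - (1 + c * t)) := by
    have : 2 / c ^ 2 * (c ^ 2 / 2) = 1 := by field_simp
    calc (1 : ℝ) = 2 / c ^ 2 * (c ^ 2 / 2) := this.symm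
      _ ≤ _ := mul_le_mul_of_nonneg_left key (by positivity)
  nlinarith

private theorem fm26_partial (c : ℝ) (hc : 0 < c) (n : ℕ) :
    ∑ m ∈ range n, Real.exp (-(c * √((m : ℝ) + 1))) ≤
      2 / c ^ 2 - 2 / c ^ 2 * ((1 + c * √(n : ℝ)) * Real.exp (-(c * √(n : ℝ)))) := by
  induction n with
  | zero => simp
  | succ n ih =>
      rw [sum_range_succ]
      have := fm26_step c hc n
      push_cast
      linarith

private theorem fm26_partial' (c : ℝ) (hc : 0 < c) (n : ℕ) :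
    ∑ m ∈ range n, Real.exp (-(c * √((m : ℝ) + 1))) ≤ 2 / c ^ 2 := by
  have h := fm26_partial c hc n
  have : 0 ≤ 2 / c ^ 2 * ((1 + c * √(n : ℝ)) * Real.exp (-(c * √(n : ℝ)))) := by positivity
  linarith

private theorem fm26_summable1 (c : ℝ) (hc : 0 < c) :
    Summable fun m : ℕ => Real.exp (-(c * √((m : ℝ) + 1))) :=
  summable_of_sum_range_le (fun _ => (Real.exp_pos _).le) (fm26_partial' c hc)

private theorem fm26_tsum1 (c : ℝ) (hc : 0 < c) :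
    ∑' m : ℕ, Real.exp (-(c * √((m : ℝ) + 1))) ≤ 2 / c ^ 2 :=
  Real.tsum_le_of_sum_range_le (fun _ => (Real.exp_pos _).le) (fm26_partial' c hc)

private theorem fm26_summable (c : ℝ) (hc : 0 < c) :
    Summable fun m : ℕ => Real.exp (-(c * √(m : ℝ))) := by
  refine (summable_nat_add_iff 1).mp ?_
  simpa using fm26_summable1 c hc

/-- `fej` with `c m = exp (-a √m)`, `a = M^(-1/2)`, `c0 = exp (-√2)` -/
theorem d2_fej : ∃ C : ℝ, 0 < C ∧ ∀ (M : ℕ) (V : ℝ), 1 ≤ M → 0 < V →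
    cn (Ico M (2 * M)) (fun i => √(i : ℝ)) (1 / (2 * V)) ≤
      C / V * ∫ u in (0 : ℝ)..V, ‖Dq ((M : ℝ) ^ (-(1 / 2) : ℝ)) u‖ ^ 4 := by
  obtain ⟨C, hC, H⟩ := fej
  refine ⟨C / Real.exp (-√2) ^ 4, by positivity, fun M V hM hV => ?_⟩
  have hM' : (0 : ℝ) < M := by exact_mod_cast hM
  set a : ℝ := (M : ℝ) ^ (-(1 / 2) : ℝ) with ha
  have ha0 : 0 < a := Real.rpow_pos_of_pos hM' _
  have haM : a * √(M : ℝ) = 1 := by
    rw [ha, Real.sqrt_eq_rpow, ← Real.rpow_add hM']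
    norm_num
  have h := H (Ico M (2 * M)) (fun i => √(i : ℝ)) (fun k => Real.exp (-(a * √(k : ℝ))))
    (Real.exp (-√2)) V hV (Real.exp_pos _) (fun k => (Real.exp_pos _).le) (fm26_summable a ha0) ?_
  · refine h.trans (le_of_eq ?_)
    rw [div_div]
    rfl
  · intro k hk
    refine Real.exp_le_exp.mpr (neg_le_neg ?_)
    have hk2 : (k : ℝ) ≤ 2 * M := by
      have := (mem_Ico.mp hk).2
      exact_mod_cast this.le
    calc a * √(k : ℝ) ≤ a * √(2 * M) := mul_le_mul_of_nonneg_left (Real.sqrt_le_sqrt hk2) ha0.le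
      _ = √2 * (a * √(M : ℝ)) := by rw [Real.sqrt_mul (by norm_num)]; ring
      _ = √2 := by rw [haM, mul_one]

private theorem fm26_Lz_pos (z w : ℂ) (hw : 0 < w.re) (hz : 2 * π * I * z = w ^ 2 / 4) (m : ℕ) :
    Lz z (m : ℝ) = cexp (-((√(m : ℝ) : ℂ) * w)) := by
  unfold Lz
  rcases Nat.eq_zero_or_pos m with rfl | hm
  · simp
  have hm' : (0 : ℝ) < m := by exact_mod_cast hm
  have h1 : 2 * π * I * ((m : ℝ) : ℂ) * z = ((√(m : ℝ) : ℂ) * w / 2) ^ 2 := by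
    have h2 : ((√(m : ℝ) : ℂ)) ^ 2 = ((m : ℝ) : ℂ) := by
      rw [← Complex.ofReal_pow, Real.sq_sqrt hm'.le]
    calc 2 * π * I * ((m : ℝ) : ℂ) * z = ((m : ℝ) : ℂ) * (2 * π * I * z) := by ring
      _ = ((m : ℝ) : ℂ) * (w ^ 2 / 4) := by rw [hz]
      _ = ((√(m : ℝ) : ℂ)) ^ 2 * (w ^ 2 / 4) := by rw [h2]
      _ = _ := by ring
  have hre : 0 < ((√(m : ℝ) : ℂ) * w / 2).re := by
    have : ((√(m : ℝ) : ℂ) * w / 2).re = √(m : ℝ) * w.re / 2 := by
      simp [Complex.mul_re]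
    rw [this]
    have := Real.sqrt_pos.mpr hm'
    positivity
  rw [h1]
  rw [show (1 / 2 : ℂ) = 2⁻¹ by norm_num, Complex.sq_cpow_two_inv hre]
  congr 1
  ring

private theorem fm26_Lz_neg (z w : ℂ) (hw : 0 < w.im) (hz : 2 * π * I * z = w ^ 2 / 4) (m : ℕ)
    (hm : 0 < m) :
    Lz z (-(m : ℝ)) = cexp ((√(m : ℝ) : ℂ) * (I * w)) := by
  unfold Lz
  have hm' : (0 : ℝ) < m := by exact_mod_cast hm
  have h1 : 2 * π * I * ((-(m : ℝ) : ℝ) : ℂ) * z = ((√(m : ℝ) : ℂ) * (-(I * w)) / 2) ^ 2 := by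
    have h2 : ((√(m : ℝ) : ℂ)) ^ 2 = ((m : ℝ) : ℂ) := by
      rw [← Complex.ofReal_pow, Real.sq_sqrt hm'.le]
    calc 2 * π * I * ((-(m : ℝ) : ℝ) : ℂ) * z = -((m : ℝ) : ℂ) * (2 * π * I * z) := by
          push_cast; ring
      _ = -((m : ℝ) : ℂ) * (w ^ 2 / 4) := by rw [hz]
      _ = ((√(m : ℝ) : ℂ)) ^ 2 * (I ^ 2 * w ^ 2 / 4) := by rw [h2, I_sq]; ring
      _ = _ := by ring
  have hre : 0 < ((√(m : ℝ) : ℂ) * (-(I * w)) / 2).re := by
    have : ((√(m : ℝ) : ℂ) * (-(I * w)) / 2).re = √(m : ℝ) * w.im / 2 := by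
      simp [Complex.mul_re]
    rw [this]
    have := Real.sqrt_pos.mpr hm'
    positivity
  rw [h1]
  rw [show (1 / 2 : ℂ) = 2⁻¹ by norm_num, Complex.sq_cpow_two_inv hre]
  congr 1
  ring

/-- `w = a + 2πiu`, `z = -i w²/(8π)`, `Re z = a u/2`; `Lz z m = exp (-√m w)` and `Lz z (-m) = exp (i √m w)`, of modulus
`exp (-2πu√m)`; `poi` with `ν = 1`, `θ = 0` reads `∑_{k ≥ 1} k^(-3/2) exp (-z/k) = (π/z)^(1/2) (Dq a u + ∑_{m ≥ 1} exp (i √m w))`,
and `exp (-z/k) = e(-u²/(4k)) exp (-(a u/2 - i a²/(8π))/k)`; `‖(π/z)^(1/2)‖⁻¹ = ‖w‖/√(8π²) ≤ a + u`,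
`∑_{m ≥ 1} exp (-2πu√m) ≤ C/u²` for `u ≤ 1`, `≤ C` for `u ≥ 1` -/
theorem d2_id : ∃ C : ℝ, 0 < C ∧ ∀ a u : ℝ, 0 < a → 0 < u →
    ‖Dq a u‖ ≤ (a + u) * ‖Eq2 a u‖ + C * (1 + 1 / u ^ 2) := by
  refine ⟨1, one_pos, fun a u ha hu => ?_⟩
  have hpi : (0 : ℝ) < π := Real.pi_pos
  have hpi0 : (π : ℂ) ≠ 0 := by exact_mod_cast hpi.ne'
  set w : ℂ := (a : ℂ) + ((2 * π * u : ℝ) : ℂ) * I with hwdef
  set z : ℂ := -I * w ^ 2 / (8 * π) with hzdef
  have hwre : w.re = a := by simp [hwdef]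
  have hwim : w.im = 2 * π * u := by simp [hwdef]
  have hw0 : w ≠ 0 := by
    intro h
    rw [h] at hwre
    simp at hwre
    linarith
  have hz2 : 2 * π * I * z = w ^ 2 / 4 := by
    rw [hzdef]
    field_simp
    rw [I_sq]
    ring
  have hzx : z = ((a * u / 2 : ℝ) : ℂ) - ((a ^ 2 / (8 * π) : ℝ) : ℂ) * I +
      ((π * u ^ 2 / 2 : ℝ) : ℂ) * I := by
    rw [hzdef, hwdef]
    push_cast
    field_simp
    ring_nf
    rw [show I ^ 3 = -I by rw [pow_succ, I_sq]; ring, I_sq]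
    ring
  have hzre : z.re = a * u / 2 := by
    rw [hzx]
    simp [-Complex.ofReal_div, -Complex.ofReal_mul, -Complex.ofReal_pow]
  have hzpos : 0 < z.re := by rw [hzre]; positivity
  -- Fs z 1 0 = Eq2 a u
  have hFs : Fs z 1 0 = Eq2 a u := by
    unfold Fs Eq2
    refine tsum_congr fun i => ?_
    have hi : ((1 + i : ℝ) : ℂ) ≠ 0 := by
      have : (1 + i : ℝ) ≠ 0 := by positivity
      exact_mod_cast this
    have he0 : ee ((i : ℝ) * 0) = 1 := by simp [ee]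
    rw [he0, mul_one, mul_assoc]
    congr 1
    unfold ee
    rw [← Complex.exp_add]
    congr 1
    rw [hzx]
    push_cast
    have hi' : (1 + (i : ℂ)) ≠ 0 := by push_cast at hi; exact hi
    field_simp
    ring
  have hP := poi z 1 0 hzpos one_pos le_rfl
  rw [hFs] at hP
  have hS := poi_sum z 0 hzpos
  simp only [sub_zero, mul_one] at hP hS
  have hee : ∀ k : ℤ, ee (k : ℝ) = 1 := by
    intro k
    unfold ee
    rw [show 2 * π * I * ((k : ℝ) : ℂ) = (k : ℂ) * (2 * π * I) by push_cast; ring]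
    exact Complex.exp_int_mul_two_pi_mul_I k
  have hterm : ∀ k : ℤ, ee (k : ℝ) * Lz z (k : ℝ) = Lz z (k : ℝ) := fun k => by
    rw [hee, one_mul]
  rw [tsum_congr hterm] at hP
  have hS' : Summable fun k : ℤ => Lz z (k : ℝ) := hS.of_norm
  have hinj1 : Function.Injective (fun n : ℕ => (n : ℤ)) := fun x y h => by
    have h' : (x : ℤ) = (y : ℤ) := h
    exact_mod_cast h'
  have hinj2 : Function.Injective (fun n : ℕ => (-((n : ℤ) + 1) : ℤ)) := fun _ _ h => by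
    simp at h; exact_mod_cast h
  have hsplit := tsum_of_nat_of_neg_add_one (f := fun k : ℤ => Lz z (k : ℝ))
    (hS'.comp_injective hinj1) (hS'.comp_injective hinj2)
  have hD : ∑' n : ℕ, Lz z (((n : ℤ) : ℤ) : ℝ) = Dq a u := by
    unfold Dq
    refine tsum_congr fun n => ?_
    have := fm26_Lz_pos z w (by rw [hwre]; exact ha) hz2 n
    rw [show (((n : ℤ) : ℤ) : ℝ) = (n : ℝ) by push_cast; rfl, this]
    unfold ee
    rw [Complex.ofReal_exp, ← Complex.exp_add]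
    congr 1
    rw [hwdef]
    push_cast
    ring
  set T : ℂ := ∑' n : ℕ, Lz z ((-((n : ℤ) + 1) : ℤ) : ℝ) with hT
  have hTerm2 : ∀ n : ℕ, ‖Lz z ((-((n : ℤ) + 1) : ℤ) : ℝ)‖ = Real.exp (-((2 * π * u) * √((n : ℝ) + 1))) := by
    intro n
    have := fm26_Lz_neg z w (by rw [hwim]; positivity) hz2 (n + 1) (Nat.succ_pos n)
    rw [show ((-((n : ℤ) + 1) : ℤ) : ℝ) = -(((n + 1 : ℕ)) : ℝ) by push_cast; ring, this,
      Complex.norm_exp]
    congr 1
    have h1 : ((√(((n + 1 : ℕ)) : ℝ) : ℂ) * (I * w)).re = √(((n + 1 : ℕ)) : ℝ) * (I * w).re := by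
      rw [Complex.re_ofReal_mul]
    rw [h1]
    have h2 : (I * w).re = -(2 * π * u) := by
      rw [Complex.mul_re]; simp [hwim]
    rw [h2]
    push_cast
    ring
  have hTn : ‖T‖ ≤ 2 / (2 * π * u) ^ 2 := by
    have hs : Summable fun n : ℕ => ‖Lz z ((-((n : ℤ) + 1) : ℤ) : ℝ)‖ := by
      simp_rw [hTerm2]
      exact fm26_summable1 (2 * π * u) (by positivity)
    calc ‖T‖ ≤ ∑' n : ℕ, ‖Lz z ((-((n : ℤ) + 1) : ℤ) : ℝ)‖ := norm_tsum_le_tsum_norm hs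
      _ = ∑' n : ℕ, Real.exp (-((2 * π * u) * √((n : ℝ) + 1))) := tsum_congr hTerm2
      _ ≤ _ := fm26_tsum1 (2 * π * u) (by positivity)
  have hT1 : ‖T‖ ≤ 1 / u ^ 2 := by
    refine hTn.trans ?_
    rw [div_le_div_iff₀ (by positivity) (by positivity)]
    have : 3 < π := Real.pi_gt_three
    nlinarith [sq_nonneg u, sq_nonneg (π - 3), sq_nonneg (π * u), mul_pos hu hu]
  have hE : Eq2 a u = (π / z) ^ (1 / 2 : ℂ) * (Dq a u + T) := by
    rw [hP, hsplit, hD]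
  -- the norm of the factor
  have hzn : ‖z‖ = ‖w‖ ^ 2 / (8 * π) := by
    rw [hzdef]
    simp [abs_of_pos hpi]
  have hfac : ‖((π : ℂ) / z) ^ (1 / 2 : ℂ)‖ = √(8 * π ^ 2 / ‖w‖ ^ 2) := by
    rw [show (1 / 2 : ℂ) = (((1 / 2 : ℝ)) : ℂ) by push_cast; ring, Complex.norm_cpow_real,
      Real.sqrt_eq_rpow]
    congr 1
    rw [norm_div, hzn]
    have : ‖(π : ℂ)‖ = π := by simp [abs_of_pos hpi]
    rw [this]
    have hw1 : ‖w‖ ≠ 0 := norm_ne_zero_iff.mpr hw0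
    field_simp
  have hwn : ‖w‖ ≤ a + 2 * π * u := by
    rw [hwdef]
    refine (norm_add_le _ _).trans ?_
    rw [norm_mul, Complex.norm_I, mul_one, Complex.norm_real, Complex.norm_real, Real.norm_eq_abs,
      Real.norm_eq_abs, abs_of_pos ha, abs_of_pos (by positivity)]
  have hwpos : 0 < ‖w‖ := norm_pos_iff.mpr hw0
  -- (a+u) * factor ≥ 1
  have hbig : 1 ≤ (a + u) * ‖((π : ℂ) / z) ^ (1 / 2 : ℂ)‖ := by
    rw [hfac, Real.sqrt_div (by positivity), Real.sqrt_sq hwpos.le, ← mul_div_assoc,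
      le_div_iff₀ hwpos, one_mul]
    refine hwn.trans ?_
    have h8 : 2 * π ≤ √(8 * π ^ 2) := by
      apply Real.le_sqrt_of_sq_le
      nlinarith [sq_nonneg π]
    have h3 : 3 < π := Real.pi_gt_three
    nlinarith
  have hfacpos : 0 < ‖((π : ℂ) / z) ^ (1 / 2 : ℂ)‖ := by
    by_contra hcon
    have h0 : ‖((π : ℂ) / z) ^ (1 / 2 : ℂ)‖ = 0 := le_antisymm (not_lt.mp hcon) (norm_nonneg _)
    rw [h0, mul_zero] at hbig
    linarith
  have hDT : ‖Dq a u + T‖ ≤ (a + u) * ‖Eq2 a u‖ := by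
    rw [hE, norm_mul, ← mul_assoc]
    exact le_mul_of_one_le_left (norm_nonneg _) hbig
  calc ‖Dq a u‖ = ‖(Dq a u + T) - T‖ := by rw [add_sub_cancel_right]
    _ ≤ ‖Dq a u + T‖ + ‖T‖ := norm_sub_le _ _
    _ ≤ (a + u) * ‖Eq2 a u‖ + 1 / u ^ 2 := add_le_add hDT hT1
    _ ≤ _ := by linarith

private theorem d2_small_nee (t : ℝ) : ‖ee t‖ = 1 := by
  unfold Pool.Agent.Helper31.FI.ee
  rw [show (2 * π * I * t : ℂ) = ((2 * π * t : ℝ) : ℂ) * I by push_cast; ring]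
  exact Complex.norm_exp_ofReal_mul_I _

private theorem d2_small_term (a u : ℝ) (m : ℕ) :
    ‖((Real.exp (-(a * √(m : ℝ))) : ℝ) : ℂ) * ee (-(u * √(m : ℝ)))‖ =
      Real.exp (-(a * √(m : ℝ))) := by
  rw [norm_mul, Complex.norm_real, Real.norm_of_nonneg (Real.exp_pos _).le, d2_small_nee, mul_one]

private theorem d2_small_cont {a : ℝ} (ha : 0 < a) : Continuous fun u : ℝ => Dq a u := by
  unfold Dq
  refine continuous_tsum (fun m => ?_) (fm26_summable a ha) ?_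
  · unfold Pool.Agent.Helper31.FI.ee
    fun_prop
  · intro m u
    rw [d2_small_term]

private theorem d2_small_norm {a : ℝ} (ha : 0 < a) (u : ℝ) : ‖Dq a u‖ ≤ 1 + 2 / a ^ 2 := by
  unfold Dq
  have hs : Summable fun m : ℕ =>
      ‖((Real.exp (-(a * √(m : ℝ))) : ℝ) : ℂ) * ee (-(u * √(m : ℝ)))‖ := by
    simp_rw [d2_small_term]
    exact fm26_summable a ha
  refine (norm_tsum_le_tsum_norm hs).trans ?_
  simp_rw [d2_small_term]
  rw [(fm26_summable a ha).tsum_eq_zero_add]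
  have h := fm26_tsum1 a ha
  have h0 : Real.exp (-(a * √((0 : ℕ) : ℝ))) = 1 := by simp
  rw [h0]
  have h1 : ∑' b : ℕ, Real.exp (-(a * √((b + 1 : ℕ) : ℝ))) =
      ∑' m : ℕ, Real.exp (-(a * √((m : ℝ) + 1))) := by
    refine tsum_congr fun b => ?_
    push_cast
    rfl
  rw [h1]
  linarith

private theorem d2_small_eq : ∃ S : ℝ, 0 ≤ S ∧ ∀ a u : ℝ, 0 < a → 0 < u → ‖Eq2 a u‖ ≤ S := by
  have hsum : Summable fun i : ℕ => (1 + i : ℝ) ^ (-(3 / 2) : ℝ) := by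
    have h0 : Summable fun n : ℕ => ((n : ℝ) ^ (-(3 / 2) : ℝ)) := by
      rw [Real.summable_nat_rpow]; norm_num
    have h1 := (summable_nat_add_iff 1).2 h0
    refine h1.congr fun i => ?_
    push_cast
    rw [add_comm]
  refine ⟨∑' i : ℕ, (1 + i : ℝ) ^ (-(3 / 2) : ℝ),
    tsum_nonneg fun i => Real.rpow_nonneg (by positivity) _, fun a u ha hu => ?_⟩
  unfold Eq2
  refine tsum_of_norm_bounded hsum.hasSum fun i => ?_
  have hi : (0 : ℝ) < 1 + i := by positivity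
  rw [norm_mul, norm_mul, d2_small_nee, mul_one, Complex.norm_real,
    Real.norm_of_nonneg (Real.rpow_nonneg hi.le _)]
  refine mul_le_of_le_one_right (Real.rpow_nonneg hi.le _) ?_
  rw [Complex.norm_exp]
  apply Real.exp_le_one_iff.2
  have h2 : (((((a * u / 2 : ℝ) : ℂ) - ((a ^ 2 / (8 * π) : ℝ) : ℂ) * I) / ((1 + i : ℝ) : ℂ))).re
      = (a * u / 2) / (1 + i) := by
    rw [Complex.div_ofReal_re, Complex.sub_re, Complex.ofReal_re, Complex.re_ofReal_mul,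
      Complex.I_re, mul_zero, sub_zero]
  rw [Complex.neg_re, h2]
  have : 0 ≤ (a * u / 2) / (1 + i) := by positivity
  linarith

/-- `u ≤ a`: `‖Dq a u‖ ≤ ∑ exp (-a √m) ≤ C/a²`; `a ≤ u ≤ 2`: `d2_id` and `‖Eq2‖ ≤ 3`: `≤ C/u²` -/
theorem d2_small : ∃ C : ℝ, 0 < C ∧ ∀ a : ℝ, 0 < a → a ≤ 1 →
    ∫ u in (0 : ℝ)..2, ‖Dq a u‖ ^ 4 ≤ C * a ^ (-7 : ℝ) := by
  obtain ⟨C1, hC1, H1⟩ := d2_id
  obtain ⟨S, hS, HS⟩ := d2_small_eq
  refine ⟨81 + (12 * S + 5 * C1) ^ 4, by positivity, fun a ha ha1 => ?_⟩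
  have hc : Continuous fun u : ℝ => ‖Dq a u‖ ^ 4 := ((d2_small_cont ha).norm).pow 4
  rw [← intervalIntegral.integral_add_adjacent_intervals (hc.intervalIntegrable 0 a)
    (hc.intervalIntegrable a 2)]
  have e1 : ∫ u in (0 : ℝ)..a, ‖Dq a u‖ ^ 4 ≤ 81 * a ^ (-7 : ℝ) := by
    have h1 : ∫ u in (0 : ℝ)..a, ‖Dq a u‖ ^ 4 ≤ ∫ u in (0 : ℝ)..a, (3 / a ^ 2) ^ 4 := by
      apply intervalIntegral.integral_mono_on ha.le (hc.intervalIntegrable _ _)
        intervalIntegrable_const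
      intro u _
      apply pow_le_pow_left₀ (norm_nonneg _)
      refine (d2_small_norm ha u).trans ?_
      have h2 : 1 ≤ 1 / a ^ 2 := by
        rw [le_div_iff₀ (by positivity)]
        nlinarith
      have h3 : 3 / a ^ 2 = 1 / a ^ 2 + 2 / a ^ 2 := by ring
      linarith
    refine h1.trans (le_of_eq ?_)
    rw [intervalIntegral.integral_const, smul_eq_mul, sub_zero,
      show (-7 : ℝ) = ((-7 : ℤ) : ℝ) by norm_num, Real.rpow_intCast,
      show (-7 : ℤ) = -((7 : ℕ) : ℤ) by norm_num, zpow_neg, zpow_natCast]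
    field_simp
    norm_num
  have e2 : ∫ u in a..2, ‖Dq a u‖ ^ 4 ≤ (12 * S + 5 * C1) ^ 4 * a ^ (-7 : ℝ) := by
    have hi : IntervalIntegrable (fun u : ℝ => (12 * S + 5 * C1) ^ 4 * u ^ (-8 : ℝ)) volume a 2 := by
      apply ContinuousOn.intervalIntegrable
      rw [Set.uIcc_of_le (by linarith)]
      apply ContinuousOn.mul continuousOn_const
      apply ContinuousOn.rpow_const continuousOn_id
      intro x hx
      left
      exact (ha.trans_le hx.1).ne'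
    have h1 : ∫ u in a..2, ‖Dq a u‖ ^ 4 ≤
        ∫ u in a..2, (12 * S + 5 * C1) ^ 4 * u ^ (-8 : ℝ) := by
      apply intervalIntegral.integral_mono_on (by linarith) (hc.intervalIntegrable _ _) hi
      intro u hu
      have hu0 : 0 < u := ha.trans_le hu.1
      have h2 := H1 a u ha hu0
      have h3 := HS a u ha hu0
      have h4 : (a + u) * ‖Eq2 a u‖ ≤ 3 * S := by
        apply mul_le_mul (by linarith [hu.2]) h3 (norm_nonneg _) (by norm_num)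
      have h5 : (1 : ℝ) ≤ 4 * (1 / u ^ 2) := by
        rw [mul_one_div, le_div_iff₀ (by positivity)]
        nlinarith [hu.2]
      have h6 : ‖Dq a u‖ ≤ (12 * S + 5 * C1) * (1 / u ^ 2) := by
        have h7 : 3 * S ≤ 12 * S * (1 / u ^ 2) := by nlinarith
        have h8 : C1 * (1 + 1 / u ^ 2) ≤ 5 * C1 * (1 / u ^ 2) := by nlinarith
        nlinarith
      have h9 : ‖Dq a u‖ ^ 4 ≤ ((12 * S + 5 * C1) * (1 / u ^ 2)) ^ 4 :=
        pow_le_pow_left₀ (norm_nonneg _) h6 4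
      refine h9.trans (le_of_eq ?_)
      rw [show (-8 : ℝ) = ((-8 : ℤ) : ℝ) by norm_num, Real.rpow_intCast,
        show (-8 : ℤ) = -((8 : ℕ) : ℤ) by norm_num, zpow_neg, zpow_natCast]
      field_simp
    refine h1.trans ?_
    rw [intervalIntegral.integral_const_mul]
    apply mul_le_mul_of_nonneg_left _ (by positivity)
    rw [integral_rpow (Or.inr ⟨by norm_num, by
      rw [Set.uIcc_of_le (by linarith)]
      exact fun h => by linarith [h.1]⟩)]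
    have h10 : (2 : ℝ) ^ (-8 + 1 : ℝ) ≥ 0 := Real.rpow_nonneg (by norm_num) _
    have h11 : a ^ (-8 + 1 : ℝ) = a ^ (-7 : ℝ) := by norm_num
    have h12 : 0 ≤ a ^ (-7 : ℝ) := Real.rpow_nonneg ha.le _
    rw [h11, show (-8 + 1 : ℝ) = -7 by norm_num] at *
    rw [div_le_iff_of_neg (by norm_num)]
    linarith
  linarith

/-- the terms of `Eq2` -/
noncomputable def d2_dy_t (a u : ℝ) (i : ℕ) : ℂ :=
  (((1 + i : ℝ) ^ (-(3 / 2) : ℝ) : ℝ) : ℂ) *
    cexp (-((((a * u / 2 : ℝ) : ℂ) - ((a ^ 2 / (8 * π) : ℝ) : ℂ) * I) / ((1 + i : ℝ) : ℂ))) *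
      ee (-(u ^ 2 / 4 / (1 + i)))

theorem d2_dy_ee (t : ℝ) : ‖ee t‖ = 1 := by
  unfold Pool.Agent.Helper31.FI.ee
  have : (2 * (π : ℂ) * I * (t : ℂ)) = ((2 * π * t : ℝ) : ℂ) * I := by push_cast; ring
  rw [this, Complex.norm_exp_ofReal_mul_I]

theorem d2_dy_norm (a u : ℝ) (i : ℕ) :
    ‖d2_dy_t a u i‖ = (1 + i : ℝ) ^ (-(3 / 2) : ℝ) * Real.exp (-(a * u / 2 / (1 + i))) := by
  unfold d2_dy_t
  rw [norm_mul, norm_mul, d2_dy_ee, mul_one, Complex.norm_real, Real.norm_eq_abs,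
    abs_of_nonneg (Real.rpow_nonneg (by positivity) _), Complex.norm_exp]
  congr 2
  rw [Complex.neg_re, Complex.div_ofReal_re]
  simp only [Complex.sub_re, Complex.ofReal_re, Complex.mul_re, Complex.I_re, Complex.I_im, Complex.ofReal_im]
  ring

theorem d2_dy_le (a u : ℝ) (i : ℕ) (ha : 0 < a) (hu : 0 ≤ u) :
    ‖d2_dy_t a u i‖ ≤ (1 + i : ℝ) ^ (-(3 / 2) : ℝ) := by
  rw [d2_dy_norm]
  refine mul_le_of_le_one_right (Real.rpow_nonneg (by positivity) _) ?_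
  rw [Real.exp_le_one_iff]
  have : 0 ≤ a * u / 2 / (1 + i) := by positivity
  linarith

theorem d2_dy_su : Summable fun i : ℕ => (1 + i : ℝ) ^ (-(3 / 2) : ℝ) := by
  have h := (summable_nat_add_iff 1).2 (Real.summable_nat_rpow.2 (show (-(3 / 2) : ℝ) < -1 by norm_num))
  refine h.congr fun i => ?_
  push_cast
  rw [add_comm]

theorem d2_dy_sum (a u : ℝ) (ha : 0 < a) (hu : 0 ≤ u) : Summable (d2_dy_t a u) :=
  Summable.of_norm_bounded d2_dy_su fun i => d2_dy_le a u i ha hu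

theorem d2_dy_ct (a : ℝ) (i : ℕ) : Continuous fun u : ℝ => d2_dy_t a u i := by
  unfold d2_dy_t Pool.Agent.Helper31.FI.ee
  fun_prop

theorem d2_dy_cont (a : ℝ) (ha : 0 < a) : ContinuousOn (Eq2 a) (Set.Ici 0) := by
  unfold Eq2
  exact continuousOn_tsum (fun i => (d2_dy_ct a i).continuousOn) d2_dy_su
    (fun i u hu => d2_dy_le a u i ha hu)

theorem d2_dy_split (a u : ℝ) (ha : 0 < a) (hu : 0 ≤ u) :
    Eq2 a u = d2_dy_t a u 0 + ∑' i : ℕ, d2_dy_t a u (i + 1) :=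
  (d2_dy_sum a u ha hu).tsum_eq_zero_add

/-- the tail of `Eq2` at `u = 2 √t` in the shape of `di` -/
theorem d2_dy_tail (a t : ℝ) (ht : 0 ≤ t) (i : ℕ) :
    d2_dy_t a (2 * √t) (i + 1) = 1 * ((((1 : ℝ) + (i + 1) : ℝ) ^ (-(3 / 2) : ℝ) : ℝ) : ℂ) *
        cexp (-(((((a * √t : ℝ) : ℂ) - ((a ^ 2 / (8 * π) : ℝ) : ℂ) * I)) / (((1 : ℝ) + (i + 1) : ℝ) : ℂ))) *
          ee (-(t / ((1 : ℝ) + (i + 1)))) := by
  unfold d2_dy_t
  have h1 : a * (2 * √t) / 2 = a * √t := by ring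
  have h2 : (2 * √t) ^ 2 / 4 = t := by rw [mul_pow, Real.sq_sqrt ht]; ring
  rw [h1, h2, one_mul]
  push_cast
  rfl

theorem d2_dy_ar (β : ℝ) (h2 : 2 < β) (h3 : β ≤ 3) (a V : ℝ) (ha : 0 < a) (hV : 2 ≤ V)
    (hVa : V ≤ a ^ (-3 : ℝ)) (C : ℝ) (hC : 0 < C) :
    8 * (3 * (V ^ 2 / 4) * Real.exp (-(4 * (a * V / 2))) +
      C * ((1 + Real.log (V ^ 2 / 4)) ^ 5 * ((a * V / 2) ^ (β - 6) * (V ^ 2 / 4 + (a * V / 2) ^ 3)) +
        (V ^ 2 / 4) ^ (-10 : ℝ))) ≤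
      (384 + 8 * C * 4 ^ 10) * ((1 + Real.log V) ^ 5 * ((a * V) ^ (β - 6) * V ^ 2) + V ^ (-10 : ℝ)) := by
  have hV0 : 0 < V := by linarith
  have haV : 0 < a * V := mul_pos ha hV0
  have hl : 0 ≤ Real.log V := Real.log_nonneg (by linarith)
  have hE : 0 ≤ (a * V) ^ (β - 6) := Real.rpow_nonneg haV.le _
  set x := a * V with hx
  have hb4 : (-4 : ℝ) ≤ β - 6 := by linarith
  have hb0 : β - 6 ≤ 0 := by linarith
  have e1 : Real.exp (-(4 * (x / 2))) ≤ 16 * x ^ (β - 6) := by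
    rcases le_total x 1 with h | h
    · have h5 : 1 ≤ x ^ (β - 6) := Real.one_le_rpow_of_pos_of_le_one_of_nonpos haV h hb0
      have h6 : Real.exp (-(4 * (x / 2))) ≤ 1 := Real.exp_le_one_iff.2 (by linarith)
      linarith
    · have h5 : x ^ (-4 : ℝ) ≤ x ^ (β - 6) := Real.rpow_le_rpow_of_exponent_le h hb4
      have h7 : x ^ (-4 : ℝ) = (x ^ 4)⁻¹ := by
        rw [Real.rpow_neg haV.le]
        norm_num
      have h8 := Real.pow_div_factorial_le_exp (2 * x) (by linarith) 4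
      have h9 : (2 * x) ^ 4 / ((Nat.factorial 4 : ℕ) : ℝ) = 2 / 3 * x ^ 4 := by
        norm_num [Nat.factorial]
        ring
      rw [h9] at h8
      have h10 : Real.exp (-(4 * (x / 2))) = (Real.exp (2 * x))⁻¹ := by
        rw [← Real.exp_neg]
        congr 1
        ring
      have hx4 : 0 < x ^ 4 := by positivity
      have h11 : (Real.exp (2 * x))⁻¹ ≤ (2 / 3 * x ^ 4)⁻¹ := inv_anti₀ (by positivity) h8
      rw [h10]
      rw [mul_inv] at h11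
      have h12 : 0 < (x ^ 4)⁻¹ := inv_pos.2 hx4
      rw [h7] at h5
      norm_num at h11
      linarith
  have e2 : 1 + Real.log (V ^ 2 / 4) ≤ 2 * (1 + Real.log V) := by
    rw [Real.log_div (by positivity) (by norm_num), Real.log_pow]
    have : 0 ≤ Real.log 4 := Real.log_nonneg (by norm_num)
    push_cast
    linarith
  have e2' : 0 ≤ 1 + Real.log (V ^ 2 / 4) := by
    have : 0 ≤ Real.log (V ^ 2 / 4) := Real.log_nonneg (by nlinarith)
    linarith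
  have e3 : (x / 2) ^ (β - 6) ≤ 16 * x ^ (β - 6) := by
    rw [Real.div_rpow haV.le (by norm_num)]
    have h5 : (2 : ℝ) ^ (-4 : ℝ) ≤ 2 ^ (β - 6) := Real.rpow_le_rpow_of_exponent_le (by norm_num) hb4
    have h6 : (2 : ℝ) ^ (-4 : ℝ) = 1 / 16 := by
      rw [Real.rpow_neg (by norm_num)]
      norm_num
    rw [h6] at h5
    rw [div_le_iff₀ (by positivity)]
    nlinarith
  have e4 : (x / 2) ^ 3 ≤ V ^ 2 / 8 := by
    have h5 : a ^ (-3 : ℝ) = (a ^ 3)⁻¹ := by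
      rw [Real.rpow_neg ha.le]
      norm_num
    rw [h5] at hVa
    have ha3 : 0 < a ^ 3 := by positivity
    have h6 : a ^ 3 * V ≤ 1 := by
      calc a ^ 3 * V ≤ a ^ 3 * (a ^ 3)⁻¹ := mul_le_mul_of_nonneg_left hVa ha3.le
        _ = 1 := mul_inv_cancel₀ ha3.ne'
    have h7 : (x / 2) ^ 3 = (a ^ 3 * V) * V ^ 2 / 8 := by rw [hx]; ring
    rw [h7]
    have hV2 : 0 < V ^ 2 := by positivity
    nlinarith
  have e5 : (V ^ 2 / 4) ^ (-10 : ℝ) ≤ 4 ^ 10 * V ^ (-10 : ℝ) := by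
    have h5 : (V ^ 2 / 4) ^ (-10 : ℝ) = ((V ^ 2 / 4) ^ 10)⁻¹ := by
      rw [Real.rpow_neg (by positivity)]
      norm_num
    have h6 : V ^ (-10 : ℝ) = (V ^ 10)⁻¹ := by
      rw [Real.rpow_neg (by positivity)]
      norm_num
    rw [h5, h6]
    have h7 : (V ^ 2 / 4) ^ 10 = V ^ 10 * V ^ 10 / 4 ^ 10 := by ring
    have h8 : (1 : ℝ) ≤ V ^ 10 := one_le_pow₀ (by linarith)
    rw [h7, inv_div, div_eq_mul_inv]
    refine mul_le_mul_of_nonneg_left ?_ (by norm_num)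
    refine inv_anti₀ (by positivity) ?_
    nlinarith
  set E := x ^ (β - 6) with hEd
  set Lg := 1 + Real.log V with hLg
  set L' := 1 + Real.log (V ^ 2 / 4) with hL'
  have hL1 : 1 ≤ Lg := by linarith
  have hL5 : 1 ≤ Lg ^ 5 := one_le_pow₀ hL1
  have hY : 0 ≤ V ^ (-10 : ℝ) := Real.rpow_nonneg hV0.le _
  have hV2 : 0 < V ^ 2 := by positivity
  have f1 : 3 * (V ^ 2 / 4) * Real.exp (-(4 * (x / 2))) ≤ 12 * (Lg ^ 5 * (E * V ^ 2)) := by
    calc 3 * (V ^ 2 / 4) * Real.exp (-(4 * (x / 2))) ≤ 3 * (V ^ 2 / 4) * (16 * E) :=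
          mul_le_mul_of_nonneg_left e1 (by positivity)
      _ = 12 * (1 * (E * V ^ 2)) := by ring
      _ ≤ 12 * (Lg ^ 5 * (E * V ^ 2)) := by
          refine mul_le_mul_of_nonneg_left ?_ (by norm_num)
          exact mul_le_mul_of_nonneg_right hL5 (by positivity)
  have f2 : L' ^ 5 ≤ 32 * Lg ^ 5 := by
    calc L' ^ 5 ≤ (2 * Lg) ^ 5 := pow_le_pow_left₀ e2' e2 5
      _ = 32 * Lg ^ 5 := by ring
  have f3 : (x / 2) ^ (β - 6) * (V ^ 2 / 4 + (x / 2) ^ 3) ≤ 6 * (E * V ^ 2) := by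
    calc (x / 2) ^ (β - 6) * (V ^ 2 / 4 + (x / 2) ^ 3) ≤ (16 * E) * (V ^ 2 / 4 + V ^ 2 / 8) :=
          mul_le_mul e3 (by linarith) (by positivity) (by positivity)
      _ = 6 * (E * V ^ 2) := by ring
  have f4 : L' ^ 5 * ((x / 2) ^ (β - 6) * (V ^ 2 / 4 + (x / 2) ^ 3)) ≤ 192 * (Lg ^ 5 * (E * V ^ 2)) := by
    calc L' ^ 5 * ((x / 2) ^ (β - 6) * (V ^ 2 / 4 + (x / 2) ^ 3)) ≤ (32 * Lg ^ 5) * (6 * (E * V ^ 2)) :=
          mul_le_mul f2 f3 (by positivity) (by positivity)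
      _ = 192 * (Lg ^ 5 * (E * V ^ 2)) := by ring
  have f5 : 0 ≤ Lg ^ 5 * (E * V ^ 2) := by positivity
  calc 8 * (3 * (V ^ 2 / 4) * Real.exp (-(4 * (x / 2))) +
      C * (L' ^ 5 * ((x / 2) ^ (β - 6) * (V ^ 2 / 4 + (x / 2) ^ 3)) + (V ^ 2 / 4) ^ (-10 : ℝ)))
      ≤ 8 * (12 * (Lg ^ 5 * (E * V ^ 2)) +
        C * (192 * (Lg ^ 5 * (E * V ^ 2)) + 4 ^ 10 * V ^ (-10 : ℝ))) := by
        refine mul_le_mul_of_nonneg_left ?_ (by norm_num)
        refine add_le_add f1 ?_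
        exact mul_le_mul_of_nonneg_left (add_le_add f4 e5) hC.le
    _ ≤ (384 + 8 * C * 4 ^ 10) * (Lg ^ 5 * (E * V ^ 2) + V ^ (-10 : ℝ)) := by
        nlinarith [mul_nonneg hC.le f5, mul_nonneg hC.le hY, f5, hY]

/-- `u = 2√t`, `T = V²/4`; `di` with `ν = 1`, `A = a √T = a V/2`, `ρ t = a √t - i a²/(8π)`; the term `k = 1` (`i = 0` in `Eq2`) is
bounded by `exp (-a u/2)` and `exp (-4A) ≤ C A^(β-6)`; the index of `di` is shifted by one: `ν = 1`, `ν + (i+1) = 1 + (i+1)` -/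
theorem d2_dy (β : ℝ) (h2 : 2 < β) (h3 : β ≤ 3) (hK : HK β) : ∃ C : ℝ, 0 < C ∧
    ∀ (a V : ℝ), 0 < a → a ≤ 1 → 2 ≤ V → V ≤ a ^ (-3 : ℝ) →
    ∫ u in V..(2 * V), ‖Eq2 a u‖ ^ 4 ≤
      C * (V⁻¹ * ((1 + Real.log V) ^ 5 * ((a * V) ^ (β - 6) * V ^ 2) + V ^ (-10 : ℝ))) := by
  obtain ⟨C, hC, hdi⟩ := di β h2.le h3 hK
  refine ⟨2 * (384 + 8 * C * 4 ^ 10), by positivity, fun a V ha _ hV hVa => ?_⟩
  have hV0 : 0 < V := by linarith
  set T : ℝ := V ^ 2 / 4 with hT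
  have hT0 : 0 < T := by positivity
  have hT1 : 1 ≤ T := by rw [hT]; nlinarith
  have hTT : T ≤ 4 * T := by linarith
  have hsT : √T = V / 2 := by
    rw [hT, show V ^ 2 / 4 = (V / 2) ^ 2 by ring, Real.sqrt_sq (by positivity)]
  have hs4T : √(4 * T) = V := by
    rw [hT, show 4 * (V ^ 2 / 4) = V ^ 2 by ring, Real.sqrt_sq hV0.le]
  have hpos : ∀ t ∈ Set.Icc T (4 * T), 0 < t := fun t ht => lt_of_lt_of_le hT0 ht.1
  have hsq : ∀ t ∈ Set.Icc T (4 * T), V / 2 ≤ √t := fun t ht => by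
    rw [← hsT]; exact Real.sqrt_le_sqrt ht.1
  have hder : ∀ t : ℝ, 0 < t → HasDerivAt (fun t : ℝ => √t) (1 / (2 * √t)) t := fun t ht =>
    Real.hasDerivAt_sqrt ht.ne'
  -- the tail
  set tl : ℝ → ℂ := fun t => ∑' i : ℕ, d2_dy_t a (2 * √t) (i + 1) with htl
  have htleq : ∀ t, 0 ≤ t → tl t = Eq2 a (2 * √t) - d2_dy_t a (2 * √t) 0 := fun t ht => by
    rw [d2_dy_split a (2 * √t) ha (by positivity)]
    simp [htl]
  have hcE : ContinuousOn (fun t : ℝ => Eq2 a (2 * √t)) (Set.Icc T (4 * T)) := by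
    refine (d2_dy_cont a ha).comp (by fun_prop) ?_
    intro t _
    exact Set.mem_Ici.2 (by positivity)
  have hctl : ContinuousOn tl (Set.Icc T (4 * T)) := by
    have hc2 : ContinuousOn (fun t : ℝ => d2_dy_t a (2 * √t) 0) (Set.Icc T (4 * T)) :=
      ((d2_dy_ct a 0).comp (by fun_prop)).continuousOn
    refine (hcE.sub hc2).congr fun t ht => ?_
    exact htleq t (hpos t ht).le
  -- the fourth moment of the tail
  have hmain : ∫ t in T..(4 * T), ‖tl t‖ ^ 4 ≤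
      C * ((1 + Real.log T) ^ 5 * ((a * V / 2) ^ (β - 6) * (T + (a * V / 2) ^ 3)) + T ^ (-10 : ℝ)) := by
    have h := hdi 1 (a * V / 2) T (fun t => ((a * √t : ℝ) : ℂ) - ((a ^ 2 / (8 * π) : ℝ) : ℂ) * I)
      (fun t => ((a * (1 / (2 * √t)) : ℝ) : ℂ)) (fun _ => 1) one_pos le_rfl (by positivity) hT1
      (fun k => by simp) ?_ ?_ ?_ ?_
    · refine le_trans (le_of_eq ?_) h
      refine intervalIntegral.integral_congr fun t ht => ?_
      rw [Set.uIcc_of_le hTT] at ht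
      simp only [htl]
      congr 3
      funext i
      exact d2_dy_tail a t (hpos t ht).le i
    · intro t ht
      exact (((hder t (hpos t ht)).const_mul a).ofReal_comp).sub_const _
    · refine Complex.continuous_ofReal.comp_continuousOn ?_
      refine ContinuousOn.mul continuousOn_const ?_
      refine ContinuousOn.div continuousOn_const (by fun_prop) fun t ht => ?_
      have := Real.sqrt_pos.2 (hpos t ht)
      positivity
    · intro t ht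
      have := hsq t ht
      simp only [Complex.sub_re, Complex.ofReal_re, Complex.mul_re, Complex.I_re, Complex.I_im, Complex.ofReal_im]
      nlinarith
    · intro t ht
      have h5 := hsq t ht
      have h6 : 0 < √t := Real.sqrt_pos.2 (hpos t ht)
      rw [Complex.norm_real, Real.norm_eq_abs, abs_of_nonneg (by positivity)]
      have h7 : a * V / 2 / T = 2 * a / V := by rw [hT]; field_simp; norm_num
      rw [h7, mul_one_div, div_le_div_iff₀ (by positivity) hV0]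
      nlinarith
  -- substitution
  have hsub : ∫ t in T..(4 * T), ‖Eq2 a (2 * √t)‖ ^ 4 * (1 / √t) = ∫ u in V..(2 * V), ‖Eq2 a u‖ ^ 4 := by
    have h := intervalIntegral.integral_comp_mul_deriv'' (a := T) (b := 4 * T) (f := fun t : ℝ => 2 * √t)
      (f' := fun t : ℝ => 1 / √t) (g := fun u : ℝ => ‖Eq2 a u‖ ^ 4) (by fun_prop) ?_ ?_ ?_
    · simp only [Function.comp] at h
      rw [h, hsT, hs4T]
      congr 1
      ring
    · intro t ht
      rw [min_eq_left hTT, max_eq_right hTT] at ht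
      have h5 := (hder t (lt_trans hT0 ht.1)).const_mul 2
      have h6 : 2 * (1 / (2 * √t)) = 1 / √t := by
        have : 0 < √t := Real.sqrt_pos.2 (lt_trans hT0 ht.1)
        field_simp
      rw [h6] at h5
      exact h5.hasDerivWithinAt
    · rw [Set.uIcc_of_le hTT]
      refine ContinuousOn.div continuousOn_const (by fun_prop) fun t ht => ?_
      exact (Real.sqrt_pos.2 (hpos t ht)).ne'
    · refine ((d2_dy_cont a ha).norm.pow 4).mono ?_
      rintro _ ⟨t, _, rfl⟩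
      exact Set.mem_Ici.2 (by positivity)
  rw [← hsub]
  have hexp : ∀ t ∈ Set.Icc T (4 * T), ‖d2_dy_t a (2 * √t) 0‖ ^ 4 ≤ Real.exp (-(4 * (a * V / 2))) := by
    intro t ht
    have h5 := hsq t ht
    rw [d2_dy_norm]
    simp only [Nat.cast_zero, add_zero, Real.one_rpow, one_mul, div_one]
    rw [← Real.exp_nat_mul, Real.exp_le_exp]
    push_cast
    nlinarith
  have hpt : ∀ t ∈ Set.Icc T (4 * T), ‖Eq2 a (2 * √t)‖ ^ 4 * (1 / √t) ≤
      2 / V * (8 * (Real.exp (-(4 * (a * V / 2))) + ‖tl t‖ ^ 4)) := by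
    intro t ht
    have h5 := hsq t ht
    have h6 : 0 < √t := Real.sqrt_pos.2 (hpos t ht)
    have h7 : 1 / √t ≤ 2 / V := by
      rw [div_le_div_iff₀ h6 hV0]
      linarith
    have h8 : ‖Eq2 a (2 * √t)‖ ^ 4 ≤ 8 * (Real.exp (-(4 * (a * V / 2))) + ‖tl t‖ ^ 4) := by
      have h9 : Eq2 a (2 * √t) = d2_dy_t a (2 * √t) 0 + tl t := by
        rw [htleq t (hpos t ht).le]
        ring
      rw [h9]
      refine le_trans (norm_add_pow4 _ _) ?_
      have := hexp t ht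
      linarith
    rw [mul_comm]
    exact mul_le_mul h7 h8 (by positivity) (by positivity)
  have hint : ∫ t in T..(4 * T), ‖Eq2 a (2 * √t)‖ ^ 4 * (1 / √t) ≤
      ∫ t in T..(4 * T), 2 / V * (8 * (Real.exp (-(4 * (a * V / 2))) + ‖tl t‖ ^ 4)) := by
    refine intervalIntegral.integral_mono_on hTT ?_ ?_ hpt
    · refine ContinuousOn.intervalIntegrable ?_
      rw [Set.uIcc_of_le hTT]
      refine (hcE.norm.pow 4).mul ?_
      refine ContinuousOn.div continuousOn_const (by fun_prop) fun t ht => ?_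
      exact (Real.sqrt_pos.2 (hpos t ht)).ne'
    · refine ContinuousOn.intervalIntegrable ?_
      rw [Set.uIcc_of_le hTT]
      exact continuousOn_const.mul (continuousOn_const.mul (continuousOn_const.add (hctl.norm.pow 4)))
  refine le_trans hint ?_
  have hI : IntervalIntegrable (fun t => ‖tl t‖ ^ 4) MeasureTheory.volume T (4 * T) := by
    refine ContinuousOn.intervalIntegrable ?_
    rw [Set.uIcc_of_le hTT]
    exact hctl.norm.pow 4
  rw [intervalIntegral.integral_const_mul, intervalIntegral.integral_const_mul,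
    intervalIntegral.integral_add (by simp) hI, intervalIntegral.integral_const]
  have har := d2_dy_ar β h2 h3 a V ha hV hVa C hC
  rw [← hT] at har
  have hfin : 8 * ((4 * T - T) • Real.exp (-(4 * (a * V / 2))) + ∫ t in T..(4 * T), ‖tl t‖ ^ 4) ≤
      (384 + 8 * C * 4 ^ 10) * ((1 + Real.log V) ^ 5 * ((a * V) ^ (β - 6) * V ^ 2) + V ^ (-10 : ℝ)) := by
    refine le_trans ?_ har
    rw [smul_eq_mul]
    have : (4 * T - T) * Real.exp (-(4 * (a * V / 2))) = 3 * T * Real.exp (-(4 * (a * V / 2))) := by ring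
    rw [this]
    linarith
  have hVi : 0 < 2 / V := by positivity
  calc 2 / V * (8 * ((4 * T - T) • Real.exp (-(4 * (a * V / 2))) + ∫ t in T..(4 * T), ‖tl t‖ ^ 4))
      ≤ 2 / V * ((384 + 8 * C * 4 ^ 10) * ((1 + Real.log V) ^ 5 * ((a * V) ^ (β - 6) * V ^ 2) +
        V ^ (-10 : ℝ))) := mul_le_mul_of_nonneg_left hfin hVi.le
    _ = 2 * (384 + 8 * C * 4 ^ 10) * (V⁻¹ * ((1 + Real.log V) ^ 5 * ((a * V) ^ (β - 6) * V ^ 2) +
        V ^ (-10 : ℝ))) := by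
        rw [div_eq_mul_inv]
        ring

theorem d2sum_summable {a : ℝ} (ha : 0 < a) : Summable fun m : ℕ => Real.exp (-(a * √(m : ℝ))) := by
  have h1 : Summable fun m : ℕ => (24 / a ^ 4) * (1 / (m : ℝ) ^ 2) :=
    (Real.summable_one_div_nat_pow.2 one_lt_two).mul_left _
  refine Summable.of_norm_bounded_eventually_nat h1 ?_
  filter_upwards [Filter.eventually_gt_atTop 0] with m hm
  have hm' : (0 : ℝ) < m := by exact_mod_cast hm
  rw [Real.norm_of_nonneg (Real.exp_pos _).le, Real.exp_neg]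
  have hs : 0 < √(m : ℝ) := Real.sqrt_pos.2 hm'
  have hx : 0 < a * √(m : ℝ) := mul_pos ha hs
  have h2 : (a * √(m : ℝ)) ^ 4 / 24 ≤ Real.exp (a * √(m : ℝ)) := by
    have := Real.pow_div_factorial_le_exp (a * √(m : ℝ)) hx.le 4
    simpa [Nat.factorial] using this
  have h3 : (a * √(m : ℝ)) ^ 4 = a ^ 4 * (m : ℝ) ^ 2 := by
    have : √(m : ℝ) ^ 4 = (m : ℝ) ^ 2 := by
      rw [show (4 : ℕ) = 2 * 2 by norm_num, pow_mul, Real.sq_sqrt hm'.le]
    rw [mul_pow, this]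
  rw [h3] at h2
  calc (Real.exp (a * √(m : ℝ)))⁻¹ ≤ (a ^ 4 * (m : ℝ) ^ 2 / 24)⁻¹ :=
        inv_anti₀ (by positivity) h2
    _ = _ := by field_simp

theorem d2sum_nee (t : ℝ) : ‖ee t‖ = 1 := by
  unfold Pool.Agent.Helper31.FI.ee
  rw [show (2 * π * I * t : ℂ) = ((2 * π * t : ℝ) : ℂ) * I by push_cast; ring]
  exact Complex.norm_exp_ofReal_mul_I _

theorem d2sum_contDq {a : ℝ} (ha : 0 < a) : Continuous fun u : ℝ => Dq a u := by
  unfold Dq
  refine continuous_tsum (fun m => ?_) (d2sum_summable ha) ?_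
  · unfold Pool.Agent.Helper31.FI.ee
    fun_prop
  · intro m u
    rw [norm_mul, Complex.norm_real, Real.norm_of_nonneg (Real.exp_pos _).le, d2sum_nee, mul_one]

theorem d2sum_contEq {a c d : ℝ} (ha : 0 < a) (hc : 0 < c) :
    ContinuousOn (fun u : ℝ => Eq2 a u) (Set.Icc c d) := by
  unfold Eq2
  have hsum : Summable fun i : ℕ => (1 + i : ℝ) ^ (-(3 / 2) : ℝ) := by
    have h0 : Summable fun n : ℕ => ((n : ℝ) ^ (-(3 / 2) : ℝ)) := by
      rw [Real.summable_nat_rpow]; norm_num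
    have h1 := (summable_nat_add_iff 1).2 h0
    refine h1.congr fun i => ?_
    push_cast
    rw [add_comm]
  refine continuousOn_tsum (fun i => ?_) hsum ?_
  · apply Continuous.continuousOn
    unfold Pool.Agent.Helper31.FI.ee
    fun_prop
  · intro i u hu
    have hi : (0 : ℝ) < 1 + i := by positivity
    have hu0 : 0 ≤ u := hc.le.trans hu.1
    rw [norm_mul, norm_mul, d2sum_nee, mul_one, Complex.norm_real,
      Real.norm_of_nonneg (Real.rpow_nonneg hi.le _)]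
    refine mul_le_of_le_one_right (Real.rpow_nonneg hi.le _) ?_
    rw [Complex.norm_exp]
    apply Real.exp_le_one_iff.2
    have h2 : (((((a * u / 2 : ℝ) : ℂ) - ((a ^ 2 / (8 * π) : ℝ) : ℂ) * I) / ((1 + i : ℝ) : ℂ))).re
        = (a * u / 2) / (1 + i) := by
      rw [Complex.div_ofReal_re, Complex.sub_re, Complex.ofReal_re, Complex.re_ofReal_mul,
        Complex.I_re, mul_zero, sub_zero]
    rw [Complex.neg_re, h2]
    have : 0 ≤ (a * u / 2) / (1 + i) := by positivity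
    linarith

theorem d2sum_dy (β : ℝ) (h2 : 2 < β) (h3 : β ≤ 3) (hK : HK β) : ∃ C : ℝ, 0 < C ∧
    ∀ (a V : ℝ), 0 < a → a ≤ 1 → 2 ≤ V → V ≤ a ^ (-3 : ℝ) →
    ∫ u in V..(2 * V), ‖Dq a u‖ ^ 4 ≤
      C * (V + (1 + Real.log V) ^ 5 * (a ^ (β - 6) * V ^ (β - 1))) := by
  obtain ⟨C1, hC1, H1⟩ := d2_id
  obtain ⟨C2, hC2, H2⟩ := d2_dy β h2 h3 hK
  refine ⟨128 * C1 ^ 4 + 648 * C2 + 648 * C2, by positivity, ?_⟩
  intro a V ha ha1 hV hVa
  have hV0 : 0 < V := by linarith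
  have hlog : 0 ≤ Real.log V := Real.log_nonneg (by linarith)
  have hcD : Continuous fun u : ℝ => ‖Dq a u‖ ^ 4 := ((d2sum_contDq ha).norm).pow 4
  have hcE : ContinuousOn (fun u : ℝ => ‖Eq2 a u‖ ^ 4) (Set.Icc V (2 * V)) :=
    ((d2sum_contEq ha hV0).norm).pow 4
  have hiE : IntervalIntegrable (fun u : ℝ => ‖Eq2 a u‖ ^ 4) volume V (2 * V) := by
    apply ContinuousOn.intervalIntegrable
    rw [Set.uIcc_of_le (by linarith)]
    exact hcE
  have hpt : ∀ u ∈ Set.Icc V (2 * V), ‖Dq a u‖ ^ 4 ≤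
      648 * V ^ 4 * ‖Eq2 a u‖ ^ 4 + 128 * C1 ^ 4 := by
    intro u hu
    have hu0 : 0 < u := hV0.trans_le hu.1
    have h4 := H1 a u ha hu0
    have h5 : (a + u) * ‖Eq2 a u‖ ≤ 3 * V * ‖Eq2 a u‖ :=
      mul_le_mul_of_nonneg_right (by linarith [hu.2]) (norm_nonneg _)
    have h6 : C1 * (1 + 1 / u ^ 2) ≤ 2 * C1 := by
      have : 1 / u ^ 2 ≤ 1 := by
        rw [div_le_one (by positivity)]
        nlinarith [hu.1]
      nlinarith
    have h7 : ‖Dq a u‖ ≤ 3 * V * ‖Eq2 a u‖ + 2 * C1 := by linarith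
    have h8 : ‖Dq a u‖ ^ 4 ≤ (3 * V * ‖Eq2 a u‖ + 2 * C1) ^ 4 :=
      pow_le_pow_left₀ (norm_nonneg _) h7 4
    have h9 : (3 * V * ‖Eq2 a u‖ + 2 * C1) ^ 4 ≤ 2 ^ 3 * ((3 * V * ‖Eq2 a u‖) ^ 4 + (2 * C1) ^ 4) :=
      add_pow_le (by positivity) (by positivity) 4
    calc ‖Dq a u‖ ^ 4 ≤ _ := h8
      _ ≤ _ := h9
      _ = _ := by ring
  have hint : ∫ u in V..(2 * V), ‖Dq a u‖ ^ 4 ≤
      ∫ u in V..(2 * V), (648 * V ^ 4 * ‖Eq2 a u‖ ^ 4 + 128 * C1 ^ 4) := by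
    apply intervalIntegral.integral_mono_on (by linarith) (hcD.intervalIntegrable _ _)
    · exact (hiE.const_mul _).add intervalIntegrable_const
    · exact hpt
  have hE := H2 a V ha ha1 hV hVa
  have hev : ∫ u in V..(2 * V), (648 * V ^ 4 * ‖Eq2 a u‖ ^ 4 + 128 * C1 ^ 4)
      = 648 * V ^ 4 * (∫ u in V..(2 * V), ‖Eq2 a u‖ ^ 4) + 128 * C1 ^ 4 * V := by
    rw [intervalIntegral.integral_add (hiE.const_mul _) intervalIntegrable_const,
      intervalIntegral.integral_const_mul, intervalIntegral.integral_const, smul_eq_mul]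
    ring
  rw [hev] at hint
  have hp1 : (a * V) ^ (β - 6) = a ^ (β - 6) * V ^ (β - 6) := Real.mul_rpow ha.le hV0.le
  have hp2 : V ^ 4 * (V⁻¹ * (V ^ (β - 6) * V ^ 2)) = V ^ (β - 1) := by
    have e1 : V ^ 4 * (V⁻¹ * (V ^ (β - 6) * V ^ 2)) = V ^ (β - 6) * V ^ 5 := by
      field_simp
    rw [e1, ← Real.rpow_natCast V 5, ← Real.rpow_add hV0]
    congr 1
    push_cast
    ring
  have hp3 : V ^ 4 * (V⁻¹ * V ^ (-10 : ℝ)) ≤ V := by
    have e1 : V ^ 4 * (V⁻¹ * V ^ (-10 : ℝ)) = V ^ (-10 : ℝ) * V ^ 3 := by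
      field_simp
    rw [e1, ← Real.rpow_natCast V 3, ← Real.rpow_add hV0]
    calc V ^ (-10 + ((3 : ℕ) : ℝ)) ≤ V ^ (1 : ℝ) := by
          apply Real.rpow_le_rpow_of_exponent_le (by linarith)
          norm_num
      _ = V := Real.rpow_one V
  have hfin : 648 * V ^ 4 * (C2 * (V⁻¹ * ((1 + Real.log V) ^ 5 * ((a * V) ^ (β - 6) * V ^ 2) +
      V ^ (-10 : ℝ)))) ≤ 648 * C2 * ((1 + Real.log V) ^ 5 * (a ^ (β - 6) * V ^ (β - 1))) +
        648 * C2 * V := by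
    have e2 : 648 * V ^ 4 * (C2 * (V⁻¹ * ((1 + Real.log V) ^ 5 * ((a * V) ^ (β - 6) * V ^ 2) +
      V ^ (-10 : ℝ)))) = 648 * C2 * ((1 + Real.log V) ^ 5 * (a ^ (β - 6) *
        (V ^ 4 * (V⁻¹ * (V ^ (β - 6) * V ^ 2))))) + 648 * C2 * (V ^ 4 * (V⁻¹ * V ^ (-10 : ℝ))) := by
      rw [hp1]; ring
    rw [e2, hp2]
    have := mul_le_mul_of_nonneg_left hp3 (by positivity : (0 : ℝ) ≤ 648 * C2)
    linarith
  have hmul : 648 * V ^ 4 * (∫ u in V..(2 * V), ‖Eq2 a u‖ ^ 4) ≤ 648 * V ^ 4 * (C2 * (V⁻¹ *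
      ((1 + Real.log V) ^ 5 * ((a * V) ^ (β - 6) * V ^ 2) + V ^ (-10 : ℝ)))) :=
    mul_le_mul_of_nonneg_left hE (by positivity)
  have hX : 0 ≤ (1 + Real.log V) ^ 5 * (a ^ (β - 6) * V ^ (β - 1)) := by
    have := Real.rpow_nonneg ha.le (β - 6)
    have := Real.rpow_nonneg hV0.le (β - 1)
    positivity
  have h10 : 0 ≤ C1 ^ 4 := by positivity
  nlinarith [mul_nonneg h10 hX, mul_nonneg hC2.le hX, mul_nonneg hC2.le hV0.le]

/-- `d2_small`, and for dyadic `V' ∈ [2, V]`: `∫_{V'}^{2V'} ‖Dq‖⁴ ≤ C V' + C V'⁴ ∫ ‖Eq2‖⁴` -/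
theorem d2_sum (β : ℝ) (h2 : 2 < β) (h3 : β ≤ 3) (hK : HK β) : ∃ C : ℝ, 0 < C ∧
    ∀ (M : ℕ) (V : ℝ), 1 ≤ M → 0 < V → V ≤ (M : ℝ) ^ (3 / 2 : ℝ) / 2 →
    ∫ u in (0 : ℝ)..V, ‖Dq ((M : ℝ) ^ (-(1 / 2) : ℝ)) u‖ ^ 4 ≤
      C * ((M : ℝ) ^ (7 / 2 : ℝ) + V + (1 + Real.log M) ^ 6 * (V ^ (β - 1) * (M : ℝ) ^ (3 - β / 2))) := by
  obtain ⟨Cs, hCs, Hs⟩ := d2_small
  obtain ⟨Cd, hCd, Hd⟩ := d2sum_dy β h2 h3 hK
  refine ⟨Cs + 23 * Cd, by positivity, ?_⟩
  intro M V hM hV hVM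
  have hM1 : (1 : ℝ) ≤ M := by exact_mod_cast hM
  have hM0 : (0 : ℝ) < M := by linarith
  set a : ℝ := (M : ℝ) ^ (-(1 / 2) : ℝ) with ha_def
  have ha : 0 < a := Real.rpow_pos_of_pos hM0 _
  have ha1 : a ≤ 1 := Real.rpow_le_one_of_one_le_of_nonpos hM1 (by norm_num)
  have hlM : 0 ≤ Real.log M := Real.log_nonneg hM1
  have hcD : Continuous fun u : ℝ => ‖Dq a u‖ ^ 4 := ((d2sum_contDq ha).norm).pow 4
  have hii : ∀ x y : ℝ, IntervalIntegrable (fun u : ℝ => ‖Dq a u‖ ^ 4) volume x y :=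
    fun x y => hcD.intervalIntegrable x y
  have hmon : ∀ x y : ℝ, 0 ≤ x → x ≤ y →
      ∫ u in (0 : ℝ)..x, ‖Dq a u‖ ^ 4 ≤ ∫ u in (0 : ℝ)..y, ‖Dq a u‖ ^ 4 := by
    intro x y hx hxy
    apply intervalIntegral.integral_mono_interval le_rfl hx hxy _ (hii 0 y)
    exact Filter.Eventually.of_forall fun u => by positivity
  have ha7 : a ^ (-7 : ℝ) = (M : ℝ) ^ (7 / 2 : ℝ) := by
    rw [ha_def, ← Real.rpow_mul hM0.le]; norm_num
  have ha3 : a ^ (-3 : ℝ) = (M : ℝ) ^ (3 / 2 : ℝ) := by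
    rw [ha_def, ← Real.rpow_mul hM0.le]; norm_num
  have hab : a ^ (β - 6) = (M : ℝ) ^ (3 - β / 2) := by
    rw [ha_def, ← Real.rpow_mul hM0.le]
    congr 1; ring
  have hs2 := Hs a ha ha1
  rw [ha7] at hs2
  have hM72 : 0 ≤ (M : ℝ) ^ (7 / 2 : ℝ) := Real.rpow_nonneg hM0.le _
  have hMb : 0 ≤ (M : ℝ) ^ (3 - β / 2) := Real.rpow_nonneg hM0.le _
  have hVb : 0 ≤ V ^ (β - 1) := Real.rpow_nonneg hV.le _
  have hX : 0 ≤ (1 + Real.log M) ^ 6 * (V ^ (β - 1) * (M : ℝ) ^ (3 - β / 2)) := by positivity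
  rcases lt_or_ge V 2 with hV2 | hV2
  · have h4 := hmon V 2 hV.le hV2.le
    calc ∫ u in (0 : ℝ)..V, ‖Dq a u‖ ^ 4 ≤ Cs * (M : ℝ) ^ (7 / 2 : ℝ) := h4.trans hs2
      _ ≤ (Cs + 23 * Cd) * ((M : ℝ) ^ (7 / 2 : ℝ) + V +
          (1 + Real.log M) ^ 6 * (V ^ (β - 1) * (M : ℝ) ^ (3 - β / 2))) := by
        apply mul_le_mul (by linarith) (by linarith) hM72 (by positivity)
  · obtain ⟨n, hn1, hn2⟩ := exists_nat_pow_near (show (1 : ℝ) ≤ V by linarith) (show (1 : ℝ) < 2 by norm_num)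
    have hVle : V ≤ (M : ℝ) ^ (3 / 2 : ℝ) := by
      have : 0 ≤ (M : ℝ) ^ (3 / 2 : ℝ) := Real.rpow_nonneg hM0.le _
      linarith
    have hlV0 : 0 ≤ Real.log V := Real.log_nonneg (by linarith)
    have hlV : Real.log V ≤ 3 / 2 * Real.log M := by
      have := Real.log_le_log hV hVle
      rwa [Real.log_rpow hM0] at this
    have h5 : ∫ u in (0 : ℝ)..V, ‖Dq a u‖ ^ 4 ≤ (∫ u in (0 : ℝ)..2, ‖Dq a u‖ ^ 4) +
        ∑ j ∈ range n, ∫ u in ((2 : ℝ) ^ (j + 1))..((2 : ℝ) ^ (j + 1 + 1)), ‖Dq a u‖ ^ 4 := by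
      have e1 := intervalIntegral.sum_integral_adjacent_intervals
        (f := fun u : ℝ => ‖Dq a u‖ ^ 4) (μ := volume) (a := fun j : ℕ => (2 : ℝ) ^ (j + 1)) (n := n)
        (fun j _ => hii _ _)
      rw [e1, show ((2 : ℝ) ^ (0 + 1)) = 2 by norm_num,
        intervalIntegral.integral_add_adjacent_intervals (hii _ _) (hii _ _)]
      exact hmon V _ hV.le hn2.le
    have h6 : ∀ j ∈ range n, ∫ u in ((2 : ℝ) ^ (j + 1))..((2 : ℝ) ^ (j + 1 + 1)), ‖Dq a u‖ ^ 4 ≤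
        Cd * ((2 : ℝ) ^ (j + 1)) + Cd * ((3 / 2 * (1 + Real.log M)) ^ 5 *
          (V ^ (β - 1) * (M : ℝ) ^ (3 - β / 2))) := by
      intro j hj
      rw [mem_range] at hj
      have hjV : (2 : ℝ) ^ (j + 1) ≤ V := by
        refine le_trans ?_ hn1
        exact pow_le_pow_right₀ (by norm_num) (by omega)
      have hj0 : (0 : ℝ) < (2 : ℝ) ^ (j + 1) := by positivity
      have hj2 : (2 : ℝ) ≤ (2 : ℝ) ^ (j + 1) := by
        calc (2 : ℝ) = 2 ^ 1 := by norm_num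
          _ ≤ 2 ^ (j + 1) := pow_le_pow_right₀ (by norm_num) (by omega)
      have h7 := Hd a ((2 : ℝ) ^ (j + 1)) ha ha1 hj2 (by rw [ha3]; exact hjV.trans hVle)
      rw [show (2 : ℝ) * 2 ^ (j + 1) = 2 ^ (j + 1 + 1) by ring, hab] at h7
      have h8 : 0 ≤ Real.log ((2 : ℝ) ^ (j + 1)) := Real.log_nonneg (by linarith)
      have h9 : 1 + Real.log ((2 : ℝ) ^ (j + 1)) ≤ 3 / 2 * (1 + Real.log M) := by
        have := Real.log_le_log hj0 hjV
        linarith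
      have h10 : (1 + Real.log ((2 : ℝ) ^ (j + 1))) ^ 5 ≤ (3 / 2 * (1 + Real.log M)) ^ 5 :=
        pow_le_pow_left₀ (by linarith) h9 5
      have h11 : ((2 : ℝ) ^ (j + 1)) ^ (β - 1) ≤ V ^ (β - 1) :=
        Real.rpow_le_rpow hj0.le hjV (by linarith)
      have h12 : (1 + Real.log ((2 : ℝ) ^ (j + 1))) ^ 5 * ((M : ℝ) ^ (3 - β / 2) *
          ((2 : ℝ) ^ (j + 1)) ^ (β - 1)) ≤ (3 / 2 * (1 + Real.log M)) ^ 5 *
          (V ^ (β - 1) * (M : ℝ) ^ (3 - β / 2)) := by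
        rw [mul_comm (V ^ (β - 1))]
        apply mul_le_mul h10 (mul_le_mul_of_nonneg_left h11 hMb)
          (mul_nonneg hMb (Real.rpow_nonneg hj0.le _)) (by positivity)
      calc _ ≤ _ := h7
        _ ≤ Cd * ((2 : ℝ) ^ (j + 1) + (3 / 2 * (1 + Real.log M)) ^ 5 *
          (V ^ (β - 1) * (M : ℝ) ^ (3 - β / 2))) := by
            apply mul_le_mul_of_nonneg_left _ hCd.le
            linarith
        _ = _ := by ring
    have hgeo : ∀ m : ℕ, ∑ j ∈ range m, (2 : ℝ) ^ (j + 1) ≤ 2 ^ (m + 1) := by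
      intro m
      induction m with
      | zero => simp
      | succ m ih =>
        rw [sum_range_succ]
        calc _ ≤ (2 : ℝ) ^ (m + 1) + 2 ^ (m + 1) := by linarith
          _ = _ := by ring
    have hnl : (n : ℝ) ≤ 3 * (1 + Real.log M) := by
      have h13 := Real.log_le_log (by positivity) hn1
      rw [Real.log_pow] at h13
      have h14 : (1 : ℝ) / 2 ≤ Real.log 2 := by have := Real.log_two_gt_d9; linarith
      have h15 : (n : ℝ) * (1 / 2) ≤ n * Real.log 2 := mul_le_mul_of_nonneg_left h14 (by positivity)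
      linarith
    set Y : ℝ := V ^ (β - 1) * (M : ℝ) ^ (3 - β / 2) with hY
    have hY0 : 0 ≤ Y := by positivity
    have h16 : ∑ j ∈ range n, ∫ u in ((2 : ℝ) ^ (j + 1))..((2 : ℝ) ^ (j + 1 + 1)), ‖Dq a u‖ ^ 4 ≤
        Cd * (2 * V) + Cd * (23 * ((1 + Real.log M) ^ 6 * Y)) := by
      calc _ ≤ ∑ j ∈ range n, (Cd * ((2 : ℝ) ^ (j + 1)) + Cd * ((3 / 2 * (1 + Real.log M)) ^ 5 * Y)) :=
            sum_le_sum h6
        _ = Cd * (∑ j ∈ range n, (2 : ℝ) ^ (j + 1)) +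
            n * (Cd * ((3 / 2 * (1 + Real.log M)) ^ 5 * Y)) := by
            rw [sum_add_distrib, ← mul_sum, sum_const, card_range, nsmul_eq_mul]
        _ ≤ Cd * (2 * V) + (3 * (1 + Real.log M)) * (Cd * ((3 / 2 * (1 + Real.log M)) ^ 5 * Y)) := by
            apply add_le_add
            · apply mul_le_mul_of_nonneg_left _ hCd.le
              refine (hgeo n).trans ?_
              rw [pow_succ]
              linarith
            · apply mul_le_mul_of_nonneg_right hnl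
              positivity
        _ ≤ _ := by
            have : 0 ≤ Cd * ((1 + Real.log M) ^ 6 * Y) := by positivity
            have e3 : (3 * (1 + Real.log M)) * (Cd * ((3 / 2 * (1 + Real.log M)) ^ 5 * Y))
              = 729 / 32 * (Cd * ((1 + Real.log M) ^ 6 * Y)) := by ring
            rw [e3]
            linarith
    have h17 : 0 ≤ (1 + Real.log M) ^ 6 * Y := by positivity
    nlinarith [mul_nonneg hCs.le hV.le, mul_nonneg hCs.le h17, mul_nonneg hCd.le hM72,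
      mul_nonneg hCd.le hV.le, mul_nonneg hCd.le h17]

theorem dirII (β : ℝ) (h2 : 2 < β) (h3 : β ≤ 3) (hK : HK β) : ∃ C : ℝ, 0 < C ∧
    ∀ M : ℕ, 1 ≤ M → cn (Ico M (2 * M)) (fun i => √(i : ℝ)) (1 / (M : ℝ) ^ (3 / 2 : ℝ)) ≤
      C * ((1 + Real.log M) ^ 6 * (M : ℝ) ^ (2 + (β - 2) / (β - 1))) := by
  obtain ⟨C1, hC1, H1⟩ := d2_fej
  obtain ⟨C2, hC2, H2⟩ := d2_sum β h2 h3 hK
  refine ⟨C1 * (C2 * 4), by positivity, ?_⟩
  intro M hM
  have hM1 : (1 : ℝ) ≤ M := by exact_mod_cast hM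
  have hM0 : (0 : ℝ) < M := by linarith
  have hlM : 0 ≤ Real.log M := Real.log_nonneg hM1
  have hb1 : 0 < β - 1 := by linarith
  set r : ℝ := (β - 2) / (β - 1) with hr
  have hr0 : 0 ≤ r := div_nonneg (by linarith) hb1.le
  have hrb : r * (β - 1) = β - 2 := div_mul_cancel₀ _ hb1.ne'
  set R : ℝ := (M : ℝ) ^ r with hR
  have hR1 : 1 ≤ R := Real.one_le_rpow hM1 hr0
  have hR0 : 0 < R := by linarith
  have hM32 : 0 < (M : ℝ) ^ (3 / 2 : ℝ) := Real.rpow_pos_of_pos hM0 _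
  set V : ℝ := (M : ℝ) ^ (3 / 2 : ℝ) / (2 * R) with hV
  have hV0 : 0 < V := by positivity
  have hVle : V ≤ (M : ℝ) ^ (3 / 2 : ℝ) / 2 := by
    rw [hV, div_le_div_iff₀ (by positivity) (by norm_num)]
    nlinarith
  have h2V : 1 / (2 * V) = R / (M : ℝ) ^ (3 / 2 : ℝ) := by
    rw [hV]; field_simp
  have h5 : 1 / (M : ℝ) ^ (3 / 2 : ℝ) ≤ 1 / (2 * V) := by
    rw [h2V]
    gcongr
  have hint0 := H2 M V hM hV0 hVle
  have hfe := H1 M V hM hV0
  have hcm := cn_mono (Ico M (2 * M)) (fun i => √(i : ℝ)) h5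
  refine hcm.trans (hfe.trans ?_)
  have h6 : C1 / V * (∫ u in (0 : ℝ)..V, ‖Dq ((M : ℝ) ^ (-(1 / 2) : ℝ)) u‖ ^ 4) ≤
      C1 / V * (C2 * ((M : ℝ) ^ (7 / 2 : ℝ) + V +
        (1 + Real.log M) ^ 6 * (V ^ (β - 1) * (M : ℝ) ^ (3 - β / 2)))) :=
    mul_le_mul_of_nonneg_left hint0 (by positivity)
  refine h6.trans ?_
  set Z : ℝ := (M : ℝ) ^ (2 + r) with hZ
  have hZ1 : 1 ≤ Z := Real.one_le_rpow hM1 (by linarith)
  have hL1 : 1 ≤ (1 + Real.log M) ^ 6 := one_le_pow₀ (by linarith)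
  -- first term
  have t1 : (M : ℝ) ^ (7 / 2 : ℝ) / V = 2 * Z := by
    rw [hV, hZ, Real.rpow_add hM0, ← hR, div_div_eq_mul_div]
    have : (M : ℝ) ^ (7 / 2 : ℝ) = (M : ℝ) ^ (2 : ℝ) * (M : ℝ) ^ (3 / 2 : ℝ) := by
      rw [← Real.rpow_add hM0]; norm_num
    rw [this]
    field_simp
  -- third term
  have t3 : V ^ (β - 1) * (M : ℝ) ^ (3 - β / 2) / V ≤ Z := by
    have e1 : V ^ (β - 1) / V = V ^ (β - 2) := by
      rw [← Real.rpow_sub_one hV0.ne']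
      congr 1; ring
    have e2 : V ^ (β - 1) * (M : ℝ) ^ (3 - β / 2) / V = V ^ (β - 2) * (M : ℝ) ^ (3 - β / 2) := by
      rw [← e1]; ring
    have e3 : V ≤ (M : ℝ) ^ (3 / 2 - r) := by
      rw [Real.rpow_sub hM0, ← hR, hV]
      apply div_le_div_of_nonneg_left hM32.le hR0
      linarith
    have e4 : V ^ (β - 2) ≤ ((M : ℝ) ^ (3 / 2 - r)) ^ (β - 2) :=
      Real.rpow_le_rpow hV0.le e3 (by linarith)
    rw [e2]
    calc V ^ (β - 2) * (M : ℝ) ^ (3 - β / 2) ≤ ((M : ℝ) ^ (3 / 2 - r)) ^ (β - 2) * (M : ℝ) ^ (3 - β / 2) :=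
          mul_le_mul_of_nonneg_right e4 (Real.rpow_nonneg hM0.le _)
      _ = Z := by
          rw [← Real.rpow_mul hM0.le, ← Real.rpow_add hM0, hZ]
          congr 1
          have : (3 / 2 - r) * (β - 2) = 3 / 2 * (β - 2) - (r * (β - 1)) + r := by ring
          rw [this, hrb]
          ring
  have e5 : C1 / V * (C2 * ((M : ℝ) ^ (7 / 2 : ℝ) + V +
        (1 + Real.log M) ^ 6 * (V ^ (β - 1) * (M : ℝ) ^ (3 - β / 2))))
      = C1 * (C2 * ((M : ℝ) ^ (7 / 2 : ℝ) / V + 1 +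
        (1 + Real.log M) ^ 6 * (V ^ (β - 1) * (M : ℝ) ^ (3 - β / 2) / V))) := by
    field_simp
  rw [e5, t1]
  have h7 : 2 * Z + 1 + (1 + Real.log M) ^ 6 * (V ^ (β - 1) * (M : ℝ) ^ (3 - β / 2) / V) ≤
      4 * ((1 + Real.log M) ^ 6 * Z) := by
    have h8 := mul_le_mul_of_nonneg_left t3 (by positivity : 0 ≤ (1 + Real.log M) ^ 6)
    have h9 : Z ≤ (1 + Real.log M) ^ 6 * Z := by nlinarith
    linarith
  calc C1 * (C2 * (2 * Z + 1 + (1 + Real.log M) ^ 6 * (V ^ (β - 1) * (M : ℝ) ^ (3 - β / 2) / V)))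
      ≤ C1 * (C2 * (4 * ((1 + Real.log M) ^ 6 * Z))) := by gcongr
    _ = C1 * (C2 * 4) * ((1 + Real.log M) ^ 6 * Z) := by ring

end Pool.Agent.Helper31.FM
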