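import Pool.Agent.Helper31.FM.DirI
import Pool.Agent.Helper31.FM.DirII

/-!
# FM-BO: bootstrapping, `HK β` and `HM β` for every `β > 2`

`φ β = 2 + (β-2)/(β-1) < β` for `β > 2`.  `dirI`, `dirII`, `hk_of_weak`, `hm_of_weak` and `(1 + log K)^6 ≤ C_η K^η`: if `HK β ∧ HM β`,
`2 < β ≤ 3`, then `HK β' ∧ HM β'` for every `β' > φ β`.  Let `S = {β | 2 < β ≤ 3, HK β ∧ HM β} ∋ 3`, `b = inf S ≥ 2`.  If `b > 2`:
`φ` is continuous and `φ b < b`, so some `β ∈ S` close to `b` has `φ β < b`, and some `β' < b` is in `S`, a contradiction.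
So `b = 2`, and `HK_mono`, `HM_mono` finish.
-/

set_option autoImplicit false

namespace Pool.Agent.Helper31.FM

open Complex Real Finset MeasureTheory
open Pool.Agent.Helper31.FI (ee ze mains)

theorem boot_log (η : ℝ) (hη : 0 < η) : ∃ C : ℝ, 0 < C ∧ ∀ K : ℕ, 1 ≤ K →
    (1 + Real.log K) ^ 6 ≤ C * (K : ℝ) ^ η := by
  refine ⟨(1 + 1 / (η / 6)) ^ 6, by positivity, fun K hK => ?_⟩
  have hK1 : (1 : ℝ) ≤ K := by exact_mod_cast hK
  have hK0 : (0 : ℝ) ≤ K := by linarith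
  have h1 : Real.log K ≤ (K : ℝ) ^ (η / 6) / (η / 6) := Real.log_le_rpow_div hK0 (by positivity)
  have h2 : (1 : ℝ) ≤ (K : ℝ) ^ (η / 6) := Real.one_le_rpow hK1 (by positivity)
  have h3 : 1 + Real.log K ≤ (1 + 1 / (η / 6)) * (K : ℝ) ^ (η / 6) := by
    have : (1 + 1 / (η / 6)) * (K : ℝ) ^ (η / 6) =
        (K : ℝ) ^ (η / 6) + (K : ℝ) ^ (η / 6) / (η / 6) := by ring
    rw [this]
    linarith
  have h4 : 0 ≤ 1 + Real.log K := by
    have := Real.log_nonneg hK1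
    linarith
  calc (1 + Real.log K) ^ 6 ≤ ((1 + 1 / (η / 6)) * (K : ℝ) ^ (η / 6)) ^ 6 := by gcongr
    _ = (1 + 1 / (η / 6)) ^ 6 * (K : ℝ) ^ η := by
      rw [mul_pow, ← Real.rpow_natCast ((K : ℝ) ^ (η / 6)) 6, ← Real.rpow_mul hK0]
      congr 2
      push_cast
      ring

theorem boot_aux {β β' : ℝ} {f : ℕ → ℝ}
    {C : ℝ} (hC : 0 < C)
    (hf : ∀ K : ℕ, 1 ≤ K → f K ≤ C * ((1 + Real.log K) ^ 6 * (K : ℝ) ^ (2 + (β - 2) / (β - 1))))
    {D : ℝ} (hD : ∀ K : ℕ, 1 ≤ K →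
      (1 + Real.log K) ^ 6 ≤ D * (K : ℝ) ^ (β' - (2 + (β - 2) / (β - 1)))) {K : ℕ} (hK : 1 ≤ K) :
    f K ≤ (C * D) * (K : ℝ) ^ β' := by
  have hK0 : (0 : ℝ) < K := by exact_mod_cast hK
  calc f K ≤ C * ((1 + Real.log K) ^ 6 * (K : ℝ) ^ (2 + (β - 2) / (β - 1))) := hf K hK
    _ ≤ C * (D * (K : ℝ) ^ (β' - (2 + (β - 2) / (β - 1))) *
        (K : ℝ) ^ (2 + (β - 2) / (β - 1))) := by
      gcongr
      exact hD K hK
    _ = (C * D) * (K : ℝ) ^ β' := by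
      rw [mul_assoc D, ← Real.rpow_add hK0, sub_add_cancel]
      ring

theorem boot_step {β β' : ℝ} (h2 : 2 < β) (h3 : β ≤ 3) (h : 2 + (β - 2) / (β - 1) < β')
    (hK : HK β) (hM : HM β) : HK β' ∧ HM β' := by
  obtain ⟨C1, hC1, h1⟩ := dirI β h2 h3 hM
  obtain ⟨C2, hC2, h2'⟩ := dirII β h2 h3 hK
  obtain ⟨D, hD, hlog⟩ := boot_log (β' - (2 + (β - 2) / (β - 1))) (by linarith)
  constructor
  · refine hk_of_weak β' ⟨C1 * D, by positivity, fun ν K hν hν1 hK => ?_⟩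
    exact boot_aux (f := fun K => cn (Ico K (2 * K)) (fun i => 1 / (ν + i)) (1 / (K : ℝ) ^ (3 : ℝ)))
      hC1 (fun K hK => h1 ν K hν hν1 hK) hlog hK
  · refine hm_of_weak β' ⟨C2 * D, by positivity, fun M hM => ?_⟩
    exact boot_aux (f := fun M => cn (Ico M (2 * M)) (fun i => √(i : ℝ))
      (1 / (M : ℝ) ^ (3 / 2 : ℝ))) hC2 h2' hlog hM

theorem boot (β : ℝ) (hβ : 2 < β) : HK β ∧ HM β := by
  set S : Set ℝ := {b | 2 < b ∧ b ≤ 3 ∧ HK b ∧ HM b} with hS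
  have h3 : (3 : ℝ) ∈ S := ⟨by norm_num, le_rfl, hk_three, hm_three⟩
  have hbdd : BddBelow S := ⟨2, fun x hx => hx.1.le⟩
  have hb3 : sInf S ≤ 3 := csInf_le hbdd h3
  have hb : sInf S ≤ 2 := by
    by_contra hcon
    push Not at hcon
    set y := sInf S - 2 with hy
    have hy0 : 0 < y := by linarith
    have hy1 : y ≤ 1 := by linarith
    have h4 : sInf S < sInf S + y ^ 2 := by
      have : 0 < y ^ 2 := by positivity
      linarith
    obtain ⟨b, hb, hlt⟩ := exists_lt_of_csInf_lt ⟨3, h3⟩ h4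
    obtain ⟨hb2, hb3', hbK, hbM⟩ := hb
    have h5 : (b - 2) / (b - 1) < y := by
      rw [div_lt_iff₀ (by linarith)]
      have h6 : b - 2 < y + y ^ 2 := by linarith
      have h7 : (b - 2) * (1 - y) ≤ (y + y ^ 2) * (1 - y) :=
        mul_le_mul_of_nonneg_right h6.le (by linarith)
      have h8 : 0 < y ^ 3 := by positivity
      nlinarith
    have h9 : 0 < (b - 2) / (b - 1) := div_pos (by linarith) (by linarith)
    have h10 : 2 + (b - 2) / (b - 1) < ((2 + (b - 2) / (b - 1)) + sInf S) / 2 := by linarith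
    have h11 := boot_step hb2 hb3' h10 hbK hbM
    have h12 : ((2 + (b - 2) / (b - 1)) + sInf S) / 2 ∈ S :=
      ⟨by linarith, by linarith, h11⟩
    have h13 := csInf_le hbdd h12
    linarith
  obtain ⟨b, ⟨-, -, hbK, hbM⟩, hlt⟩ := exists_lt_of_csInf_lt ⟨3, h3⟩ (lt_of_le_of_lt hb hβ)
  exact ⟨HK_mono hlt.le hbK, HM_mono hlt.le hbM⟩

end Pool.Agent.Helper31.FM
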