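import Pool.Agent.Helper31.FM.Defs

/-!
# FM-CN: elementary facts on the counting function `cn`

* `cn_double`: put the pair `(a, b)` into the bin `⌊(w a + w b)/δ₀⌋`; let `n_t` be the number of pairs in bin `t`.  Then
  `∑ n_t² ≤ cn δ₀`, and pairs counted by `cn δ` lie in bins with `|t - t'| ≤ ⌈δ/δ₀⌉ =: H ≤ δ/δ₀ + 1` (for each of the `2H+1`
  shifts `n_t n_{t+h} ≤ (n_t² + n_{t+h}²)/2`), so `cn δ ≤ (2H+1) ∑ n_t² ≤ (2 δ/δ₀ + 3) cn δ₀`.
* `cn_map`: the map `e` on each coordinate is injective on the set of quadruples.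
* `hk_three`, `hm_three`: given `a, b, c` the number `w d` lies in an interval of length `2δ`; for `w = 1/(ν+i)`, `i ∈ [K,2K)` two
  values of `w` differ by at least `1/(2K+1)²`-ish, so at most `1 + 2δ (2K+1)² ≤ 1 + 18 δ K²` choices; for `√`: `1 + 2δ·2√(2M)`.
-/

set_option autoImplicit false

namespace Pool.Agent.Helper31.FM

open Complex Real Finset MeasureTheory
open Pool.Agent.Helper31.FI (ee ze mains)

theorem cn_nonneg (J : Finset ℕ) (w : ℕ → ℝ) (δ : ℝ) : 0 ≤ cn J w δ := by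
  unfold cn
  exact Nat.cast_nonneg _

theorem cn_le_card (J : Finset ℕ) (w : ℕ → ℝ) (δ : ℝ) : cn J w δ ≤ (J.card : ℝ) ^ 4 := by
  classical
  unfold cn
  have h1 := Finset.card_filter_le ((J ×ˢ J) ×ˢ (J ×ˢ J))
    (fun p : (ℕ × ℕ) × (ℕ × ℕ) => |w p.1.1 + w p.1.2 - (w p.2.1 + w p.2.2)| ≤ δ)
  rw [Finset.card_product, Finset.card_product] at h1
  have h2 : (((J.card * J.card * (J.card * J.card) : ℕ)) : ℝ) = (J.card : ℝ) ^ 4 := by
    push_cast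
    ring
  rw [← h2]
  exact_mod_cast h1

theorem cn_diag (J : Finset ℕ) (w : ℕ → ℝ) {δ : ℝ} (h : 0 ≤ δ) : (J.card : ℝ) ^ 2 ≤ cn J w δ := by
  classical
  unfold cn
  have h1 : ((J ×ˢ J).image (fun q : ℕ × ℕ => (q, q))).card = J.card * J.card := by
    rw [Finset.card_image_of_injective _ (fun x y hxy => (Prod.mk.inj hxy).1),
      Finset.card_product]
  have h2 : (J ×ˢ J).image (fun q : ℕ × ℕ => (q, q)) ⊆
      ((J ×ˢ J) ×ˢ (J ×ˢ J)).filter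
        (fun p : (ℕ × ℕ) × (ℕ × ℕ) => |w p.1.1 + w p.1.2 - (w p.2.1 + w p.2.2)| ≤ δ) := by
    intro p hp
    rw [Finset.mem_image] at hp
    obtain ⟨q, hq, rfl⟩ := hp
    rw [Finset.mem_filter]
    refine ⟨Finset.mem_product.mpr ⟨hq, hq⟩, ?_⟩
    show |w q.1 + w q.2 - (w q.1 + w q.2)| ≤ δ
    rw [sub_self, abs_zero]
    exact h
  have h3 := Finset.card_le_card h2
  rw [h1] at h3
  have h4 : (J.card : ℝ) ^ 2 = ((J.card * J.card : ℕ) : ℝ) := by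
    push_cast
    ring
  rw [h4]
  exact_mod_cast h3

theorem cn_mono (J : Finset ℕ) (w : ℕ → ℝ) {δ δ' : ℝ} (h : δ ≤ δ') : cn J w δ ≤ cn J w δ' := by
  classical
  unfold cn
  have h1 : ((J ×ˢ J) ×ˢ (J ×ˢ J)).filter
      (fun p : (ℕ × ℕ) × (ℕ × ℕ) => |w p.1.1 + w p.1.2 - (w p.2.1 + w p.2.2)| ≤ δ) ⊆
      ((J ×ˢ J) ×ˢ (J ×ˢ J)).filter
      (fun p : (ℕ × ℕ) × (ℕ × ℕ) => |w p.1.1 + w p.1.2 - (w p.2.1 + w p.2.2)| ≤ δ') := by
    intro p hp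
    rw [Finset.mem_filter] at hp ⊢
    exact ⟨hp.1, hp.2.trans h⟩
  exact_mod_cast Finset.card_le_card h1

theorem cn_sub {J J' : Finset ℕ} (w : ℕ → ℝ) (δ : ℝ) (h : J ⊆ J') : cn J w δ ≤ cn J' w δ := by
  classical
  unfold cn
  have h1 : ((J ×ˢ J) ×ˢ (J ×ˢ J)).filter
      (fun p : (ℕ × ℕ) × (ℕ × ℕ) => |w p.1.1 + w p.1.2 - (w p.2.1 + w p.2.2)| ≤ δ) ⊆
      ((J' ×ˢ J') ×ˢ (J' ×ˢ J')).filter
      (fun p : (ℕ × ℕ) × (ℕ × ℕ) => |w p.1.1 + w p.1.2 - (w p.2.1 + w p.2.2)| ≤ δ) := by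
    intro p hp
    rw [Finset.mem_filter] at hp ⊢
    refine ⟨?_, hp.2⟩
    have h2 := hp.1
    rw [Finset.mem_product, Finset.mem_product, Finset.mem_product] at h2 ⊢
    exact ⟨⟨h h2.1.1, h h2.1.2⟩, ⟨h h2.2.1, h h2.2.2⟩⟩
  exact_mod_cast Finset.card_le_card h1

private lemma fm05_shift (S : Finset (ℕ × ℕ)) (t : ℕ × ℕ → ℤ) (h : ℤ) :
    ((S ×ˢ S).filter (fun p => t p.1 = t p.2 + h)).card ≤
      ((S ×ˢ S).filter (fun p => t p.1 = t p.2)).card := by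
  classical
  set n : ℤ → ℕ := fun a => (S.filter (fun p => t p = a)).card with hn
  have key : ∀ k : ℤ, ((S ×ˢ S).filter (fun p => t p.1 = t p.2 + k)).card =
      ∑ b ∈ S.image t, n b * n (b + k) := by
    intro k
    rw [Finset.card_filter, Finset.sum_product_right]
    have h1 : ∀ q ∈ S, (∑ p ∈ S, if t p = t q + k then 1 else 0) = n (t q + k) := by
      intro q _
      rw [hn, ← Finset.card_filter]
    rw [Finset.sum_congr rfl h1, Finset.sum_comp (fun b => n (b + k)) t]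
    refine Finset.sum_congr rfl fun b _ => ?_
    rw [smul_eq_mul]
  have h0 := key 0
  have hh := key h
  simp only [add_zero] at h0
  rw [hh, h0]
  have h2 : ∑ b ∈ S.image t, n (b + h) * n (b + h) ≤ ∑ b ∈ S.image t, n b * n b := by
    have e : ∑ b ∈ S.image t, n (b + h) * n (b + h) =
        ∑ c ∈ (S.image t).map (addRightEmbedding h), n c * n c := by
      rw [Finset.sum_map]
      rfl
    rw [e]
    refine Finset.sum_le_sum_of_ne_zero fun c _ hc => ?_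
    have h3 : n c ≠ 0 := fun h4 => hc (by rw [h4, mul_zero])
    have h4 : (S.filter (fun p => t p = c)).Nonempty := Finset.card_ne_zero.mp h3
    obtain ⟨p, hp⟩ := h4
    rw [Finset.mem_filter] at hp
    exact Finset.mem_image.mpr ⟨p, hp.1, hp.2⟩
  have h5 : 2 * ∑ b ∈ S.image t, n b * n (b + h) ≤
      ∑ b ∈ S.image t, n b * n b + ∑ b ∈ S.image t, n (b + h) * n (b + h) := by
    rw [Finset.mul_sum, ← Finset.sum_add_distrib]
    refine Finset.sum_le_sum fun b _ => ?_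
    nlinarith [sq_nonneg ((n b : ℤ) - n (b + h)), two_mul_le_add_sq (n b) (n (b + h))]
  omega

theorem cn_double (J : Finset ℕ) (w : ℕ → ℝ) {δ₀ δ : ℝ} (h0 : 0 < δ₀) (h : 0 ≤ δ) :
    cn J w δ ≤ (2 * (δ / δ₀) + 3) * cn J w δ₀ := by
  classical
  set t : ℕ × ℕ → ℤ := fun p => ⌊(w p.1 + w p.2) / δ₀⌋ with ht
  set H : ℤ := ⌈δ / δ₀⌉ with hH
  have hD : 0 ≤ δ / δ₀ := div_nonneg h h0.le
  have hH0 : 0 ≤ H := Int.ceil_nonneg hD
  have hH1 : (H : ℝ) < δ / δ₀ + 1 := Int.ceil_lt_add_one _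
  have hH2 : δ / δ₀ ≤ (H : ℝ) := Int.le_ceil _
  set S := J ×ˢ J with hS
  have hA : ((S ×ˢ S).filter (fun p : (ℕ × ℕ) × (ℕ × ℕ) => t p.1 = t p.2)).card ≤
      ((S ×ˢ S).filter
        (fun p : (ℕ × ℕ) × (ℕ × ℕ) => |w p.1.1 + w p.1.2 - (w p.2.1 + w p.2.2)| ≤ δ₀)).card := by
    refine Finset.card_le_card fun p hp => ?_
    rw [Finset.mem_filter] at hp ⊢
    refine ⟨hp.1, ?_⟩
    have h1 := Int.abs_sub_lt_one_of_floor_eq_floor hp.2
    rw [← sub_div, abs_div, abs_of_pos h0, div_lt_one h0] at h1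
    exact h1.le
  have hB : (S ×ˢ S).filter
        (fun p : (ℕ × ℕ) × (ℕ × ℕ) => |w p.1.1 + w p.1.2 - (w p.2.1 + w p.2.2)| ≤ δ) ⊆
      (Finset.Icc (-H) H).biUnion (fun k => (S ×ˢ S).filter (fun p => t p.1 = t p.2 + k)) := by
    intro p hp
    rw [Finset.mem_filter] at hp
    rw [Finset.mem_biUnion]
    refine ⟨t p.1 - t p.2, ?_, ?_⟩
    · have h1 : |(w p.1.1 + w p.1.2) / δ₀ - (w p.2.1 + w p.2.2) / δ₀| ≤ δ / δ₀ := by
        rw [← sub_div, abs_div, abs_of_pos h0]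
        exact div_le_div_of_nonneg_right hp.2 h0.le
      rw [abs_le] at h1
      have a1 := Int.floor_le ((w p.1.1 + w p.1.2) / δ₀)
      have a2 := Int.lt_floor_add_one ((w p.1.1 + w p.1.2) / δ₀)
      have b1 := Int.floor_le ((w p.2.1 + w p.2.2) / δ₀)
      have b2 := Int.lt_floor_add_one ((w p.2.1 + w p.2.2) / δ₀)
      rw [Finset.mem_Icc]
      constructor
      · have : (-H : ℝ) - 1 < (t p.1 : ℝ) - t p.2 := by
          simp only [ht]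
          linarith [h1.1]
        have h3 : -H - 1 < t p.1 - t p.2 := by exact_mod_cast this
        omega
      · have : (t p.1 : ℝ) - t p.2 < (H : ℝ) + 1 := by
          simp only [ht]
          linarith [h1.2]
        have h3 : t p.1 - t p.2 < H + 1 := by exact_mod_cast this
        omega
    · rw [Finset.mem_filter]
      exact ⟨hp.1, by ring⟩
  have hC := (Finset.card_le_card hB).trans Finset.card_biUnion_le
  have hE := hC.trans (Finset.sum_le_sum fun k _ => fm05_shift S t k)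
  rw [Finset.sum_const, smul_eq_mul, Int.card_Icc] at hE
  have hF : (((S ×ˢ S).filter
        (fun p : (ℕ × ℕ) × (ℕ × ℕ) => |w p.1.1 + w p.1.2 - (w p.2.1 + w p.2.2)| ≤ δ)).card : ℝ) ≤
      (2 * (δ / δ₀) + 3) * (((S ×ˢ S).filter (fun p : (ℕ × ℕ) × (ℕ × ℕ) => t p.1 = t p.2)).card : ℝ) := by
    have h6 : (((S ×ˢ S).filter
        (fun p : (ℕ × ℕ) × (ℕ × ℕ) => |w p.1.1 + w p.1.2 - (w p.2.1 + w p.2.2)| ≤ δ)).card : ℝ) ≤
        (((H + 1 - -H).toNat : ℕ) : ℝ) *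
          (((S ×ˢ S).filter (fun p : (ℕ × ℕ) × (ℕ × ℕ) => t p.1 = t p.2)).card : ℝ) := by
      exact_mod_cast hE
    refine h6.trans (mul_le_mul_of_nonneg_right ?_ (Nat.cast_nonneg _))
    have h7 : (((H + 1 - -H).toNat : ℤ)) = 2 * H + 1 := by
      rw [Int.toNat_of_nonneg (by omega)]
      ring
    have h8 : (((H + 1 - -H).toNat : ℕ) : ℝ) = 2 * (H : ℝ) + 1 := by
      have := congrArg (fun z : ℤ => (z : ℝ)) h7
      push_cast at this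
      exact this
    rw [h8]
    linarith
  have hG : 0 ≤ 2 * (δ / δ₀) + 3 := by linarith
  unfold cn
  refine hF.trans (mul_le_mul_of_nonneg_left ?_ hG)
  exact_mod_cast hA

theorem cn_map {J J' : Finset ℕ} {w w' : ℕ → ℝ} (e : ℕ → ℕ) (c : ℝ) (δ : ℝ) (hc : c ≠ 0)
    (he : Set.InjOn e (J : Set ℕ)) (hm : ∀ k ∈ J, e k ∈ J') (hw : ∀ k ∈ J, w k = c * w' (e k)) :
    cn J w δ ≤ cn J' w' (δ / |c|) := by
  classical
  unfold cn
  have hcp : 0 < |c| := abs_pos.mpr hc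
  have key := Finset.card_le_card_of_injOn
    (s := ((J ×ˢ J) ×ˢ (J ×ˢ J)).filter
      (fun p : (ℕ × ℕ) × (ℕ × ℕ) => |w p.1.1 + w p.1.2 - (w p.2.1 + w p.2.2)| ≤ δ))
    (t := ((J' ×ˢ J') ×ˢ (J' ×ˢ J')).filter
      (fun p : (ℕ × ℕ) × (ℕ × ℕ) => |w' p.1.1 + w' p.1.2 - (w' p.2.1 + w' p.2.2)| ≤ δ / |c|))
    (fun p : (ℕ × ℕ) × (ℕ × ℕ) => ((e p.1.1, e p.1.2), (e p.2.1, e p.2.2))) ?_ ?_
  · exact_mod_cast key
  · intro p hp
    rw [Finset.mem_coe, Finset.mem_filter, Finset.mem_product, Finset.mem_product,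
      Finset.mem_product] at hp
    obtain ⟨⟨⟨h1, h2⟩, ⟨h3, h4⟩⟩, h5⟩ := hp
    show _ ∈ ((Finset.filter _ _ : Finset ((ℕ × ℕ) × (ℕ × ℕ))) : Set ((ℕ × ℕ) × (ℕ × ℕ)))
    rw [Finset.mem_coe, Finset.mem_filter, Finset.mem_product, Finset.mem_product,
      Finset.mem_product]
    refine ⟨⟨⟨hm _ h1, hm _ h2⟩, ⟨hm _ h3, hm _ h4⟩⟩, ?_⟩
    show |w' (e p.1.1) + w' (e p.1.2) - (w' (e p.2.1) + w' (e p.2.2))| ≤ δ / |c|
    rw [le_div_iff₀ hcp]
    rw [hw _ h1, hw _ h2, hw _ h3, hw _ h4] at h5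
    have h6 : c * w' (e p.1.1) + c * w' (e p.1.2) - (c * w' (e p.2.1) + c * w' (e p.2.2)) =
        (w' (e p.1.1) + w' (e p.1.2) - (w' (e p.2.1) + w' (e p.2.2))) * c := by ring
    rw [h6, abs_mul] at h5
    exact h5
  · intro p hp q hq hpq
    rw [Finset.mem_coe, Finset.mem_filter, Finset.mem_product, Finset.mem_product,
      Finset.mem_product] at hp hq
    obtain ⟨⟨⟨p1, p2⟩, ⟨p3, p4⟩⟩, -⟩ := hp
    obtain ⟨⟨⟨q1, q2⟩, ⟨q3, q4⟩⟩, -⟩ := hq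
    have a := (Prod.mk.inj hpq).1
    have b := (Prod.mk.inj hpq).2
    have a1 := he p1 q1 (Prod.mk.inj a).1
    have a2 := he p2 q2 (Prod.mk.inj a).2
    have b1 := he p3 q3 (Prod.mk.inj b).1
    have b2 := he p4 q4 (Prod.mk.inj b).2
    exact Prod.ext (Prod.ext a1 a2) (Prod.ext b1 b2)

private lemma fm07_count (J : Finset ℕ) (w : ℕ → ℝ) {g : ℝ} (hg : 0 < g)
    (hsep : ∀ i ∈ J, ∀ j ∈ J, g * |(i : ℝ) - j| ≤ |w i - w j|) (x : ℝ) {δ : ℝ} (hδ : 0 ≤ δ) :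
    ((J.filter (fun d => |x - w d| ≤ δ)).card : ℝ) ≤ 1 + 2 * δ / g := by
  classical
  rcases (J.filter (fun d => |x - w d| ≤ δ)).eq_empty_or_nonempty with h | h
  · rw [h]; simp only [card_empty, Nat.cast_zero]; positivity
  · set S := J.filter (fun d => |x - w d| ≤ δ) with hS
    have hm := S.min'_mem h
    have hM := S.max'_mem h
    have hsub : S ⊆ Icc (S.min' h) (S.max' h) := fun i hi =>
      Finset.mem_Icc.mpr ⟨S.min'_le i hi, S.le_max' i hi⟩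
    have hle : S.min' h ≤ S.max' h := S.min'_le _ hM
    have hc := Finset.card_le_card hsub
    rw [Nat.card_Icc] at hc
    have hc' : (S.card : ℝ) ≤ (S.max' h : ℝ) - S.min' h + 1 := by
      have : (S.card : ℝ) ≤ ((S.max' h + 1 - S.min' h : ℕ) : ℝ) := by exact_mod_cast hc
      rw [Nat.cast_sub (by omega)] at this
      push_cast at this
      linarith
    have hm := Finset.mem_filter.mp hm
    have hM := Finset.mem_filter.mp hM
    have h1 := hsep _ hM.1 _ hm.1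
    have h2 : |w (S.max' h) - w (S.min' h)| ≤ 2 * δ := by
      have e : w (S.max' h) - w (S.min' h) = (x - w (S.min' h)) - (x - w (S.max' h)) := by ring
      rw [e]
      calc _ ≤ |x - w (S.min' h)| + |x - w (S.max' h)| := abs_sub _ _
        _ ≤ 2 * δ := by linarith [hm.2, hM.2]
    have h3 : (S.max' h : ℝ) - S.min' h ≤ 2 * δ / g := by
      rw [le_div_iff₀ hg]
      calc ((S.max' h : ℝ) - S.min' h) * g ≤ g * |(S.max' h : ℝ) - S.min' h| := by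
            rw [mul_comm]; exact mul_le_mul_of_nonneg_left (le_abs_self _) hg.le
        _ ≤ 2 * δ := h1.trans h2
    linarith

private lemma fm07_cn (J : Finset ℕ) (w : ℕ → ℝ) {g : ℝ} (hg : 0 < g)
    (hsep : ∀ i ∈ J, ∀ j ∈ J, g * |(i : ℝ) - j| ≤ |w i - w j|) {δ : ℝ} (hδ : 0 ≤ δ) :
    cn J w δ ≤ (J.card : ℝ) ^ 3 * (1 + 2 * δ / g) := by
  classical
  unfold cn
  rw [Finset.card_filter, Finset.sum_product, Nat.cast_sum]
  calc ∑ p ∈ J ×ˢ J, ((∑ q ∈ J ×ˢ J, if |w p.1 + w p.2 - (w q.1 + w q.2)| ≤ δ then 1 else 0 : ℕ) : ℝ)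
      ≤ ∑ p ∈ J ×ˢ J, ((J.card : ℝ) * (1 + 2 * δ / g)) := by
        refine Finset.sum_le_sum fun p _ => ?_
        rw [Finset.sum_product, Nat.cast_sum]
        calc ∑ c ∈ J, ((∑ d ∈ J, if |w p.1 + w p.2 - (w c + w d)| ≤ δ then 1 else 0 : ℕ) : ℝ)
            ≤ ∑ c ∈ J, (1 + 2 * δ / g) := by
              refine Finset.sum_le_sum fun c _ => ?_
              rw [← Finset.card_filter]
              have := fm07_count J w hg hsep (w p.1 + w p.2 - w c) hδ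
              have e : (J.filter (fun d => |w p.1 + w p.2 - (w c + w d)| ≤ δ)) =
                  J.filter (fun d => |w p.1 + w p.2 - w c - w d| ≤ δ) := by
                apply Finset.filter_congr
                intro d _
                rw [sub_add_eq_sub_sub]
              rw [e]
              exact this
          _ = (J.card : ℝ) * (1 + 2 * δ / g) := by rw [Finset.sum_const, nsmul_eq_mul]
    _ = (J.card : ℝ) ^ 3 * (1 + 2 * δ / g) := by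
        rw [Finset.sum_const, nsmul_eq_mul, Finset.card_product]
        push_cast; ring

theorem hk_three : HK 3 := by
  refine ⟨8, by norm_num, fun ν K δ hν hν1 hK hδ => ?_⟩
  have hK0 : (1 : ℝ) ≤ (K : ℝ) := by exact_mod_cast hK
  have hKp : (0 : ℝ) < (K : ℝ) := by linarith
  have hsep : ∀ i ∈ Ico K (2 * K), ∀ j ∈ Ico K (2 * K),
      (1 / (4 * (K : ℝ) ^ 2)) * |(i : ℝ) - j| ≤ |1 / (ν + (i : ℝ)) - 1 / (ν + (j : ℝ))| := by
    intro i hi j hj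
    rw [Finset.mem_Ico] at hi hj
    have hi2 : (i : ℝ) + 1 ≤ 2 * K := by exact_mod_cast hi.2
    have hj2 : (j : ℝ) + 1 ≤ 2 * K := by exact_mod_cast hj.2
    have hip : (0 : ℝ) < ν + i := by positivity
    have hjp : (0 : ℝ) < ν + j := by positivity
    have e : 1 / (ν + (i : ℝ)) - 1 / (ν + (j : ℝ)) = (1 / ((ν + i) * (ν + j))) * ((j : ℝ) - i) := by
      field_simp
      ring
    rw [e, abs_mul, abs_of_pos (by positivity : (0 : ℝ) < 1 / ((ν + i) * (ν + j))), abs_sub_comm (j : ℝ)]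
    refine mul_le_mul_of_nonneg_right ?_ (abs_nonneg _)
    apply one_div_le_one_div_of_le (by positivity)
    nlinarith
  have h := fm07_cn (Ico K (2 * K)) (fun i => 1 / (ν + (i : ℝ))) (by positivity) hsep hδ
  have hc : ((Ico K (2 * K)).card : ℝ) = K := by
    rw [Nat.card_Ico]
    congr 1
    omega
  rw [hc] at h
  refine h.trans ?_
  have e3 : (K : ℝ) ^ (3 : ℝ) = (K : ℝ) ^ 3 := by
    rw [← Real.rpow_natCast]; norm_num
  rw [e3]
  have e4 : 2 * δ / (1 / (4 * (K : ℝ) ^ 2)) = 8 * δ * (K : ℝ) ^ 2 := by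
    field_simp
    ring
  rw [e4]
  have h5 : (K : ℝ) ^ 2 ≤ (K : ℝ) ^ 3 := pow_le_pow_right₀ hK0 (by norm_num)
  have h6 : δ * (K : ℝ) ^ 2 ≤ δ * (K : ℝ) ^ 3 := mul_le_mul_of_nonneg_left h5 hδ
  have h7 : 0 ≤ (K : ℝ) ^ 3 := by positivity
  nlinarith [mul_nonneg h7 (mul_nonneg hδ h7), mul_le_mul_of_nonneg_left h6 h7]

theorem hm_three : HM 3 := by
  refine ⟨6, by norm_num, fun M δ hM hδ => ?_⟩
  have hM0 : (1 : ℝ) ≤ (M : ℝ) := by exact_mod_cast hM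
  have hMp : (0 : ℝ) < (M : ℝ) := by linarith
  have hsq : (0 : ℝ) < √(2 * M : ℝ) := Real.sqrt_pos.mpr (by positivity)
  have hsep : ∀ i ∈ Ico M (2 * M), ∀ j ∈ Ico M (2 * M),
      (1 / (2 * √(2 * M : ℝ))) * |(i : ℝ) - j| ≤ |√(i : ℝ) - √(j : ℝ)| := by
    intro i hi j hj
    rw [Finset.mem_Ico] at hi hj
    have hi2 : (i : ℝ) ≤ 2 * M := by exact_mod_cast hi.2.le
    have hj2 : (j : ℝ) ≤ 2 * M := by exact_mod_cast hj.2.le
    have hip : √(i : ℝ) ≤ √(2 * M : ℝ) := Real.sqrt_le_sqrt hi2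
    have hjp : √(j : ℝ) ≤ √(2 * M : ℝ) := Real.sqrt_le_sqrt hj2
    have e : (i : ℝ) - j = (√(i : ℝ) - √(j : ℝ)) * (√(i : ℝ) + √(j : ℝ)) := by
      have h1 : √(i : ℝ) ^ 2 = i := Real.sq_sqrt (Nat.cast_nonneg i)
      have h2 : √(j : ℝ) ^ 2 = j := Real.sq_sqrt (Nat.cast_nonneg j)
      nlinarith
    rw [e, abs_mul, abs_of_nonneg (by positivity : (0 : ℝ) ≤ √(i : ℝ) + √(j : ℝ)), one_div_mul_eq_div,
      div_le_iff₀ (by positivity)]
    refine mul_le_mul_of_nonneg_left (by linarith) (abs_nonneg _)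
  have h := fm07_cn (Ico M (2 * M)) (fun i => √(i : ℝ)) (by positivity) hsep hδ
  have hc : ((Ico M (2 * M)).card : ℝ) = M := by
    rw [Nat.card_Ico]
    congr 1
    omega
  rw [hc] at h
  refine h.trans ?_
  have e3 : (M : ℝ) ^ (3 : ℝ) = (M : ℝ) ^ 3 := by
    rw [← Real.rpow_natCast]; norm_num
  have e32 : (M : ℝ) ^ (3 / 2 : ℝ) = M * √(M : ℝ) := by
    rw [Real.sqrt_eq_rpow, show (3 / 2 : ℝ) = 1 + 1 / 2 by norm_num, Real.rpow_add hMp, Real.rpow_one]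
  rw [e3, e32]
  have e4 : 2 * δ / (1 / (2 * √(2 * M : ℝ))) = 4 * δ * √(2 * M : ℝ) := by
    field_simp
    ring
  rw [e4]
  have h8 : √(2 * M : ℝ) ≤ (3 / 2) * √(M : ℝ) := by
    rw [Real.sqrt_mul (by norm_num : (0 : ℝ) ≤ 2)]
    refine mul_le_mul_of_nonneg_right ?_ (Real.sqrt_nonneg _)
    rw [Real.sqrt_le_left (by norm_num)]
    norm_num
  have h9 : √(M : ℝ) ≤ M * √(M : ℝ) := by nlinarith [Real.sqrt_nonneg (M : ℝ)]
  have h10 : 4 * δ * √(2 * M : ℝ) ≤ 6 * (δ * (M * √(M : ℝ))) := by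
    have : √(2 * M : ℝ) ≤ (3 / 2) * (M * √(M : ℝ)) := by linarith
    nlinarith [mul_le_mul_of_nonneg_left this hδ]
  have h7 : 0 ≤ (M : ℝ) ^ 3 := by positivity
  nlinarith [mul_le_mul_of_nonneg_left h10 h7]

theorem HK_mono {β β' : ℝ} (h : β ≤ β') (hK : HK β) : HK β' := by
  obtain ⟨C, hC, hb⟩ := hK
  refine ⟨C, hC, fun ν K δ hν hν1 hK1 hδ => (hb ν K δ hν hν1 hK1 hδ).trans ?_⟩
  have h1 : (1 : ℝ) ≤ (K : ℝ) := by exact_mod_cast hK1
  have h2 : (K : ℝ) ^ β ≤ (K : ℝ) ^ β' := Real.rpow_le_rpow_of_exponent_le h1 h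
  have h3 : 0 ≤ (K : ℝ) ^ (3 : ℝ) := Real.rpow_nonneg (by linarith) _
  have h4 : 0 ≤ δ * (K : ℝ) ^ (3 : ℝ) := mul_nonneg hδ h3
  exact mul_le_mul_of_nonneg_left (mul_le_mul_of_nonneg_left h2 (by linarith)) hC.le

theorem HM_mono {β β' : ℝ} (h : β ≤ β') (hM : HM β) : HM β' := by
  obtain ⟨C, hC, hb⟩ := hM
  refine ⟨C, hC, fun M δ hM1 hδ => (hb M δ hM1 hδ).trans ?_⟩
  have h1 : (1 : ℝ) ≤ (M : ℝ) := by exact_mod_cast hM1
  have h2 : (M : ℝ) ^ β ≤ (M : ℝ) ^ β' := Real.rpow_le_rpow_of_exponent_le h1 h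
  have h3 : 0 ≤ (M : ℝ) ^ (3 / 2 : ℝ) := Real.rpow_nonneg (by linarith) _
  have h4 : 0 ≤ δ * (M : ℝ) ^ (3 / 2 : ℝ) := mul_nonneg hδ h3
  exact mul_le_mul_of_nonneg_left (mul_le_mul_of_nonneg_left h2 (by linarith)) hC.le

/-- it is enough to bound `cn` at the critical tolerance -/
theorem hk_of_weak (β : ℝ) (h : ∃ C : ℝ, 0 < C ∧ ∀ (ν : ℝ) (K : ℕ), 0 < ν → ν ≤ 1 → 1 ≤ K →
    cn (Ico K (2 * K)) (fun i => 1 / (ν + i)) (1 / (K : ℝ) ^ (3 : ℝ)) ≤ C * (K : ℝ) ^ β) : HK β := by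
  obtain ⟨C, hC, hb⟩ := h
  refine ⟨3 * C, by positivity, fun ν K δ hν hν1 hK1 hδ => ?_⟩
  have h1 : (1 : ℝ) ≤ (K : ℝ) := by exact_mod_cast hK1
  have h3 : 0 < (K : ℝ) ^ (3 : ℝ) := Real.rpow_pos_of_pos (by linarith) _
  have h4 : 0 ≤ δ * (K : ℝ) ^ (3 : ℝ) := mul_nonneg hδ h3.le
  have h5 : 0 ≤ (K : ℝ) ^ β := Real.rpow_nonneg (by linarith) _
  have h6 := cn_double (Ico K (2 * K)) (fun i => 1 / (ν + i)) (δ₀ := 1 / (K : ℝ) ^ (3 : ℝ))
    (by positivity) hδ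
  have h7 : δ / (1 / (K : ℝ) ^ (3 : ℝ)) = δ * (K : ℝ) ^ (3 : ℝ) := by
    rw [div_div_eq_mul_div, div_one]
  rw [h7] at h6
  refine h6.trans ?_
  calc (2 * (δ * (K : ℝ) ^ (3 : ℝ)) + 3) *
        cn (Ico K (2 * K)) (fun i => 1 / (ν + i)) (1 / (K : ℝ) ^ (3 : ℝ))
      ≤ (2 * (δ * (K : ℝ) ^ (3 : ℝ)) + 3) * (C * (K : ℝ) ^ β) :=
        mul_le_mul_of_nonneg_left (hb ν K hν hν1 hK1) (by linarith)
    _ ≤ (3 * (1 + δ * (K : ℝ) ^ (3 : ℝ))) * (C * (K : ℝ) ^ β) :=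
        mul_le_mul_of_nonneg_right (by linarith) (by positivity)
    _ = 3 * C * ((1 + δ * (K : ℝ) ^ (3 : ℝ)) * (K : ℝ) ^ β) := by ring

theorem hm_of_weak (β : ℝ) (h : ∃ C : ℝ, 0 < C ∧ ∀ M : ℕ, 1 ≤ M →
    cn (Ico M (2 * M)) (fun i => √(i : ℝ)) (1 / (M : ℝ) ^ (3 / 2 : ℝ)) ≤ C * (M : ℝ) ^ β) : HM β := by
  obtain ⟨C, hC, hb⟩ := h
  refine ⟨3 * C, by positivity, fun M δ hM1 hδ => ?_⟩
  have h1 : (1 : ℝ) ≤ (M : ℝ) := by exact_mod_cast hM1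
  have h3 : 0 < (M : ℝ) ^ (3 / 2 : ℝ) := Real.rpow_pos_of_pos (by linarith) _
  have h4 : 0 ≤ δ * (M : ℝ) ^ (3 / 2 : ℝ) := mul_nonneg hδ h3.le
  have h5 : 0 ≤ (M : ℝ) ^ β := Real.rpow_nonneg (by linarith) _
  have h6 := cn_double (Ico M (2 * M)) (fun i => √(i : ℝ)) (δ₀ := 1 / (M : ℝ) ^ (3 / 2 : ℝ))
    (by positivity) hδ
  have h7 : δ / (1 / (M : ℝ) ^ (3 / 2 : ℝ)) = δ * (M : ℝ) ^ (3 / 2 : ℝ) := by
    rw [div_div_eq_mul_div, div_one]
  rw [h7] at h6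
  refine h6.trans ?_
  calc (2 * (δ * (M : ℝ) ^ (3 / 2 : ℝ)) + 3) *
        cn (Ico M (2 * M)) (fun i => √(i : ℝ)) (1 / (M : ℝ) ^ (3 / 2 : ℝ))
      ≤ (2 * (δ * (M : ℝ) ^ (3 / 2 : ℝ)) + 3) * (C * (M : ℝ) ^ β) :=
        mul_le_mul_of_nonneg_left (hb M hM1) (by linarith)
    _ ≤ (3 * (1 + δ * (M : ℝ) ^ (3 / 2 : ℝ))) * (C * (M : ℝ) ^ β) :=
        mul_le_mul_of_nonneg_right (by linarith) (by positivity)
    _ = 3 * C * ((1 + δ * (M : ℝ) ^ (3 / 2 : ℝ)) * (M : ℝ) ^ β) := by ring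

end Pool.Agent.Helper31.FM
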