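import Pool.Agent.Helper31.FM.Dual
import Pool.Agent.Helper31.FM.Blk
import Pool.Agent.Helper31.FM.RI

/-!
# FM-DD: fourth moment of the smoothed sum by the dual sum, from `HM β`

`dd`: reindex by `l = 8 (k+1) - h ≥ 1`: `√(k + 1 - h/8) = √l/√8 = √(l/8)`; coefficients `χ' l = χ k` if `l = 8 (k+1) - h`, else `0`.
Truncate at `l < 2^J` (`ex_J`, `tsum_cut`), tail by `dd_tail` (`‖WW‖ ≤ exp (-√(l/8) A/σ)`, `σ ≤ 4U`, `A ≥ 1`).  On the block
`l ∈ [M, 2M)`, `M = 2^j`: `blks` with `w l = -(√l/(π √8))`, `B j = 8 exp (-√(M/8) A/(4U))` (`‖W'‖ ≤ 8/σ exp (..) ≤ B/U`), `P, Q` from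
`dd_cn`, then `dd_ar`.
`fd`: `dual` and `dd` with `χ k = ee ((k + 1 - h/8) ν)` (the prefactor is `≤ C/σ ≤ C/U`).
-/

set_option autoImplicit false

namespace Pool.Agent.Helper31.FM

open Complex Real Finset MeasureTheory
open Pool.Agent.Helper31.FI (ee ze mains)

/-- `HM β` with `M = 2^j` and `cn_map` with `e = id`, `c = -1/(π √8)` -/
theorem dd_cn (β : ℝ) (hM : HM β) : ∃ C : ℝ, 0 < C ∧ ∀ (j : ℕ) (δ : ℝ), 0 ≤ δ →
    cn (Ico (2 ^ j) (2 ^ (j + 1))) (fun l => -(√(l : ℝ) / (π * √8))) δ ≤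
      (C * ((2 : ℝ) ^ j) ^ β) * (1 + δ * (C * ((2 : ℝ) ^ j) ^ (3 / 2 : ℝ))) := by
  obtain ⟨C₀, hC₀, h⟩ := hM
  have hp : 0 < π * √8 := by positivity
  refine ⟨C₀ + π * √8, by positivity, fun j δ hδ => ?_⟩
  have h1 := cn_map (J := Ico (2 ^ j) (2 ^ (j + 1))) (J' := Ico (2 ^ j) (2 * 2 ^ j))
    (w := fun l => -(√(l : ℝ) / (π * √8))) (w' := fun l => √(l : ℝ)) id (-(1 / (π * √8))) δ
    (by simp [Real.pi_ne_zero]) (Function.injective_id.injOn)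
    (fun k hk => by
      rw [pow_succ, mul_comm (2 ^ j) 2] at hk
      exact hk)
    (fun k _ => by
      simp only [id_eq]
      ring)
  have h2 : δ / |-(1 / (π * √8))| = δ * (π * √8) := by
    rw [abs_neg, abs_of_pos (by positivity)]
    field_simp
  rw [h2] at h1
  have h3 := h (2 ^ j) (δ * (π * √8)) Nat.one_le_two_pow (by positivity)
  refine (h1.trans h3).trans ?_
  push_cast
  have hA : (0 : ℝ) ≤ ((2 : ℝ) ^ j) ^ β := by positivity
  have hB : (0 : ℝ) ≤ ((2 : ℝ) ^ j) ^ (3 / 2 : ℝ) := by positivity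
  set a := ((2 : ℝ) ^ j) ^ β
  set b := ((2 : ℝ) ^ j) ^ (3 / 2 : ℝ)
  set p := π * √8
  have e1 : C₀ * ((1 + δ * p * b) * a) = (C₀ * a) * (1 + δ * (p * b)) := by ring
  rw [e1]
  have e2 : C₀ * a ≤ (C₀ + p) * a := mul_le_mul_of_nonneg_right (by linarith) hA
  have e3 : 1 + δ * (p * b) ≤ 1 + δ * ((C₀ + p) * b) := by
    have : δ * (p * b) ≤ δ * ((C₀ + p) * b) :=
      mul_le_mul_of_nonneg_left (mul_le_mul_of_nonneg_right (by linarith) hB) hδ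
    linarith
  exact mul_le_mul e2 e3 (by positivity) (by positivity)

/-- with `X = √M A/U`: `M^β = X^(2β) (U/A)^(2β)`, `M^(3/2) = X³ (U/A)³` -/
theorem dd_ar (β C₁ : ℝ) (h2 : 2 ≤ β) (hC : 0 < C₁) : ∃ C : ℝ, 0 < C ∧ ∀ A U M : ℝ, 0 < A → 0 < U → 0 < M →
    (8 * Real.exp (-(√(M / 8) * A / (4 * U)))) ^ 4 * ((C₁ * M ^ β) * (U + C₁ * M ^ (3 / 2 : ℝ))) ≤
      C * ((U / A) ^ (2 * β) * (U + (U / A) ^ 3)) := by
  have h8 : (0 : ℝ) < √8 := by positivity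
  obtain ⟨S₁, hS₁, h₁⟩ := sup_exp (2 * β) (1 / √8) (by linarith) (by positivity)
  obtain ⟨S₂, hS₂, h₂⟩ := sup_exp (2 * β + 3) (1 / √8) (by linarith) (by positivity)
  refine ⟨8 ^ 4 * C₁ * (S₁ + C₁ * S₂), by positivity, fun A U M hA hU hM => ?_⟩
  set X : ℝ := √M * A / U with hX
  have hX0 : 0 < X := by positivity
  set R : ℝ := U / A with hR
  have hR0 : 0 < R := by positivity
  have hXR : X * R = √M := by
    rw [hX, hR]
    field_simp
  have hMs : M = (X * R) ^ 2 := by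
    rw [hXR, Real.sq_sqrt hM.le]
  have hXR0 : 0 ≤ X * R := by positivity
  have e1 : M ^ β = X ^ (2 * β) * R ^ (2 * β) := by
    rw [← Real.mul_rpow hX0.le hR0.le, hMs, ← Real.rpow_natCast, ← Real.rpow_mul hXR0]
    norm_num
  have e2 : M ^ (3 / 2 : ℝ) = X ^ (3 : ℝ) * R ^ 3 := by
    have : R ^ 3 = R ^ (3 : ℝ) := by
      rw [← Real.rpow_natCast]
      norm_num
    rw [this, ← Real.mul_rpow hX0.le hR0.le, hMs, ← Real.rpow_natCast, ← Real.rpow_mul hXR0]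
    norm_num
  have e3 : (8 * Real.exp (-(√(M / 8) * A / (4 * U)))) ^ 4 = 8 ^ 4 * Real.exp (-(1 / √8 * X)) := by
    rw [mul_pow, ← Real.exp_nat_mul]
    congr 2
    rw [Real.sqrt_div hM.le, hX]
    push_cast
    field_simp
  have e4 : X ^ (2 * β + 3) = X ^ (2 * β) * X ^ (3 : ℝ) := by
    rw [← Real.rpow_add hX0]
  have h3 := h₁ X hX0.le
  have h4 := h₂ X hX0.le
  rw [e4] at h4
  rw [e1, e2, e3]
  set E := Real.exp (-(1 / √8 * X))
  have hR2 : 0 ≤ R ^ (2 * β) := by positivity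
  have hR3 : 0 ≤ R ^ 3 := by positivity
  have h5 : X ^ (2 * β) * E * U ≤ S₁ * U := mul_le_mul_of_nonneg_right h3 hU.le
  have h6 : X ^ (2 * β) * X ^ (3 : ℝ) * E * R ^ 3 ≤ S₂ * R ^ 3 := mul_le_mul_of_nonneg_right h4 hR3
  have e5 : 8 ^ 4 * E * (C₁ * (X ^ (2 * β) * R ^ (2 * β)) * (U + C₁ * (X ^ (3 : ℝ) * R ^ 3))) =
      8 ^ 4 * C₁ * R ^ (2 * β) * (X ^ (2 * β) * E * U + C₁ * (X ^ (2 * β) * X ^ (3 : ℝ) * E * R ^ 3)) := by
    ring
  rw [e5]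
  have h7 : X ^ (2 * β) * E * U + C₁ * (X ^ (2 * β) * X ^ (3 : ℝ) * E * R ^ 3) ≤
      (S₁ + C₁ * S₂) * (U + R ^ 3) := by
    have h8 : C₁ * (X ^ (2 * β) * X ^ (3 : ℝ) * E * R ^ 3) ≤ C₁ * (S₂ * R ^ 3) :=
      mul_le_mul_of_nonneg_left h6 hC.le
    have h9 : (S₁ + C₁ * S₂) * (U + R ^ 3) = S₁ * U + C₁ * (S₂ * R ^ 3) + (S₁ * R ^ 3 + C₁ * S₂ * U) := by
      ring
    have h10 : 0 ≤ S₁ * R ^ 3 + C₁ * S₂ * U := by positivity
    linarith
  calc 8 ^ 4 * C₁ * R ^ (2 * β) * (X ^ (2 * β) * E * U + C₁ * (X ^ (2 * β) * X ^ (3 : ℝ) * E * R ^ 3))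
      ≤ 8 ^ 4 * C₁ * R ^ (2 * β) * ((S₁ + C₁ * S₂) * (U + R ^ 3)) :=
        mul_le_mul_of_nonneg_left h7 (by positivity)
    _ = 8 ^ 4 * C₁ * (S₁ + C₁ * S₂) * (R ^ (2 * β) * (U + R ^ 3)) := by ring

/-- for `l ≥ (32 U)^8`-ish, `√(l/8)/(4U) ≥ l^(1/4)` -/
theorem dd_tail : ∃ C : ℝ, 0 < C ∧ ∀ (U : ℝ) (L : ℕ), 1 ≤ U → (64 * U) ^ 64 ≤ (L : ℝ) →
    (Summable fun k : ℕ => Real.exp (-(√(((k + L : ℕ) : ℝ) / 8) / (4 * U)))) ∧
    ∑' k : ℕ, Real.exp (-(√(((k + L : ℕ) : ℝ) / 8) / (4 * U))) ≤ C := by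
  obtain ⟨S, hS, h⟩ := sup_exp 8 1 (by norm_num) one_pos
  have hsum : Summable fun k : ℕ => S * (1 / ((k : ℝ) + 1) ^ 2) := by
    have h0 := (Real.summable_one_div_nat_pow (p := 2)).2 (by norm_num)
    have h1 := (summable_nat_add_iff (f := fun n : ℕ => 1 / (n : ℝ) ^ 2) 1).2 h0
    refine (h1.mul_left S).congr fun k => ?_
    push_cast
    rfl
  refine ⟨∑' k : ℕ, S * (1 / ((k : ℝ) + 1) ^ 2) + 1, ?_, fun U L hU hL => ?_⟩
  · have : 0 ≤ ∑' k : ℕ, S * (1 / ((k : ℝ) + 1) ^ 2) := tsum_nonneg fun k => by positivity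
    linarith
  · have hb : ∀ k : ℕ, Real.exp (-(√(((k + L : ℕ) : ℝ) / 8) / (4 * U))) ≤
        S * (1 / ((k : ℝ) + 1) ^ 2) := by
      intro k
      have hU0 : 0 < U := by linarith
      have hL1 : (16384 : ℝ) * U ^ 4 ≤ (L : ℝ) := by
        have g1 : (64 * U) ^ 4 ≤ (64 * U) ^ 64 := pow_le_pow_right₀ (by linarith) (by norm_num)
        have g2 : (16384 : ℝ) * U ^ 4 ≤ (64 * U) ^ 4 := by
          rw [mul_pow]
          exact mul_le_mul_of_nonneg_right (by norm_num) (by positivity)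
        linarith
      have hU4 : (1 : ℝ) ≤ U ^ 4 := one_le_pow₀ hU
      set l : ℝ := ((k + L : ℕ) : ℝ) with hl
      have hlk : l = (k : ℝ) + L := by rw [hl]; push_cast; ring
      have hk0 : (0 : ℝ) ≤ k := Nat.cast_nonneg k
      have hl1 : (16384 : ℝ) * U ^ 4 ≤ l := by rw [hlk]; linarith
      have hl0 : 0 < l := by nlinarith
      have hlk1 : (k : ℝ) + 1 ≤ l := by rw [hlk]; nlinarith
      set X : ℝ := √(l / 8) / (4 * U) with hX
      have hX0 : 0 < X := by positivity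
      have hX2 : X ^ 2 = l / (128 * U ^ 2) := by
        rw [hX, div_pow, Real.sq_sqrt (by positivity)]
        field_simp
        norm_num
      have hX4 : l ≤ X ^ 4 := by
        have : X ^ 4 = l ^ 2 / (16384 * U ^ 4) := by
          calc X ^ 4 = (X ^ 2) ^ 2 := by ring
            _ = _ := by rw [hX2, div_pow]; ring
        rw [this, le_div_iff₀ (by positivity)]
        nlinarith
      have hX8 : ((k : ℝ) + 1) ^ 2 ≤ X ^ 8 := by
        have : X ^ 8 = (X ^ 4) ^ 2 := by ring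
        rw [this]
        exact pow_le_pow_left₀ (by positivity) (hlk1.trans hX4) 2
      have h1 := h X hX0.le
      rw [one_mul] at h1
      have h2 : X ^ (8 : ℝ) = X ^ 8 := by
        rw [← Real.rpow_natCast]
        norm_num
      rw [h2] at h1
      rw [mul_one_div, le_div_iff₀ (by positivity), mul_comm]
      exact (mul_le_mul_of_nonneg_right hX8 (Real.exp_pos _).le).trans h1
    have hs : Summable fun k : ℕ => Real.exp (-(√(((k + L : ℕ) : ℝ) / 8) / (4 * U))) :=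
      Summable.of_nonneg_of_le (fun k => (Real.exp_pos _).le) hb hsum
    refine ⟨hs, ?_⟩
    have := hs.tsum_le_tsum hb hsum
    linarith

private noncomputable def ddχ (h : ℕ) (χ : ℕ → ℂ) (l : ℕ) : ℂ :=
  if 8 ∣ l + h then χ ((l + h) / 8 - 1) else 0

private theorem ddχ_norm (h : ℕ) (χ : ℕ → ℂ) (hχ : ∀ k, ‖χ k‖ ≤ 1) (l : ℕ) : ‖ddχ h χ l‖ ≤ 1 := by
  unfold ddχ
  split_ifs
  · exact hχ _
  · simp

private theorem dd_nee (t : ℝ) : ‖ee t‖ = 1 := by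
  unfold ee
  rw [Complex.norm_exp]
  simp

/-- the reindexing `l = 8 (k+1) - h` -/
private theorem dd_reindex (A σ : ℝ) (h : ℕ) (χ : ℕ → ℂ) (hh : h < 8) :
    ∑' k : ℕ, χ k * WW A ((k : ℝ) + 1 - h / 8) σ * ee (-(σ * √((k : ℝ) + 1 - h / 8) / π)) =
      ∑' m : ℕ, ddχ h χ (m + 1) * WW A (((m + 1 : ℕ) : ℝ) / 8) σ *
        ee (σ * (-(√((m + 1 : ℕ) : ℝ) / (π * √8)))) := by
  set F : ℕ → ℂ := fun m => ddχ h χ (m + 1) * WW A (((m + 1 : ℕ) : ℝ) / 8) σ *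
        ee (σ * (-(√((m + 1 : ℕ) : ℝ) / (π * √8)))) with hF
  set g : ℕ → ℕ := fun k => 8 * (k + 1) - h - 1 with hg
  have hinj : Function.Injective g := by
    intro a b hab
    simp only [hg] at hab
    omega
  have hsupp : Function.support F ⊆ Set.range g := by
    intro m hm
    by_contra hno
    apply hm
    have h8 : ¬ 8 ∣ (m + 1) + h := by
      intro hd
      apply hno
      obtain ⟨c, hc⟩ := hd
      refine ⟨c - 1, ?_⟩
      simp only [hg]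
      omega
    simp only [hF, ddχ, if_neg h8, zero_mul]
  rw [← hinj.tsum_eq hsupp]
  refine tsum_congr fun k => ?_
  have e1 : g k + 1 = 8 * (k + 1) - h := by simp only [hg]; omega
  have e2 : 8 ∣ (g k + 1) + h := by
    rw [e1]
    exact ⟨k + 1, by omega⟩
  have e3 : ((g k + 1) + h) / 8 - 1 = k := by
    rw [e1]
    omega
  have e4 : ((g k + 1 : ℕ) : ℝ) = 8 * ((k : ℝ) + 1 - h / 8) := by
    rw [e1, Nat.cast_sub (by omega)]
    push_cast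
    ring
  simp only [hF, ddχ, if_pos e2, e3, e4]
  congr 2
  · congr 1
    ring
  · congr 1
    rw [Real.sqrt_mul (by norm_num : (0 : ℝ) ≤ 8)]
    have h8 : √(8 : ℝ) ≠ 0 := by positivity
    field_simp

theorem dd (β : ℝ) (h2 : 2 ≤ β) (h3 : β ≤ 3) (hM : HM β) : ∃ C : ℝ, 0 < C ∧
    ∀ (A U : ℝ) (h : ℕ) (χ : ℕ → ℂ), 1 ≤ A → 1 ≤ U → A ≤ U ^ 2 → h < 8 → (∀ k, ‖χ k‖ ≤ 1) →
    ∫ σ in U..(4 * U), ‖∑' k : ℕ, χ k * WW A ((k : ℝ) + 1 - h / 8) σ *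
        ee (-(σ * √((k : ℝ) + 1 - h / 8) / π))‖ ^ 4 ≤
      C * (U + (1 + Real.log U) ^ 5 * ((U / A) ^ (2 * β) * (U + (U / A) ^ 3))) := by
  obtain ⟨C1, hC1, H1⟩ := dd_cn β hM
  obtain ⟨C2, hC2, H2⟩ := dd_ar β C1 h2 hC1
  obtain ⟨C3, hC3, H3⟩ := dd_tail
  obtain ⟨C4, hC4, H4⟩ := ex_J 64
  obtain ⟨C5, hC5, H5⟩ := blks
  refine ⟨24 * C3 ^ 4 + 8 * (C5 * C4 ^ 5 * C2), by positivity, fun A U h χ hA hU hAU hh hχ => ?_⟩
  have hA0 : 0 < A := by linarith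
  have hU0 : 0 < U := by linarith
  have hUle : U ≤ 4 * U := by linarith
  have hlog : 0 ≤ Real.log U := Real.log_nonneg hU
  obtain ⟨J, hJ1, hJ2, hJ3⟩ := H4 U hU
  set X : ℝ := (U / A) ^ (2 * β) * (U + (U / A) ^ 3) with hX
  have hX0 : 0 ≤ X := by positivity
  have hR0 : 0 ≤ (24 * C3 ^ 4 + 8 * (C5 * C4 ^ 5 * C2)) * (U + (1 + Real.log U) ^ 5 * X) := by
    positivity
  -- the pieces
  set w : ℕ → ℝ := fun l => -(√(l : ℝ) / (π * √8)) with hw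
  set W : ℕ → ℝ → ℂ := fun l u => ddχ h χ l * WW A ((l : ℝ) / 8) u with hW
  set W' : ℕ → ℝ → ℂ := fun l u => ddχ h χ l * WD A ((l : ℝ) / 8) u with hW'
  have hWn : ∀ l : ℕ, ∀ u ∈ Set.Icc U (4 * U), ‖W l u‖ ≤ Real.exp (-(√((l : ℝ) / 8) * A / u)) := by
    intro l u hu
    have hu0 : 0 < u := lt_of_lt_of_le hU0 hu.1
    have hAu : A ≤ u ^ 2 := hAU.trans (by have := hu.1; gcongr)
    simp only [hW]
    rw [norm_mul]
    calc ‖ddχ h χ l‖ * ‖WW A ((l : ℝ) / 8) u‖ ≤ 1 * Real.exp (-(√((l : ℝ) / 8) * A / u)) := by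
          apply mul_le_mul (ddχ_norm h χ hχ l) (WW_norm A _ u hA0 hu0 hAu (by positivity))
            (norm_nonneg _) zero_le_one
      _ = _ := one_mul _
  have hmaj : ∀ l : ℕ, ∀ u ∈ Set.Icc U (4 * U), ‖W l u * ee (u * w l)‖ ≤
      Real.exp (-(√((l : ℝ) / 8) / (4 * U))) := by
    intro l u hu
    have hu0 : 0 < u := lt_of_lt_of_le hU0 hu.1
    rw [norm_mul, dd_nee, mul_one]
    refine (hWn l u hu).trans ?_
    apply Real.exp_le_exp.mpr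
    apply neg_le_neg
    have h0 : 0 ≤ √((l : ℝ) / 8) := Real.sqrt_nonneg _
    calc √((l : ℝ) / 8) / (4 * U) ≤ √((l : ℝ) / 8) / u := by
          have := hu.2
          gcongr
      _ ≤ √((l : ℝ) / 8) * A / u := by
          gcongr
          exact le_mul_of_one_le_right h0 hA
  obtain ⟨hs, ht⟩ := H3 U (2 ^ J) hU (by push_cast; exact_mod_cast hJ2)
  -- pointwise bound
  have hpt : ∀ u ∈ Set.Icc U (4 * U), ‖∑' k : ℕ, χ k * WW A ((k : ℝ) + 1 - h / 8) u *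
        ee (-(u * √((k : ℝ) + 1 - h / 8) / π))‖ ^ 4 ≤
      8 * (‖∑ k ∈ Ico 1 (2 ^ J), W k u * ee (u * w k)‖ ^ 4 + C3 ^ 4) := by
    intro u hu
    rw [dd_reindex A u h χ hh]
    set F : ℕ → ℂ := fun l => W l u * ee (u * w l) with hF
    have hFs : Summable F := by
      rw [← summable_nat_add_iff (2 ^ J)]
      refine Summable.of_norm_bounded hs fun k => ?_
      exact hmaj (k + 2 ^ J) u hu
    have hcut := tsum_cut F hFs J
    have htail : ‖∑' k : ℕ, F (k + 2 ^ J)‖ ≤ C3 := by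
      refine (tsum_of_norm_bounded hs.hasSum fun k => ?_).trans ht
      exact hmaj (k + 2 ^ J) u hu
    have e : ∑' m : ℕ, ddχ h χ (m + 1) * WW A (((m + 1 : ℕ) : ℝ) / 8) u *
        ee (u * (-(√((m + 1 : ℕ) : ℝ) / (π * √8)))) = ∑' m : ℕ, F (m + 1) := rfl
    rw [e, hcut]
    refine (norm_add_pow4 _ _).trans ?_
    gcongr
  have hSc : ContinuousOn (fun u : ℝ => ‖∑ k ∈ Ico 1 (2 ^ J), W k u * ee (u * w k)‖ ^ 4)
      (Set.Icc U (4 * U)) := by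
    apply ContinuousOn.pow
    apply ContinuousOn.norm
    apply continuousOn_finset_sum
    intro k _
    apply ContinuousOn.mul
    · apply ContinuousOn.mul continuousOn_const
      intro u hu
      exact (WW_deriv A _ u hA0 (lt_of_lt_of_le hU0 hu.1)).continuousAt.continuousWithinAt
    · unfold ee
      fun_prop
  have hSi : IntervalIntegrable (fun u : ℝ => ‖∑ k ∈ Ico 1 (2 ^ J), W k u * ee (u * w k)‖ ^ 4)
      volume U (4 * U) := by
    apply ContinuousOn.intervalIntegrable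
    rwa [Set.uIcc_of_le hUle]
  by_cases hI : IntervalIntegrable (fun u : ℝ => ‖∑' k : ℕ, χ k * WW A ((k : ℝ) + 1 - h / 8) u *
        ee (-(u * √((k : ℝ) + 1 - h / 8) / π))‖ ^ 4) volume U (4 * U)
  swap
  · rw [intervalIntegral.integral_undef hI]
    exact hR0
  have hm : ∫ u in U..(4 * U), ‖∑' k : ℕ, χ k * WW A ((k : ℝ) + 1 - h / 8) u *
        ee (-(u * √((k : ℝ) + 1 - h / 8) / π))‖ ^ 4 ≤
      ∫ u in U..(4 * U), 8 * (‖∑ k ∈ Ico 1 (2 ^ J), W k u * ee (u * w k)‖ ^ 4 + C3 ^ 4) := by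
    apply intervalIntegral.integral_mono_on hUle hI _ hpt
    exact (hSi.add intervalIntegrable_const).const_mul 8
  rw [intervalIntegral.integral_const_mul, intervalIntegral.integral_add hSi
    intervalIntegrable_const, intervalIntegral.integral_const, smul_eq_mul] at hm
  -- the blocks
  set B : ℕ → ℝ := fun j => 8 * Real.exp (-(√((2 : ℝ) ^ j / 8) * A / (4 * U))) with hB
  set P : ℕ → ℝ := fun j => C1 * ((2 : ℝ) ^ j) ^ β with hP
  set Q : ℕ → ℝ := fun j => C1 * ((2 : ℝ) ^ j) ^ (3 / 2 : ℝ) with hQ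
  have hBb : ∀ j k : ℕ, k ∈ Ico (2 ^ j) (2 ^ (j + 1)) → ∀ u ∈ Set.Icc U (4 * U),
      Real.exp (-(√((k : ℝ) / 8) * A / u)) ≤ Real.exp (-(√((2 : ℝ) ^ j / 8) * A / (4 * U))) := by
    intro j k hk u hu
    have hu0 : 0 < u := lt_of_lt_of_le hU0 hu.1
    apply Real.exp_le_exp.mpr
    apply neg_le_neg
    have hk1 : (2 : ℝ) ^ j ≤ (k : ℝ) := by exact_mod_cast (mem_Ico.mp hk).1
    have hu2 := hu.2
    gcongr
  have hbl := H5 w W W' U J B P Q hU0 (fun j _ => ⟨by positivity, by positivity, by positivity⟩)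
    (fun j _ δ hδ => by
      have := H1 j δ hδ
      exact this)
    (fun k _ u hu => (WW_deriv A _ u hA0 (lt_of_lt_of_le hU0 hu.1)).const_mul _)
    (fun k _ => by
      apply ContinuousOn.mul continuousOn_const
      exact (WD_cont A _ hA0).mono fun u hu => lt_of_lt_of_le hU0 hu.1)
    (fun j _ k hk u hu => by
      have hu0 : 0 < u := lt_of_lt_of_le hU0 hu.1
      have hAu : A ≤ u ^ 2 := hAU.trans (by have := hu.1; gcongr)
      have hb := hBb j k hk u hu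
      refine ⟨?_, ?_⟩
      · refine (hWn k u hu).trans (hb.trans ?_)
        simp only [hB]
        have := Real.exp_pos (-(√((2 : ℝ) ^ j / 8) * A / (4 * U)))
        linarith
      · simp only [hW', hB]
        rw [norm_mul]
        calc ‖ddχ h χ k‖ * ‖WD A ((k : ℝ) / 8) u‖ ≤
              1 * (8 / u * Real.exp (-(√((k : ℝ) / 8) * A / u))) := by
              apply mul_le_mul (ddχ_norm h χ hχ k) (WD_norm A _ u hA0 hu0 hAu (by positivity))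
                (norm_nonneg _) zero_le_one
          _ ≤ 8 / U * Real.exp (-(√((2 : ℝ) ^ j / 8) * A / (4 * U))) := by
              rw [one_mul]
              have := hu.1
              gcongr
          _ = _ := by ring)
  have hsum : ∑ j ∈ range J, B j ^ 4 * (P j * (U + Q j)) ≤ (1 + J) * (C2 * X) := by
    calc ∑ j ∈ range J, B j ^ 4 * (P j * (U + Q j)) ≤ ∑ _j ∈ range J, C2 * X := by
          apply Finset.sum_le_sum
          intro j _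
          exact H2 A U ((2 : ℝ) ^ j) hA0 hU0 (by positivity)
      _ = (J : ℝ) * (C2 * X) := by
          rw [Finset.sum_const, card_range, nsmul_eq_mul]
      _ ≤ (1 + J) * (C2 * X) := by
          apply mul_le_mul_of_nonneg_right _ (by positivity)
          linarith
  have hfin : ∫ u in U..(4 * U), ‖∑ k ∈ Ico 1 (2 ^ J), W k u * ee (u * w k)‖ ^ 4 ≤
      C5 * C4 ^ 5 * C2 * ((1 + Real.log U) ^ 5 * X) := by
    calc _ ≤ C5 * ((1 + J) ^ 4 * ∑ j ∈ range J, B j ^ 4 * (P j * (U + Q j))) := hbl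
      _ ≤ C5 * ((1 + J) ^ 4 * ((1 + J) * (C2 * X))) := by gcongr
      _ = C5 * ((1 + J : ℝ) ^ 5 * (C2 * X)) := by ring
      _ ≤ C5 * ((C4 * (1 + Real.log U)) ^ 5 * (C2 * X)) := by gcongr
      _ = _ := by ring
  refine hm.trans ?_
  have hlen : 4 * U - U = 3 * U := by ring
  rw [hlen]
  have hC3 : 0 ≤ C3 ^ 4 := by positivity
  have hL : 0 ≤ (1 + Real.log U) ^ 5 * X := by positivity
  have hK : 0 ≤ C5 * C4 ^ 5 * C2 := by positivity
  calc 8 * ((∫ u in U..(4 * U), ‖∑ k ∈ Ico 1 (2 ^ J), W k u * ee (u * w k)‖ ^ 4) + 3 * U * C3 ^ 4)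
      ≤ 8 * (C5 * C4 ^ 5 * C2 * ((1 + Real.log U) ^ 5 * X) + 3 * U * C3 ^ 4) := by gcongr
    _ = 24 * C3 ^ 4 * U + 8 * (C5 * C4 ^ 5 * C2) * ((1 + Real.log U) ^ 5 * X) := by ring
    _ ≤ (24 * C3 ^ 4 + 8 * (C5 * C4 ^ 5 * C2)) * (U + (1 + Real.log U) ^ 5 * X) := by
        nlinarith [mul_nonneg hK hU0.le, mul_nonneg hC3 hL]


private theorem fd_cont (A U ν : ℝ) (h : ℕ) (hA : 1 ≤ A) (hU : 1 ≤ U) (hAU : A ≤ U ^ 2) (hh : h < 8) :
    ContinuousOn (fun σ : ℝ => Ds A ν σ h) (Set.Icc U (4 * U)) := by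
  obtain ⟨_, _, H⟩ := dd_tail
  have hA0 : 0 < A := by linarith
  have hU0 : 0 < U := by linarith
  obtain ⟨L, hL⟩ := exists_nat_ge ((64 * U) ^ 64)
  have hs1 : Summable fun k : ℕ => Real.exp (-(√((k : ℝ) / 8) / (4 * U))) :=
    (summable_nat_add_iff L).1 (H U L hU hL).1
  have hs2 := (summable_nat_add_iff 1).2 hs1
  refine continuousOn_tsum (u := fun k : ℕ => Real.exp (-(√(((k + 1 : ℕ) : ℝ) / 8) / (4 * U))))
    (fun k => ?_) hs2 (fun k σ hσ => ?_)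
  · refine ContinuousOn.mul (ContinuousOn.mul continuousOn_const ?_) ?_
    · intro u hu
      exact (WW_deriv A _ u hA0 (lt_of_lt_of_le hU0 hu.1)).continuousAt.continuousWithinAt
    · unfold ee
      fun_prop
  · have hσ0 : 0 < σ := lt_of_lt_of_le hU0 hσ.1
    have hAσ : A ≤ σ ^ 2 := hAU.trans (by have := hσ.1; gcongr)
    have hξ : 0 ≤ (k : ℝ) + 1 - h / 8 := du_xi_nonneg k h hh
    have h8 : (h : ℝ) ≤ 7 := by exact_mod_cast (by omega : h ≤ 7)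
    have hk0 : (0 : ℝ) ≤ k := Nat.cast_nonneg k
    have hξ1 : ((k + 1 : ℕ) : ℝ) / 8 ≤ (k : ℝ) + 1 - h / 8 := by
      push_cast
      linarith
    rw [norm_mul, norm_mul, du_ee_norm, du_ee_norm, one_mul, mul_one]
    refine (WW_norm A _ σ hA0 hσ0 hAσ hξ).trans ?_
    apply Real.exp_le_exp.mpr
    apply neg_le_neg
    have h1 : √(((k + 1 : ℕ) : ℝ) / 8) ≤ √((k : ℝ) + 1 - h / 8) := Real.sqrt_le_sqrt hξ1
    have h2 : 0 ≤ √(((k + 1 : ℕ) : ℝ) / 8) := Real.sqrt_nonneg _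
    have h3 : 0 ≤ √((k : ℝ) + 1 - h / 8) := Real.sqrt_nonneg _
    calc √(((k + 1 : ℕ) : ℝ) / 8) / (4 * U) ≤ √(((k + 1 : ℕ) : ℝ) / 8) / σ := by
          have := hσ.2
          gcongr
      _ ≤ √((k : ℝ) + 1 - h / 8) * A / σ := by
          gcongr
          exact h1.trans (le_mul_of_one_le_right h3 hA)

theorem fd (β : ℝ) (h2 : 2 ≤ β) (h3 : β ≤ 3) (hM : HM β) : ∃ C : ℝ, 0 < C ∧
    ∀ (A U ν : ℝ) (h : ℕ), 1 ≤ A → 1 ≤ U → A ≤ U ^ 2 → h < 8 → 0 < ν → ν ≤ 1 →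
    ∫ σ in U..(4 * U), ‖Fs (zz A σ) ν (h / 8)‖ ^ 4 ≤
      C * (U ^ (-4 : ℝ) * (U + (1 + Real.log U) ^ 5 * ((U / A) ^ (2 * β) * (U + (U / A) ^ 3)))) := by
  obtain ⟨C1, hC1, H1⟩ := dual
  obtain ⟨C2, hC2, H2⟩ := dd β h2 h3 hM
  refine ⟨8 * C1 ^ 4 * (3 + C2), by positivity, fun A U ν h hA hU hAU hh hν hν' => ?_⟩
  have hA0 : 0 < A := by linarith
  have hU0 : 0 < U := by linarith
  have hUle : U ≤ 4 * U := by linarith
  have hlog : 0 ≤ Real.log U := Real.log_nonneg hU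
  have hX0 : 0 ≤ (1 + Real.log U) ^ 5 * ((U / A) ^ (2 * β) * (U + (U / A) ^ 3)) := by positivity
  set X : ℝ := (1 + Real.log U) ^ 5 * ((U / A) ^ (2 * β) * (U + (U / A) ^ 3)) with hX
  have hUp : U ^ (-4 : ℝ) = 1 / U ^ 4 := by
    rw [Real.rpow_neg hU0.le, one_div]
    norm_cast
  by_cases hI : IntervalIntegrable (fun σ : ℝ => ‖Fs (zz A σ) ν (h / 8)‖ ^ 4) volume U (4 * U)
  swap
  · rw [intervalIntegral.integral_undef hI]
    positivity
  have hDc : ContinuousOn (fun σ : ℝ => ‖Ds A ν σ h‖ ^ 4) (Set.Icc U (4 * U)) :=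
    (fd_cont A U ν h hA hU hAU hh).norm.pow 4
  have hDi : IntervalIntegrable (fun σ : ℝ => ‖Ds A ν σ h‖ ^ 4) volume U (4 * U) := by
    apply ContinuousOn.intervalIntegrable
    rwa [Set.uIcc_of_le hUle]
  have hpt : ∀ σ ∈ Set.Icc U (4 * U), ‖Fs (zz A σ) ν (h / 8)‖ ^ 4 ≤
      (8 * C1 ^ 4 * (1 / U ^ 4)) * (1 + ‖Ds A ν σ h‖ ^ 4) := by
    intro σ hσ
    have hσ1 : 1 ≤ σ := hU.trans hσ.1
    have hσ0 : 0 < σ := by linarith
    have g1 := H1 A ν σ h hA0 hσ1 hν hν' hh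
    have g2 : ‖Fs (zz A σ) ν (h / 8)‖ ≤ C1 / U * (1 + ‖Ds A ν σ h‖) := by
      refine g1.trans ?_
      have := hσ.1
      gcongr
    have g3 : (1 + ‖Ds A ν σ h‖) ^ 4 ≤ 8 * (1 + ‖Ds A ν σ h‖ ^ 4) := by
      have g4 := add_pow_le zero_le_one (norm_nonneg (Ds A ν σ h)) 4
      norm_num at g4
      linarith
    calc ‖Fs (zz A σ) ν (h / 8)‖ ^ 4 ≤ (C1 / U * (1 + ‖Ds A ν σ h‖)) ^ 4 :=
          pow_le_pow_left₀ (norm_nonneg _) g2 4
      _ = (C1 / U) ^ 4 * (1 + ‖Ds A ν σ h‖) ^ 4 := mul_pow _ _ _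
      _ ≤ (C1 / U) ^ 4 * (8 * (1 + ‖Ds A ν σ h‖ ^ 4)) :=
          mul_le_mul_of_nonneg_left g3 (by positivity)
      _ = (8 * C1 ^ 4 * (1 / U ^ 4)) * (1 + ‖Ds A ν σ h‖ ^ 4) := by
          rw [div_pow]
          ring
  have hm : ∫ σ in U..(4 * U), ‖Fs (zz A σ) ν (h / 8)‖ ^ 4 ≤
      ∫ σ in U..(4 * U), (8 * C1 ^ 4 * (1 / U ^ 4)) * (1 + ‖Ds A ν σ h‖ ^ 4) :=
    intervalIntegral.integral_mono_on hUle hI
      ((intervalIntegrable_const.add hDi).const_mul _) hpt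
  rw [intervalIntegral.integral_const_mul, intervalIntegral.integral_add intervalIntegrable_const
    hDi, intervalIntegral.integral_const, smul_eq_mul] at hm
  have hD := H2 A U h (fun k => ee (((k : ℝ) + 1 - h / 8) * ν)) hA hU hAU hh
    (fun k => (du_ee_norm _).le)
  have hDe : ∫ σ in U..(4 * U), ‖Ds A ν σ h‖ ^ 4 ≤ C2 * (U + X) := hD
  refine hm.trans ?_
  rw [hUp]
  have h4 : (4 * U - U) * 1 + ∫ σ in U..(4 * U), ‖Ds A ν σ h‖ ^ 4 ≤ (3 + C2) * (U + X) := by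
    nlinarith
  calc 8 * C1 ^ 4 * (1 / U ^ 4) * ((4 * U - U) * 1 + ∫ σ in U..(4 * U), ‖Ds A ν σ h‖ ^ 4)
      ≤ 8 * C1 ^ 4 * (1 / U ^ 4) * ((3 + C2) * (U + X)) := by gcongr
    _ = 8 * C1 ^ 4 * (3 + C2) * (1 / U ^ 4 * (U + X)) := by ring

end Pool.Agent.Helper31.FM
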