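import Pool.Agent.Helper31.FI.Defs

/-!
# Project FM: fourth moment of the Fourier interpolation basis (MP_237b58_an)

Definitions.  `ee t = exp (2 π i t)`, `ze = exp (3 π i/4)` and `mains` are those of project FI.
-/

set_option autoImplicit false

namespace Pool.Agent.Helper31.FM

open Complex Real Finset MeasureTheory
open Pool.Agent.Helper31.FI (ee ze mains)

open Classical in
/-- the number of quadruples `a, b, c, d ∈ J` with `|w a + w b - (w c + w d)| ≤ δ` -/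
noncomputable def cn (J : Finset ℕ) (w : ℕ → ℝ) (δ : ℝ) : ℝ :=
  ((((J ×ˢ J) ×ˢ (J ×ˢ J)).filter
    (fun p : (ℕ × ℕ) × (ℕ × ℕ) => |w p.1.1 + w p.1.2 - (w p.2.1 + w p.2.2)| ≤ δ)).card : ℝ)

/-- near coincidences of sums of two numbers `1/(ν + i)`, `i ∈ [K, 2K)`, uniformly in the shift `ν` -/
def HK (β : ℝ) : Prop :=
  ∃ C : ℝ, 0 < C ∧ ∀ (ν : ℝ) (K : ℕ) (δ : ℝ), 0 < ν → ν ≤ 1 → 1 ≤ K → 0 ≤ δ →
    cn (Ico K (2 * K)) (fun i => 1 / (ν + i)) δ ≤ C * ((1 + δ * (K : ℝ) ^ (3 : ℝ)) * (K : ℝ) ^ β)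

/-- near coincidences of sums of two square roots -/
def HM (β : ℝ) : Prop :=
  ∃ C : ℝ, 0 < C ∧ ∀ (M : ℕ) (δ : ℝ), 1 ≤ M → 0 ≤ δ →
    cn (Ico M (2 * M)) (fun i => √(i : ℝ)) δ ≤
      C * ((1 + δ * (M : ℝ) ^ (3 / 2 : ℝ)) * (M : ℝ) ^ β)

/-- `exp (-2 √(2 π i ξ z))` -/
noncomputable def Lz (z : ℂ) (ξ : ℝ) : ℂ := cexp (-(2 * (2 * π * I * ξ * z) ^ (1 / 2 : ℂ)))

/-- `A + i σ²/(2π)` -/
noncomputable def zz (A σ : ℝ) : ℂ := (A : ℂ) + ((σ ^ 2 / (2 * π) : ℝ) : ℂ) * I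

/-- the smoothed sum `∑_{i ≥ 0} (ν+i)^(-3/2) exp (-z/(ν+i)) e(iθ)` -/
noncomputable def Fs (z : ℂ) (ν θ : ℝ) : ℂ :=
  ∑' i : ℕ, (((ν + i : ℝ) ^ (-(3 / 2) : ℝ) : ℝ) : ℂ) * cexp (-(z / ((ν + i : ℝ) : ℂ))) * ee (i * θ)

/-- `√(-σ² + 2 π i A)` -/
noncomputable def RR (A σ : ℝ) : ℂ := (((-σ ^ 2 : ℝ) : ℂ) + ((2 * π * A : ℝ) : ℂ) * I) ^ (1 / 2 : ℂ)

/-- the slowly varying factor of `Lz (zz A σ) ξ` -/
noncomputable def WW (A ξ σ : ℝ) : ℂ := cexp (-(2 * (√ξ : ℂ) * (RR A σ - σ * I)))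

/-- its derivative in `σ` -/
noncomputable def WD (A ξ σ : ℝ) : ℂ :=
  2 * (√ξ : ℂ) * (I * (RR A σ - σ * I) / RR A σ) * WW A ξ σ

end Pool.Agent.Helper31.FM
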