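import Pool.Agent.Helper31.FM.Blk
import Pool.Agent.Helper31.FM.RI

/-!
# FM-DI: fourth moment of the smoothed sum from `HK β`

`di`: index `k = i + 1 ≥ 1`, `w k = -(1/(ν+k))`, `W k t = χ (k-1) (ν+k)^(-3/2) exp (-ρ t/(ν+k))`.  Block `k ∈ [K, 2K)`, `K = 2^j`:
`‖W‖ ≤ K^(-3/2) exp (-A/(2K+1))`, `‖W'‖ ≤ K^(-3/2) (A/(T (ν+k))) exp (-A/(ν+k)) ≤ K^(-3/2) exp (-A/(2(ν+k)))/T` (`y exp (-y) ≤ exp (-y/2)`),
so `B j = K^(-3/2) exp (-A/(6K))` works.  `P, Q` from `di_cn`, then `di_ar`.  Tail (`tsum_cut`, `ex_J`): `k ≥ 2^J` with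
`2^J ≥ (9 T)^9`: `∑ k^(-3/2) ≤ 3 · 2^(-J/2) ≤ T^(-3)`, so its fourth moment is at most `3 T · T^(-12) ≤ 3 T^(-10)`.
-/

set_option autoImplicit false

namespace Pool.Agent.Helper31.FM

open Complex Real Finset MeasureTheory
open Pool.Agent.Helper31.FI (ee ze mains)

/-- `HK β` with `K = 2^j` and `cn_map` with `e = id`, `c = -1` -/
theorem di_cn (β : ℝ) (hK : HK β) : ∃ C : ℝ, 0 < C ∧ ∀ (ν : ℝ) (j : ℕ) (δ : ℝ), 0 < ν → ν ≤ 1 → 0 ≤ δ →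
    cn (Ico (2 ^ j) (2 ^ (j + 1))) (fun k => -(1 / (ν + k))) δ ≤
      (C * ((2 : ℝ) ^ j) ^ β) * (1 + δ * ((2 : ℝ) ^ j) ^ 3) := by
  obtain ⟨C, hC, h⟩ := hK
  refine ⟨C, hC, fun ν j δ h0 h1 hδ => ?_⟩
  have e : 2 ^ (j + 1) = 2 * 2 ^ j := by ring
  have a1 : cn (Ico (2 ^ j) (2 ^ (j + 1))) (fun k => -(1 / (ν + k))) δ ≤
      cn (Ico (2 ^ j) (2 * 2 ^ j)) (fun i => 1 / (ν + i)) (δ / |(-1 : ℝ)|) := by
    refine cn_map (fun k => k) (-1) δ (by norm_num) (Function.injective_id.injOn) ?_ ?_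
    · intro k hk
      rwa [← e]
    · intro k _
      ring
  have a2 := h ν (2 ^ j) δ h0 h1 Nat.one_le_two_pow hδ
  rw [abs_neg, abs_one, div_one] at a1
  refine a1.trans (a2.trans (le_of_eq ?_))
  push_cast
  rw [show (((2 : ℝ) ^ j) ^ (3 : ℝ)) = ((2 : ℝ) ^ j) ^ 3 by
    rw [show (3 : ℝ) = ((3 : ℕ) : ℝ) by norm_num, Real.rpow_natCast]]
  ring

private theorem di_pe (s : ℝ) (hs : 0 ≤ s) : ∃ C : ℝ, 0 < C ∧ ∀ X : ℝ, 0 < X →
    X ^ s * Real.exp (-(2 / 3 * X)) ≤ C := by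
  set n : ℕ := ⌈s⌉₊ with hn
  have hsn : s ≤ n := Nat.le_ceil s
  refine ⟨1 + n.factorial * (3 / 2 : ℝ) ^ n, by positivity, fun X hX => ?_⟩
  have h1 : X ^ s ≤ 1 + X ^ n := by
    rcases le_total X 1 with h | h
    · have := Real.rpow_le_one hX.le h hs
      have : 0 ≤ X ^ n := by positivity
      linarith
    · have h2 := Real.rpow_le_rpow_of_exponent_le h hsn
      rw [Real.rpow_natCast] at h2
      linarith
  have h2 := Real.pow_div_factorial_le_exp (2 / 3 * X) (by positivity) n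
  have h3 : X ^ n ≤ n.factorial * (3 / 2 : ℝ) ^ n * Real.exp (2 / 3 * X) := by
    have hf : (0 : ℝ) < n.factorial := by positivity
    rw [div_le_iff₀ hf, mul_pow] at h2
    have h4 : (3 / 2 : ℝ) ^ n * ((2 / 3 : ℝ) ^ n * X ^ n) = X ^ n := by
      rw [← mul_assoc, ← mul_pow]
      norm_num
    calc X ^ n = (3 / 2 : ℝ) ^ n * ((2 / 3 : ℝ) ^ n * X ^ n) := h4.symm
      _ ≤ (3 / 2 : ℝ) ^ n * (Real.exp (2 / 3 * X) * n.factorial) := by gcongr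
      _ = _ := by ring
  have h5 : (1 : ℝ) ≤ Real.exp (2 / 3 * X) := Real.one_le_exp (by positivity)
  calc X ^ s * Real.exp (-(2 / 3 * X)) ≤
      ((1 + n.factorial * (3 / 2 : ℝ) ^ n) * Real.exp (2 / 3 * X)) * Real.exp (-(2 / 3 * X)) := by
        gcongr
        refine h1.trans ?_
        rw [add_mul, one_mul]
        exact add_le_add h5 h3
    _ = 1 + n.factorial * (3 / 2 : ℝ) ^ n := by
        rw [mul_assoc, ← Real.exp_add, add_neg_cancel, Real.exp_zero, mul_one]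

/-- with `X = A/K`: `K^(β-6) = A^(β-6) X^(6-β)`, `K^(β-3) = A^(β-3) X^(3-β)` -/
theorem di_ar (β C₁ : ℝ) (h3 : β ≤ 3) (hC : 0 < C₁) : ∃ C : ℝ, 0 < C ∧ ∀ A T K : ℝ, 0 < A → 0 < T → 0 < K →
    (K ^ (-(3 / 2) : ℝ) * Real.exp (-(A / (6 * K)))) ^ 4 * ((C₁ * K ^ β) * (T + K ^ 3)) ≤
      C * (A ^ (β - 6) * (T + A ^ 3)) := by
  obtain ⟨Ca, hCa, ha⟩ := di_pe (6 - β) (by linarith)
  obtain ⟨Cb, hCb, hb⟩ := di_pe (3 - β) (by linarith)
  refine ⟨C₁ * (Ca + Cb), by positivity, fun A T K hA hT hK => ?_⟩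
  have hX : 0 < A / K := by positivity
  have a1 := ha (A / K) hX
  have b1 := hb (A / K) hX
  set E : ℝ := Real.exp (-(2 / 3 * (A / K))) with hE
  have hE0 : 0 < E := Real.exp_pos _
  have e1 : (K ^ (-(3 / 2) : ℝ) * Real.exp (-(A / (6 * K)))) ^ 4 = K ^ (-6 : ℝ) * E := by
    rw [mul_pow, ← Real.rpow_natCast (K ^ (-(3 / 2) : ℝ)), ← Real.rpow_mul hK.le, ← Real.exp_nat_mul, hE]
    congr 2
    · norm_num
    · push_cast
      field_simp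
      ring
  have e2 : K ^ (-6 : ℝ) * K ^ β = A ^ (β - 6) * (A / K) ^ (6 - β) := by
    rw [Real.div_rpow hA.le hK.le, ← Real.rpow_add hK, mul_div_assoc', ← Real.rpow_add hA]
    rw [show β - 6 + (6 - β) = 0 by ring, Real.rpow_zero, one_div, ← Real.rpow_neg hK.le]
    congr 1
    ring
  have e3 : K ^ (-6 : ℝ) * K ^ β * K ^ 3 = A ^ (β - 6) * A ^ 3 * (A / K) ^ (3 - β) := by
    rw [← Real.rpow_natCast K 3, ← Real.rpow_natCast A 3, Real.div_rpow hA.le hK.le, ← Real.rpow_add hK,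
      ← Real.rpow_add hK, ← Real.rpow_add hA, mul_div_assoc', ← Real.rpow_add hA]
    push_cast
    rw [show β - 6 + 3 + (3 - β) = 0 by ring, Real.rpow_zero, one_div, ← Real.rpow_neg hK.le]
    congr 1
    ring
  have hA6 : 0 < A ^ (β - 6) := Real.rpow_pos_of_pos hA _
  calc (K ^ (-(3 / 2) : ℝ) * Real.exp (-(A / (6 * K)))) ^ 4 * ((C₁ * K ^ β) * (T + K ^ 3))
      = C₁ * (A ^ (β - 6) * T * ((A / K) ^ (6 - β) * E) + A ^ (β - 6) * A ^ 3 * ((A / K) ^ (3 - β) * E)) := by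
        rw [e1]
        have : K ^ (-6 : ℝ) * E * (C₁ * K ^ β * (T + K ^ 3)) =
            C₁ * (E * T * (K ^ (-6 : ℝ) * K ^ β) + E * (K ^ (-6 : ℝ) * K ^ β * K ^ 3)) := by ring
        rw [this, e2, ← e2, e3, e2]
        ring
    _ ≤ C₁ * (A ^ (β - 6) * T * Ca + A ^ (β - 6) * A ^ 3 * Cb) := by gcongr
    _ ≤ C₁ * (Ca + Cb) * (A ^ (β - 6) * (T + A ^ 3)) := by
        have h1 : 0 ≤ A ^ (β - 6) * T * Cb := by positivity
        have h2 : 0 ≤ A ^ (β - 6) * A ^ 3 * Ca := by positivity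
        have : C₁ * (Ca + Cb) * (A ^ (β - 6) * (T + A ^ 3)) =
            C₁ * (A ^ (β - 6) * T * Ca + A ^ (β - 6) * A ^ 3 * Cb + (A ^ (β - 6) * T * Cb + A ^ (β - 6) * A ^ 3 * Ca)) := by ring
        rw [this]
        exact mul_le_mul_of_nonneg_left (by linarith) hC.le

private theorem di_exp (y : ℝ) (hy : 0 ≤ y) : y * Real.exp (-y) ≤ Real.exp (-(y / 2)) := by
  have h1 := Real.quadratic_le_exp_of_nonneg (x := y / 2) (by linarith)
  have h2 : y ≤ Real.exp (y / 2) := by nlinarith [sq_nonneg (y - 2)]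
  calc y * Real.exp (-y) ≤ Real.exp (y / 2) * Real.exp (-y) :=
        mul_le_mul_of_nonneg_right h2 (Real.exp_pos _).le
    _ = Real.exp (-(y / 2)) := by rw [← Real.exp_add]; congr 1; ring

private theorem di_tl (ν : ℝ) (N : ℕ) (hν : 0 < ν) (hN : 1 ≤ N) :
    (Summable fun k : ℕ => (ν + ((k + N : ℕ) : ℝ)) ^ (-(3 / 2) : ℝ)) ∧
    ∑' k : ℕ, (ν + ((k + N : ℕ) : ℝ)) ^ (-(3 / 2) : ℝ) ≤ 4 * (N : ℝ) ^ (-(1 / 2) : ℝ) := by
  have hN1 : (1 : ℝ) ≤ (N : ℝ) := by exact_mod_cast hN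
  have hn : ∀ k : ℕ, 0 ≤ (ν + ((k + N : ℕ) : ℝ)) ^ (-(3 / 2) : ℝ) := fun k => by positivity
  have hb : ∀ n : ℕ, ∑ k ∈ Finset.range n, (ν + ((k + N : ℕ) : ℝ)) ^ (-(3 / 2) : ℝ) ≤
      4 * (N : ℝ) ^ (-(1 / 2) : ℝ) := by
    intro n
    have h1 : ∑ k ∈ Finset.range n, (ν + ((k + N : ℕ) : ℝ)) ^ (-(3 / 2) : ℝ) ≤
        4 * ((ν + N) ^ (-(1 / 2) : ℝ) - (ν + N + n) ^ (-(1 / 2) : ℝ)) := by
      induction n with
      | zero => simp
      | succ n ih =>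
        rw [Finset.sum_range_succ]
        have h3 := sum_kernel_tel (ν + N + n) (by linarith [(Nat.cast_nonneg n : (0 : ℝ) ≤ n)])
        have h4 : ν + ((n + N : ℕ) : ℝ) = ν + N + n := by push_cast; ring
        have h5 : ν + N + ((n + 1 : ℕ) : ℝ) = ν + N + n + 1 := by push_cast; ring
        rw [h4, h5]
        linarith
    have h2 : (0 : ℝ) ≤ (ν + N + n) ^ (-(1 / 2) : ℝ) := by positivity
    have h3 : (ν + N) ^ (-(1 / 2) : ℝ) ≤ (N : ℝ) ^ (-(1 / 2) : ℝ) :=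
      Real.rpow_le_rpow_of_nonpos (by linarith) (by linarith) (by norm_num)
    linarith
  exact ⟨summable_of_sum_range_le hn hb, Real.tsum_le_of_sum_range_le hn hb⟩

private theorem di_cexp (r : ℂ) (y : ℝ) (hy : 0 < y) (A : ℝ) (hr : A ≤ r.re) :
    ‖cexp (-(r / (y : ℂ)))‖ ≤ Real.exp (-(A / y)) := by
  rw [Complex.norm_exp]
  apply Real.exp_le_exp.mpr
  rw [Complex.neg_re, Complex.div_ofReal_re]
  have : A / y ≤ r.re / y := div_le_div_of_nonneg_right hr hy.le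
  linarith

private theorem di_ee (x : ℝ) : ‖ee x‖ = 1 := by
  unfold Pool.Agent.Helper31.FI.ee
  rw [Complex.norm_exp]
  simp

private theorem di_W (ν A T : ℝ) (r r' c : ℂ) (j k : ℕ) (hν : 0 < ν) (hν1 : ν ≤ 1) (hA : 0 < A)
    (hT : 1 ≤ T) (hc : ‖c‖ ≤ 1) (hk : k ∈ Ico (2 ^ j) (2 ^ (j + 1))) (hr : A ≤ r.re)
    (hr' : ‖r'‖ ≤ A / T) :
    ‖c * (((ν + k : ℝ) ^ (-(3 / 2) : ℝ) : ℝ) : ℂ) * cexp (-(r / ((ν + k : ℝ) : ℂ)))‖ ≤
      ((2 : ℝ) ^ j) ^ (-(3 / 2) : ℝ) * Real.exp (-(A / (6 * (2 : ℝ) ^ j))) ∧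
    ‖c * (((ν + k : ℝ) ^ (-(3 / 2) : ℝ) : ℝ) : ℂ) * (cexp (-(r / ((ν + k : ℝ) : ℂ))) *
        (-(r' / ((ν + k : ℝ) : ℂ))))‖ ≤
      (((2 : ℝ) ^ j) ^ (-(3 / 2) : ℝ) * Real.exp (-(A / (6 * (2 : ℝ) ^ j)))) / T := by
  rw [Finset.mem_Ico] at hk
  have hK0 : (0 : ℝ) < (2 : ℝ) ^ j := by positivity
  have hk1 : (2 : ℝ) ^ j ≤ (k : ℝ) := by exact_mod_cast hk.1
  have hk2 : (k : ℝ) + 1 ≤ 2 * (2 : ℝ) ^ j := by
    have : k + 1 ≤ 2 ^ (j + 1) := hk.2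
    have h : ((k + 1 : ℕ) : ℝ) ≤ ((2 ^ (j + 1) : ℕ) : ℝ) := by exact_mod_cast this
    push_cast at h
    rw [pow_succ] at h
    linarith
  set y : ℝ := ν + k with hy
  set K : ℝ := (2 : ℝ) ^ j with hKd
  have hy0 : 0 < y := by linarith
  have hyK : K ≤ y := by linarith
  have hy2 : y ≤ 2 * K := by linarith
  have e1 : y ^ (-(3 / 2) : ℝ) ≤ K ^ (-(3 / 2) : ℝ) :=
    Real.rpow_le_rpow_of_nonpos hK0 hyK (by norm_num)
  have e1' : 0 ≤ y ^ (-(3 / 2) : ℝ) := Real.rpow_nonneg hy0.le _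
  have e2 := di_cexp r y hy0 A hr
  have n1 : ‖((y ^ (-(3 / 2) : ℝ) : ℝ) : ℂ)‖ = y ^ (-(3 / 2) : ℝ) := by
    rw [Complex.norm_real, Real.norm_of_nonneg e1']
  have e3 : Real.exp (-(A / y)) ≤ Real.exp (-(A / (6 * K))) := by
    apply Real.exp_le_exp.mpr
    have : A / (6 * K) ≤ A / y := div_le_div_of_nonneg_left hA.le hy0 (by linarith)
    linarith
  have e4 : Real.exp (-(A / y / 2)) ≤ Real.exp (-(A / (6 * K))) := by
    apply Real.exp_le_exp.mpr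
    rw [div_div]
    have : A / (6 * K) ≤ A / (y * 2) := div_le_div_of_nonneg_left hA.le (by positivity) (by linarith)
    linarith
  have e5 := di_exp (A / y) (by positivity)
  have hT0 : 0 < T := by linarith
  constructor
  · rw [norm_mul, norm_mul, n1]
    calc ‖c‖ * y ^ (-(3 / 2) : ℝ) * ‖cexp (-(r / (y : ℂ)))‖
        ≤ 1 * K ^ (-(3 / 2) : ℝ) * Real.exp (-(A / (6 * K))) := by
          apply mul_le_mul _ (e2.trans e3) (norm_nonneg _) (by positivity)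
          exact mul_le_mul hc e1 e1' (by norm_num)
      _ = _ := by rw [one_mul]
  · rw [norm_mul, norm_mul, norm_mul, n1, norm_neg, norm_div, Complex.norm_real,
      Real.norm_of_nonneg hy0.le]
    have e6 : ‖cexp (-(r / (y : ℂ)))‖ * (‖r'‖ / y) ≤ Real.exp (-(A / (6 * K))) / T := by
      calc ‖cexp (-(r / (y : ℂ)))‖ * (‖r'‖ / y) ≤ Real.exp (-(A / y)) * (A / T / y) := by
            apply mul_le_mul e2 _ (by positivity) (Real.exp_pos _).le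
            exact div_le_div_of_nonneg_right hr' hy0.le
        _ = (A / y * Real.exp (-(A / y))) / T := by field_simp
        _ ≤ Real.exp (-(A / y / 2)) / T := div_le_div_of_nonneg_right e5 hT0.le
        _ ≤ Real.exp (-(A / (6 * K))) / T := div_le_div_of_nonneg_right e4 hT0.le
    calc ‖c‖ * y ^ (-(3 / 2) : ℝ) * (‖cexp (-(r / (y : ℂ)))‖ * (‖r'‖ / y))
        ≤ 1 * K ^ (-(3 / 2) : ℝ) * (Real.exp (-(A / (6 * K))) / T) := by
          apply mul_le_mul _ e6 (by positivity) (by positivity)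
          exact mul_le_mul hc e1 e1' (by norm_num)
      _ = _ := by rw [one_mul, mul_div_assoc]

theorem di (β : ℝ) (h2 : 2 ≤ β) (h3 : β ≤ 3) (hK : HK β) : ∃ C : ℝ, 0 < C ∧
    ∀ (ν A T : ℝ) (ρ ρ' : ℝ → ℂ) (χ : ℕ → ℂ), 0 < ν → ν ≤ 1 → 0 < A → 1 ≤ T → (∀ k, ‖χ k‖ ≤ 1) →
    (∀ t ∈ Set.Icc T (4 * T), HasDerivAt ρ (ρ' t) t) → ContinuousOn ρ' (Set.Icc T (4 * T)) →
    (∀ t ∈ Set.Icc T (4 * T), A ≤ (ρ t).re) → (∀ t ∈ Set.Icc T (4 * T), ‖ρ' t‖ ≤ A / T) →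
    ∫ t in T..(4 * T), ‖∑' i : ℕ, χ i * (((ν + (i + 1) : ℝ) ^ (-(3 / 2) : ℝ) : ℝ) : ℂ) *
        cexp (-(ρ t / ((ν + (i + 1) : ℝ) : ℂ))) * ee (-(t / (ν + (i + 1))))‖ ^ 4 ≤
      C * ((1 + Real.log T) ^ 5 * (A ^ (β - 6) * (T + A ^ 3)) + T ^ (-10 : ℝ)) := by
  obtain ⟨C₁, hC₁, hcn⟩ := di_cn β hK
  obtain ⟨C₂, hC₂, har⟩ := di_ar β C₁ h3 hC₁
  obtain ⟨C₃, hC₃, hbl⟩ := blks
  obtain ⟨C₄, hC₄, hJ⟩ := ex_J 9
  refine ⟨8 * (C₃ * (C₄ ^ 5 * C₂)) + 6144, by positivity, ?_⟩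
  intro ν A T ρ ρ' χ hν hν1 hA hT hχ hρ hρc hρA hρ'
  have hT0 : 0 < T := by linarith
  obtain ⟨J, hJ1, hJ9, hJl⟩ := hJ T hT
  have hlog : 0 ≤ Real.log T := Real.log_nonneg hT
  -- the pieces
  set W : ℕ → ℝ → ℂ := fun k t => χ (k - 1) * (((ν + k : ℝ) ^ (-(3 / 2) : ℝ) : ℝ) : ℂ) *
    cexp (-(ρ t / ((ν + k : ℝ) : ℂ))) with hW
  set W' : ℕ → ℝ → ℂ := fun k t => χ (k - 1) * (((ν + k : ℝ) ^ (-(3 / 2) : ℝ) : ℝ) : ℂ) *
    (cexp (-(ρ t / ((ν + k : ℝ) : ℂ))) * (-(ρ' t / ((ν + k : ℝ) : ℂ)))) with hW'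
  set w : ℕ → ℝ := fun k => -(1 / (ν + k)) with hw
  have hWd : ∀ k : ℕ, ∀ u ∈ Set.Icc T (4 * T), HasDerivAt (W k) (W' k u) u := by
    intro k u hu
    have h1 : HasDerivAt (fun t => -(ρ t / ((ν + k : ℝ) : ℂ))) (-(ρ' u / ((ν + k : ℝ) : ℂ))) u :=
      ((hρ u hu).div_const _).neg
    exact h1.cexp.const_mul (χ (k - 1) * (((ν + k : ℝ) ^ (-(3 / 2) : ℝ) : ℝ) : ℂ))
  have hWc : ∀ k : ℕ, ContinuousOn (W k) (Set.Icc T (4 * T)) := fun k u hu =>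
    (hWd k u hu).continuousAt.continuousWithinAt
  have hρ0 : ContinuousOn ρ (Set.Icc T (4 * T)) := fun u hu =>
    (hρ u hu).continuousAt.continuousWithinAt
  have hW'c : ∀ k : ℕ, ContinuousOn (W' k) (Set.Icc T (4 * T)) := by
    intro k
    apply ContinuousOn.mul continuousOn_const
    apply ContinuousOn.mul
    · exact (hρ0.div_const _).neg.cexp
    · exact (hρc.div_const _).neg
  have hee : ∀ x : ℝ, Continuous (fun u : ℝ => ee (u * x)) := by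
    intro x
    unfold Pool.Agent.Helper31.FI.ee
    fun_prop
  -- the head
  have hhead := hbl w W W' T J (fun j => ((2 : ℝ) ^ j) ^ (-(3 / 2) : ℝ) *
      Real.exp (-(A / (6 * (2 : ℝ) ^ j)))) (fun j => C₁ * ((2 : ℝ) ^ j) ^ β)
      (fun j => ((2 : ℝ) ^ j) ^ 3) hT0
      (fun j _ => ⟨by positivity, by positivity, by positivity⟩)
      (fun j _ δ hδ => hcn ν j δ hν hν1 hδ)
      (fun k _ => hWd k) (fun k _ => hW'c k)
      (fun j _ k hk u hu => di_W ν A T (ρ u) (ρ' u) (χ (k - 1)) j k hν hν1 hA hT (hχ _) hk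
        (hρA u hu) (hρ' u hu))
  have hsum : ∑ j ∈ range J, (((2 : ℝ) ^ j) ^ (-(3 / 2) : ℝ) *
      Real.exp (-(A / (6 * (2 : ℝ) ^ j)))) ^ 4 * ((C₁ * ((2 : ℝ) ^ j) ^ β) * (T + ((2 : ℝ) ^ j) ^ 3)) ≤
      J * (C₂ * (A ^ (β - 6) * (T + A ^ 3))) := by
    calc _ ≤ ∑ j ∈ range J, C₂ * (A ^ (β - 6) * (T + A ^ 3)) :=
          Finset.sum_le_sum fun j _ => har A T ((2 : ℝ) ^ j) hA hT0 (by positivity)
      _ = _ := by rw [Finset.sum_const, Finset.card_range, nsmul_eq_mul]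
  have hR0 : 0 ≤ A ^ (β - 6) * (T + A ^ 3) := by positivity
  have hhead2 : ∫ u in T..(4 * T), ‖∑ k ∈ Ico 1 (2 ^ J), W k u * ee (u * w k)‖ ^ 4 ≤
      C₃ * (C₄ ^ 5 * C₂) * ((1 + Real.log T) ^ 5 * (A ^ (β - 6) * (T + A ^ 3))) := by
    refine hhead.trans ?_
    have hJ0 : (0 : ℝ) ≤ J := Nat.cast_nonneg J
    calc C₃ * ((1 + J) ^ 4 * _) ≤ C₃ * ((1 + J) ^ 4 * (J * (C₂ * (A ^ (β - 6) * (T + A ^ 3))))) := by
          apply mul_le_mul_of_nonneg_left _ hC₃.le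
          exact mul_le_mul_of_nonneg_left hsum (by positivity)
      _ ≤ C₃ * ((1 + J) ^ 4 * ((1 + J) * (C₂ * (A ^ (β - 6) * (T + A ^ 3))))) := by
          apply mul_le_mul_of_nonneg_left _ hC₃.le
          apply mul_le_mul_of_nonneg_left _ (by positivity)
          apply mul_le_mul_of_nonneg_right _ (by positivity)
          linarith
      _ = C₃ * C₂ * (A ^ (β - 6) * (T + A ^ 3)) * (1 + J : ℝ) ^ 5 := by ring
      _ ≤ C₃ * C₂ * (A ^ (β - 6) * (T + A ^ 3)) * (C₄ * (1 + Real.log T)) ^ 5 := by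
          apply mul_le_mul_of_nonneg_left _ (by positivity)
          exact pow_le_pow_left₀ (by positivity) hJl 5
      _ = _ := by ring
  -- the tail
  have htl := di_tl ν (2 ^ J) hν (Nat.one_le_two_pow)
  have hX : (T ^ 9 : ℝ) ≤ (2 : ℝ) ^ J := by
    refine le_trans ?_ hJ9
    push_cast
    apply pow_le_pow_left₀ hT0.le
    linarith
  have htl2 : (4 * (((2 ^ J : ℕ) : ℝ)) ^ (-(1 / 2) : ℝ)) ^ 4 ≤ 256 / T ^ 18 := by
    have hX0 : (0 : ℝ) < (2 : ℝ) ^ J := by positivity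
    have h1 : (((2 ^ J : ℕ) : ℝ)) ^ (-(1 / 2) : ℝ) = (√((2 : ℝ) ^ J))⁻¹ := by
      push_cast
      rw [Real.rpow_neg hX0.le, ← Real.sqrt_eq_rpow]
    rw [h1]
    have h2 : (4 * (√((2 : ℝ) ^ J))⁻¹) ^ 4 = 256 / ((2 : ℝ) ^ J) ^ 2 := by
      have h3 : (√((2 : ℝ) ^ J)) ^ 4 = ((2 : ℝ) ^ J) ^ 2 := by
        have : (√((2 : ℝ) ^ J)) ^ 4 = ((√((2 : ℝ) ^ J)) ^ 2) ^ 2 := by ring
        rw [this, Real.sq_sqrt hX0.le]
      rw [mul_pow, inv_pow, h3]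
      norm_num [div_eq_mul_inv]
    rw [h2]
    apply div_le_div_of_nonneg_left (by norm_num) (by positivity)
    calc T ^ 18 = (T ^ 9) ^ 2 := by ring
      _ ≤ ((2 : ℝ) ^ J) ^ 2 := pow_le_pow_left₀ (by positivity) hX 2
  have hpt : ∀ t ∈ Set.Icc T (4 * T),
      ‖∑' i : ℕ, χ i * (((ν + (i + 1) : ℝ) ^ (-(3 / 2) : ℝ) : ℝ) : ℂ) *
        cexp (-(ρ t / ((ν + (i + 1) : ℝ) : ℂ))) * ee (-(t / (ν + (i + 1))))‖ ^ 4 ≤
      8 * ‖∑ k ∈ Ico 1 (2 ^ J), W k t * ee (t * w k)‖ ^ 4 + 8 * (256 / T ^ 18) := by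
    intro t ht
    set f : ℕ → ℂ := fun k => W k t * ee (t * w k) with hf
    have hfb : ∀ k : ℕ, ‖f k‖ ≤ (ν + (k : ℝ)) ^ (-(3 / 2) : ℝ) := by
      intro k
      have hy0 : 0 < ν + (k : ℝ) := by positivity
      have e1' : 0 ≤ (ν + (k : ℝ)) ^ (-(3 / 2) : ℝ) := Real.rpow_nonneg hy0.le _
      have e2 := di_cexp (ρ t) (ν + k) hy0 A (hρA t ht)
      have e3 : Real.exp (-(A / (ν + k))) ≤ 1 := by
        rw [Real.exp_le_one_iff]
        have : 0 ≤ A / (ν + k) := by positivity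
        linarith
      simp only [hf, hW]
      rw [norm_mul, norm_mul, norm_mul, di_ee, mul_one, Complex.norm_real, Real.norm_of_nonneg e1']
      calc ‖χ (k - 1)‖ * (ν + (k : ℝ)) ^ (-(3 / 2) : ℝ) * ‖cexp (-(ρ t / ((ν + k : ℝ) : ℂ)))‖
          ≤ 1 * (ν + (k : ℝ)) ^ (-(3 / 2) : ℝ) * 1 := by
            apply mul_le_mul _ (e2.trans e3) (norm_nonneg _) (by positivity)
            exact mul_le_mul_of_nonneg_right (hχ _) e1'
        _ = _ := by ring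
    have hfs : Summable f := by
      have h1 := (di_tl ν 1 hν le_rfl).1
      have h2 : Summable (fun k : ℕ => (ν + (k : ℝ)) ^ (-(3 / 2) : ℝ)) :=
        (summable_nat_add_iff 1).mp h1
      exact Summable.of_norm_bounded h2 hfb
    have hcut := tsum_cut f hfs J
    have hEq : (∑' i : ℕ, χ i * (((ν + (i + 1) : ℝ) ^ (-(3 / 2) : ℝ) : ℝ) : ℂ) *
        cexp (-(ρ t / ((ν + (i + 1) : ℝ) : ℂ))) * ee (-(t / (ν + (i + 1))))) = ∑' k : ℕ, f (k + 1) := by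
      apply tsum_congr
      intro i
      simp only [hf, hW, hw, Nat.add_sub_cancel]
      have h1 : t * -(1 / (ν + ((i + 1 : ℕ) : ℝ))) = -(t / (ν + (i + 1))) := by
        push_cast
        ring
      rw [h1]
      push_cast
      rfl
    have htail : ‖∑' k : ℕ, f (k + 2 ^ J)‖ ≤ 4 * (((2 ^ J : ℕ) : ℝ)) ^ (-(1 / 2) : ℝ) :=
      (tsum_of_norm_bounded htl.1.hasSum (fun k => hfb (k + 2 ^ J))).trans htl.2
    rw [hEq, hcut]
    refine (norm_add_pow4 _ _).trans ?_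
    have h5 : ‖∑' k : ℕ, f (k + 2 ^ J)‖ ^ 4 ≤ 256 / T ^ 18 :=
      (pow_le_pow_left₀ (norm_nonneg _) htail 4).trans htl2
    linarith
  -- conclusion
  have hcont : ContinuousOn (fun t => 8 * ‖∑ k ∈ Ico 1 (2 ^ J), W k t * ee (t * w k)‖ ^ 4 +
      8 * (256 / T ^ 18)) (Set.Icc T (4 * T)) := by
    apply ContinuousOn.add _ continuousOn_const
    apply ContinuousOn.mul continuousOn_const
    apply ContinuousOn.pow
    apply ContinuousOn.norm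
    apply continuousOn_finsetSum
    intro k _
    exact (hWc k).mul (hee (w k)).continuousOn
  have hcont' : ContinuousOn (fun t => ‖∑ k ∈ Ico 1 (2 ^ J), W k t * ee (t * w k)‖ ^ 4)
      (Set.Icc T (4 * T)) := by
    apply ContinuousOn.pow
    apply ContinuousOn.norm
    apply continuousOn_finsetSum
    intro k _
    exact (hWc k).mul (hee (w k)).continuousOn
  have hTT : T ≤ 4 * T := by linarith
  have hint : IntervalIntegrable (fun t => 8 * ‖∑ k ∈ Ico 1 (2 ^ J), W k t * ee (t * w k)‖ ^ 4 +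
      8 * (256 / T ^ 18)) volume T (4 * T) := by
    apply ContinuousOn.intervalIntegrable
    rw [Set.uIcc_of_le hTT]
    exact hcont
  have hint' : IntervalIntegrable (fun t => ‖∑ k ∈ Ico 1 (2 ^ J), W k t * ee (t * w k)‖ ^ 4)
      volume T (4 * T) := by
    apply ContinuousOn.intervalIntegrable
    rw [Set.uIcc_of_le hTT]
    exact hcont'
  have hT10 : 3 * T * (8 * (256 / T ^ 18)) ≤ 6144 * T ^ (-10 : ℝ) := by
    have h1 : T ^ (-10 : ℝ) = (T ^ 10)⁻¹ := by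
      rw [Real.rpow_neg hT0.le]
      norm_cast
    rw [h1]
    have h2 : 3 * T * (8 * (256 / T ^ 18)) = 6144 * (T ^ 17)⁻¹ := by
      field_simp
      norm_num
    rw [h2]
    apply mul_le_mul_of_nonneg_left _ (by norm_num)
    exact inv_anti₀ (by positivity) (pow_le_pow_right₀ hT (by norm_num))
  have hmaj : ∫ t in T..(4 * T), (8 * ‖∑ k ∈ Ico 1 (2 ^ J), W k t * ee (t * w k)‖ ^ 4 +
      8 * (256 / T ^ 18)) ≤ (8 * (C₃ * (C₄ ^ 5 * C₂)) + 6144) *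
        ((1 + Real.log T) ^ 5 * (A ^ (β - 6) * (T + A ^ 3)) + T ^ (-10 : ℝ)) := by
    rw [intervalIntegral.integral_add (hint'.const_mul 8) (by simp),
      intervalIntegral.integral_const_mul, intervalIntegral.integral_const, smul_eq_mul]
    have h1 : (4 * T - T) * (8 * (256 / T ^ 18)) ≤ 6144 * T ^ (-10 : ℝ) := by
      have : 4 * T - T = 3 * T := by ring
      rw [this]; exact hT10
    have h2 : 0 ≤ T ^ (-10 : ℝ) := by positivity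
    have h3 : 0 ≤ (1 + Real.log T) ^ 5 * (A ^ (β - 6) * (T + A ^ 3)) := by positivity
    have h4 : 0 ≤ 8 * (C₃ * (C₄ ^ 5 * C₂)) := by positivity
    have h5 : 0 ≤ 8 * (C₃ * (C₄ ^ 5 * C₂)) * T ^ (-10 : ℝ) := mul_nonneg h4 h2
    nlinarith
  by_cases hI : IntervalIntegrable (fun t => ‖∑' i : ℕ, χ i *
      (((ν + (i + 1) : ℝ) ^ (-(3 / 2) : ℝ) : ℝ) : ℂ) *
        cexp (-(ρ t / ((ν + (i + 1) : ℝ) : ℂ))) * ee (-(t / (ν + (i + 1))))‖ ^ 4) volume T (4 * T)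
  · exact (intervalIntegral.integral_mono_on hTT hI hint hpt).trans hmaj
  · rw [intervalIntegral.integral_undef hI]
    positivity

end Pool.Agent.Helper31.FM
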