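import Pool.Agent.Helper31.FM.DD
import Pool.Agent.Helper31.FM.Fej

/-!
# FM-D1: from square roots to reciprocals

`ρ = (β-2)/(β-1)`, `R = K^ρ`, `T = K³/(2R)`, so that `1/(2T) = R/K³ ≥ K^(-3)`; `cn_mono`, `d1_fej`, `d1_sum`.
-/

set_option autoImplicit false

namespace Pool.Agent.Helper31.FM

open Complex Real Finset MeasureTheory
open Pool.Agent.Helper31.FI (ee ze mains)

/-- `σ = 2π√t`: `zz K σ = K + 2πit` -/
theorem d1_zz (K t : ℝ) (ht : 0 ≤ t) : zz K (2 * π * √t) = (K : ℂ) + 2 * π * t * I := by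
  unfold zz
  have h : (2 * π * √t) ^ 2 / (2 * π) = 2 * π * t := by
    rw [mul_pow, Real.sq_sqrt ht]
    have hπ : π ≠ 0 := Real.pi_ne_zero
    field_simp
  rw [h]
  push_cast
  ring

private theorem fm23_ee (x : ℝ) : ‖ee x‖ = 1 := by
  unfold ee
  rw [show (2 * π * I * x : ℂ) = ((2 * π * x : ℝ) : ℂ) * I by push_cast; ring]
  exact Complex.norm_exp_ofReal_mul_I _
private lemma d1_dy_summable (ν : ℝ) (hν : 0 < ν) :
    Summable fun i : ℕ => (ν + i : ℝ) ^ (-(3 / 2) : ℝ) := by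
  rw [← summable_nat_add_iff 1]
  have h1 : Summable fun i : ℕ => (((i + 1 : ℕ) : ℝ)) ^ (-(3 / 2) : ℝ) :=
    (summable_nat_add_iff 1).2 (Real.summable_nat_rpow.2 (by norm_num))
  refine Summable.of_nonneg_of_le (fun i => ?_) (fun i => ?_) h1
  · positivity
  · have hi : (0 : ℝ) < ((i + 1 : ℕ) : ℝ) := by positivity
    exact Real.rpow_le_rpow_of_nonpos hi (by linarith) (by norm_num)

private lemma d1_dy_cont (A ν θ : ℝ) (hA : 0 ≤ A) (hν : 0 < ν) :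
    Continuous fun σ : ℝ => Fs (zz A σ) ν θ := by
  unfold Fs
  refine continuous_tsum (u := fun i : ℕ => (ν + i : ℝ) ^ (-(3 / 2) : ℝ)) (fun i => ?_)
    (d1_dy_summable ν hν) (fun i σ => ?_)
  · unfold zz
    fun_prop
  · have hi : (0 : ℝ) < ν + i := by positivity
    rw [norm_mul, norm_mul, du_ee_norm, mul_one, Complex.norm_real, Complex.norm_exp,
      Real.norm_of_nonneg (Real.rpow_nonneg hi.le _)]
    have h1 : (-(zz A σ / ((ν + i : ℝ) : ℂ))).re = -(A / (ν + i)) := by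
      rw [Complex.neg_re, Complex.div_ofReal_re, zz_re]
    rw [h1]
    have h2 : Real.exp (-(A / (ν + i))) ≤ 1 := by
      rw [Real.exp_le_one_iff]
      have : 0 ≤ A / (ν + i) := by positivity
      linarith
    exact mul_le_of_le_one_right (Real.rpow_nonneg hi.le _) h2

private lemma d1_dy_cov (G : ℝ → ℝ) (hG : Continuous G) (hG0 : ∀ x, 0 ≤ G x) (T : ℝ) (hT : 0 < T) :
    ∫ t in T..(2 * T), G (2 * π * √t) ≤
      (2 * π * √T) * ∫ σ in (2 * π * √T)..(4 * (2 * π * √T)), G σ := by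
  set U : ℝ := 2 * π * √T with hU
  have hpi : (3 : ℝ) < π := Real.pi_gt_three
  have hU0 : 0 < U := by positivity
  set V : ℝ := 2 * π * √(2 * T) with hV
  have hUV : U ≤ V := by
    rw [hU, hV]
    have : √T ≤ √(2 * T) := Real.sqrt_le_sqrt (by linarith)
    nlinarith
  have hVU : V ≤ 2 * U := by
    rw [hU, hV]
    have h4 : √(2 * T) ≤ 2 * √T := by
      rw [Real.sqrt_le_left (by positivity), mul_pow, Real.sq_sqrt hT.le]
      linarith
    nlinarith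
  have hsub := intervalIntegral.integral_comp_mul_deriv (a := U) (b := V)
    (f := fun σ : ℝ => σ ^ 2 / (4 * π ^ 2)) (f' := fun σ : ℝ => σ / (2 * π ^ 2))
    (g := fun t : ℝ => G (2 * π * √t))
    (fun x _ => by
      have h := (hasDerivAt_pow 2 x).div_const (4 * π ^ 2)
      refine h.congr_deriv ?_
      field_simp
      norm_num
      ring)
    (by fun_prop) (by fun_prop)
  have hfU : U ^ 2 / (4 * π ^ 2) = T := by
    rw [hU, mul_pow, Real.sq_sqrt hT.le]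
    field_simp
    ring
  have hfV : V ^ 2 / (4 * π ^ 2) = 2 * T := by
    rw [hV, mul_pow, Real.sq_sqrt (by positivity)]
    field_simp
    ring
  simp only [hfU, hfV] at hsub
  rw [← hsub]
  have hle : ∫ σ in U..V, ((fun t : ℝ => G (2 * π * √t)) ∘ fun σ : ℝ => σ ^ 2 / (4 * π ^ 2)) σ *
      (σ / (2 * π ^ 2)) ≤ ∫ σ in U..V, U * G σ := by
    refine intervalIntegral.integral_mono_on hUV ?_ ?_ (fun σ hσ => ?_)
    · exact Continuous.intervalIntegrable (by fun_prop) _ _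
    · exact Continuous.intervalIntegrable (by fun_prop) _ _
    · have hσ0 : 0 < σ := lt_of_lt_of_le hU0 hσ.1
      have h5 : 2 * π * √(σ ^ 2 / (4 * π ^ 2)) = σ := by
        have h6 : σ ^ 2 / (4 * π ^ 2) = (σ / (2 * π)) ^ 2 := by ring
        rw [h6, Real.sqrt_sq (by positivity)]
        field_simp
      simp only [Function.comp_apply]
      rw [h5, mul_comm]
      refine mul_le_mul_of_nonneg_right ?_ (hG0 σ)
      rw [div_le_iff₀ (by positivity)]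
      have h7 : σ ≤ 2 * U := hσ.2.trans hVU
      have h8 : (1 : ℝ) ≤ π ^ 2 := by nlinarith
      nlinarith [mul_le_mul_of_nonneg_left h8 hU0.le]
  refine hle.trans ?_
  rw [intervalIntegral.integral_const_mul]
  refine mul_le_mul_of_nonneg_left ?_ hU0.le
  refine intervalIntegral.integral_mono_interval le_rfl hUV (by linarith) ?_
    (hG.intervalIntegrable _ _)
  exact Filter.Eventually.of_forall fun x => hG0 x

private lemma d1_dy_ar (β C : ℝ) (hC : 0 < C) (K : ℕ) (T : ℝ) (hK : 1 ≤ K) (hKT : (K : ℝ) ≤ T)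
    (hTK : T ≤ (K : ℝ) ^ 3) :
    (2 * π * √T) * (C * ((2 * π * √T) ^ (-4 : ℝ) * ((2 * π * √T) + (1 + Real.log (2 * π * √T)) ^ 5 *
      (((2 * π * √T) / K) ^ (2 * β) * ((2 * π * √T) + ((2 * π * √T) / K) ^ 3))))) ≤
    (C * ((4 * π ^ 2)⁻¹ * (1 + (2 * π) ^ 5 * ((1 + 4 * π ^ 2) * (4 * π ^ 2) ^ β)))) *
      (T⁻¹ * (1 + (1 + Real.log K) ^ 5 * (T ^ β * (K : ℝ) ^ (-(2 * β))))) := by
  have hpi : (3 : ℝ) < π := Real.pi_gt_three
  have hK1 : (1 : ℝ) ≤ K := by exact_mod_cast hK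
  have hK0 : (0 : ℝ) < K := by linarith
  have hT1 : 1 ≤ T := hK1.trans hKT
  have hT0 : 0 < T := by linarith
  set U : ℝ := 2 * π * √T with hU
  have hsT : 1 ≤ √T := Real.one_le_sqrt.2 hT1
  have hU1 : 1 ≤ U := by rw [hU]; nlinarith
  have hU0 : 0 < U := by linarith
  have hU2 : U ^ 2 = 4 * π ^ 2 * T := by
    rw [hU, mul_pow, Real.sq_sqrt hT0.le]
    ring
  set P : ℝ := 4 * π ^ 2 with hP
  have hP0 : 0 < P := by positivity
  have hlK : 0 ≤ Real.log K := Real.log_nonneg hK1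
  have hlU : 0 ≤ Real.log U := Real.log_nonneg hU1
  have hL : 1 + Real.log U ≤ 2 * π * (1 + Real.log K) := by
    have h1 : Real.log U = Real.log (2 * π) + Real.log T / 2 := by
      rw [hU, Real.log_mul (by positivity) (by positivity), Real.log_sqrt hT0.le]
    have h2 : Real.log (2 * π) ≤ 2 * π - 1 := Real.log_le_sub_one_of_pos (by positivity)
    have h3 : Real.log T ≤ 3 * Real.log K := by
      have := Real.log_le_log hT0 hTK
      rw [Real.log_pow] at this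
      push_cast at this
      exact this
    nlinarith
  have hL5 : (1 + Real.log U) ^ 5 ≤ (2 * π) ^ 5 * (1 + Real.log K) ^ 5 := by
    rw [← mul_pow]
    exact pow_le_pow_left₀ (by linarith) hL 5
  have hcube : (U / K) ^ 3 ≤ P * U := by
    have h1 : (U / K) ^ 3 = U * (P * T / (K : ℝ) ^ 3) := by
      rw [div_pow, pow_succ, hU2]
      ring
    rw [h1]
    have h2 : P * T / (K : ℝ) ^ 3 ≤ P := by
      rw [div_le_iff₀ (by positivity)]
      nlinarith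
    nlinarith
  have hpow : (U / K) ^ (2 * β) = P ^ β * (T ^ β * (K : ℝ) ^ (-(2 * β))) := by
    have h1 : (U / K) ^ (2 * β) = ((U / K) ^ 2) ^ β := by
      rw [Real.rpow_mul (by positivity)]
      norm_num
    rw [h1, div_pow, hU2, Real.div_rpow (by positivity) (by positivity),
      Real.mul_rpow hP0.le hT0.le, Real.rpow_neg hK0.le, Real.rpow_mul hK0.le]
    norm_num
    ring
  have hU4 : U * U ^ (-4 : ℝ) * U = (P * T)⁻¹ := by
    rw [← hU2, Real.rpow_neg hU0.le, show (4 : ℝ) = ((4 : ℕ) : ℝ) by norm_num, Real.rpow_natCast]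
    field_simp
  set Q : ℝ := T ^ β * (K : ℝ) ^ (-(2 * β)) with hQ
  have hQ0 : 0 ≤ Q := by positivity
  have hPb : 0 < P ^ β := Real.rpow_pos_of_pos hP0 β
  rw [hpow]
  have hmain : U + (1 + Real.log U) ^ 5 * (P ^ β * Q * (U + (U / K) ^ 3)) ≤
      U * (1 + (2 * π) ^ 5 * ((1 + P) * P ^ β) * ((1 + Real.log K) ^ 5 * Q)) := by
    have h1 : P ^ β * Q * (U + (U / K) ^ 3) ≤ P ^ β * Q * (U * (1 + P)) :=
      mul_le_mul_of_nonneg_left (by linarith) (by positivity)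
    have h2 : (1 + Real.log U) ^ 5 * (P ^ β * Q * (U + (U / K) ^ 3)) ≤
        ((2 * π) ^ 5 * (1 + Real.log K) ^ 5) * (P ^ β * Q * (U * (1 + P))) :=
      mul_le_mul hL5 h1 (by positivity) (by positivity)
    calc U + (1 + Real.log U) ^ 5 * (P ^ β * Q * (U + (U / K) ^ 3))
        ≤ U + ((2 * π) ^ 5 * (1 + Real.log K) ^ 5) * (P ^ β * Q * (U * (1 + P))) := by linarith
      _ = U * (1 + (2 * π) ^ 5 * ((1 + P) * P ^ β) * ((1 + Real.log K) ^ 5 * Q)) := by ring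
  have hUm : 0 < U ^ (-4 : ℝ) := Real.rpow_pos_of_pos hU0 _
  calc U * (C * (U ^ (-4 : ℝ) * (U + (1 + Real.log U) ^ 5 * (P ^ β * Q * (U + (U / K) ^ 3)))))
      ≤ U * (C * (U ^ (-4 : ℝ) *
        (U * (1 + (2 * π) ^ 5 * ((1 + P) * P ^ β) * ((1 + Real.log K) ^ 5 * Q))))) := by
        gcongr
    _ = C * (U * U ^ (-4 : ℝ) * U) *
        (1 + (2 * π) ^ 5 * ((1 + P) * P ^ β) * ((1 + Real.log K) ^ 5 * Q)) := by ring
    _ = C * (P⁻¹ * T⁻¹) *
        (1 + (2 * π) ^ 5 * ((1 + P) * P ^ β) * ((1 + Real.log K) ^ 5 * Q)) := by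
        rw [hU4, mul_inv]
    _ ≤ C * (P⁻¹ * T⁻¹) *
        ((1 + (2 * π) ^ 5 * ((1 + P) * P ^ β)) * (1 + (1 + Real.log K) ^ 5 * Q)) := by
        refine mul_le_mul_of_nonneg_left ?_ (by positivity)
        have h7 : 0 ≤ (2 * π) ^ 5 * ((1 + P) * P ^ β) := by positivity
        have h8 : 0 ≤ (1 + Real.log K) ^ 5 * Q := by positivity
        nlinarith
    _ = (C * (P⁻¹ * (1 + (2 * π) ^ 5 * ((1 + P) * P ^ β)))) *
      (T⁻¹ * (1 + (1 + Real.log K) ^ 5 * Q)) := by ring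


private theorem fm23_Fs (ν K t : ℝ) (hν : 0 < ν) (ht : 0 ≤ t) :
    Fs (zz K (2 * π * √t)) ν ((0 : ℕ) / 8) =
      ∑' i : ℕ, (((ν + i : ℝ) ^ (-(3 / 2) : ℝ) * Real.exp (-(K / (ν + i))) : ℝ) : ℂ) *
        ee (-(t * (1 / (ν + i)))) := by
  unfold Fs
  rw [d1_zz K t ht]
  refine tsum_congr fun i => ?_
  have he0 : ee ((i : ℝ) * (((0 : ℕ) : ℝ) / 8)) = 1 := by simp [ee]
  rw [he0, mul_one, Complex.ofReal_mul, mul_assoc _ _ (ee _)]
  congr 1
  unfold ee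
  rw [Complex.ofReal_exp, ← Complex.exp_add]
  congr 1
  have hi : (ν + i : ℝ) ≠ 0 := by positivity
  have hi' : ((ν : ℂ) + (i : ℂ)) ≠ 0 := by exact_mod_cast hi
  push_cast
  field_simp
  ring

private theorem fm23_norm : ∃ C : ℝ, 0 < C ∧ ∀ (ν K t : ℝ), 0 < ν → ν ≤ 1 → 1 ≤ K → 0 ≤ t →
    ‖Fs (zz K (2 * π * √t)) ν ((0 : ℕ) / 8)‖ ≤ C * K ^ (-(1 / 2) : ℝ) := by
  obtain ⟨C, hC, H⟩ := sum_kernel
  refine ⟨C, hC, fun ν K t hν hν1 hK ht => ?_⟩
  obtain ⟨hs, hb⟩ := H K ν hK hν hν1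
  rw [fm23_Fs ν K t hν ht]
  have hn : ∀ i : ℕ, ‖(((ν + i : ℝ) ^ (-(3 / 2) : ℝ) * Real.exp (-(K / (ν + i))) : ℝ) : ℂ) *
        ee (-(t * (1 / (ν + i))))‖ = (ν + i : ℝ) ^ (-(3 / 2) : ℝ) * Real.exp (-(K / (ν + i))) := by
    intro i
    rw [norm_mul, fm23_ee, mul_one, Complex.norm_real, Real.norm_of_nonneg]
    positivity
  refine (norm_tsum_le_tsum_norm ?_).trans ?_
  · exact hs.congr fun i => (hn i).symm
  · rw [tsum_congr hn]
    exact hb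

/-- `fej` with `c i = (ν+i)^(-3/2) exp (-K/(ν+i))`, `c0 = (3K)^(-3/2) e^(-1)`, `w i = 1/(ν+i)` -/
theorem d1_fej : ∃ C : ℝ, 0 < C ∧ ∀ (ν : ℝ) (K : ℕ) (T : ℝ), 0 < ν → ν ≤ 1 → 1 ≤ K → 0 < T →
    cn (Ico K (2 * K)) (fun i => 1 / (ν + i)) (1 / (2 * T)) ≤
      C * ((K : ℝ) ^ 6 / T) * ∫ t in (0 : ℝ)..T, ‖Fs (zz K (2 * π * √t)) ν ((0 : ℕ) / 8)‖ ^ 4 := by
  obtain ⟨C, hC, H⟩ := fej
  obtain ⟨C₁, _, H₁⟩ := sum_kernel
  refine ⟨C * (3 ^ 6 * Real.exp 1 ^ 4), by positivity, fun ν K T hν hν1 hK hT => ?_⟩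
  have hK1 : (1 : ℝ) ≤ K := by exact_mod_cast hK
  have hK0 : (0 : ℝ) < K := by linarith
  have hint : ∫ t in (0 : ℝ)..T, ‖Fs (zz K (2 * π * √t)) ν ((0 : ℕ) / 8)‖ ^ 4 =
      ∫ u in (0 : ℝ)..T, ‖∑' k : ℕ, (((ν + k : ℝ) ^ (-(3 / 2) : ℝ) * Real.exp (-(K / (ν + k))) : ℝ) : ℂ) *
        ee (-(u * (1 / (ν + k))))‖ ^ 4 := by
    refine intervalIntegral.integral_congr fun t ht => ?_
    rw [Set.uIcc_of_le hT.le] at ht
    rw [fm23_Fs ν K t hν ht.1]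
  have h := H (Ico K (2 * K)) (fun i => 1 / (ν + i))
    (fun k => (ν + k : ℝ) ^ (-(3 / 2) : ℝ) * Real.exp (-(K / (ν + k))))
    ((3 * K : ℝ) ^ (-(3 / 2) : ℝ) * Real.exp (-1)) T hT (by positivity) (fun k => by positivity)
    (H₁ K ν hK1 hν hν1).1 ?_
  · rw [hint]
    refine h.trans (le_of_eq ?_)
    congr 1
    have h4 : ((3 * K : ℝ) ^ (-(3 / 2) : ℝ) * Real.exp (-1)) ^ 4 = ((3 * K : ℝ) ^ 6 * Real.exp 1 ^ 4)⁻¹ := by
      rw [mul_pow, mul_inv, ← Real.rpow_natCast ((3 * K : ℝ) ^ (-(3 / 2) : ℝ)) 4, ← Real.rpow_mul (by positivity),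
        Real.exp_neg, inv_pow]
      congr 1
      rw [← Real.rpow_natCast (3 * K : ℝ) 6, ← Real.rpow_neg (by positivity)]
      norm_num
    rw [h4]
    field_simp
  · intro k hk
    obtain ⟨hk1, hk2⟩ := mem_Ico.mp hk
    have hk1' : (K : ℝ) ≤ k := by exact_mod_cast hk1
    have hk2' : (k : ℝ) ≤ 2 * K := by exact_mod_cast hk2.le
    have hpos : 0 < ν + k := by positivity
    refine mul_le_mul ?_ ?_ (Real.exp_pos _).le (by positivity)
    · exact Real.rpow_le_rpow_of_nonpos hpos (by linarith) (by norm_num)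
    · refine Real.exp_le_exp.mpr (neg_le_neg ?_)
      rw [div_le_one hpos]
      linarith

/-- `sum_kernel`: `‖Fs‖ ≤ C K^(-1/2)` -/
theorem d1_small : ∃ C : ℝ, 0 < C ∧ ∀ (ν : ℝ) (K : ℕ), 0 < ν → ν ≤ 1 → 1 ≤ K →
    ∫ t in (0 : ℝ)..K, ‖Fs (zz K (2 * π * √t)) ν ((0 : ℕ) / 8)‖ ^ 4 ≤ C / K := by
  obtain ⟨C, hC, H⟩ := fm23_norm
  refine ⟨C ^ 4, by positivity, fun ν K hν hν1 hK => ?_⟩
  have hK1 : (1 : ℝ) ≤ K := by exact_mod_cast hK
  have hK0 : (0 : ℝ) < K := by linarith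
  have hb : ∀ t ∈ Set.uIoc (0 : ℝ) K, ‖‖Fs (zz K (2 * π * √t)) ν ((0 : ℕ) / 8)‖ ^ 4‖ ≤
      (C * (K : ℝ) ^ (-(1 / 2) : ℝ)) ^ 4 := by
    intro t ht
    rw [Set.uIoc_of_le hK0.le] at ht
    rw [Real.norm_of_nonneg (by positivity)]
    exact pow_le_pow_left₀ (norm_nonneg _) (H ν K t hν hν1 hK1 ht.1.le) 4
  refine (Real.le_norm_self _).trans ((intervalIntegral.norm_integral_le_of_norm_le_const hb).trans (le_of_eq ?_))
  rw [sub_zero, abs_of_pos hK0, mul_pow, ← Real.rpow_natCast ((K : ℝ) ^ (-(1 / 2) : ℝ)) 4,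
    ← Real.rpow_mul hK0.le]
  have h2 : (K : ℝ) ^ (-(1 / 2) * ((4 : ℕ) : ℝ) : ℝ) = ((K : ℝ) ^ 2)⁻¹ := by
    rw [← Real.rpow_natCast (K : ℝ) 2, ← Real.rpow_neg hK0.le]
    norm_num
  rw [h2]
  field_simp

/-- substitute `t = σ²/(4π²)`, `fd` with `U = 2π√T`, `h = 0`, `A = K`; `(U/K)³ ≤ C U` because `T ≤ K³` -/
theorem d1_dy (β : ℝ) (h2 : 2 < β) (h3 : β ≤ 3) (hM : HM β) : ∃ C : ℝ, 0 < C ∧
    ∀ (ν : ℝ) (K : ℕ) (T : ℝ), 0 < ν → ν ≤ 1 → 1 ≤ K → (K : ℝ) ≤ T → T ≤ (K : ℝ) ^ 3 →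
    ∫ t in T..(2 * T), ‖Fs (zz K (2 * π * √t)) ν ((0 : ℕ) / 8)‖ ^ 4 ≤
      C * (T⁻¹ * (1 + (1 + Real.log K) ^ 5 * (T ^ β * (K : ℝ) ^ (-(2 * β))))) := by
  obtain ⟨C, hC, h⟩ := fd β h2.le h3 hM
  refine ⟨C * ((4 * π ^ 2)⁻¹ * (1 + (2 * π) ^ 5 * ((1 + 4 * π ^ 2) * (4 * π ^ 2) ^ β))),
    by positivity, fun ν K T hν hν' hK hKT hTK => ?_⟩
  have hpi : (3 : ℝ) < π := Real.pi_gt_three
  have hK1 : (1 : ℝ) ≤ K := by exact_mod_cast hK
  have hT1 : 1 ≤ T := hK1.trans hKT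
  have hT0 : 0 < T := by linarith
  have hsT : 1 ≤ √T := Real.one_le_sqrt.2 hT1
  have hU1 : 1 ≤ 2 * π * √T := by nlinarith
  have hKU : (K : ℝ) ≤ (2 * π * √T) ^ 2 := by
    rw [mul_pow, Real.sq_sqrt hT0.le]
    nlinarith [mul_pos hT0 (show (0 : ℝ) < π - 3 by linarith)]
  have hc := d1_dy_cov (fun σ => ‖Fs (zz K σ) ν ((0 : ℕ) / 8)‖ ^ 4)
    ((d1_dy_cont K ν _ (by linarith) hν).norm.pow 4) (fun x => by positivity) T hT0
  have hf := h K (2 * π * √T) ν 0 hK1 hU1 hKU (by norm_num) hν hν'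
  refine hc.trans ?_
  refine (mul_le_mul_of_nonneg_left hf (by positivity)).trans ?_
  exact d1_dy_ar β C hC K T hK hKT hTK

private lemma d1_sum_ee (t : ℝ) : ‖ee t‖ = 1 := by
  rw [ee]
  have : (2 * (π : ℂ) * I * (t : ℂ)) = ((2 * π * t : ℝ) : ℂ) * I := by push_cast; ring
  rw [this, Complex.norm_exp_ofReal_mul_I]

private lemma d1_sum_re (A B c : ℝ) :
    (-(((A : ℂ) + (B : ℂ) * I) / (c : ℂ))).re = -(A / c) := by
  rw [Complex.neg_re, Complex.div_ofReal_re, Complex.add_re, Complex.re_ofReal_mul,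
    Complex.I_re, mul_zero, add_zero, Complex.ofReal_re]

private lemma d1_sum_cont (ν : ℝ) (K : ℕ) (hν : 0 < ν) :
    Continuous fun t : ℝ => ‖Fs (zz K (2 * π * √t)) ν ((0 : ℕ) / 8)‖ ^ 4 := by
  have hs : Summable fun i : ℕ => (ν + i : ℝ) ^ (-(3 / 2) : ℝ) := by
    refine (summable_nat_add_iff 1).1 ?_
    refine Summable.of_nonneg_of_le (fun i => by positivity) (fun i => ?_)
      ((summable_nat_add_iff 1).2 (Real.summable_nat_rpow.2 (by norm_num : (-(3 / 2) : ℝ) < -1)))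
    apply Real.rpow_le_rpow_of_nonpos
    · positivity
    · push_cast; linarith
    · norm_num
  have hc : Continuous fun t : ℝ => Fs (zz K (2 * π * √t)) ν ((0 : ℕ) / 8) := by
    unfold Fs zz
    refine continuous_tsum (fun i => ?_) hs (fun i t => ?_)
    · fun_prop
    · have h1 : (0 : ℝ) < ν + i := by positivity
      rw [norm_mul, norm_mul, d1_sum_ee, mul_one, Complex.norm_real, Complex.norm_exp,
        Real.norm_of_nonneg (by positivity)]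
      rw [d1_sum_re]
      have h4 : Real.exp (-((K : ℝ) / (ν + i))) ≤ 1 := by
        rw [Real.exp_le_one_iff]
        have : 0 ≤ (K : ℝ) / (ν + i) := by positivity
        linarith
      calc _ ≤ (ν + i : ℝ) ^ (-(3 / 2) : ℝ) * 1 := by gcongr
        _ = _ := mul_one _
  exact (hc.norm).pow 4

/-- dyadic sum of `d1_dy` from `K` to `T` (the integrand is continuous, so the last block may be cut) and `d1_small` -/
theorem d1_sum (β : ℝ) (h2 : 2 < β) (h3 : β ≤ 3) (hM : HM β) : ∃ C : ℝ, 0 < C ∧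
    ∀ (ν : ℝ) (K : ℕ) (T : ℝ), 0 < ν → ν ≤ 1 → 1 ≤ K → 0 < T → T ≤ (K : ℝ) ^ 3 / 2 →
    ∫ t in (0 : ℝ)..T, ‖Fs (zz K (2 * π * √t)) ν ((0 : ℕ) / 8)‖ ^ 4 ≤
      C * (1 / K + (1 + Real.log K) ^ 6 * (T ^ (β - 1) * (K : ℝ) ^ (-(2 * β)))) := by
  obtain ⟨C1, hC1, hs⟩ := d1_small
  obtain ⟨C2, hC2, hd⟩ := d1_dy β h2 h3 hM
  refine ⟨C1 + 3 * C2, by positivity, ?_⟩
  intro ν K T hν hν1 hK hT hT3
  set g : ℝ → ℝ := fun t => ‖Fs (zz K (2 * π * √t)) ν ((0 : ℕ) / 8)‖ ^ 4 with hg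
  have hgc : Continuous g := d1_sum_cont ν K hν
  have hg0 : ∀ t, 0 ≤ g t := fun t => by rw [hg]; positivity
  have hgi : ∀ a b : ℝ, IntervalIntegrable g volume a b := fun a b => hgc.intervalIntegrable a b
  have hK1 : (1 : ℝ) ≤ K := by exact_mod_cast hK
  have hK0 : (0 : ℝ) < K := by linarith
  have hL : 0 ≤ Real.log K := Real.log_nonneg hK1
  set L : ℝ := 1 + Real.log K with hLdef
  have hL1 : 1 ≤ L := by linarith
  set E : ℝ := T ^ (β - 1) * (K : ℝ) ^ (-(2 * β)) with hE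
  have hE0 : 0 ≤ E := by rw [hE]; positivity
  have hmono : ∀ a b : ℝ, a ≤ b → (∫ t in (0 : ℝ)..a, g t) ≤ ∫ t in (0 : ℝ)..b, g t := by
    intro a b hab
    rw [← intervalIntegral.integral_add_adjacent_intervals (hgi 0 a) (hgi a b)]
    have := intervalIntegral.integral_nonneg (μ := volume) hab (fun u _ => hg0 u)
    linarith
  have hsm : (∫ t in (0 : ℝ)..(K : ℝ), g t) ≤ C1 / K := hs ν K hν hν1 hK
  show (∫ t in (0 : ℝ)..T, g t) ≤ (C1 + 3 * C2) * (1 / K + L ^ 6 * E)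
  rcases le_total T K with hTK | hTK
  · calc (∫ t in (0 : ℝ)..T, g t) ≤ ∫ t in (0 : ℝ)..(K : ℝ), g t := hmono _ _ hTK
      _ ≤ C1 / K := hsm
      _ ≤ (C1 + 3 * C2) * (1 / K + L ^ 6 * E) := by
        have h5 : 0 ≤ L ^ 6 * E := by positivity
        have h6 : 0 < 1 / (K : ℝ) := by positivity
        calc C1 / (K : ℝ) = C1 * (1 / K) := by ring
          _ ≤ (C1 + 3 * C2) * (1 / K + L ^ 6 * E) := by
            apply mul_le_mul <;> first | positivity | linarith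
  · -- blocks
    have hblock : ∀ j : ℕ, (2 : ℝ) ^ j * K ≤ T →
        (∫ t in ((2 : ℝ) ^ j * K)..(2 ^ (j + 1) * K), g t) ≤ C2 * ((1 / 2) ^ j / K + L ^ 5 * E) := by
      intro j hj
      have hp : (1 : ℝ) ≤ 2 ^ j := one_le_pow₀ (by norm_num)
      have hTj : (K : ℝ) ≤ 2 ^ j * K := by nlinarith
      have hTj3 : (2 : ℝ) ^ j * K ≤ (K : ℝ) ^ 3 := by
        have : 0 ≤ (K : ℝ) ^ 3 := by positivity
        linarith
      have h7 := hd ν K (2 ^ j * K) hν hν1 hK hTj hTj3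
      have h8 : (2 : ℝ) * (2 ^ j * K) = 2 ^ (j + 1) * K := by ring
      rw [h8] at h7
      refine h7.trans ?_
      gcongr
      have hTj0 : (0 : ℝ) < 2 ^ j * K := by positivity
      have h9 : ((2 : ℝ) ^ j * K)⁻¹ * (1 + L ^ 5 * ((2 ^ j * K) ^ β * (K : ℝ) ^ (-(2 * β)))) =
          (1 / 2) ^ j / K + L ^ 5 * (((2 ^ j * K) ^ (β - 1)) * (K : ℝ) ^ (-(2 * β))) := by
        rw [Real.rpow_sub_one hTj0.ne', one_div_pow]
        field_simp
      rw [h9, hE]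
      have h10 : ((2 : ℝ) ^ j * K) ^ (β - 1) ≤ T ^ (β - 1) :=
        Real.rpow_le_rpow hTj0.le hj (by linarith)
      gcongr
    have hind : ∀ j : ℕ, (2 : ℝ) ^ j * K ≤ T →
        (∫ t in (0 : ℝ)..(2 ^ (j + 1) * K), g t) ≤
          C1 / K + C2 * ((2 - (1 / 2) ^ j) / K + (j + 1) * (L ^ 5 * E)) := by
      intro j
      induction j with
      | zero =>
        intro h0
        have h11 := hblock 0 h0
        rw [pow_zero, one_mul] at h11
        rw [← intervalIntegral.integral_add_adjacent_intervals (hgi 0 K) (hgi K _)]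
        have : C2 * ((1 / 2) ^ 0 / K + L ^ 5 * E) =
            C2 * ((2 - (1 / 2) ^ 0) / K + (((0 : ℕ) : ℝ) + 1) * (L ^ 5 * E)) := by
          push_cast; ring
        rw [this] at h11
        linarith
      | succ j ih =>
        intro h0
        have h12 : (2 : ℝ) ^ j * K ≤ T := by
          refine le_trans ?_ h0
          gcongr
          · norm_num
          · omega
        have h13 := ih h12
        have h14 := hblock (j + 1) h0
        rw [← intervalIntegral.integral_add_adjacent_intervals (hgi 0 (2 ^ (j + 1) * K)) (hgi _ _)]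
        have h15 : C1 / K + C2 * ((2 - (1 / 2) ^ j) / K + (j + 1) * (L ^ 5 * E)) +
            C2 * ((1 / 2) ^ (j + 1) / K + L ^ 5 * E) =
            C1 / K + C2 * ((2 - (1 / 2) ^ (j + 1)) / K + (((j + 1 : ℕ) : ℝ) + 1) * (L ^ 5 * E)) := by
          push_cast; ring
        linarith
    obtain ⟨J, hJ1, hJ2⟩ : ∃ J : ℕ, (2 : ℝ) ^ J * K ≤ T ∧ T < 2 ^ (J + 1) * K := by
      have h16 : (1 : ℝ) ≤ T / K := by rw [le_div_iff₀ hK0]; linarith
      obtain ⟨n, hn1, hn2⟩ := exists_nat_pow_near h16 (by norm_num : (1 : ℝ) < 2)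
      refine ⟨n, ?_, ?_⟩
      · rw [le_div_iff₀ hK0] at hn1; exact hn1
      · rw [div_lt_iff₀ hK0] at hn2; exact hn2
    have h17 := hind J hJ1
    have h18 : (∫ t in (0 : ℝ)..T, g t) ≤ ∫ t in (0 : ℝ)..(2 ^ (J + 1) * K), g t := hmono _ _ hJ2.le
    have hJL : (J : ℝ) + 1 ≤ 3 * L := by
      have h19 : (2 : ℝ) ^ J ≤ (K : ℝ) ^ 2 := by
        have h20 : (2 : ℝ) ^ J * K ≤ (K : ℝ) ^ 3 / 2 := hJ1.trans hT3
        have h21 : (2 : ℝ) ^ J * K ≤ (K : ℝ) ^ 2 * K := by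
          have : 0 ≤ (K : ℝ) ^ 3 := by positivity
          nlinarith
        exact le_of_mul_le_mul_right h21 hK0
      have h22 : (J : ℝ) * Real.log 2 ≤ 2 * Real.log K := by
        have := Real.log_le_log (by positivity) h19
        rwa [Real.log_pow, Real.log_pow, Nat.cast_ofNat] at this
      have h23 : (0.6931471803 : ℝ) < Real.log 2 := Real.log_two_gt_d9
      have h24 : (J : ℝ) * (2 / 3) ≤ 2 * Real.log K := by
        refine le_trans ?_ h22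
        gcongr
        linarith
      rw [hLdef]
      linarith
    have h25 : (2 - (1 / 2 : ℝ) ^ J) / K ≤ 3 * (1 / K) := by
      rw [div_eq_mul_one_div]
      have : (0 : ℝ) ≤ (1 / 2) ^ J := by positivity
      gcongr
      linarith
    have h26 : ((J : ℝ) + 1) * (L ^ 5 * E) ≤ 3 * (L ^ 6 * E) := by
      calc ((J : ℝ) + 1) * (L ^ 5 * E) ≤ (3 * L) * (L ^ 5 * E) := by gcongr
        _ = _ := by ring
    calc (∫ t in (0 : ℝ)..T, g t) ≤
        C1 / K + C2 * ((2 - (1 / 2) ^ J) / K + (J + 1) * (L ^ 5 * E)) := h18.trans h17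
      _ ≤ C1 / K + C2 * (3 * (1 / K) + 3 * (L ^ 6 * E)) := by gcongr
      _ ≤ (C1 + 3 * C2) * (1 / K + L ^ 6 * E) := by
        have h27 : 0 ≤ C1 * (L ^ 6 * E) := by positivity
        have : (C1 + 3 * C2) * (1 / (K : ℝ) + L ^ 6 * E) = C1 / K + C2 * (3 * (1 / K) + 3 * (L ^ 6 * E)) +
            C1 * (L ^ 6 * E) := by ring
        linarith

theorem dirI (β : ℝ) (h2 : 2 < β) (h3 : β ≤ 3) (hM : HM β) : ∃ C : ℝ, 0 < C ∧
    ∀ (ν : ℝ) (K : ℕ), 0 < ν → ν ≤ 1 → 1 ≤ K →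
    cn (Ico K (2 * K)) (fun i => 1 / (ν + i)) (1 / (K : ℝ) ^ (3 : ℝ)) ≤
      C * ((1 + Real.log K) ^ 6 * (K : ℝ) ^ (2 + (β - 2) / (β - 1))) := by
  obtain ⟨C1, hC1, hf⟩ := d1_fej
  obtain ⟨C2, hC2, hs⟩ := d1_sum β h2 h3 hM
  refine ⟨C1 * C2 * 4, by positivity, ?_⟩
  intro ν K hν hν1 hK
  have hK1 : (1 : ℝ) ≤ K := by exact_mod_cast hK
  have hK0 : (0 : ℝ) < K := by linarith
  have hL : 0 ≤ Real.log K := Real.log_nonneg hK1
  set L : ℝ := 1 + Real.log K with hLdef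
  have hL1 : 1 ≤ L := by linarith
  set ρ : ℝ := (β - 2) / (β - 1) with hρ
  have hb1 : 0 < β - 1 := by linarith
  have hρ0 : 0 ≤ ρ := by rw [hρ]; apply div_nonneg <;> linarith
  have hρ1 : ρ * (β - 1) = β - 2 := by rw [hρ]; field_simp
  set T : ℝ := (K : ℝ) ^ (3 - ρ) / 2 with hT
  have hT0 : 0 < T := by rw [hT]; positivity
  have hK3 : (K : ℝ) ^ (3 - ρ) ≤ (K : ℝ) ^ 3 := by
    rw [← Real.rpow_natCast]
    exact Real.rpow_le_rpow_of_exponent_le hK1 (by push_cast; linarith)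
  have hT3 : T ≤ (K : ℝ) ^ 3 / 2 := by rw [hT]; linarith
  have hδ : 1 / (K : ℝ) ^ (3 : ℝ) ≤ 1 / (2 * T) := by
    have h4 : 2 * T = (K : ℝ) ^ (3 - ρ) := by rw [hT]; ring
    rw [h4]
    apply one_div_le_one_div_of_le (by positivity)
    exact Real.rpow_le_rpow_of_exponent_le hK1 (by linarith)
  have h5 := (cn_mono (Ico K (2 * K)) (fun i => 1 / (ν + i)) hδ).trans (hf ν K T hν hν1 hK hT0)
  refine h5.trans ?_
  have h6 := hs ν K T hν hν1 hK hT0 hT3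
  have h7 : (K : ℝ) ^ 6 / T = 2 * (K : ℝ) ^ (3 + ρ) := by
    rw [hT]
    have h8 : (K : ℝ) ^ 6 = (K : ℝ) ^ (3 + ρ) * (K : ℝ) ^ (3 - ρ) := by
      rw [← Real.rpow_add hK0, ← Real.rpow_natCast]
      congr 1
      push_cast; ring
    have h9 : (K : ℝ) ^ (3 - ρ) ≠ 0 := by positivity
    rw [h8]
    field_simp
  have h10 : (K : ℝ) ^ (3 + ρ) * (1 / K) = (K : ℝ) ^ (2 + ρ) := by
    have : (K : ℝ) ^ (3 + ρ) = (K : ℝ) ^ (2 + ρ) * K := by
      rw [← Real.rpow_add_one hK0.ne']; congr 1; ring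
    rw [this]; field_simp
  have h11 : (K : ℝ) ^ (3 + ρ) * (T ^ (β - 1) * (K : ℝ) ^ (-(2 * β))) ≤ (K : ℝ) ^ (2 + ρ) := by
    have h12 : T ^ (β - 1) ≤ ((K : ℝ) ^ (3 - ρ)) ^ (β - 1) := by
      apply Real.rpow_le_rpow hT0.le _ hb1.le
      rw [hT]
      have : 0 < (K : ℝ) ^ (3 - ρ) := by positivity
      linarith
    calc (K : ℝ) ^ (3 + ρ) * (T ^ (β - 1) * (K : ℝ) ^ (-(2 * β)))
        ≤ (K : ℝ) ^ (3 + ρ) * (((K : ℝ) ^ (3 - ρ)) ^ (β - 1) * (K : ℝ) ^ (-(2 * β))) := by gcongr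
      _ = (K : ℝ) ^ ((3 + ρ) + ((3 - ρ) * (β - 1) + -(2 * β))) := by
        rw [← Real.rpow_mul hK0.le, ← Real.rpow_add hK0, ← Real.rpow_add hK0]
      _ = (K : ℝ) ^ (2 + ρ) := by
        congr 1
        nlinarith
  have hE0 : 0 ≤ T ^ (β - 1) * (K : ℝ) ^ (-(2 * β)) := by positivity
  have hK2 : 0 ≤ (K : ℝ) ^ (2 + ρ) := by positivity
  have hL6 : 1 ≤ L ^ 6 := one_le_pow₀ hL1
  calc C1 * ((K : ℝ) ^ 6 / T) * (∫ t in (0 : ℝ)..T, ‖Fs (zz K (2 * π * √t)) ν ((0 : ℕ) / 8)‖ ^ 4)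
      ≤ C1 * ((K : ℝ) ^ 6 / T) * (C2 * (1 / K + L ^ 6 * (T ^ (β - 1) * (K : ℝ) ^ (-(2 * β))))) := by
        have : 0 ≤ C1 * ((K : ℝ) ^ 6 / T) := by positivity
        exact mul_le_mul_of_nonneg_left h6 this
    _ = C1 * C2 * 2 * ((K : ℝ) ^ (3 + ρ) * (1 / K) +
        L ^ 6 * ((K : ℝ) ^ (3 + ρ) * (T ^ (β - 1) * (K : ℝ) ^ (-(2 * β))))) := by
        rw [h7]; ring
    _ ≤ C1 * C2 * 2 * (L ^ 6 * (K : ℝ) ^ (2 + ρ) + L ^ 6 * (K : ℝ) ^ (2 + ρ)) := by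
        rw [h10]
        have h13 : (K : ℝ) ^ (2 + ρ) ≤ L ^ 6 * (K : ℝ) ^ (2 + ρ) := by nlinarith
        gcongr
    _ = C1 * C2 * 4 * (L ^ 6 * (K : ℝ) ^ (2 + ρ)) := by ring

end Pool.Agent.Helper31.FM
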