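import Pool.Agent.Helper31.FM.Defs

/-!
# FM-RW: the slowly varying factor `WW`

`A, σ > 0`.  `R = RR A σ = x + i v`, `R² = -σ² + 2 π i A`, `x, v > 0`: `v² - x² = σ²`, `x v = π A`.  So `v ≥ σ`, `‖R‖ ≥ σ`,
`(R - iσ)(R + iσ) = 2 π i A` and `‖R + iσ‖ ≥ v + σ ≥ 2σ` give `‖R - iσ‖ ≤ π A/σ`.  If `A ≤ σ²`: `x ≤ πA/σ ≤ πσ`, `v² ≤ (1+π²) σ²`,
`v ≤ 3.3 σ` and `x = πA/v ≥ 0.95 A/σ`; so `‖WW A ξ σ‖ = exp (-2√ξ x) ≤ exp (-1.9 √ξ A/σ)`, and with `X = √ξ A/σ`
`‖WD‖ ≤ 2 √ξ (πA/σ)/σ · exp (-1.9 X) = (2π/σ) X exp (-1.9 X) ≤ (8/σ) exp (-X)`.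
`Lz_pos`: `2 π i ξ zz = ξ R²`; `(ξ R²)^(1/2) = √ξ R` (`Complex.mul_cpow_ofReal_nonneg`).
`Lz_neg`: `Re (w^(1/2)) ≥ √(Re w)` if `Re w ≥ 0` (`Re √w = √((‖w‖ + Re w)/2)`), `2 π i ξ zz = (-ξ)(σ² - 2 π i A)`.
-/

set_option autoImplicit false

namespace Pool.Agent.Helper31.FM

open Complex Real Finset MeasureTheory
open Pool.Agent.Helper31.FI (ee ze mains)

theorem zz_re (A σ : ℝ) : (zz A σ).re = A := by
  unfold zz
  rw [Complex.add_re, Complex.ofReal_re, Complex.re_ofReal_mul, Complex.I_re, mul_zero, add_zero]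

theorem FM15_sq (w : ℂ) : (w ^ (1 / 2 : ℂ)) ^ 2 = w := by
  have h := Complex.cpow_nat_inv_pow w (n := 2) (by norm_num)
  rw [one_div]
  exact_mod_cast h

theorem FM15_re_nonneg (w : ℂ) : 0 ≤ (w ^ (1 / 2 : ℂ)).re := by
  by_cases hw : w = 0
  · subst hw
    rw [Complex.zero_cpow (by norm_num)]
    simp
  · rw [Complex.cpow_def_of_ne_zero hw, Complex.exp_re]
    have h2 : (Complex.log w * (1 / 2 : ℂ)).im = Complex.arg w / 2 := by
      have : (1 / 2 : ℂ) = ((1 / 2 : ℝ) : ℂ) := by push_cast; ring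
      rw [this, mul_comm, Complex.im_ofReal_mul, Complex.log_im]
      ring
    rw [h2]
    apply mul_nonneg (Real.exp_pos _).le
    apply Real.cos_nonneg_of_mem_Icc
    constructor
    · have := Complex.neg_pi_lt_arg w
      linarith
    · have := Complex.arg_le_pi w
      linarith

theorem FM15_sqrt_le (w : ℂ) : √(w.re) ≤ (w ^ (1 / 2 : ℂ)).re := by
  apply Real.sqrt_le_iff.mpr
  refine ⟨FM15_re_nonneg w, ?_⟩
  have h := congrArg Complex.re (FM15_sq w)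
  rw [sq, Complex.mul_re] at h
  nlinarith [sq_nonneg ((w ^ (1 / 2 : ℂ)).im)]

theorem FM15_norm (w : ℂ) : ‖w ^ (1 / 2 : ℂ)‖ ^ 2 = ‖w‖ := by
  rw [← norm_pow, FM15_sq]

theorem FM15_arg (A σ ξ : ℝ) :
    2 * π * I * ξ * zz A σ = (ξ : ℂ) * (((-σ ^ 2 : ℝ) : ℂ) + ((2 * π * A : ℝ) : ℂ) * I) := by
  unfold zz
  have hpi : (π : ℂ) ≠ 0 := by exact_mod_cast Real.pi_ne_zero
  push_cast
  field_simp
  ring_nf
  rw [Complex.I_sq]
  ring

theorem FM15_mul (ξ : ℝ) (hξ : 0 ≤ ξ) (w : ℂ) (hw : w ≠ 0) :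
    ((ξ : ℂ) * w) ^ (1 / 2 : ℂ) = (√ξ : ℂ) * w ^ (1 / 2 : ℂ) := by
  rcases hξ.eq_or_lt with h | h
  · rw [← h]
    simp
  · rw [Complex.cpow_def_of_ne_zero (mul_ne_zero (by exact_mod_cast h.ne') hw),
      Complex.cpow_def_of_ne_zero hw, Complex.log_ofReal_mul h hw, add_mul, Complex.exp_add]
    congr 1
    have : (√ξ : ℂ) = ((Real.exp (Real.log ξ * (1 / 2)) : ℝ) : ℂ) := by
      rw [Real.sqrt_eq_rpow, Real.rpow_def_of_pos h]
    rw [this]
    push_cast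
    rfl

theorem Lz_pos (A σ ξ : ℝ) (hA : 0 < A) (hσ : 0 < σ) (hξ : 0 ≤ ξ) :
    Lz (zz A σ) ξ = WW A ξ σ * ee (-(σ * √ξ / π)) := by
  have hw : (((-σ ^ 2 : ℝ) : ℂ) + ((2 * π * A : ℝ) : ℂ) * I) ≠ 0 := by
    intro h
    have := congrArg Complex.im h
    rw [Complex.add_im, Complex.ofReal_im, Complex.im_ofReal_mul, Complex.I_im, Complex.zero_im]
      at this
    have h2 : 0 < 2 * π * A := by positivity
    linarith
  unfold Lz WW ee RR
  rw [FM15_arg, FM15_mul ξ hξ _ hw, ← Complex.exp_add]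
  congr 1
  have hpi : (π : ℂ) ≠ 0 := by exact_mod_cast Real.pi_ne_zero
  push_cast
  field_simp
  ring

theorem Lz_neg (A σ ξ : ℝ) (hA : 0 < A) (hσ : 0 < σ) (hξ : ξ ≤ 0) :
    ‖Lz (zz A σ) ξ‖ ≤ Real.exp (-(2 * σ * √(-ξ))) := by
  unfold Lz
  rw [Complex.norm_exp]
  apply Real.exp_le_exp.mpr
  have h2 : (-(2 * (2 * π * I * ξ * zz A σ) ^ (1 / 2 : ℂ))).re
      = -(2 * ((2 * π * I * ξ * zz A σ) ^ (1 / 2 : ℂ)).re) := by
    rw [Complex.neg_re]
    congr 1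
    have : (2 : ℂ) = ((2 : ℝ) : ℂ) := by norm_num
    rw [this, Complex.re_ofReal_mul]
  rw [h2]
  have h3 := FM15_sqrt_le (2 * π * I * ξ * zz A σ)
  have h4 : (2 * π * I * ξ * zz A σ).re = σ ^ 2 * (-ξ) := by
    rw [FM15_arg, Complex.re_ofReal_mul, Complex.add_re, Complex.ofReal_re, Complex.re_ofReal_mul,
      Complex.I_re]
    ring
  rw [h4, Real.sqrt_mul (sq_nonneg σ), Real.sqrt_sq hσ.le] at h3
  linarith

private theorem fm16_sq (A σ : ℝ) :
    (RR A σ) ^ 2 = ((-σ ^ 2 : ℝ) : ℂ) + ((2 * π * A : ℝ) : ℂ) * I := by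
  unfold RR
  rw [one_div]
  exact Complex.cpow_nat_inv_pow _ two_ne_zero

private theorem fm16_im (A σ : ℝ) :
    (((-σ ^ 2 : ℝ) : ℂ) + ((2 * π * A : ℝ) : ℂ) * I).im = 2 * π * A := by
  rw [Complex.add_im, Complex.ofReal_im, Complex.im_ofReal_mul, Complex.I_im, mul_one, zero_add]

private theorem fm16_re (A σ : ℝ) :
    (((-σ ^ 2 : ℝ) : ℂ) + ((2 * π * A : ℝ) : ℂ) * I).re = -σ ^ 2 := by
  rw [Complex.add_re, Complex.ofReal_re, Complex.re_ofReal_mul, Complex.I_re, mul_zero, add_zero]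

private theorem fm16_ne (A σ : ℝ) (hA : 0 < A) :
    ((-σ ^ 2 : ℝ) : ℂ) + ((2 * π * A : ℝ) : ℂ) * I ≠ 0 := by
  intro h
  have h1 := congrArg Complex.im h
  rw [fm16_im, Complex.zero_im] at h1
  have : 0 < 2 * π * A := by positivity
  linarith

private theorem fm16_pos (A σ : ℝ) (hA : 0 < A) : 0 < (RR A σ).re ∧ 0 < (RR A σ).im := by
  have hq := fm16_ne A σ hA
  have hpi := Real.pi_pos
  have him : 0 < 2 * π * A := by positivity
  unfold RR
  set q := ((-σ ^ 2 : ℝ) : ℂ) + ((2 * π * A : ℝ) : ℂ) * I with hqdef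
  have hqim : q.im = 2 * π * A := fm16_im A σ
  have harg0 : 0 < q.arg := by
    have h1 : 0 ≤ q.arg := Complex.arg_nonneg_iff.mpr (by rw [hqim]; exact him.le)
    rcases h1.lt_or_eq with h | h
    · exact h
    · have := (Complex.arg_eq_zero_iff.mp h.symm).2
      rw [hqim] at this
      linarith
  have harg1 : q.arg ≤ π := Complex.arg_le_pi q
  have harg2 : q.arg < π := by
    rcases harg1.lt_or_eq with h | h
    · exact h
    · have := (Complex.arg_eq_pi_iff.mp h).2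
      rw [hqim] at this
      linarith
  rw [Complex.cpow_def_of_ne_zero hq, Complex.exp_re, Complex.exp_im]
  have e1 : (Complex.log q * (1 / 2 : ℂ)).im = q.arg / 2 := by
    have : Complex.log q * (1 / 2 : ℂ) = Complex.log q * ((1 / 2 : ℝ) : ℂ) := by norm_num
    rw [this, Complex.im_mul_ofReal, Complex.log_im]
    ring
  rw [e1]
  constructor
  · exact mul_pos (Real.exp_pos _) (Real.cos_pos_of_mem_Ioo ⟨by linarith, by linarith⟩)
  · exact mul_pos (Real.exp_pos _) (Real.sin_pos_of_pos_of_lt_pi (by linarith) (by linarith))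

private theorem fm16_eqs (A σ : ℝ) :
    (RR A σ).im ^ 2 - (RR A σ).re ^ 2 = σ ^ 2 ∧ (RR A σ).re * (RR A σ).im = π * A := by
  have h := fm16_sq A σ
  have h1 := congrArg Complex.re h
  have h2 := congrArg Complex.im h
  rw [fm16_re, pow_two, Complex.mul_re] at h1
  rw [fm16_im, pow_two, Complex.mul_im] at h2
  constructor <;> nlinarith

private theorem fm16_ne' (A σ : ℝ) (hA : 0 < A) : RR A σ ≠ 0 := by
  intro h
  have := (fm16_pos A σ hA).1
  rw [h] at this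
  simp at this

private theorem fm16_der (A σ : ℝ) (hA : 0 < A) :
    HasDerivAt (RR A) (-(σ : ℂ) / RR A σ) σ := by
  have hq := fm16_ne A σ hA
  have hR := fm16_ne' A σ hA
  have hsl : ((-σ ^ 2 : ℝ) : ℂ) + ((2 * π * A : ℝ) : ℂ) * I ∈ Complex.slitPlane := by
    right
    rw [fm16_im]
    have : 0 < 2 * π * A := by positivity
    exact this.ne'
  have h1 : HasDerivAt (fun s : ℝ => ((-s ^ 2 : ℝ) : ℂ) + ((2 * π * A : ℝ) : ℂ) * I)
      (((-(2 * σ) : ℝ)) : ℂ) σ := by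
    have h2 : HasDerivAt (fun s : ℝ => -s ^ 2) (-(2 * σ)) σ := by
      have h5 : HasDerivAt (fun s : ℝ => -s ^ 2) (-(((2 : ℕ) : ℝ) * σ ^ (2 - 1))) σ :=
        (hasDerivAt_pow 2 σ).neg
      refine h5.congr_deriv ?_
      norm_num
    exact (h2.ofReal_comp).add_const _
  have h3 := (((hasDerivAt_id _).cpow_const (c := (1 / 2 : ℂ)) hsl).comp σ h1)
  have h4 : (fun z : ℂ => id z ^ (1 / 2 : ℂ)) ∘
      (fun s : ℝ => ((-s ^ 2 : ℝ) : ℂ) + ((2 * π * A : ℝ) : ℂ) * I) = RR A := by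
    funext s
    rfl
  rw [h4] at h3
  refine h3.congr_deriv ?_
  rw [id_eq, Complex.cpow_sub _ _ hq, Complex.cpow_one]
  have h5 : ((-σ ^ 2 : ℝ) : ℂ) + ((2 * π * A : ℝ) : ℂ) * I = RR A σ ^ 2 := (fm16_sq A σ).symm
  have h6 : (((-σ ^ 2 : ℝ) : ℂ) + ((2 * π * A : ℝ) : ℂ) * I) ^ (1 / 2 : ℂ) = RR A σ := rfl
  rw [h6, h5]
  push_cast
  field_simp

theorem WW_deriv (A ξ σ : ℝ) (hA : 0 < A) (hσ : 0 < σ) : HasDerivAt (WW A ξ) (WD A ξ σ) σ := by
  have hR := fm16_ne' A σ hA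
  have h1 := fm16_der A σ hA
  have h2 : HasDerivAt (fun s : ℝ => (s : ℂ) * I) (1 * I) σ :=
    ((hasDerivAt_id σ).ofReal_comp).mul_const I
  have h3 := (((h1.sub h2).const_mul (2 * (√ξ : ℂ))).neg).cexp
  refine h3.congr_deriv ?_
  unfold WD WW
  simp only [Pi.neg_apply, Pi.sub_apply]
  have e : -(2 * (√ξ : ℂ) * (-(σ : ℂ) / RR A σ - 1 * I)) =
      2 * (√ξ : ℂ) * (I * (RR A σ - σ * I) / RR A σ) := by
    have : I * (RR A σ - σ * I) = RR A σ * I + σ := by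
      linear_combination (-(σ : ℂ)) * Complex.I_sq
    rw [this]
    field_simp
    ring
  rw [e]
  ring

theorem WD_cont (A ξ : ℝ) (hA : 0 < A) : ContinuousOn (WD A ξ) (Set.Ioi 0) := by
  intro σ hσ
  have hR := fm16_ne' A σ hA
  have h1 : ContinuousAt (RR A) σ := (fm16_der A σ hA).continuousAt
  have h2 : ContinuousAt (WW A ξ) σ := (WW_deriv A ξ σ hA hσ).continuousAt
  have h3 : ContinuousAt (fun s : ℝ => (s : ℂ) * I) σ := by fun_prop
  refine ContinuousAt.continuousWithinAt ?_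
  have h4 : ContinuousAt (fun s : ℝ =>
      2 * (√ξ : ℂ) * (I * (RR A s - s * I) / RR A s) * WW A ξ s) σ :=
    (continuousAt_const.mul ((continuousAt_const.mul (h1.sub h3)).div h1 hR)).mul h2
  exact h4

private theorem fm16_x (A σ : ℝ) (hA : 0 < A) (hσ : 0 < σ) (hAσ : A ≤ σ ^ 2) :
    1.89 * (A / σ) ≤ 2 * (RR A σ).re ∧ σ ≤ (RR A σ).im := by
  obtain ⟨hx, hv⟩ := fm16_pos A σ hA
  obtain ⟨e1, e2⟩ := fm16_eqs A σ
  set x := (RR A σ).re
  set v := (RR A σ).im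
  have hpi := Real.pi_gt_d2
  have hpi' := Real.pi_lt_d2
  have hv1 : σ ≤ v := by nlinarith [sq_nonneg x]
  have hx1 : x ≤ π * σ := by
    by_contra h
    push Not at h
    have h1 : π * σ * σ < x * v := by
      have : π * σ * σ ≤ π * σ * v := by
        apply mul_le_mul_of_nonneg_left hv1
        positivity
      have h2 : π * σ * v < x * v := by
        apply mul_lt_mul_of_pos_right h hv
      linarith
    rw [e2] at h1
    have : π * A ≤ π * (σ * σ) := by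
      apply mul_le_mul_of_nonneg_left _ Real.pi_pos.le
      nlinarith
    nlinarith
  have hv2 : v ≤ 3.32 * σ := by
    by_contra h
    push Not at h
    have h1 : (3.32 * σ) ^ 2 < v ^ 2 := by
      apply pow_lt_pow_left₀ h (by positivity) two_ne_zero
    have h2 : x ^ 2 ≤ (π * σ) ^ 2 := by
      apply pow_le_pow_left₀ hx.le hx1
    have h3 : (π * σ) ^ 2 ≤ 9.93 * σ ^ 2 := by
      rw [mul_pow]
      apply mul_le_mul_of_nonneg_right _ (sq_nonneg σ)
      have := Real.pi_lt_d4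
      nlinarith [Real.pi_pos]
    nlinarith
  refine ⟨?_, hv1⟩
  have h1 : π * A ≤ x * (3.32 * σ) := by
    rw [← e2]
    exact mul_le_mul_of_nonneg_left hv2 hx.le
  rw [← mul_div_assoc, div_le_iff₀ hσ]
  have h2 : 3.14 * A ≤ π * A := by
    apply mul_le_mul_of_nonneg_right _ hA.le
    have := Real.pi_gt_d4
    linarith
  nlinarith

private theorem fm16_norm (A ξ σ : ℝ) (hA : 0 < A) (hσ : 0 < σ) (hAσ : A ≤ σ ^ 2) :
    ‖WW A ξ σ‖ ≤ Real.exp (-(1.89 * (√ξ * A / σ))) := by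
  obtain ⟨h1, h2⟩ := fm16_x A σ hA hσ hAσ
  unfold WW
  rw [Complex.norm_exp]
  apply Real.exp_le_exp.mpr
  have e : (-(2 * (√ξ : ℂ) * (RR A σ - σ * I))).re = -(√ξ * (2 * (RR A σ).re)) := by
    have e2 : (-(2 * (√ξ : ℂ) * (RR A σ - σ * I))) =
        ((-(2 * √ξ) : ℝ) : ℂ) * (RR A σ - (σ : ℂ) * I) := by
      push_cast
      ring
    rw [e2, Complex.re_ofReal_mul, Complex.sub_re, Complex.re_ofReal_mul, Complex.I_re]
    ring
  rw [e]
  have h3 : √ξ * (1.89 * (A / σ)) ≤ √ξ * (2 * (RR A σ).re) :=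
    mul_le_mul_of_nonneg_left h1 (Real.sqrt_nonneg _)
  have h4 : 1.89 * (√ξ * A / σ) = √ξ * (1.89 * (A / σ)) := by ring
  rw [h4]
  linarith

theorem WW_norm (A ξ σ : ℝ) (hA : 0 < A) (hσ : 0 < σ) (hAσ : A ≤ σ ^ 2) (hξ : 0 ≤ ξ) :
    ‖WW A ξ σ‖ ≤ Real.exp (-(√ξ * A / σ)) := by
  refine (fm16_norm A ξ σ hA hσ hAσ).trans ?_
  apply Real.exp_le_exp.mpr
  have : 0 ≤ √ξ * A / σ := by positivity
  linarith

theorem WD_norm (A ξ σ : ℝ) (hA : 0 < A) (hσ : 0 < σ) (hAσ : A ≤ σ ^ 2) (hξ : 0 ≤ ξ) :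
    ‖WD A ξ σ‖ ≤ 8 / σ * Real.exp (-(√ξ * A / σ)) := by
  have h0 := fm16_norm A ξ σ hA hσ hAσ
  obtain ⟨h1, h2⟩ := fm16_x A σ hA hσ hAσ
  obtain ⟨hx, hv⟩ := fm16_pos A σ hA
  obtain ⟨e1, e2⟩ := fm16_eqs A σ
  have hR : σ ≤ ‖RR A σ‖ := by
    calc σ ≤ (RR A σ).im := h2
      _ ≤ |(RR A σ).im| := le_abs_self _
      _ ≤ ‖RR A σ‖ := Complex.abs_im_le_norm _
  have hRi : ‖RR A σ - σ * I‖ ≤ π * A / σ := by
    have hprod : (RR A σ - σ * I) * (RR A σ + σ * I) = ((2 * π * A : ℝ) : ℂ) * I := by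
      have := fm16_sq A σ
      have h3 : (RR A σ - σ * I) * (RR A σ + σ * I) = RR A σ ^ 2 - (σ : ℂ) ^ 2 * I ^ 2 := by ring
      rw [h3, this, Complex.I_sq]
      push_cast
      ring
    have hn : ‖RR A σ - σ * I‖ * ‖RR A σ + σ * I‖ = 2 * π * A := by
      rw [← norm_mul, hprod, norm_mul, Complex.norm_I, mul_one, Complex.norm_real,
        Real.norm_of_nonneg (by positivity)]
    have hp : 2 * σ ≤ ‖RR A σ + σ * I‖ := by
      have h3 : (RR A σ + σ * I).im = (RR A σ).im + σ := by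
        rw [Complex.add_im, Complex.im_ofReal_mul, Complex.I_im, mul_one]
      calc 2 * σ ≤ (RR A σ + σ * I).im := by rw [h3]; linarith
        _ ≤ |(RR A σ + σ * I).im| := le_abs_self _
        _ ≤ _ := Complex.abs_im_le_norm _
    rw [le_div_iff₀ hσ]
    have h3 : ‖RR A σ - σ * I‖ * (2 * σ) ≤ 2 * π * A := by
      rw [← hn]
      exact mul_le_mul_of_nonneg_left hp (norm_nonneg _)
    linarith
  set X := √ξ * A / σ with hX
  have hX0 : 0 ≤ X := by positivity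
  unfold WD
  rw [norm_mul, norm_mul, norm_mul, norm_div, norm_mul, Complex.norm_I, one_mul,
    Complex.norm_real, Real.norm_of_nonneg (Real.sqrt_nonneg _), Complex.norm_ofNat]
  have h3 : ‖RR A σ - σ * I‖ / ‖RR A σ‖ ≤ (π * A / σ) / σ := by
    apply div_le_div₀ (by positivity) hRi hσ hR
  have h4 : 2 * √ξ * (‖RR A σ - σ * I‖ / ‖RR A σ‖) ≤ 2 * π * X / σ := by
    calc 2 * √ξ * (‖RR A σ - σ * I‖ / ‖RR A σ‖) ≤ 2 * √ξ * ((π * A / σ) / σ) :=
          mul_le_mul_of_nonneg_left h3 (by positivity)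
      _ = 2 * π * X / σ := by rw [hX]; ring
  calc 2 * √ξ * (‖RR A σ - σ * I‖ / ‖RR A σ‖) * ‖WW A ξ σ‖
      ≤ (2 * π * X / σ) * Real.exp (-(1.89 * X)) :=
        mul_le_mul h4 h0 (norm_nonneg _) (by positivity)
    _ = 2 * π / σ * (X * Real.exp (-(0.89 * X))) * Real.exp (-X) := by
        have : Real.exp (-(1.89 * X)) = Real.exp (-(0.89 * X)) * Real.exp (-X) := by
          rw [← Real.exp_add]
          congr 1
          ring
        rw [this]
        ring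
    _ ≤ 8 / σ * Real.exp (-X) := by
        apply mul_le_mul_of_nonneg_right _ (Real.exp_pos _).le
        have h5 : 0.89 * X * Real.exp (-(0.89 * X)) ≤ 1 := by
          rw [Real.exp_neg, ← div_eq_mul_inv, div_le_one (Real.exp_pos _)]
          have := Real.add_one_le_exp (0.89 * X)
          linarith
        have h6 : X * Real.exp (-(0.89 * X)) ≤ 1 / 0.89 := by
          rw [le_div_iff₀ (by norm_num)]
          linarith
        have h7 : 2 * π ≤ 6.2832 := by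
          have := Real.pi_lt_d4
          linarith
        calc 2 * π / σ * (X * Real.exp (-(0.89 * X))) ≤ 6.2832 / σ * (1 / 0.89) := by
              apply mul_le_mul _ h6 (by positivity) (by positivity)
              exact div_le_div_of_nonneg_right h7 hσ.le
          _ ≤ 8 / σ := by
              rw [div_mul_eq_mul_div]
              apply div_le_div_of_nonneg_right _ hσ.le
              norm_num

theorem zz_pre (A σ : ℝ) (hA : 0 < A) (hσ : 0 < σ) : ‖((π : ℂ) / zz A σ) ^ (1 / 2 : ℂ)‖ ≤ 5 / σ := by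
  have h1 := FM15_norm ((π : ℂ) / zz A σ)
  have h2 : ‖(π : ℂ) / zz A σ‖ ≤ (5 / σ) ^ 2 := by
    rw [norm_div, Complex.norm_real, Real.norm_of_nonneg Real.pi_pos.le]
    have h3 : σ ^ 2 / (2 * π) ≤ ‖zz A σ‖ := by
      have h4 : (zz A σ).im = σ ^ 2 / (2 * π) := by
        unfold zz
        rw [Complex.add_im, Complex.ofReal_im, Complex.im_ofReal_mul, Complex.I_im]
        ring
      rw [← h4]
      exact (le_abs_self _).trans (Complex.abs_im_le_norm _)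
    have h5 : 0 < σ ^ 2 / (2 * π) := by positivity
    calc π / ‖zz A σ‖ ≤ π / (σ ^ 2 / (2 * π)) :=
          div_le_div_of_nonneg_left Real.pi_pos.le h5 h3
      _ = 2 * π ^ 2 / σ ^ 2 := by
          field_simp
      _ ≤ 25 / σ ^ 2 := by
          apply div_le_div_of_nonneg_right _ (sq_nonneg σ)
          nlinarith [Real.pi_lt_d2, Real.pi_pos]
      _ = (5 / σ) ^ 2 := by rw [div_pow]; norm_num
  have h6 : 0 ≤ 5 / σ := by positivity
  rw [← h1] at h2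
  exact le_of_sq_le_sq h2 h6

end Pool.Agent.Helper31.FM
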