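import Pool.Agent.Helper31.FM.Poi2
import Pool.Agent.Helper31.FM.RW

/-!
# FM-DU: the dual form of the smoothed sum

`poi` for `z = zz A σ`, `θ = h/8`, `0 ≤ h < 8`.  The terms `k ≤ 0` have `ξ = k - h/8 ≤ 0`, `‖Lz‖ ≤ exp (-2 σ √(-ξ))`; their sum is at most
`1 + ∑_{k ≥ 1} exp (-2 √k) ≤ C` (for `k = 0` the bound is `1`; `σ ≥ 1`).  The terms `k ≥ 1`: `Lz_pos`.  Prefactor: `zz_pre`.
`du_sum`: summability of the dual sum: from `poi_sum` and `Lz_pos`.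
-/

set_option autoImplicit false

namespace Pool.Agent.Helper31.FM

open Complex Real Finset MeasureTheory
open Pool.Agent.Helper31.FI (ee ze mains)

/-- the dual sum -/
noncomputable def Ds (A ν σ : ℝ) (h : ℕ) : ℂ :=
  ∑' k : ℕ, ee (((k : ℝ) + 1 - h / 8) * ν) * WW A ((k : ℝ) + 1 - h / 8) σ *
    ee (-(σ * √((k : ℝ) + 1 - h / 8) / π))

lemma du_ee_norm (t : ℝ) : ‖ee t‖ = 1 := by
  unfold ee
  rw [show (2 * (π : ℂ) * I * (t : ℂ)) = ((2 * π * t : ℝ) : ℂ) * I by push_cast; ring]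
  exact Complex.norm_exp_ofReal_mul_I _

lemma du_xi_nonneg (k h : ℕ) (hh : h < 8) : (0 : ℝ) ≤ (k : ℝ) + 1 - h / 8 := by
  have h1 : (h : ℝ) < 8 := by exact_mod_cast hh
  have h2 : (0 : ℝ) ≤ k := Nat.cast_nonneg k
  linarith

lemma du_norm_eq (A σ : ℝ) (k h : ℕ) (hA : 0 < A) (hσ : 0 < σ) (hh : h < 8) :
    ‖Lz (zz A σ) ((k : ℝ) + 1 - h / 8)‖ = ‖WW A ((k : ℝ) + 1 - h / 8) σ‖ := by
  rw [Lz_pos A σ _ hA hσ (du_xi_nonneg k h hh), norm_mul, du_ee_norm, mul_one]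

theorem du_sum (A σ : ℝ) (h : ℕ) (hA : 0 < A) (hσ : 0 < σ) (hh : h < 8) :
    Summable fun k : ℕ => ‖WW A ((k : ℝ) + 1 - h / 8) σ‖ := by
  have h1 := poi_sum (zz A σ) ((h : ℝ) / 8) (by rw [zz_re]; exact hA)
  have hinj : Function.Injective fun k : ℕ => ((k : ℤ) + 1) := by
    intro a b hab
    have : (a : ℤ) + 1 = (b : ℤ) + 1 := hab
    omega
  have h2 := h1.comp_injective hinj
  refine h2.congr fun k => ?_
  rw [← du_norm_eq A σ k h hA hσ hh]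
  simp only [Function.comp_apply]
  push_cast
  rfl

lemma du_summable_exp : Summable fun k : ℕ => Real.exp (-(2 * √(k : ℝ))) := by
  rw [← summable_nat_add_iff 1]
  have h1 : Summable fun k : ℕ => (24 / 16 : ℝ) * (1 / ((k : ℝ) + 1) ^ 2) := by
    have h2 := (summable_nat_add_iff 1).2 (Real.summable_one_div_nat_pow.2 (by norm_num : 1 < 2))
    refine (h2.mul_left (24 / 16 : ℝ)).congr fun k => ?_
    push_cast
    rfl
  refine Summable.of_nonneg_of_le (fun k => (Real.exp_pos _).le) (fun k => ?_) h1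
  have hk : (0 : ℝ) < (k : ℝ) + 1 := by positivity
  have h3 := Real.pow_div_factorial_le_exp (2 * √((k : ℝ) + 1)) (by positivity) 4
  have h4 : (2 * √((k : ℝ) + 1)) ^ 4 = 16 * ((k : ℝ) + 1) ^ 2 := by
    rw [mul_pow, show (4 : ℕ) = 2 * 2 by norm_num, pow_mul (√((k : ℝ) + 1)), Real.sq_sqrt hk.le]
    norm_num
  rw [h4] at h3
  push_cast
  rw [Real.exp_neg, show (24 / 16 : ℝ) * (1 / ((k : ℝ) + 1) ^ 2)
    = (16 * ((k : ℝ) + 1) ^ 2 / (Nat.factorial 4 : ℝ))⁻¹ by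
      rw [show (Nat.factorial 4 : ℝ) = 24 by norm_num [Nat.factorial]]
      field_simp]
  exact inv_anti₀ (by positivity) h3

theorem dual : ∃ C : ℝ, 0 < C ∧ ∀ (A ν σ : ℝ) (h : ℕ), 0 < A → 1 ≤ σ → 0 < ν → ν ≤ 1 → h < 8 →
    ‖Fs (zz A σ) ν (h / 8)‖ ≤ C / σ * (1 + ‖Ds A ν σ h‖) := by
  set C₀ : ℝ := ∑' k : ℕ, Real.exp (-(2 * √(k : ℝ))) with hC₀
  have hC₀0 : 0 ≤ C₀ := tsum_nonneg fun k => (Real.exp_pos _).le
  refine ⟨5 * (1 + C₀), by positivity, fun A ν σ h hA hσ1 hν hν' hh => ?_⟩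
  have hσ : 0 < σ := lt_of_lt_of_le one_pos hσ1
  have hre : 0 < (zz A σ).re := by rw [zz_re]; exact hA
  have hs := poi_sum (zz A σ) ((h : ℝ) / 8) hre
  set f : ℤ → ℂ := fun k => ee (((k : ℝ) - (h : ℝ) / 8) * ν) * Lz (zz A σ) ((k : ℝ) - (h : ℝ) / 8)
    with hf
  have hfs : Summable f := by
    refine Summable.of_norm (hs.congr fun k => ?_)
    rw [hf]
    simp only [norm_mul, du_ee_norm, one_mul]
  have hfn : Summable fun k : ℤ => f (-k) := (Equiv.neg ℤ).summable_iff.2 hfs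
  have hneg1 : Summable fun k : ℕ => f (-(k : ℤ)) :=
    hfn.comp_injective (i := fun k : ℕ => (k : ℤ)) Nat.cast_injective
  have hpos1 : Summable fun k : ℕ => f ((k : ℤ) + 1) := by
    refine hfs.comp_injective (i := fun k : ℕ => (k : ℤ) + 1) ?_
    intro a b hab
    have : (a : ℤ) + 1 = (b : ℤ) + 1 := hab
    omega
  have hsplit : ∑' k : ℤ, f k = (∑' k : ℕ, f (-(k : ℤ))) + ∑' k : ℕ, f ((k : ℤ) + 1) := by
    have h1 : ∑' k : ℤ, f k = ∑' k : ℤ, f (-k) := ((Equiv.neg ℤ).tsum_eq f).symm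
    rw [h1]
    have h2 : HasSum (fun k : ℤ => f (-k))
        ((∑' k : ℕ, f (-(k : ℤ))) + ∑' k : ℕ, f ((k : ℤ) + 1)) := by
      refine HasSum.of_nat_of_neg_add_one hneg1.hasSum ?_
      have h3 : (fun k : ℕ => f (-(-((k : ℤ) + 1)))) = fun k : ℕ => f ((k : ℤ) + 1) := by
        funext k
        rw [neg_neg]
      rw [h3]
      exact hpos1.hasSum
    exact h2.tsum_eq
  have hD : ∑' k : ℕ, f ((k : ℤ) + 1) = Ds A ν σ h := by
    unfold Ds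
    refine tsum_congr fun k => ?_
    rw [hf]
    simp only
    push_cast
    rw [Lz_pos A σ _ hA hσ (du_xi_nonneg k h hh), mul_assoc]
  have hN : ‖∑' k : ℕ, f (-(k : ℤ))‖ ≤ C₀ := by
    refine tsum_of_norm_bounded du_summable_exp.hasSum fun k => ?_
    rw [hf]
    simp only [norm_mul, du_ee_norm, one_mul]
    push_cast
    have hk : (0 : ℝ) ≤ k := Nat.cast_nonneg k
    have hh0 : (0 : ℝ) ≤ h := Nat.cast_nonneg h
    refine (Lz_neg A σ _ hA hσ (by linarith)).trans (Real.exp_le_exp.2 ?_)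
    have h1 : √(k : ℝ) ≤ √(-(-(k : ℝ) - (h : ℝ) / 8)) := Real.sqrt_le_sqrt (by linarith)
    have h2 : 0 ≤ √(k : ℝ) := Real.sqrt_nonneg _
    nlinarith
  have hpoi := poi (zz A σ) ν ((h : ℝ) / 8) hre hν hν'
  have hpoi' : Fs (zz A σ) ν ((h : ℝ) / 8) = ((π : ℂ) / zz A σ) ^ (1 / 2 : ℂ) * ∑' k : ℤ, f k := hpoi
  rw [hpoi', hsplit, hD, norm_mul]
  have h1 := zz_pre A σ hA hσ
  have h2 : ‖(∑' k : ℕ, f (-(k : ℤ))) + Ds A ν σ h‖ ≤ C₀ + ‖Ds A ν σ h‖ :=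
    (norm_add_le _ _).trans (by linarith)
  have hDn : 0 ≤ ‖Ds A ν σ h‖ := norm_nonneg _
  calc ‖((π : ℂ) / zz A σ) ^ (1 / 2 : ℂ)‖ * ‖(∑' k : ℕ, f (-(k : ℤ))) + Ds A ν σ h‖
      ≤ 5 / σ * (C₀ + ‖Ds A ν σ h‖) := mul_le_mul h1 h2 (norm_nonneg _) (by positivity)
    _ ≤ 5 * (1 + C₀) / σ * (1 + ‖Ds A ν σ h‖) := by
        rw [div_mul_eq_mul_div, div_mul_eq_mul_div]
        refine div_le_div_of_nonneg_right ?_ hσ.le
        nlinarith [mul_nonneg hC₀0 hDn]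

end Pool.Agent.Helper31.FM
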