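import Pool.Agent.Helper31.FM.Ms4
import Pool.Agent.Helper31.FM.RI
import Pool.Agent.Helper31.FI.FinalC

/-!
# FM-FI: the fourth moment of the interpolation basis

`fi_pt` (from `FI.final_c`), Hölder `norm_sum_pow4_w` with the weights `j^(-1/2)`, `fi_sub`, `ms4`, `card_Ms`; see `fi_dy`.  Then dyadic sum as
in `FI/FinalD.lean`.
-/

set_option autoImplicit false

namespace Pool.Agent.Helper31.FM

open Complex Real Finset MeasureTheory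
open Pool.Agent.Helper31.FI (ee ze mains Ms c0)

open Classical in
/-- the set of `j` -/
noncomputable def Js (n : ℕ) (x : ℝ) : Finset ℕ :=
  (range (n + 1)).filter (fun j : ℕ => Odd j ∧ (j : ℝ) ^ 2 * x ≤ n)

/-- one main sum without its first term -/
noncomputable def gm1 (n j : ℕ) (m : ℤ) (s : ℝ) : ℂ :=
  mains (s ^ 2) ((c0 j m : ℝ) / j) (⌈2 * √n⌉₊ + 1) - fst ((c0 j m : ℝ) / j) s

theorem fi_pt_fst (n j : ℕ) (m : ℤ) (s : ℝ) (hj : 1 ≤ j) :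
    ‖fst ((c0 j m : ℝ) / j) s‖ = ((c0 j m : ℝ) / j) ^ (-(1 / 2) : ℝ) := by
  unfold fst
  have e : (-(π * I * (s : ℂ) ^ 2 / (((c0 j m : ℝ) / j : ℝ) : ℂ)) : ℂ) =
      ((-(π * s ^ 2 / ((c0 j m : ℝ) / j)) : ℝ) : ℂ) * I := by
    push_cast
    ring
  rw [norm_mul, e, Complex.norm_exp_ofReal_mul_I, mul_one, Complex.norm_real,
    Real.norm_of_nonneg (by positivity)]

theorem fi_pt_sum (n : ℕ) (x : ℝ) (hn : 1 ≤ n) (hx : 1 ≤ x) :
    ∑ j ∈ Js n x, (j : ℝ) ^ (-(1 / 2) : ℝ) * (2 * j) ≤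
      2 * ((n : ℝ) ^ (3 / 4 : ℝ) * x ^ (-(3 / 4) : ℝ)) := by
  classical
  have hn0 : (0 : ℝ) < n := by exact_mod_cast hn
  have hx0 : 0 < x := by linarith
  set J : ℝ := √(n / x) with hJ
  have hJ0 : 0 ≤ J := Real.sqrt_nonneg _
  have hle : ∀ j ∈ Js n x, 1 ≤ j ∧ (j : ℝ) ≤ J := by
    intro j hj
    unfold Js at hj
    rw [Finset.mem_filter] at hj
    obtain ⟨_, h1, h2⟩ := hj
    refine ⟨h1.pos, ?_⟩
    apply Real.le_sqrt_of_sq_le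
    rw [le_div_iff₀ hx0]
    exact h2
  have hcard : ((Js n x).card : ℝ) ≤ J := by
    have h1 : Js n x ⊆ Finset.Icc 1 ⌊J⌋₊ := by
      intro j hj
      obtain ⟨h2, h3⟩ := hle j hj
      rw [Finset.mem_Icc]
      exact ⟨h2, Nat.le_floor h3⟩
    have h2 := Finset.card_le_card h1
    rw [Nat.card_Icc] at h2
    have h3 : ((Js n x).card : ℝ) ≤ (⌊J⌋₊ : ℝ) := by
      exact_mod_cast (by omega : (Js n x).card ≤ ⌊J⌋₊)
    exact h3.trans (Nat.floor_le hJ0)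
  have hterm : ∀ j ∈ Js n x, (j : ℝ) ^ (-(1 / 2) : ℝ) * (2 * j) ≤ 2 * J ^ (1 / 2 : ℝ) := by
    intro j hj
    obtain ⟨h2, h3⟩ := hle j hj
    have hj0 : (0 : ℝ) < j := by exact_mod_cast h2
    have e1 : (j : ℝ) ^ (-(1 / 2) : ℝ) * (2 * j) = 2 * (j : ℝ) ^ (1 / 2 : ℝ) := by
      have e2 : (j : ℝ) ^ (1 / 2 : ℝ) = (j : ℝ) ^ (-(1 / 2) : ℝ) * j := by
        nth_rewrite 3 [← Real.rpow_one (j : ℝ)]
        rw [← Real.rpow_add hj0]
        norm_num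
      rw [e2]
      ring
    rw [e1]
    exact mul_le_mul_of_nonneg_left (Real.rpow_le_rpow hj0.le h3 (by norm_num)) (by norm_num)
  have e3 : J * J ^ (1 / 2 : ℝ) = (n : ℝ) ^ (3 / 4 : ℝ) * x ^ (-(3 / 4) : ℝ) := by
    have hnx : 0 < (n : ℝ) / x := by positivity
    have e4 : J = ((n : ℝ) / x) ^ (1 / 2 : ℝ) := by rw [hJ, Real.sqrt_eq_rpow]
    rw [e4, ← Real.rpow_mul hnx.le, ← Real.rpow_add hnx, Real.div_rpow hn0.le hx0.le,
      Real.rpow_neg hx0.le]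
    norm_num
    rw [div_eq_mul_inv]
  calc ∑ j ∈ Js n x, (j : ℝ) ^ (-(1 / 2) : ℝ) * (2 * j)
      ≤ ∑ _j ∈ Js n x, 2 * J ^ (1 / 2 : ℝ) := Finset.sum_le_sum hterm
    _ = (Js n x).card * (2 * J ^ (1 / 2 : ℝ)) := by rw [Finset.sum_const, nsmul_eq_mul]
    _ ≤ J * (2 * J ^ (1 / 2 : ℝ)) := by gcongr
    _ = 2 * (J * J ^ (1 / 2 : ℝ)) := by ring
    _ = _ := by rw [e3]

/-- `final_c`: `‖kap‖ = 1`, `|sin| ≤ 1`, `|im| ≤ norm`; the first terms contribute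
`n^(-1/2) ∑_j j^(-1/2) ∑_m ν₀^(-1/2) ≤ n^(-1/2) ∑_{j ≤ √(n/x)} 2 j^(1/2) ≤ C n^(1/4) x^(-3/4)` (`FI.sum_c0`) -/
theorem fi_pt : ∃ C : ℝ, 0 < C ∧ ∀ (n : ℕ), 1 ≤ n → ∀ b : SchwartzMap ℝ ℂ,
    (∀ s : ℝ, b (-s) = b s) → (∀ ξ : ℝ, ∫ s : ℝ, cexp (-(2 * π * I * ξ * s)) * b s = b ξ) →
    (∀ m : ℕ, b (√m) = if m = n then 1 else 0) →
    ∀ x : ℝ, 1 ≤ x → x ≤ n - √n →
      ‖b (√x)‖ ≤ C * ((n : ℝ) ^ (-(1 / 2) : ℝ) *
          (∑ j ∈ Js n x, ∑ m ∈ Ms j, (j : ℝ) ^ (-(1 / 2) : ℝ) * ‖gm1 n j m (√n / j - √x)‖) +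
        (1 + Real.log n) ^ 3 * ((n : ℝ) ^ (1 / 4 : ℝ) * x ^ (-(3 / 4) : ℝ))) := by
  classical
  obtain ⟨kap, hk1, _, C, hC, h⟩ := FI.final_c
  refine ⟨C + 4, by positivity, fun n hn b hb hb' hd x hx hxn => ?_⟩
  have hn0 : (0 : ℝ) < n := by exact_mod_cast hn
  have hn1 : (1 : ℝ) ≤ n := by exact_mod_cast hn
  have hx0 : 0 < x := by linarith
  have hlog : 0 ≤ Real.log n := Real.log_nonneg hn1
  have h1 := h n hn b hb hb' hd x hx hxn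
  set Q : ℝ := (n : ℝ) ^ (1 / 4 : ℝ) * x ^ (-(3 / 4) : ℝ) with hQ
  have hQ0 : 0 ≤ Q := by positivity
  set S : ℝ := ∑ j ∈ Js n x, ∑ m ∈ Ms j,
    (j : ℝ) ^ (-(1 / 2) : ℝ) * ‖gm1 n j m (√n / j - √x)‖ with hS
  have hS0 : 0 ≤ S := by
    rw [hS]
    exact Finset.sum_nonneg fun j _ => Finset.sum_nonneg fun m _ => by positivity
  have hodd : ∀ j ∈ Js n x, Odd j := by
    intro j hj
    unfold Js at hj
    rw [Finset.mem_filter] at hj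
    exact hj.2.1
  have hM : ‖FI.mainC kap x n‖ ≤ S + 2 * ((n : ℝ) ^ (3 / 4 : ℝ) * x ^ (-(3 / 4) : ℝ)) := by
    have hJs : (range (n + 1)).filter (fun j : ℕ => Odd j ∧ (j : ℝ) ^ 2 * x ≤ n) = Js n x := rfl
    unfold FI.mainC
    rw [hJs]
    have hterm : ∀ j ∈ Js n x, ∀ m ∈ Ms j,
        ‖kap j m * cexp (π * I * n * m / j) * ((j : ℝ) ^ (-(1 / 2) : ℝ) : ℝ) *
          mains ((√n / j - √x) ^ 2) ((c0 j m : ℝ) / j) (⌈2 * √n⌉₊ + 1)‖ ≤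
        (j : ℝ) ^ (-(1 / 2) : ℝ) * ‖gm1 n j m (√n / j - √x)‖ +
          (j : ℝ) ^ (-(1 / 2) : ℝ) * ((c0 j m : ℝ) / j) ^ (-(1 / 2) : ℝ) := by
      intro j hj m hm
      have hjo := hodd j hj
      have hj1 : 1 ≤ j := hjo.pos
      have hu : ‖kap j m * cexp (π * I * n * m / j)‖ = 1 := by
        rw [norm_mul, hk1 j hjo m hm, one_mul]
        have e : (π * I * n * m / j : ℂ) = ((π * n * m / j : ℝ) : ℂ) * I := by
          push_cast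
          ring
        rw [e, Complex.norm_exp_ofReal_mul_I]
      have e1 : mains ((√n / j - √x) ^ 2) ((c0 j m : ℝ) / j) (⌈2 * √n⌉₊ + 1) =
          gm1 n j m (√n / j - √x) + fst ((c0 j m : ℝ) / j) (√n / j - √x) := by
        unfold gm1
        ring
      rw [norm_mul, norm_mul, hu, one_mul, Complex.norm_real, Real.norm_of_nonneg (by positivity),
        e1, ← mul_add]
      refine mul_le_mul_of_nonneg_left ?_ (by positivity)
      refine (norm_add_le _ _).trans ?_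
      rw [fi_pt_fst n j m _ hj1]
    refine (norm_sum_le _ _).trans ?_
    refine (Finset.sum_le_sum fun j hj => (norm_sum_le _ _).trans
      (Finset.sum_le_sum fun m hm => hterm j hj m hm)).trans ?_
    simp only [Finset.sum_add_distrib]
    refine add_le_add le_rfl ?_
    refine le_trans (Finset.sum_le_sum fun j hj => ?_) (fi_pt_sum n x hn hx)
    rw [← Finset.mul_sum]
    exact mul_le_mul_of_nonneg_left (FI.sum_c0 (hodd j hj)) (by positivity)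
  have h2 : ‖((2 * Real.sin (π * x) / √n * (cexp (π * I / 4) * FI.mainC kap x n).im : ℝ) : ℂ)‖ ≤
      2 * (n : ℝ) ^ (-(1 / 2) : ℝ) * ‖FI.mainC kap x n‖ := by
    have e4 : (n : ℝ) ^ (-(1 / 2) : ℝ) = (√(n : ℝ))⁻¹ := by
      rw [Real.sqrt_eq_rpow, ← Real.rpow_neg hn0.le]
    have e7 : ‖cexp (π * I / 4)‖ = 1 := by
      have e : (π * I / 4 : ℂ) = ((π / 4 : ℝ) : ℂ) * I := by
        push_cast
        ring
      rw [e, Complex.norm_exp_ofReal_mul_I]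
    have g1 : |(cexp (π * I / 4) * FI.mainC kap x n).im| ≤ ‖FI.mainC kap x n‖ := by
      refine (Complex.abs_im_le_norm _).trans ?_
      rw [norm_mul, e7, one_mul]
    have g2 : |Real.sin (π * x)| ≤ 1 := Real.abs_sin_le_one _
    rw [Complex.norm_real, Real.norm_eq_abs, abs_mul, abs_div, abs_mul, abs_two,
      abs_of_nonneg (Real.sqrt_nonneg (n : ℝ)), e4, div_eq_mul_inv]
    have g3 : 2 * |Real.sin (π * x)| * (√(n : ℝ))⁻¹ ≤ 2 * (√(n : ℝ))⁻¹ := by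
      have : 0 ≤ (√(n : ℝ))⁻¹ := by positivity
      nlinarith
    exact mul_le_mul g3 g1 (abs_nonneg _) (by positivity)
  have h3 : ‖b (√x)‖ ≤ C * ((1 + Real.log n) ^ 3 * Q) +
      2 * (n : ℝ) ^ (-(1 / 2) : ℝ) * (S + 2 * ((n : ℝ) ^ (3 / 4 : ℝ) * x ^ (-(3 / 4) : ℝ))) := by
    have e5 : b (√x) = (b (√x) -
        ((2 * Real.sin (π * x) / √n * (cexp (π * I / 4) * FI.mainC kap x n).im : ℝ) : ℂ)) +
        ((2 * Real.sin (π * x) / √n * (cexp (π * I / 4) * FI.mainC kap x n).im : ℝ) : ℂ) := by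
      ring
    rw [e5]
    refine (norm_add_le _ _).trans (add_le_add h1 (h2.trans ?_))
    exact mul_le_mul_of_nonneg_left hM (by positivity)
  have e6 : (n : ℝ) ^ (-(1 / 2) : ℝ) * ((n : ℝ) ^ (3 / 4 : ℝ) * x ^ (-(3 / 4) : ℝ)) = Q := by
    rw [← mul_assoc, ← Real.rpow_add hn0, hQ]
    norm_num
  have hl1 : 1 ≤ 1 + Real.log n := by linarith
  have g1 : Q ≤ (1 + Real.log n) ^ 3 * Q := by
    have : 1 ≤ (1 + Real.log n) ^ 3 := one_le_pow₀ hl1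
    nlinarith
  have hp : 0 ≤ (n : ℝ) ^ (-(1 / 2) : ℝ) * S := by positivity
  calc ‖b (√x)‖ ≤ C * ((1 + Real.log n) ^ 3 * Q) +
      2 * (n : ℝ) ^ (-(1 / 2) : ℝ) * (S + 2 * ((n : ℝ) ^ (3 / 4 : ℝ) * x ^ (-(3 / 4) : ℝ))) := h3
    _ = C * ((1 + Real.log n) ^ 3 * Q) + 2 * ((n : ℝ) ^ (-(1 / 2) : ℝ) * S) +
        4 * ((n : ℝ) ^ (-(1 / 2) : ℝ) * ((n : ℝ) ^ (3 / 4 : ℝ) * x ^ (-(3 / 4) : ℝ))) := by ring
    _ = C * ((1 + Real.log n) ^ 3 * Q) + 2 * ((n : ℝ) ^ (-(1 / 2) : ℝ) * S) + 4 * Q := by rw [e6]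
    _ ≤ C * ((1 + Real.log n) ^ 3 * Q) + (C + 4) * ((n : ℝ) ^ (-(1 / 2) : ℝ) * S) +
        4 * ((1 + Real.log n) ^ 3 * Q) := by
        have : 2 * ((n : ℝ) ^ (-(1 / 2) : ℝ) * S) ≤ (C + 4) * ((n : ℝ) ^ (-(1 / 2) : ℝ) * S) :=
          mul_le_mul_of_nonneg_right (by linarith) hp
        linarith
    _ = (C + 4) * ((n : ℝ) ^ (-(1 / 2) : ℝ) * S + (1 + Real.log n) ^ 3 * Q) := by ring

/-- substitution `x = (√n/j - s)²` -/
theorem fi_sub (g : ℝ → ℝ) (hg : Continuous g) (hg0 : ∀ s, 0 ≤ g s) (N Y : ℝ) (hN : 0 < N) (hY : 0 < Y) :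
    ∫ x in Y..(2 * Y), (if √x ≤ N then g (N - √x) else 0) ≤ 2 * √(2 * Y) * ∫ s in (0 : ℝ)..N, g s := by
  have hR0 : 0 ≤ ∫ s in (0 : ℝ)..N, g s :=
    intervalIntegral.integral_nonneg hN.le fun s _ => hg0 s
  set f : ℝ → ℝ := fun x => if √x ≤ N then g (N - √x) else 0 with hf
  have hzero : ∀ x : ℝ, N ^ 2 < x → f x = 0 := by
    intro x hx
    have : ¬ √x ≤ N := by
      rw [not_le]
      exact Real.lt_sqrt_of_sq_lt hx
    simp only [hf]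
    rw [if_neg this]
  have hone : ∀ x : ℝ, x ≤ N ^ 2 → f x = g (N - √x) := by
    intro x hx
    have : √x ≤ N := Real.sqrt_le_iff.mpr ⟨hN.le, hx⟩
    simp only [hf]
    rw [if_pos this]
  rcases le_or_gt (N ^ 2) Y with h | h
  · have h0 : ∫ x in Y..(2 * Y), f x = 0 := by
      refine intervalIntegral.integral_zero_ae (Filter.Eventually.of_forall fun x hx => ?_)
      rw [Set.uIoc_of_le (by linarith)] at hx
      exact hzero x (h.trans_lt hx.1)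
    rw [h0]
    positivity
  · set Z : ℝ := min (2 * Y) (N ^ 2) with hZ
    have hYZ : Y ≤ Z := le_min (by linarith) h.le
    have hZ2 : Z ≤ 2 * Y := min_le_left _ _
    have hZN : Z ≤ N ^ 2 := min_le_right _ _
    have hz2 : ∀ x ∈ Set.uIoc Z (2 * Y), f x = 0 := by
      intro x hx
      rw [Set.uIoc_of_le hZ2] at hx
      refine hzero x ?_
      rcases le_total (2 * Y) (N ^ 2) with h1 | h1
      · rw [hZ, min_eq_left h1] at hx
        exact absurd hx.1 (not_lt.mpr hx.2)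
      · rw [hZ, min_eq_right h1] at hx
        exact hx.1
    have hc1 : Continuous fun x : ℝ => g (N - √x) := hg.comp (by fun_prop)
    have hz1 : ∀ x ∈ Set.uIoc Y Z, g (N - √x) = f x := by
      intro x hx
      rw [Set.uIoc_of_le hYZ] at hx
      exact (hone x (hx.2.trans hZN)).symm
    have hi1 : IntervalIntegrable f volume Y Z :=
      (hc1.intervalIntegrable Y Z).congr hz1
    have hi2 : IntervalIntegrable f volume Z (2 * Y) :=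
      (intervalIntegrable_const (c := (0 : ℝ))).congr fun x hx => (hz2 x hx).symm
    have e2 : ∫ x in Z..(2 * Y), f x = 0 :=
      intervalIntegral.integral_zero_ae (Filter.Eventually.of_forall hz2)
    have e1 : ∫ x in Y..Z, f x = ∫ x in Y..Z, g (N - √x) := by
      refine intervalIntegral.integral_congr_ae (Filter.Eventually.of_forall fun x hx => ?_)
      exact (hz1 x hx).symm
    have e3 : ∫ u in √Y..√Z, ((fun x : ℝ => g (N - √x)) ∘ fun u : ℝ => u ^ 2) u * (2 * u)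
        = ∫ x in (√Y) ^ 2..(√Z) ^ 2, g (N - √x) := by
      refine intervalIntegral.integral_comp_mul_deriv (fun u _ => ?_) (by fun_prop) hc1
      simpa using hasDerivAt_pow 2 u
    rw [Real.sq_sqrt hY.le, Real.sq_sqrt (hY.le.trans hYZ)] at e3
    have hsYZ : √Y ≤ √Z := Real.sqrt_le_sqrt hYZ
    have hsZN : √Z ≤ N := Real.sqrt_le_iff.mpr ⟨hN.le, hZN⟩
    have e4 : ∫ u in √Y..√Z, ((fun x : ℝ => g (N - √x)) ∘ fun u : ℝ => u ^ 2) u * (2 * u)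
        ≤ ∫ u in √Y..√Z, 2 * √(2 * Y) * g (N - u) := by
      refine intervalIntegral.integral_mono_on hsYZ ?_ ?_ fun u hu => ?_
      · refine Continuous.intervalIntegrable ?_ _ _
        exact (hc1.comp (continuous_pow 2)).mul (by fun_prop)
      · refine Continuous.intervalIntegrable ?_ _ _
        exact continuous_const.mul (hg.comp (by fun_prop))
      · have hu0 : 0 ≤ u := (Real.sqrt_nonneg _).trans hu.1
        have hu1 : u ≤ √(2 * Y) := hu.2.trans (Real.sqrt_le_sqrt hZ2)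
        simp only [Function.comp]
        rw [Real.sqrt_sq hu0]
        nlinarith [hg0 (N - u)]
    rw [intervalIntegral.integral_const_mul,
      intervalIntegral.integral_comp_sub_left (fun s => g s) N] at e4
    have e5 : ∫ s in (N - √Z)..(N - √Y), g s ≤ ∫ s in (0 : ℝ)..N, g s := by
      refine intervalIntegral.integral_mono_interval (by linarith) (by linarith)
        (by linarith [Real.sqrt_nonneg Y]) (Filter.Eventually.of_forall fun s => hg0 s)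
        (hg.intervalIntegrable _ _)
    rw [← intervalIntegral.integral_add_adjacent_intervals hi1 hi2, e1, e2, add_zero, ← e3]
    exact e4.trans (mul_le_mul_of_nonneg_left e5 (by positivity))

/-- continuity in `s` -/
theorem fi_cont (n j : ℕ) (m : ℤ) (hj : Odd j) (hm : m ∈ Ms j) : Continuous (gm1 n j m) := by
  unfold gm1
  refine Continuous.sub ?_ ?_
  · unfold mains
    refine continuous_finsetSum _ fun i _ => ?_
    refine continuous_const.mul ?_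
    fun_prop
  · unfold fst
    fun_prop

private lemma fi_dy_mem {n j : ℕ} {x : ℝ} :
    j ∈ Js n x ↔ j < n + 1 ∧ Odd j ∧ (j : ℝ) ^ 2 * x ≤ n := by
  classical
  unfold Js
  rw [Finset.mem_filter, Finset.mem_range]

private lemma fi_dy_ii (g : ℝ → ℝ) (hg : Continuous g) (N Y : ℝ) (hY : 0 < Y) :
    IntervalIntegrable (fun x => if √x ≤ N then g (N - √x) else 0) volume Y (2 * Y) := by
  obtain ⟨B, hB⟩ := (isCompact_Icc : IsCompact (Set.Icc (0 : ℝ) N)).exists_bound_of_continuousOn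
    hg.continuousOn
  rw [intervalIntegrable_iff_integrableOn_Ioc_of_le (by linarith)]
  refine Measure.integrableOn_of_bounded (M := |B|) (by simp) ?_ ?_
  · refine Measurable.aestronglyMeasurable ?_
    refine Measurable.ite ?_ ?_ measurable_const
    · exact measurableSet_le Real.continuous_sqrt.measurable measurable_const
    · exact (hg.comp (continuous_const.sub Real.continuous_sqrt)).measurable
  · refine (ae_restrict_iff' measurableSet_Ioc).2 (Filter.Eventually.of_forall fun x hx => ?_)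
    by_cases h : √x ≤ N
    · rw [if_pos h]
      exact (hB (N - √x) ⟨by linarith, by linarith [Real.sqrt_nonneg x]⟩).trans (le_abs_self _)
    · rw [if_neg h, norm_zero]
      exact abs_nonneg B

private lemma fi_dy_jx (n j : ℕ) (x : ℝ) (hj : 1 ≤ j) (hx : 0 ≤ x) :
    √x ≤ √(n : ℝ) / j ↔ (j : ℝ) ^ 2 * x ≤ n := by
  have hj0 : (0 : ℝ) < j := by exact_mod_cast hj
  rw [le_div_iff₀ hj0]
  constructor
  · intro h
    have h2 := pow_le_pow_left₀ (by positivity) h 2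
    rw [mul_pow, Real.sq_sqrt hx, Real.sq_sqrt (Nat.cast_nonneg n)] at h2
    linarith
  · intro h
    rw [show √x * (j : ℝ) = √((j : ℝ) ^ 2 * x) by
      rw [Real.sqrt_mul (by positivity), Real.sqrt_sq hj0.le]; ring]
    exact Real.sqrt_le_sqrt h

/-- one term, as a function of `x` -/
private noncomputable def fi_dy_t (n : ℕ) (i : (_ : ℕ) × ℤ) (x : ℝ) : ℝ :=
  if √x ≤ √(n : ℝ) / i.1 then ‖gm1 n i.1 i.2 (√(n : ℝ) / i.1 - √x)‖ else 0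

private lemma fi_dy_t0 (n : ℕ) (i : (_ : ℕ) × ℤ) (x : ℝ) : 0 ≤ fi_dy_t n i x := by
  unfold fi_dy_t
  split_ifs
  · exact norm_nonneg _
  · exact le_refl _

private lemma fi_dy_t4 (n : ℕ) (i : (_ : ℕ) × ℤ) (x : ℝ) : fi_dy_t n i x ^ 4 =
    if √x ≤ √(n : ℝ) / i.1 then (fun s => ‖gm1 n i.1 i.2 s‖ ^ 4) (√(n : ℝ) / i.1 - √x) else 0 := by
  unfold fi_dy_t
  split_ifs
  · rfl
  · norm_num

private lemma fi_dy_sum (n : ℕ) {Y x : ℝ} (hY : 0 < Y) (hx : Y ≤ x) :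
    ∑ j ∈ Js n x, ∑ m ∈ Ms j, (j : ℝ) ^ (-(1 / 2) : ℝ) * ‖gm1 n j m (√n / j - √x)‖ =
      ∑ i ∈ (Js n Y).sigma Ms, (i.1 : ℝ) ^ (-(1 / 2) : ℝ) * fi_dy_t n i x := by
  classical
  have hx0 : 0 ≤ x := by linarith
  rw [Finset.sum_sigma]
  have h1 : ∑ j ∈ Js n x, ∑ m ∈ Ms j, (j : ℝ) ^ (-(1 / 2) : ℝ) * ‖gm1 n j m (√n / j - √x)‖ =
      ∑ j ∈ Js n x, ∑ m ∈ Ms j, (j : ℝ) ^ (-(1 / 2) : ℝ) * fi_dy_t n ⟨j, m⟩ x := by
    refine Finset.sum_congr rfl fun j hj => Finset.sum_congr rfl fun m _ => ?_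
    have h := fi_dy_mem.1 hj
    unfold fi_dy_t
    rw [if_pos ((fi_dy_jx n j x h.2.1.pos hx0).2 h.2.2)]
  rw [h1]
  refine Finset.sum_subset ?_ ?_
  · intro j hj
    have h := fi_dy_mem.1 hj
    refine fi_dy_mem.2 ⟨h.1, h.2.1, ?_⟩
    refine le_trans ?_ h.2.2
    exact mul_le_mul_of_nonneg_left hx (by positivity)
  · intro j hj hjx
    have h := fi_dy_mem.1 hj
    refine Finset.sum_eq_zero fun m _ => ?_
    unfold fi_dy_t
    rw [if_neg, mul_zero]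
    intro h2
    exact hjx (fi_dy_mem.2 ⟨h.1, h.2.1, (fi_dy_jx n j x h.2.1.pos hx0).1 h2⟩)

private lemma fi_dy_w (j : ℕ) : (j : ℝ) ^ (-(1 / 2) : ℝ) = 1 / √(j : ℝ) := by
  rw [Real.rpow_neg (by positivity), ← Real.sqrt_eq_rpow, one_div]

private lemma fi_dy_T {n : ℕ} {Y : ℝ} (hY : 0 < Y) {j : ℕ} (hj : j ∈ Js n Y) :
    1 ≤ j ∧ Odd j ∧ (j : ℝ) ≤ √(n / Y) := by
  have h := fi_dy_mem.1 hj
  refine ⟨h.2.1.pos, h.2.1, ?_⟩
  refine Real.le_sqrt_of_sq_le ?_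
  rw [le_div_iff₀ hY]
  exact h.2.2

private lemma fi_dy_sub {n : ℕ} {Y : ℝ} (hY : 0 < Y) :
    Js n Y ⊆ Finset.Icc 1 ⌊√(n / Y)⌋₊ := by
  intro j hj
  have h := fi_dy_T hY hj
  rw [Finset.mem_Icc]
  exact ⟨h.1, Nat.le_floor h.2.2⟩

private lemma fi_dy_W {n : ℕ} {Y : ℝ} (hY : 0 < Y) :
    ∑ i ∈ (Js n Y).sigma Ms, (i.1 : ℝ) ^ (-(1 / 2) : ℝ) ≤ √(n / Y) * √√(n / Y) := by
  have hcardJ : ((Js n Y).card : ℝ) ≤ √(n / Y) := by
    have h1 := Finset.card_le_card (fi_dy_sub (n := n) hY)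
    rw [Nat.card_Icc, Nat.add_sub_cancel] at h1
    have h2 : ((Js n Y).card : ℝ) ≤ (⌊√(n / Y)⌋₊ : ℝ) := by exact_mod_cast h1
    exact h2.trans (Nat.floor_le (Real.sqrt_nonneg _))
  rw [Finset.sum_sigma]
  have h1 : ∀ j ∈ Js n Y, ∑ _m ∈ Ms j, (j : ℝ) ^ (-(1 / 2) : ℝ) ≤ √√(n / Y) := by
    intro j hj
    obtain ⟨hj1, hjo, hjT⟩ := fi_dy_T hY hj
    have hj0 : (0 : ℝ) < j := by exact_mod_cast hj1
    rw [Finset.sum_const, nsmul_eq_mul]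
    have h2 : ((Ms j).card : ℝ) ≤ j := by exact_mod_cast Pool.Agent.Helper31.FI.card_Ms hjo
    have h3 : (j : ℝ) * (j : ℝ) ^ (-(1 / 2) : ℝ) = √(j : ℝ) := by
      rw [fi_dy_w]
      have h4 : √(j : ℝ) * √(j : ℝ) = j := Real.mul_self_sqrt hj0.le
      have h5 : 0 < √(j : ℝ) := Real.sqrt_pos.2 hj0
      field_simp
      nlinarith
    calc ((Ms j).card : ℝ) * (j : ℝ) ^ (-(1 / 2) : ℝ) ≤ j * (j : ℝ) ^ (-(1 / 2) : ℝ) :=
          mul_le_mul_of_nonneg_right h2 (by positivity)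
      _ = √(j : ℝ) := h3
      _ ≤ √√(n / Y) := Real.sqrt_le_sqrt hjT
  refine (Finset.sum_le_sum h1).trans ?_
  rw [Finset.sum_const, nsmul_eq_mul]
  exact mul_le_mul_of_nonneg_right hcardJ (by positivity)

private lemma fi_dy_S {n : ℕ} {Y A : ℝ} (hY : 0 < Y) (hA : 0 ≤ A) :
    ∑ i ∈ (Js n Y).sigma Ms, (i.1 : ℝ) ^ (-(1 / 2) : ℝ) * (A / i.1) ≤ A * (2 * √√(n / Y)) := by
  rw [Finset.sum_sigma]
  have h1 : ∀ j ∈ Js n Y, ∑ _m ∈ Ms j, (j : ℝ) ^ (-(1 / 2) : ℝ) * (A / j) ≤ A * (1 / √(j : ℝ)) := by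
    intro j hj
    obtain ⟨hj1, hjo, hjT⟩ := fi_dy_T hY hj
    have hj0 : (0 : ℝ) < j := by exact_mod_cast hj1
    rw [Finset.sum_const, nsmul_eq_mul]
    have h2 : ((Ms j).card : ℝ) ≤ j := by exact_mod_cast Pool.Agent.Helper31.FI.card_Ms hjo
    calc ((Ms j).card : ℝ) * ((j : ℝ) ^ (-(1 / 2) : ℝ) * (A / j)) ≤
          j * ((j : ℝ) ^ (-(1 / 2) : ℝ) * (A / j)) :=
          mul_le_mul_of_nonneg_right h2 (by positivity)
      _ = A * (1 / √(j : ℝ)) := by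
          rw [fi_dy_w]
          field_simp
  refine (Finset.sum_le_sum h1).trans ?_
  rw [← Finset.mul_sum]
  refine mul_le_mul_of_nonneg_left ?_ hA
  calc ∑ j ∈ Js n Y, 1 / √(j : ℝ) ≤ ∑ j ∈ Finset.Icc 1 ⌊√(n / Y)⌋₊, 1 / √(j : ℝ) :=
        Finset.sum_le_sum_of_subset_of_nonneg (fi_dy_sub hY) fun _ _ _ => by positivity
    _ ≤ 2 * √((⌊√(n / Y)⌋₊ : ℕ) : ℝ) := Pool.Agent.Helper31.FI.Cidx_sum _
    _ ≤ 2 * √√(n / Y) := by
        refine mul_le_mul_of_nonneg_left ?_ (by norm_num)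
        exact Real.sqrt_le_sqrt (Nat.floor_le (Real.sqrt_nonneg _))

/-- with `J = √(n/Y)`: `(∑ w)³ ≤ (J^(3/2))³`, `∑ w ∫ ‖gm1‖⁴ ≤ ∑_j j^(-1/2) · j · C √Y (√n/j) n^δ ≤ C n^δ J^(1/2) √(Y n)`, so the first
part contributes `n^(-2) J⁵ √(Y n) n^δ = n^(1+δ) Y^(-2)`; the second part `Y (1+log n)^12 n Y^(-3)` -/
theorem fi_dy (δ : ℝ) (hδ : 0 < δ) : ∃ C : ℝ, 0 < C ∧ ∀ (n : ℕ), 1 ≤ n → ∀ b : SchwartzMap ℝ ℂ,
    (∀ s : ℝ, b (-s) = b s) → (∀ ξ : ℝ, ∫ s : ℝ, cexp (-(2 * π * I * ξ * s)) * b s = b ξ) →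
    (∀ m : ℕ, b (√m) = if m = n then 1 else 0) →
    ∀ Y : ℝ, 1 ≤ Y → 2 * Y ≤ n - √n →
      ∫ x in Y..(2 * Y), ‖b (√x)‖ ^ 4 ≤ C * ((n : ℝ) ^ (1 + δ) * Y ^ (-2 : ℝ)) := by
  obtain ⟨C0, hC0, h0⟩ := fi_pt
  obtain ⟨C4, hC4, h4⟩ := ms4 δ hδ
  obtain ⟨CL, hCL, hL⟩ := log_pow_le 12 δ hδ
  refine ⟨8 * C0 ^ 4 * (4 * √2 * C4 * 4 ^ δ + CL), by positivity, ?_⟩
  intro n hn b hb hb' hd Y hY hYn
  have hn1 : (1 : ℝ) ≤ n := by exact_mod_cast hn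
  have hn0 : (0 : ℝ) < n := by linarith
  have hY0 : 0 < Y := by linarith
  have hlog : 0 ≤ Real.log n := Real.log_nonneg hn1
  set G : ℝ := 1 + Real.log n with hG
  have hG0 : 0 ≤ G := by linarith
  set S : ℝ := √(n : ℝ) with hS
  have hS1 : 1 ≤ S := by
    rw [hS]
    exact Real.one_le_sqrt.2 hn1
  have hS0 : 0 < S := by linarith
  have hSS : S * S = n := Real.mul_self_sqrt hn0.le
  set T : ℝ := √(n / Y) with hT
  have hT0 : 0 < T := Real.sqrt_pos.2 (by positivity)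
  have hTT : √T * √T = T := Real.mul_self_sqrt hT0.le
  have hT2 : T * T = n / Y := Real.mul_self_sqrt (by positivity)
  have hTS : T ≤ S := by
    rw [hT, hS]
    refine Real.sqrt_le_sqrt ?_
    rw [div_le_iff₀ hY0]
    nlinarith
  set D := (Js n Y).sigma Ms with hD
  set W : ℝ := ∑ i ∈ D, (i.1 : ℝ) ^ (-(1 / 2) : ℝ) with hW
  have hW0 : 0 ≤ W := Finset.sum_nonneg fun i _ => by positivity
  have hWT : W ≤ T * √T := fi_dy_W hY0
  set M : ℝ := ((⌈2 * √(n : ℝ)⌉₊ + 1 : ℕ) : ℝ) ^ δ with hM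
  have hM0 : 0 ≤ M := by positivity
  have hM1 : M ≤ 4 ^ δ * (n : ℝ) ^ δ := by
    rw [hM, ← Real.mul_rpow (by norm_num) hn0.le]
    refine Real.rpow_le_rpow (by positivity) ?_ hδ.le
    push_cast
    have h1 : (⌈2 * √(n : ℝ)⌉₊ : ℝ) < 2 * √(n : ℝ) + 1 := Nat.ceil_lt_add_one (by positivity)
    rw [← hS] at h1 ⊢
    nlinarith
  -- the integrals of the terms
  have hint : ∀ i ∈ D, IntervalIntegrable (fun x => fi_dy_t n i x ^ 4) volume Y (2 * Y) ∧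
      ∫ x in Y..(2 * Y), fi_dy_t n i x ^ 4 ≤ (2 * √(2 * Y) * (C4 * (S * M))) / i.1 := by
    intro i hi
    rw [hD, Finset.mem_sigma] at hi
    obtain ⟨hj1, hjo, hjT⟩ := fi_dy_T hY0 hi.1
    have hj0 : (0 : ℝ) < i.1 := by exact_mod_cast hj1
    have hc : Continuous (fun s => ‖gm1 n i.1 i.2 s‖ ^ 4) := (fi_cont n i.1 i.2 hjo hi.2).norm.pow 4
    have hN1 : 1 ≤ S / i.1 := by
      rw [le_div_iff₀ hj0]
      linarith
    have hN2 : 2 * (S / i.1) ≤ ((⌈2 * √(n : ℝ)⌉₊ + 1 : ℕ) : ℝ) := by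
      have h1 : S / i.1 ≤ S := by
        rw [div_le_iff₀ hj0]
        have : (1 : ℝ) ≤ i.1 := by exact_mod_cast hj1
        nlinarith
      have h2 : 2 * √(n : ℝ) ≤ (⌈2 * √(n : ℝ)⌉₊ : ℝ) := Nat.le_ceil _
      push_cast
      rw [← hS] at h2 ⊢
      linarith
    have hcop : IsCoprime (i.1 : ℤ) i.2 := by
      have h1 := hi.2
      unfold Pool.Agent.Helper31.FI.Ms at h1
      rw [Finset.mem_filter] at h1
      exact h1.2.2
    have hsp := Pool.Agent.Helper31.FI.c0_spec hj1 hcop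
    have hν0 : 0 < (c0 i.1 i.2 : ℝ) / i.1 := by
      have h1 : (1 : ℝ) ≤ c0 i.1 i.2 := by exact_mod_cast hsp.1
      positivity
    have hν1 : (c0 i.1 i.2 : ℝ) / i.1 ≤ 1 := by
      rw [div_le_one hj0]
      exact_mod_cast hsp.2.1
    have h5 := h4 ((c0 i.1 i.2 : ℝ) / i.1) (S / i.1) (⌈2 * √(n : ℝ)⌉₊ + 1) hν0 hν1 hN1 hN2
    have e : (fun x => fi_dy_t n i x ^ 4) = fun x => if √x ≤ S / i.1 then
        (fun s => ‖gm1 n i.1 i.2 s‖ ^ 4) (S / i.1 - √x) else 0 := by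
      funext x
      exact fi_dy_t4 n i x
    rw [e]
    refine ⟨fi_dy_ii _ hc _ _ hY0, ?_⟩
    refine (fi_sub _ hc (fun s => by positivity) (S / i.1) Y (by positivity) hY0).trans ?_
    calc 2 * √(2 * Y) * ∫ s in (0 : ℝ)..(S / i.1), ‖gm1 n i.1 i.2 s‖ ^ 4 ≤
          2 * √(2 * Y) * (C4 * (S / i.1 * M)) := mul_le_mul_of_nonneg_left h5 (by positivity)
      _ = (2 * √(2 * Y) * (C4 * (S * M))) / i.1 := by ring
  -- the pointwise estimate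
  set K1 : ℝ := 8 * C0 ^ 4 * (1 / (n : ℝ) ^ 2 * W ^ 3) with hK1
  set K2 : ℝ := 8 * C0 ^ 4 * (G ^ 12 * (n * (Y ^ 3)⁻¹)) with hK2
  have hK10 : 0 ≤ K1 := by positivity
  have e1 : ((n : ℝ) ^ (-(1 / 2) : ℝ)) ^ 4 = 1 / (n : ℝ) ^ 2 := by
    rw [← Real.rpow_natCast, ← Real.rpow_mul hn0.le]
    norm_num
  have hpt : ∀ x ∈ Set.Icc Y (2 * Y), ‖b (√x)‖ ^ 4 ≤
      K1 * ∑ i ∈ D, (i.1 : ℝ) ^ (-(1 / 2) : ℝ) * fi_dy_t n i x ^ 4 + K2 := by
    intro x hx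
    have hx0 : 0 < x := by linarith [hx.1]
    have h1 := h0 n hn b hb hb' hd x (by linarith [hx.1]) (by linarith [hx.2])
    rw [fi_dy_sum n hY0 hx.1] at h1
    set A : ℝ := ∑ i ∈ (Js n Y).sigma Ms, (i.1 : ℝ) ^ (-(1 / 2) : ℝ) * fi_dy_t n i x with hA
    have hA0 : 0 ≤ A := Finset.sum_nonneg fun i _ =>
      mul_nonneg (by positivity) (fi_dy_t0 n i x)
    have hA4 : A ^ 4 ≤ W ^ 3 * ∑ i ∈ D, (i.1 : ℝ) ^ (-(1 / 2) : ℝ) * fi_dy_t n i x ^ 4 := by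
      have h2 := norm_sum_pow4_w D (fun i => (i.1 : ℝ) ^ (-(1 / 2) : ℝ))
        (fun i => ((fi_dy_t n i x : ℝ) : ℂ)) (fun i _ => by positivity)
      simp only [Complex.norm_real, Real.norm_of_nonneg (fi_dy_t0 n _ x)] at h2
      exact h2
    have e2 : ((n : ℝ) ^ (1 / 4 : ℝ) * x ^ (-(3 / 4) : ℝ)) ^ 4 = n * (x ^ 3)⁻¹ := by
      rw [mul_pow, ← Real.rpow_natCast, ← Real.rpow_mul hn0.le, ← Real.rpow_natCast,
        ← Real.rpow_mul hx0.le]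
      norm_num
    have h3 : (x ^ 3)⁻¹ ≤ (Y ^ 3)⁻¹ :=
      inv_anti₀ (by positivity) (pow_le_pow_left₀ hY0.le hx.1 3)
    have hB0 : 0 ≤ G ^ 3 * ((n : ℝ) ^ (1 / 4 : ℝ) * x ^ (-(3 / 4) : ℝ)) := by positivity
    have hAn0 : 0 ≤ (n : ℝ) ^ (-(1 / 2) : ℝ) * A := by positivity
    calc ‖b (√x)‖ ^ 4 ≤ (C0 * ((n : ℝ) ^ (-(1 / 2) : ℝ) * A +
          G ^ 3 * ((n : ℝ) ^ (1 / 4 : ℝ) * x ^ (-(3 / 4) : ℝ)))) ^ 4 :=
          pow_le_pow_left₀ (norm_nonneg _) h1 4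
      _ = C0 ^ 4 * ((n : ℝ) ^ (-(1 / 2) : ℝ) * A +
          G ^ 3 * ((n : ℝ) ^ (1 / 4 : ℝ) * x ^ (-(3 / 4) : ℝ))) ^ 4 := by ring
      _ ≤ C0 ^ 4 * (2 ^ (4 - 1) * (((n : ℝ) ^ (-(1 / 2) : ℝ) * A) ^ 4 +
          (G ^ 3 * ((n : ℝ) ^ (1 / 4 : ℝ) * x ^ (-(3 / 4) : ℝ))) ^ 4)) :=
          mul_le_mul_of_nonneg_left (add_pow_le hAn0 hB0 4) (by positivity)
      _ = 8 * C0 ^ 4 * (1 / (n : ℝ) ^ 2 * A ^ 4 + G ^ 12 * (n * (x ^ 3)⁻¹)) := by
          rw [mul_pow _ A, e1, mul_pow (G ^ 3), e2]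
          ring
      _ ≤ 8 * C0 ^ 4 * (1 / (n : ℝ) ^ 2 * (W ^ 3 * ∑ i ∈ D,
          (i.1 : ℝ) ^ (-(1 / 2) : ℝ) * fi_dy_t n i x ^ 4) + G ^ 12 * (n * (Y ^ 3)⁻¹)) := by
          gcongr
      _ = K1 * ∑ i ∈ D, (i.1 : ℝ) ^ (-(1 / 2) : ℝ) * fi_dy_t n i x ^ 4 + K2 := by
          rw [hK1, hK2]
          ring
  -- integration
  have hbi : IntervalIntegrable (fun x => ‖b (√x)‖ ^ 4) volume Y (2 * Y) := by
    have h1 : Continuous (fun x : ℝ => b (√x)) := b.continuous.comp Real.continuous_sqrt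
    exact (h1.norm.pow 4).intervalIntegrable _ _
  have hsi : IntervalIntegrable (fun x => ∑ i ∈ D, (i.1 : ℝ) ^ (-(1 / 2) : ℝ) * fi_dy_t n i x ^ 4)
      volume Y (2 * Y) := by
    rw [intervalIntegrable_iff_integrableOn_Ioc_of_le (by linarith)]
    refine integrable_finsetSum _ fun i hi => ?_
    have h2 := (hint i hi).1.const_mul ((i.1 : ℝ) ^ (-(1 / 2) : ℝ))
    rw [intervalIntegrable_iff_integrableOn_Ioc_of_le (by linarith)] at h2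
    exact h2
  have hI1 : ∫ x in Y..(2 * Y), ‖b (√x)‖ ^ 4 ≤
      K1 * ∑ i ∈ D, (i.1 : ℝ) ^ (-(1 / 2) : ℝ) * (∫ x in Y..(2 * Y), fi_dy_t n i x ^ 4) + K2 * Y := by
    refine (intervalIntegral.integral_mono_on (by linarith) hbi
      ((hsi.const_mul K1).add intervalIntegrable_const) hpt).trans (le_of_eq ?_)
    rw [intervalIntegral.integral_add (hsi.const_mul K1) intervalIntegrable_const,
      intervalIntegral.integral_const_mul, intervalIntegral.integral_finsetSum fun i hi =>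
      (hint i hi).1.const_mul _, intervalIntegral.integral_const, smul_eq_mul]
    congr 1
    · congr 1
      refine Finset.sum_congr rfl fun i _ => ?_
      rw [intervalIntegral.integral_const_mul]
    · ring
  have hI2 : ∑ i ∈ D, (i.1 : ℝ) ^ (-(1 / 2) : ℝ) * (∫ x in Y..(2 * Y), fi_dy_t n i x ^ 4) ≤
      (2 * √(2 * Y) * (C4 * (S * M))) * (2 * √T) := by
    refine le_trans ?_ (fi_dy_S (n := n) hY0 (A := 2 * √(2 * Y) * (C4 * (S * M))) (by positivity))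
    exact Finset.sum_le_sum fun i hi => mul_le_mul_of_nonneg_left (hint i hi).2 (by positivity)
  have hW3 : W ^ 3 ≤ (T * √T) ^ 3 := pow_le_pow_left₀ hW0 hWT 3
  have hY2 : √(2 * Y) = √2 * √Y := Real.sqrt_mul (by norm_num) Y
  have hTY : T * √Y = S := by
    rw [hT, hS, ← Real.sqrt_mul (by positivity)]
    congr 1
    field_simp
  have hfin1 : K1 * ((2 * √(2 * Y) * (C4 * (S * M))) * (2 * √T)) ≤
      8 * C0 ^ 4 * (4 * √2 * C4 * 4 ^ δ) * ((n : ℝ) ^ δ * n * (Y ^ 2)⁻¹) := by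
    have h1 : K1 ≤ 8 * C0 ^ 4 * (1 / (n : ℝ) ^ 2 * (T * √T) ^ 3) := by
      rw [hK1]
      gcongr
    calc K1 * ((2 * √(2 * Y) * (C4 * (S * M))) * (2 * √T)) ≤
          8 * C0 ^ 4 * (1 / (n : ℝ) ^ 2 * (T * √T) ^ 3) *
            ((2 * √(2 * Y) * (C4 * (S * M))) * (2 * √T)) :=
          mul_le_mul_of_nonneg_right h1 (by positivity)
      _ = 8 * C0 ^ 4 * (4 * √2 * C4) * M * (1 / (n : ℝ) ^ 2 * ((T * T) * (√T * √T) * (√T * √T) *
            (T * √Y) * S)) := by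
          rw [hY2]
          ring
      _ = 8 * C0 ^ 4 * (4 * √2 * C4) * M * (n * (Y ^ 2)⁻¹) := by
          rw [hTT, hTY, mul_assoc (T * T) T T, hT2, mul_assoc _ S S, hSS]
          congr 1
          field_simp
      _ ≤ 8 * C0 ^ 4 * (4 * √2 * C4) * (4 ^ δ * (n : ℝ) ^ δ) * (n * (Y ^ 2)⁻¹) := by
          gcongr
      _ = 8 * C0 ^ 4 * (4 * √2 * C4 * 4 ^ δ) * ((n : ℝ) ^ δ * n * (Y ^ 2)⁻¹) := by ring
  have hfin2 : K2 * Y ≤ 8 * C0 ^ 4 * CL * ((n : ℝ) ^ δ * n * (Y ^ 2)⁻¹) := by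
    have h1 : G ^ 12 ≤ CL * (n : ℝ) ^ δ := hL n hn1
    calc K2 * Y = 8 * C0 ^ 4 * (G ^ 12 * (n * (Y ^ 2)⁻¹)) := by
          rw [hK2]
          field_simp
      _ ≤ 8 * C0 ^ 4 * (CL * (n : ℝ) ^ δ * (n * (Y ^ 2)⁻¹)) := by gcongr
      _ = 8 * C0 ^ 4 * CL * ((n : ℝ) ^ δ * n * (Y ^ 2)⁻¹) := by ring
  have e3 : (n : ℝ) ^ (1 + δ) * Y ^ (-2 : ℝ) = (n : ℝ) ^ δ * n * (Y ^ 2)⁻¹ := by
    rw [Real.rpow_add hn0, Real.rpow_one, Real.rpow_neg hY0.le, Real.rpow_two]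
    ring
  rw [e3]
  calc ∫ x in Y..(2 * Y), ‖b (√x)‖ ^ 4 ≤
        K1 * ∑ i ∈ D, (i.1 : ℝ) ^ (-(1 / 2) : ℝ) * (∫ x in Y..(2 * Y), fi_dy_t n i x ^ 4) + K2 * Y := hI1
    _ ≤ K1 * ((2 * √(2 * Y) * (C4 * (S * M))) * (2 * √T)) + K2 * Y := by gcongr
    _ ≤ 8 * C0 ^ 4 * (4 * √2 * C4 * 4 ^ δ) * ((n : ℝ) ^ δ * n * (Y ^ 2)⁻¹) +
        8 * C0 ^ 4 * CL * ((n : ℝ) ^ δ * n * (Y ^ 2)⁻¹) := add_le_add hfin1 hfin2
    _ = 8 * C0 ^ 4 * (4 * √2 * C4 * 4 ^ δ + CL) * ((n : ℝ) ^ δ * n * (Y ^ 2)⁻¹) := by ring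

private lemma fm45_two : (2 : ℝ) ^ (-2 : ℝ) = 1 / 4 := by
  rw [show (-2 : ℝ) = ((-2 : ℤ) : ℝ) by norm_num, Real.rpow_intCast]
  norm_num

private lemma fm45_half : (1 / 2 : ℝ) ^ (-2 : ℝ) = 4 := by
  rw [show (-2 : ℝ) = ((-2 : ℤ) : ℝ) by norm_num, Real.rpow_intCast]
  norm_num

private lemma fm45_ind {f : ℝ → ℝ} (hf : Continuous f) (hf0 : ∀ x, 0 ≤ f x) {Z A : ℝ} (hA : 0 ≤ A)
    (hZ : 2 ≤ Z) (h : ∀ X : ℝ, 1 ≤ X → 2 * X ≤ Z → ∫ x in X..(2 * X), f x ≤ A * X ^ (-2 : ℝ)) (k : ℕ) :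
    ∀ X : ℝ, 1 ≤ X → X ≤ Z → Z < 2 ^ (k + 1) * X → ∫ x in X..Z, f x ≤ 5 * A * X ^ (-2 : ℝ) := by
  have hlow : ∀ X : ℝ, 1 ≤ X → X ≤ Z → Z < 2 * X → ∫ x in X..Z, f x ≤ 5 * A * X ^ (-2 : ℝ) := by
    intro X hX hXZ hk
    have hX0 : 0 < X := by linarith
    have h1 := h (Z / 2) (by linarith) (by linarith)
    have e : 2 * (Z / 2) = Z := by ring
    rw [e] at h1
    have h2 : ∫ x in X..Z, f x ≤ ∫ x in (Z / 2)..Z, f x := by
      have := intervalIntegral.integral_add_adjacent_intervals (a := Z / 2) (b := X) (c := Z)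
        (hf.intervalIntegrable _ _) (hf.intervalIntegrable (μ := volume) _ _)
      rw [← this]
      have h3 : 0 ≤ ∫ x in (Z / 2)..X, f x :=
        intervalIntegral.integral_nonneg (by linarith) (fun x _ => hf0 x)
      linarith
    have h4 : (Z / 2) ^ (-2 : ℝ) ≤ ((1 / 2) * X) ^ (-2 : ℝ) :=
      Real.rpow_le_rpow_of_nonpos (by positivity) (by linarith) (by norm_num)
    rw [Real.mul_rpow (by norm_num) hX0.le, fm45_half] at h4
    have h5 : (0 : ℝ) ≤ X ^ (-2 : ℝ) := by positivity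
    have h6 : 4 * X ^ (-2 : ℝ) ≤ 5 * X ^ (-2 : ℝ) := by linarith
    calc ∫ x in X..Z, f x ≤ A * (Z / 2) ^ (-2 : ℝ) := h2.trans h1
      _ ≤ A * (5 * X ^ (-2 : ℝ)) := mul_le_mul_of_nonneg_left (h4.trans h6) hA
      _ = 5 * A * X ^ (-2 : ℝ) := by ring
  induction k with
  | zero =>
    intro X hX hXZ hk
    exact hlow X hX hXZ (by simpa using hk)
  | succ k ih =>
    intro X hX hXZ hk
    have hX0 : 0 < X := by linarith
    rcases lt_or_ge Z (2 * X) with hc | hc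
    · exact hlow X hX hXZ hc
    · have h1 := h X hX hc
      have h2 := ih (2 * X) (by linarith) hc (by
        calc Z < 2 ^ (k + 1 + 1) * X := hk
          _ = 2 ^ (k + 1) * (2 * X) := by ring)
      rw [Real.mul_rpow (by norm_num) hX0.le, fm45_two] at h2
      have h5 : (0 : ℝ) ≤ A * X ^ (-2 : ℝ) := by positivity
      have := intervalIntegral.integral_add_adjacent_intervals (a := X) (b := 2 * X) (c := Z)
        (hf.intervalIntegrable _ _) (hf.intervalIntegrable (μ := volume) _ _)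
      rw [← this]
      linarith

private lemma fm45_cont (b : SchwartzMap ℝ ℂ) : Continuous (fun x : ℝ => ‖b (√x)‖ ^ 4) := by
  have h1 : Continuous (fun x : ℝ => b (√x)) := b.continuous.comp Real.continuous_sqrt
  exact h1.norm.pow 4

private lemma fm45_small {n : ℕ} (hn : 1 ≤ n) (h : (n : ℝ) - √n < 2) : 1 + Real.log n ≤ 4 := by
  have hn1 : (1 : ℝ) ≤ n := by exact_mod_cast hn
  have hn4 : (n : ℝ) < 4 := by
    by_contra hc
    push Not at hc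
    have h1 : (2 : ℝ) ≤ √n := Real.le_sqrt_of_sq_le (by linarith)
    have h2 : √(n : ℝ) * √n = n := Real.mul_self_sqrt (by linarith)
    nlinarith
  have h3 := Real.log_le_sub_one_of_pos (show (0 : ℝ) < n by linarith)
  linarith

theorem fm_final (δ : ℝ) (hδ : 0 < δ) : ∃ C : ℝ, 0 < C ∧ ∀ n : ℕ, 1 ≤ n → ∀ b : SchwartzMap ℝ ℂ,
    (∀ s : ℝ, b (-s) = b s) → (∀ ξ : ℝ, ∫ s : ℝ, cexp (-(2 * π * I * ξ * s)) * b s = b ξ) →
    (∀ m : ℕ, b (√m) = if m = n then 1 else 0) →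
    ∀ X : ℝ, 1 ≤ X → X ≤ n - √n →
      ∫ x in X..(n - √n), ‖b (√x)‖ ^ 4 ≤ C * ((n : ℝ) ^ (1 + δ) * X ^ (-2 : ℝ)) := by
  obtain ⟨C1, hC1, h1⟩ := fi_dy δ hδ
  obtain ⟨C3, hC3, h3⟩ := Pool.Agent.Helper31.FI.final_a
  refine ⟨5 * C1 + 4 * (C3 * 4 ^ 2) ^ 4, by positivity, ?_⟩
  intro n hn b hb hb' hd X hX hXn
  have hn1 : (1 : ℝ) ≤ n := by exact_mod_cast hn
  have hX0 : 0 < X := by linarith
  have hlog : 0 ≤ Real.log n := Real.log_nonneg hn1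
  set Z : ℝ := n - √n with hZ
  set N : ℝ := (n : ℝ) ^ (1 + δ) with hN
  have hN0 : 0 ≤ N := by positivity
  have hXp : (0 : ℝ) ≤ X ^ (-2 : ℝ) := by positivity
  rcases lt_or_ge Z 2 with hc | hc
  · -- small `n`
    have hG4 : 1 + Real.log n ≤ 4 := fm45_small hn hc
    have hpt : ∀ x ∈ Set.Icc X Z, ‖b (√x)‖ ^ 4 ≤ (C3 * 4 ^ 2) ^ 4 * N := by
      intro x hx
      have hx1 : 1 ≤ x := hX.trans hx.1
      have h4 := h3 n hn b hb hb' hd x hx1 hx.2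
      have h5 : x ^ (-(33 / 52) : ℝ) ≤ 1 :=
        Real.rpow_le_one_of_one_le_of_nonpos hx1 (by norm_num)
      have h6 : ‖b (√x)‖ ≤ C3 * (4 ^ 2 * ((n : ℝ) ^ (1 / 4 : ℝ) * 1)) := by
        refine h4.trans ?_
        gcongr
      have h7 : ‖b (√x)‖ ^ 4 ≤ (C3 * (4 ^ 2 * ((n : ℝ) ^ (1 / 4 : ℝ) * 1))) ^ 4 :=
        pow_le_pow_left₀ (norm_nonneg _) h6 4
      have h8 : (C3 * (4 ^ 2 * ((n : ℝ) ^ (1 / 4 : ℝ) * 1))) ^ 4 = (C3 * 4 ^ 2) ^ 4 * (n : ℝ) := by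
        have : ((n : ℝ) ^ (1 / 4 : ℝ)) ^ 4 = n := by
          rw [← Real.rpow_natCast, ← Real.rpow_mul (Nat.cast_nonneg n)]
          norm_num
        calc (C3 * (4 ^ 2 * ((n : ℝ) ^ (1 / 4 : ℝ) * 1))) ^ 4
            = (C3 * 4 ^ 2) ^ 4 * ((n : ℝ) ^ (1 / 4 : ℝ)) ^ 4 := by ring
          _ = _ := by rw [this]
      rw [h8] at h7
      have h9 : (n : ℝ) ≤ N := by
        calc (n : ℝ) = (n : ℝ) ^ (1 : ℝ) := (Real.rpow_one _).symm
          _ ≤ N := Real.rpow_le_rpow_of_exponent_le hn1 (by linarith)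
      exact h7.trans (mul_le_mul_of_nonneg_left h9 (by positivity))
    have hmono := intervalIntegral.integral_mono_on hXn ((fm45_cont b).intervalIntegrable (μ := volume) _ _)
      (intervalIntegrable_const (c := (C3 * 4 ^ 2) ^ 4 * N)) hpt
    rw [intervalIntegral.integral_const, smul_eq_mul] at hmono
    have h9 : (1 / 4 : ℝ) ≤ X ^ (-2 : ℝ) := by
      rw [← fm45_two]
      exact Real.rpow_le_rpow_of_nonpos hX0 (by linarith) (by norm_num)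
    have h13 : (Z - X) * ((C3 * 4 ^ 2) ^ 4 * N) ≤ 1 * ((C3 * 4 ^ 2) ^ 4 * N) :=
      mul_le_mul_of_nonneg_right (by linarith) (by positivity)
    have h14 : (C3 * 4 ^ 2) ^ 4 * N * (1 / 4) ≤ (C3 * 4 ^ 2) ^ 4 * N * X ^ (-2 : ℝ) :=
      mul_le_mul_of_nonneg_left h9 (by positivity)
    have h15 : 0 ≤ 5 * C1 * (N * X ^ (-2 : ℝ)) := by positivity
    calc ∫ x in X..Z, ‖b (√x)‖ ^ 4 ≤ 1 * ((C3 * 4 ^ 2) ^ 4 * N) := hmono.trans h13
      _ ≤ 4 * ((C3 * 4 ^ 2) ^ 4 * N * X ^ (-2 : ℝ)) := by linarith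
      _ ≤ (5 * C1 + 4 * (C3 * 4 ^ 2) ^ 4) * (N * X ^ (-2 : ℝ)) := by linarith
  · obtain ⟨k, hk⟩ := pow_unbounded_of_one_lt Z (show (1 : ℝ) < 2 by norm_num)
    have h4 := fm45_ind (fm45_cont b) (fun x => by positivity) (Z := Z) (A := C1 * N)
      (by positivity) hc (fun Y hY hYZ => by
        have := h1 n hn b hb hb' hd Y hY hYZ
        calc ∫ x in Y..(2 * Y), ‖b (√x)‖ ^ 4 ≤ C1 * (N * Y ^ (-2 : ℝ)) := this
          _ = C1 * N * Y ^ (-2 : ℝ) := by ring) k X hX hXn (by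
        have h5 : (2 : ℝ) ^ k ≤ 2 ^ (k + 1) * X := by
          have h6 : (0 : ℝ) < 2 ^ k := by positivity
          calc (2 : ℝ) ^ k ≤ 2 ^ k * (2 * X) := le_mul_of_one_le_right h6.le (by linarith)
            _ = 2 ^ (k + 1) * X := by ring
        exact hk.trans_le h5)
    have h15 : 0 ≤ 4 * (C3 * 4 ^ 2) ^ 4 * (N * X ^ (-2 : ℝ)) := by positivity
    calc ∫ x in X..Z, ‖b (√x)‖ ^ 4 ≤ 5 * (C1 * N) * X ^ (-2 : ℝ) := h4
      _ ≤ (5 * C1 + 4 * (C3 * 4 ^ 2) ^ 4) * (N * X ^ (-2 : ℝ)) := by linarith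

end Pool.Agent.Helper31.FM
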