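import Pool.Agent.Helper31.FM.Boot

/-!
# FM-G1: fourth moment of the smooth part

`F1 A s ν = ∑_{i ≥ 1} (ν+i)^(-3/2) exp (-(A + π i s²)/(ν+i)) ze^i` (terms `i ≥ 1`).
`g1`: `S < 2`: `‖F1‖ ≤ 3`.  `S ≥ 2`: `g1_hol` pointwise in `s`, Fubini (`g1_cont`, compact rectangle), `g1_pt` with `δ/2`:
`(log S)³ ∫_1^S C S^(1+δ/2) dA/A ≤ C (log S)⁴ S^(1+δ/2)`.
-/

set_option autoImplicit false

namespace Pool.Agent.Helper31.FM

open Complex Real Finset MeasureTheory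
open Pool.Agent.Helper31.FI (ee ze mains)

/-- the smoothed sum without its first term -/
noncomputable def F1 (A s ν : ℝ) : ℂ :=
  ∑' i : ℕ, (((ν + (i + 1) : ℝ) ^ (-(3 / 2) : ℝ) : ℝ) : ℂ) *
    cexp (-(((A : ℂ) + π * s ^ 2 * I) / ((ν + (i + 1) : ℝ) : ℂ))) * ze ^ (i + 1)

private lemma fm31_z (A s : ℝ) : zz A (√2 * π * s) = (A : ℂ) + π * s ^ 2 * I := by
  have h2 : (√2 : ℝ) ^ 2 = 2 := Real.sq_sqrt (by norm_num)
  have h : (√2 * π * s) ^ 2 / (2 * π) = π * s ^ 2 := by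
    rw [mul_pow, mul_pow, h2]
    field_simp
  rw [zz, h]
  push_cast
  ring

private lemma fm31_ee (i : ℕ) : ee (i * (((3 : ℕ) : ℝ) / 8)) = ze ^ i := by
  rw [ee, ze, ← Complex.exp_nat_mul]
  congr 1
  push_cast
  ring

private lemma fm31_norm (A s x : ℝ) (hA : 0 ≤ A) (hx : 0 < x) :
    ‖((x ^ (-(3 / 2) : ℝ) : ℝ) : ℂ) * cexp (-(((A : ℂ) + π * s ^ 2 * I) / (x : ℂ)))‖ =
      x ^ (-(3 / 2) : ℝ) * Real.exp (-(A / x)) := by
  rw [norm_mul, Complex.norm_real, Complex.norm_exp, Real.norm_of_nonneg (by positivity)]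
  have h2 : (-(((A : ℂ) + π * s ^ 2 * I) / (x : ℂ))).re = -(A / x) := by
    have h3 : ((A : ℂ) + π * s ^ 2 * I) = ((A : ℝ) : ℂ) + ((π * s ^ 2 : ℝ) : ℂ) * I := by
      push_cast; ring
    rw [Complex.neg_re, Complex.div_ofReal_re, h3, Complex.add_re, Complex.re_ofReal_mul,
      Complex.I_re, mul_zero, add_zero, Complex.ofReal_re]
  rw [h2]

private lemma fm31_le (A s x : ℝ) (hA : 0 ≤ A) (hx : 0 < x) :
    ‖((x ^ (-(3 / 2) : ℝ) : ℝ) : ℂ) * cexp (-(((A : ℂ) + π * s ^ 2 * I) / (x : ℂ)))‖ ≤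
      x ^ (-(3 / 2) : ℝ) := by
  rw [fm31_norm A s x hA hx]
  have h4 : Real.exp (-(A / x)) ≤ 1 := by
    rw [Real.exp_le_one_iff]
    have : 0 ≤ A / x := by positivity
    linarith
  calc _ ≤ x ^ (-(3 / 2) : ℝ) * 1 := by gcongr
    _ = _ := mul_one _

private lemma fm31_ze : ‖ze‖ = 1 := by
  rw [ze]
  have : (3 * (π : ℂ) * I / 4) = ((3 * π / 4 : ℝ) : ℂ) * I := by push_cast; ring
  rw [this, Complex.norm_exp_ofReal_mul_I]

/-- the term of the full sum -/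
private noncomputable def fm31_t (A s ν : ℝ) (i : ℕ) : ℂ :=
  (((ν + i : ℝ) ^ (-(3 / 2) : ℝ) : ℝ) : ℂ) *
    cexp (-(((A : ℂ) + π * s ^ 2 * I) / ((ν + i : ℝ) : ℂ))) * ze ^ i

private lemma fm31_tb (A s ν : ℝ) (hA : 0 ≤ A) (hν : 0 < ν) (i : ℕ) :
    ‖fm31_t A s ν (i + 1)‖ ≤ ((i + 1 : ℕ) : ℝ) ^ (-(3 / 2) : ℝ) := by
  have h1 : (0 : ℝ) < ν + ((i + 1 : ℕ) : ℝ) := by positivity
  rw [fm31_t, norm_mul, norm_pow, fm31_ze, one_pow, mul_one]
  refine (fm31_le A s _ hA h1).trans ?_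
  apply Real.rpow_le_rpow_of_nonpos
  · positivity
  · linarith
  · norm_num

private lemma fm31_summ : Summable (fun i : ℕ => ((i + 1 : ℕ) : ℝ) ^ (-(3 / 2) : ℝ)) :=
  (summable_nat_add_iff 1).2 (Real.summable_nat_rpow.2 (by norm_num))

private lemma fm31_s (A s ν : ℝ) (hA : 0 ≤ A) (hν : 0 < ν) : Summable (fm31_t A s ν) := by
  rw [← summable_nat_add_iff 1]
  exact Summable.of_norm_bounded fm31_summ (fm31_tb A s ν hA hν)

private lemma fm31_F (A s ν : ℝ) : F1 A s ν = ∑' i : ℕ, fm31_t A s ν (i + 1) := by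
  unfold F1 fm31_t
  refine tsum_congr fun i => ?_
  push_cast
  ring_nf

/-- `zz A (√2 π s) = A + π i s²`, `ee (i 3/8) = ze^i` -/
theorem g1_id (A s ν : ℝ) (hA : 0 ≤ A) (hν : 0 < ν) :
    F1 A s ν = Fs (zz A (√2 * π * s)) ν ((3 : ℕ) / 8) -
      ((ν ^ (-(3 / 2) : ℝ) : ℝ) : ℂ) * cexp (-(((A : ℂ) + π * s ^ 2 * I) / (ν : ℂ))) := by
  have h1 : Fs (zz A (√2 * π * s)) ν ((3 : ℕ) / 8) = ∑' i : ℕ, fm31_t A s ν i := by
    unfold Fs fm31_t
    refine tsum_congr fun i => ?_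
    rw [fm31_z, fm31_ee]
  have h0 : fm31_t A s ν 0 =
      ((ν ^ (-(3 / 2) : ℝ) : ℝ) : ℂ) * cexp (-(((A : ℂ) + π * s ^ 2 * I) / (ν : ℂ))) := by
    rw [fm31_t]
    simp
  rw [h1, (fm31_s A s ν hA hν).tsum_eq_zero_add, h0, fm31_F]
  ring

/-- `y = 1/ν ≥ 1`: `y^(3/2) exp (-A y) ≤ y⁴ exp (-A y) ≤ C A^(-4)` -/
theorem g1_first : ∃ C : ℝ, 0 < C ∧ ∀ A s ν : ℝ, 1 ≤ A → 0 < ν → ν ≤ 1 →
    ‖((ν ^ (-(3 / 2) : ℝ) : ℝ) : ℂ) * cexp (-(((A : ℂ) + π * s ^ 2 * I) / (ν : ℂ)))‖ ≤ C * A ^ (-4 : ℝ) := by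
  refine ⟨24, by norm_num, fun A s ν hA hν hν1 => ?_⟩
  have hA0 : 0 < A := by linarith
  rw [fm31_norm A s ν hA0.le hν]
  have h1 : ν ^ (-(3 / 2) : ℝ) ≤ ν ^ (-4 : ℝ) := by
    apply Real.rpow_le_rpow_of_exponent_ge hν hν1
    norm_num
  have h2 : ν ^ (-4 : ℝ) = (ν ^ 4)⁻¹ := by
    rw [Real.rpow_neg hν.le]
    norm_cast
  have h3 : A ^ (-4 : ℝ) = (A ^ 4)⁻¹ := by
    rw [Real.rpow_neg hA0.le]
    norm_cast
  have h4 : (A / ν) ^ 4 / 24 ≤ Real.exp (A / ν) := by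
    have := Real.pow_div_factorial_le_exp (A / ν) (by positivity) 4
    simpa [Nat.factorial] using this
  have h5 : Real.exp (-(A / ν)) ≤ 24 * (ν ^ 4 / A ^ 4) := by
    rw [Real.exp_neg]
    have h6 : 0 < (A / ν) ^ 4 / 24 := by positivity
    calc (Real.exp (A / ν))⁻¹ ≤ ((A / ν) ^ 4 / 24)⁻¹ := by gcongr
      _ = _ := by field_simp
  calc ν ^ (-(3 / 2) : ℝ) * Real.exp (-(A / ν)) ≤ (ν ^ 4)⁻¹ * (24 * (ν ^ 4 / A ^ 4)) := by
        rw [← h2]; gcongr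
    _ = _ := by rw [h3]; field_simp

private lemma fm32_ze : ‖ze‖ = 1 := by
  rw [ze]
  have : (3 * (π : ℂ) * I / 4) = ((3 * π / 4 : ℝ) : ℂ) * I := by push_cast; ring
  rw [this, Complex.norm_exp_ofReal_mul_I]

private lemma fm32_term (A s ν : ℝ) (hA : 0 ≤ A) (hν : 0 < ν) (i : ℕ) :
    ‖(((ν + (i + 1) : ℝ) ^ (-(3 / 2) : ℝ) : ℝ) : ℂ) *
      cexp (-(((A : ℂ) + π * s ^ 2 * I) / ((ν + (i + 1) : ℝ) : ℂ))) * ze ^ (i + 1)‖
      ≤ ((i + 1 : ℕ) : ℝ) ^ (-(3 / 2) : ℝ) := by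
  have h1 : (0 : ℝ) < ν + (i + 1) := by positivity
  rw [norm_mul, norm_mul, norm_pow, fm32_ze, one_pow, mul_one, Complex.norm_real,
    Complex.norm_exp, Real.norm_of_nonneg (by positivity)]
  have h2 : (-(((A : ℂ) + π * s ^ 2 * I) / ((ν + (i + 1) : ℝ) : ℂ))).re
      = -(A / (ν + (i + 1))) := by
    have h3 : ((A : ℂ) + π * s ^ 2 * I) = ((A : ℝ) : ℂ) + ((π * s ^ 2 : ℝ) : ℂ) * I := by
      push_cast; ring
    rw [Complex.neg_re, Complex.div_ofReal_re, h3, Complex.add_re, Complex.re_ofReal_mul,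
      Complex.I_re, mul_zero, add_zero, Complex.ofReal_re]
  rw [h2]
  have h4 : Real.exp (-(A / (ν + (i + 1)))) ≤ 1 := by
    rw [Real.exp_le_one_iff]
    have : 0 ≤ A / (ν + (i + 1)) := by positivity
    linarith
  have h5 : (ν + (i + 1) : ℝ) ^ (-(3 / 2) : ℝ) ≤ ((i + 1 : ℕ) : ℝ) ^ (-(3 / 2) : ℝ) := by
    apply Real.rpow_le_rpow_of_nonpos
    · positivity
    · push_cast; linarith
    · norm_num
  calc _ ≤ (ν + (i + 1) : ℝ) ^ (-(3 / 2) : ℝ) * 1 := by gcongr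
    _ ≤ _ := by rw [mul_one]; exact h5

private lemma fm32_summ : Summable (fun i : ℕ => ((i + 1 : ℕ) : ℝ) ^ (-(3 / 2) : ℝ)) :=
  (summable_nat_add_iff 1).2 (Real.summable_nat_rpow.2 (by norm_num))

theorem g1_cont (ν : ℝ) (hν : 0 < ν) :
    ContinuousOn (fun p : ℝ × ℝ => F1 p.1 p.2 ν) (Set.Ici 0 ×ˢ Set.univ) := by
  unfold F1
  refine continuousOn_tsum (fun i => ?_) fm32_summ (fun i p hp => ?_)
  · apply Continuous.continuousOn
    fun_prop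
  · exact fm32_term p.1 p.2 ν hp.1 hν i

private lemma fm31_step (n : ℕ) :
    ((n + 1 + 1 : ℕ) : ℝ) ^ (-(3 / 2) : ℝ) ≤
      2 / √((n + 1 : ℕ) : ℝ) - 2 / √((n + 1 + 1 : ℕ) : ℝ) := by
  have h0 : (0 : ℝ) < ((n + 1 : ℕ) : ℝ) := by positivity
  set a := √((n + 1 : ℕ) : ℝ) with ha
  set b := √((n + 1 + 1 : ℕ) : ℝ) with hb
  have ha0 : 0 < a := by positivity
  have hb0 : 0 < b := by positivity
  have ha2 : a ^ 2 = n + 1 := by rw [ha, Real.sq_sqrt (by positivity)]; push_cast; ring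
  have hb2 : b ^ 2 = n + 2 := by rw [hb, Real.sq_sqrt (by positivity)]; push_cast; ring
  have h1 : ((n + 1 + 1 : ℕ) : ℝ) ^ (-(3 / 2) : ℝ) = 1 / b ^ 3 := by
    rw [hb, Real.sqrt_eq_rpow, ← Real.rpow_natCast, ← Real.rpow_mul (by positivity), one_div,
      ← Real.rpow_neg (by positivity)]
    congr 1
    norm_num
  have hab : a < b := by
    apply Real.sqrt_lt_sqrt (by positivity)
    push_cast; linarith
  have h2 : (b - a) * (b + a) = 1 := by nlinarith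
  have h3 : 2 / a - 2 / b = 2 * (b - a) / (a * b) := by field_simp
  rw [h1, h3, div_le_div_iff₀ (by positivity) (by positivity)]
  have h4 : b - a = 1 / (b + a) := by field_simp; linarith
  have h5 : 1 / (2 * b) ≤ b - a := by
    rw [h4]
    apply one_div_le_one_div_of_le (by positivity)
    linarith
  have h6 : 1 ≤ 2 * b * (b - a) := by
    have := mul_le_mul_of_nonneg_left h5 (show 0 ≤ 2 * b by positivity)
    rwa [mul_one_div, div_self (by positivity)] at this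
  have h7 : a * b ≤ b ^ 2 := by nlinarith
  calc 1 * (a * b) ≤ b ^ 2 := by linarith
    _ ≤ b ^ 2 * (2 * b * (b - a)) := by
        have : 0 ≤ b ^ 2 := by positivity
        nlinarith
    _ = _ := by ring

private lemma fm31_part (n : ℕ) :
    ∑ i ∈ range (n + 1), ((i + 1 : ℕ) : ℝ) ^ (-(3 / 2) : ℝ) ≤ 3 - 2 / √((n + 1 : ℕ) : ℝ) := by
  induction n with
  | zero => norm_num
  | succ n ih =>
    rw [sum_range_succ]
    have := fm31_step n
    linarith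

theorem g1_triv (A s ν : ℝ) (hA : 0 ≤ A) (hν : 0 < ν) : ‖F1 A s ν‖ ≤ 3 := by
  rw [fm31_F]
  have h1 : ‖∑' i : ℕ, fm31_t A s ν (i + 1)‖ ≤ ∑' i : ℕ, ((i + 1 : ℕ) : ℝ) ^ (-(3 / 2) : ℝ) :=
    tsum_of_norm_bounded fm31_summ.hasSum (fm31_tb A s ν hA hν)
  refine h1.trans ?_
  refine Real.tsum_le_of_sum_range_le (fun i => by positivity) fun n => ?_
  rcases n with _ | n
  · simp
  · have h2 := fm31_part n
    have h3 : 0 ≤ 2 / √((n + 1 : ℕ) : ℝ) := by positivity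
    linarith

private theorem g1_hi_log (δ : ℝ) (hδ : 0 < δ) (U : ℝ) (hU : 1 ≤ U) :
    (1 + Real.log U) ^ 5 ≤ (1 + 10 / δ) ^ 5 * U ^ (δ / 2) := by
  have h0 : 0 ≤ Real.log U := Real.log_nonneg hU
  have hU0 : 0 ≤ U := by linarith
  have h1 : Real.log U ≤ U ^ (δ / 10) / (δ / 10) := Real.log_le_rpow_div hU0 (by positivity)
  have h2 : (1 : ℝ) ≤ U ^ (δ / 10) := Real.one_le_rpow hU (by positivity)
  have h3 : 1 + Real.log U ≤ (1 + 10 / δ) * U ^ (δ / 10) := by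
    have e : U ^ (δ / 10) / (δ / 10) = 10 / δ * U ^ (δ / 10) := by field_simp
    rw [e] at h1
    nlinarith
  have h4 : (1 + Real.log U) ^ 5 ≤ ((1 + 10 / δ) * U ^ (δ / 10)) ^ 5 :=
    pow_le_pow_left₀ (by linarith) h3 5
  have h5 : (U ^ (δ / 10)) ^ 5 = U ^ (δ / 2) := by
    rw [← Real.rpow_natCast, ← Real.rpow_mul hU0]
    congr 1
    push_cast
    ring
  rw [mul_pow, h5] at h4
  exact h4

private theorem g1_hi_c : 1 ≤ √2 * π := by
  have h1 : (1 : ℝ) ≤ √2 := by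
    rw [show (1 : ℝ) = √1 by simp]
    exact Real.sqrt_le_sqrt (by norm_num)
  have h2 : (1 : ℝ) ≤ π := by linarith [Real.pi_gt_three]
  nlinarith

private theorem g1_hi_ar (δ : ℝ) (hδ : 0 < δ) (ε : ℝ) (hε : 0 < ε) (hε' : ε ≤ δ / 4) :
    ∃ C : ℝ, 0 < C ∧ ∀ A S : ℝ, 2 ≤ S → 1 ≤ A → A ≤ S → S ^ 2 ≤ A ^ 3 →
      A ^ 3 * ((√2 * π * S) ^ (-4 : ℝ) * ((√2 * π * S) + (1 + Real.log (√2 * π * S)) ^ 5 *
        (((√2 * π * S) / A) ^ (2 * (2 + ε)) * ((√2 * π * S) + ((√2 * π * S) / A) ^ 3)))) ≤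
          C * (S ^ (1 + δ) / A) := by
  set c : ℝ := √2 * π with hc
  have c1 : 1 ≤ c := g1_hi_c
  have c0 : 0 < c := by linarith
  refine ⟨1 + (1 + 10 / δ) ^ 5 * (c + c ^ 3) * c ^ δ, by positivity, ?_⟩
  intro A S hS hA hAS hSA
  have hS0 : 0 < S := by linarith
  have hA0 : 0 < A := by linarith
  have hU0 : 0 < c * S := by positivity
  have hU1 : 1 ≤ c * S := by nlinarith
  have hUS : S ≤ c * S := by nlinarith
  set U : ℝ := c * S with hU
  have hx1 : 1 ≤ U / A := by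
    rw [le_div_iff₀ hA0]
    linarith
  have hx0 : 0 < U / A := by positivity
  have hxU : U / A ≤ U := div_le_self hU0.le hA
  have e1 : U ^ (-4 : ℝ) = (U ^ 4)⁻¹ := by
    rw [Real.rpow_neg hU0.le]
    congr 1
    exact_mod_cast Real.rpow_natCast U 4
  have e2 : (U / A) ^ (2 * (2 + ε)) ≤ (U / A) ^ 4 * U ^ (δ / 2) := by
    have e : (U / A) ^ (2 * (2 + ε)) = (U / A) ^ 4 * (U / A) ^ (2 * ε) := by
      rw [show 2 * (2 + ε) = ((4 : ℕ) : ℝ) + 2 * ε by push_cast; ring, Real.rpow_add hx0,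
        Real.rpow_natCast]
    rw [e]
    have h1 : (U / A) ^ (2 * ε) ≤ U ^ (2 * ε) := Real.rpow_le_rpow hx0.le hxU (by positivity)
    have h2 : U ^ (2 * ε) ≤ U ^ (δ / 2) := Real.rpow_le_rpow_of_exponent_le hU1 (by linarith)
    exact mul_le_mul_of_nonneg_left (h1.trans h2) (by positivity)
  have e3 := g1_hi_log δ hδ U hU1
  have e4 : U + (U / A) ^ 3 ≤ (c + c ^ 3) * S := by
    have : (U / A) ^ 3 ≤ c ^ 3 * S := by
      rw [div_pow, div_le_iff₀ (by positivity), hU, mul_pow]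
      have : c ^ 3 * S ^ 3 = c ^ 3 * S * S ^ 2 := by ring
      rw [this]
      exact mul_le_mul_of_nonneg_left hSA (by positivity)
    rw [hU] at this ⊢
    linarith
  have e5 : U ^ (δ / 2) * U ^ (δ / 2) = c ^ δ * S ^ δ := by
    rw [← Real.rpow_add hU0, show δ / 2 + δ / 2 = δ by ring, hU, Real.mul_rpow c0.le hS0.le]
  have e6 : S ^ (1 + δ) = S * S ^ δ := by
    rw [Real.rpow_add hS0, Real.rpow_one]
  have hL0 : 0 ≤ (1 + Real.log U) ^ 5 := by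
    have := Real.log_nonneg hU1
    positivity
  have e7 : (1 + Real.log U) ^ 5 * ((U / A) ^ (2 * (2 + ε)) * (U + (U / A) ^ 3)) ≤
      ((1 + 10 / δ) ^ 5 * U ^ (δ / 2)) * (((U / A) ^ 4 * U ^ (δ / 2)) * ((c + c ^ 3) * S)) := by
    apply mul_le_mul e3 _ (by positivity) (by positivity)
    exact mul_le_mul e2 e4 (by positivity) (by positivity)
  have hSd : 1 ≤ S ^ δ := Real.one_le_rpow (by linarith) hδ.le
  have e8 : A ^ 3 * ((U ^ 4)⁻¹ * U) ≤ S ^ (1 + δ) / A := by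
    have h1 : A ^ 3 * ((U ^ 4)⁻¹ * U) = A ^ 3 / U ^ 3 := by field_simp
    have h2 : A ^ 3 / U ^ 3 ≤ 1 := by
      rw [div_le_one (by positivity)]
      exact pow_le_pow_left₀ hA0.le (by linarith) 3
    have h3 : 1 ≤ S ^ (1 + δ) / A := by
      rw [le_div_iff₀ hA0, e6]
      nlinarith
    rw [h1]
    linarith
  have e9 : A ^ 3 * ((U ^ 4)⁻¹ * (((1 + 10 / δ) ^ 5 * U ^ (δ / 2)) *
      (((U / A) ^ 4 * U ^ (δ / 2)) * ((c + c ^ 3) * S)))) =
        (1 + 10 / δ) ^ 5 * (c + c ^ 3) * c ^ δ * (S ^ (1 + δ) / A) := by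
    have h1 : A ^ 3 * ((U ^ 4)⁻¹ * (((1 + 10 / δ) ^ 5 * U ^ (δ / 2)) *
      (((U / A) ^ 4 * U ^ (δ / 2)) * ((c + c ^ 3) * S)))) =
        (1 + 10 / δ) ^ 5 * (c + c ^ 3) * (U ^ (δ / 2) * U ^ (δ / 2)) * (S / A) *
          (A ^ 4 * (U ^ 4)⁻¹ * (U / A) ^ 4) := by
      field_simp
    have h2 : A ^ 4 * (U ^ 4)⁻¹ * (U / A) ^ 4 = 1 := by field_simp
    rw [h1, h2, e5, e6]
    ring
  rw [e1, mul_add, mul_add]
  have e10 : A ^ 3 * ((U ^ 4)⁻¹ * ((1 + Real.log U) ^ 5 * ((U / A) ^ (2 * (2 + ε)) *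
      (U + (U / A) ^ 3)))) ≤ (1 + 10 / δ) ^ 5 * (c + c ^ 3) * c ^ δ * (S ^ (1 + δ) / A) := by
    rw [← e9]
    exact mul_le_mul_of_nonneg_left (mul_le_mul_of_nonneg_left e7 (by positivity)) (by positivity)
  have : (1 + (1 + 10 / δ) ^ 5 * (c + c ^ 3) * c ^ δ) * (S ^ (1 + δ) / A) =
      S ^ (1 + δ) / A + (1 + 10 / δ) ^ 5 * (c + c ^ 3) * c ^ δ * (S ^ (1 + δ) / A) := by ring
  rw [this]
  exact add_le_add e8 e10

private theorem g1_hi_four (x y : ℝ) : (x + y) ^ 4 ≤ 8 * x ^ 4 + 8 * y ^ 4 := by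
  have h1 : (x + y) ^ 2 ≤ 2 * (x ^ 2 + y ^ 2) := by nlinarith [sq_nonneg (x - y)]
  have h2 : (x + y) ^ 4 ≤ (2 * (x ^ 2 + y ^ 2)) ^ 2 := by
    calc (x + y) ^ 4 = ((x + y) ^ 2) ^ 2 := by ring
      _ ≤ _ := pow_le_pow_left₀ (by positivity) h1 2
  nlinarith [sq_nonneg (x ^ 2 - y ^ 2)]

/-- `S² ≤ A³`: `g1_id`, `fd` with `β = 2 + ε`, `h = 3`, `U = √2 π S` -/
theorem g1_hi (δ : ℝ) (hδ : 0 < δ) : ∃ C : ℝ, 0 < C ∧ ∀ A S ν : ℝ, 2 ≤ S → 1 ≤ A → A ≤ S → S ^ 2 ≤ A ^ 3 →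
    0 < ν → ν ≤ 1 → A ^ 3 * ∫ s in S..(2 * S), ‖F1 A s ν‖ ^ 4 ≤ C * (S ^ (1 + δ) / A) := by
  obtain ⟨C₁, hC₁, hf⟩ := g1_first
  set ε : ℝ := min (δ / 4) 1 with hε
  have hε0 : 0 < ε := lt_min (by positivity) one_pos
  have hε1 : ε ≤ 1 := min_le_right _ _
  have hεδ : ε ≤ δ / 4 := min_le_left _ _
  obtain ⟨C₂, hC₂, hfd⟩ := fd (2 + ε) (by linarith) (by linarith) (boot (2 + ε) (by linarith)).2
  obtain ⟨C₃, hC₃, har⟩ := g1_hi_ar δ hδ ε hε0 hεδ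
  refine ⟨8 * (C₂ * C₃) + 8 * C₁ ^ 4, by positivity, ?_⟩
  intro A S ν hS hA hAS hSA hν hν1
  have hS0 : 0 < S := by linarith
  have hA0 : 0 < A := by linarith
  have c1 : 1 ≤ √2 * π := g1_hi_c
  have c0 : 0 < √2 * π := by linarith
  have hU0 : 0 < √2 * π * S := by positivity
  have hUS : S ≤ √2 * π * S := by nlinarith
  have hU1 : 1 ≤ √2 * π * S := by linarith
  have hAU : A ≤ (√2 * π * S) ^ 2 := by nlinarith
  -- the first term
  set f0 : ℝ → ℂ := fun s => ((ν ^ (-(3 / 2) : ℝ) : ℝ) : ℂ) *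
    cexp (-(((A : ℂ) + π * s ^ 2 * I) / (ν : ℂ))) with hf0
  have cf0 : Continuous f0 := by
    rw [hf0]
    fun_prop
  have cF : Continuous (fun s => F1 A s ν) := by
    have h := g1_cont ν hν
    rw [← continuousOn_univ]
    refine h.comp (f := fun s : ℝ => (A, s)) (by fun_prop) ?_
    intro s _
    exact ⟨hA0.le, Set.mem_univ _⟩
  set g : ℝ → ℝ := fun σ => ‖Fs (zz A σ) ν ((3 : ℕ) / 8)‖ ^ 4 with hg
  have idF : ∀ s, Fs (zz A (√2 * π * s)) ν ((3 : ℕ) / 8) = F1 A s ν + f0 s := by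
    intro s
    rw [g1_id A s ν hA0.le hν]
    simp only [hf0]
    ring
  have cg : Continuous g := by
    have e : g = fun σ => ‖F1 A (σ / (√2 * π)) ν + f0 (σ / (√2 * π))‖ ^ 4 := by
      funext σ
      rw [← idF]
      simp only [hg]
      rw [show √2 * π * (σ / (√2 * π)) = σ by field_simp]
    rw [e]
    exact ((cF.comp (continuous_id.div_const _)).add (cf0.comp (continuous_id.div_const _))).norm.pow 4
  have b0 : ∀ s, ‖f0 s‖ ≤ C₁ * A ^ (-4 : ℝ) := fun s => hf A s ν hA hν hν1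
  have hpt : ∀ s, ‖F1 A s ν‖ ^ 4 ≤ 8 * g (√2 * π * s) + 8 * (C₁ * A ^ (-4 : ℝ)) ^ 4 := by
    intro s
    have h1 : F1 A s ν = Fs (zz A (√2 * π * s)) ν ((3 : ℕ) / 8) - f0 s := by
      rw [idF]
      ring
    have h2 : ‖F1 A s ν‖ ≤ ‖Fs (zz A (√2 * π * s)) ν ((3 : ℕ) / 8)‖ + C₁ * A ^ (-4 : ℝ) := by
      rw [h1]
      exact (norm_sub_le _ _).trans (by linarith [b0 s])
    have h3 := pow_le_pow_left₀ (norm_nonneg _) h2 4
    exact h3.trans (g1_hi_four _ _)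
  have hint : ∫ s in S..(2 * S), ‖F1 A s ν‖ ^ 4 ≤
      ∫ s in S..(2 * S), (8 * g (√2 * π * s) + 8 * (C₁ * A ^ (-4 : ℝ)) ^ 4) := by
    apply intervalIntegral.integral_mono_on (by linarith)
    · exact (cF.norm.pow 4).intervalIntegrable _ _
    · apply Continuous.intervalIntegrable
      exact ((cg.comp (continuous_const.mul continuous_id)).const_mul 8).add continuous_const
    · intro s _
      exact hpt s
  have hval : ∫ s in S..(2 * S), (8 * g (√2 * π * s) + 8 * (C₁ * A ^ (-4 : ℝ)) ^ 4) =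
      8 * ((√2 * π)⁻¹ * ∫ σ in (√2 * π * S)..(√2 * π * (2 * S)), g σ) +
        S * (8 * (C₁ * A ^ (-4 : ℝ)) ^ 4) := by
    rw [intervalIntegral.integral_add]
    · rw [intervalIntegral.integral_const_mul, intervalIntegral.integral_comp_mul_left _ c0.ne',
        intervalIntegral.integral_const]
      simp only [smul_eq_mul]
      ring
    · apply Continuous.intervalIntegrable
      exact (cg.comp (continuous_const.mul continuous_id)).const_mul 8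
    · exact intervalIntegrable_const
  have hmono : ∫ σ in (√2 * π * S)..(√2 * π * (2 * S)), g σ ≤
      ∫ σ in (√2 * π * S)..(4 * (√2 * π * S)), g σ := by
    apply intervalIntegral.integral_mono_interval le_rfl (by nlinarith) (by nlinarith)
    · exact Filter.Eventually.of_forall (fun σ => by simp only [hg, Pi.zero_apply]; positivity)
    · exact cg.intervalIntegrable _ _
  have hfd' := hfd A (√2 * π * S) ν 3 hA hU1 hAU (by norm_num) hν hν1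
  have har' := har A S hS hA hAS hSA
  have hgn : 0 ≤ ∫ σ in (√2 * π * S)..(√2 * π * (2 * S)), g σ := by
    apply intervalIntegral.integral_nonneg (by nlinarith)
    intro σ _
    simp only [hg]
    positivity
  set R : ℝ := (√2 * π * S) ^ (-4 : ℝ) * ((√2 * π * S) + (1 + Real.log (√2 * π * S)) ^ 5 *
        (((√2 * π * S) / A) ^ (2 * (2 + ε)) * ((√2 * π * S) + ((√2 * π * S) / A) ^ 3))) with hR
  have hinv : (√2 * π)⁻¹ ≤ 1 := inv_le_one_of_one_le₀ c1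
  have h1 : (√2 * π)⁻¹ * ∫ σ in (√2 * π * S)..(√2 * π * (2 * S)), g σ ≤ C₂ * R := by
    calc (√2 * π)⁻¹ * ∫ σ in (√2 * π * S)..(√2 * π * (2 * S)), g σ
        ≤ 1 * ∫ σ in (√2 * π * S)..(√2 * π * (2 * S)), g σ := mul_le_mul_of_nonneg_right hinv hgn
      _ = ∫ σ in (√2 * π * S)..(√2 * π * (2 * S)), g σ := one_mul _
      _ ≤ _ := hmono.trans hfd'
  have hA4 : (A ^ (-4 : ℝ)) ^ 4 = (A ^ 16)⁻¹ := by
    have : A ^ (-4 : ℝ) = (A ^ 4)⁻¹ := by
      rw [Real.rpow_neg hA0.le]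
      congr 1
      exact_mod_cast Real.rpow_natCast A 4
    rw [this]
    field_simp
  have h2 : A ^ 3 * (S * (8 * (C₁ * A ^ (-4 : ℝ)) ^ 4)) ≤ 8 * C₁ ^ 4 * (S ^ (1 + δ) / A) := by
    rw [mul_pow, hA4]
    have e1 : A ^ 3 * (S * (8 * (C₁ ^ 4 * (A ^ 16)⁻¹))) = 8 * C₁ ^ 4 * (S / A * (A ^ 12)⁻¹) := by
      field_simp
    rw [e1]
    apply mul_le_mul_of_nonneg_left _ (by positivity)
    have hSd : 1 ≤ S ^ δ := Real.one_le_rpow (by linarith) hδ.le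
    have e6 : S ^ (1 + δ) = S * S ^ δ := by
      rw [Real.rpow_add hS0, Real.rpow_one]
    rw [e6]
    have e7 : (A ^ 12)⁻¹ ≤ 1 := inv_le_one_of_one_le₀ (one_le_pow₀ hA)
    calc S / A * (A ^ 12)⁻¹ ≤ S / A * 1 := mul_le_mul_of_nonneg_left e7 (by positivity)
      _ ≤ S / A * S ^ δ := mul_le_mul_of_nonneg_left hSd (by positivity)
      _ = S * S ^ δ / A := by ring
  calc A ^ 3 * ∫ s in S..(2 * S), ‖F1 A s ν‖ ^ 4
      ≤ A ^ 3 * (8 * ((√2 * π)⁻¹ * ∫ σ in (√2 * π * S)..(√2 * π * (2 * S)), g σ) +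
        S * (8 * (C₁ * A ^ (-4 : ℝ)) ^ 4)) := by
        rw [← hval]
        exact mul_le_mul_of_nonneg_left hint (by positivity)
    _ ≤ A ^ 3 * (8 * (C₂ * R) + S * (8 * (C₁ * A ^ (-4 : ℝ)) ^ 4)) := by
        apply mul_le_mul_of_nonneg_left _ (by positivity)
        linarith
    _ = 8 * C₂ * (A ^ 3 * R) + A ^ 3 * (S * (8 * (C₁ * A ^ (-4 : ℝ)) ^ 4)) := by ring
    _ ≤ 8 * C₂ * (C₃ * (S ^ (1 + δ) / A)) + 8 * C₁ ^ 4 * (S ^ (1 + δ) / A) := by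
        apply add_le_add _ h2
        exact mul_le_mul_of_nonneg_left har' (by positivity)
    _ = (8 * (C₂ * C₃) + 8 * C₁ ^ 4) * (S ^ (1 + δ) / A) := by ring

private lemma fm34_log (ε : ℝ) (hε : 0 < ε) : ∃ D : ℝ, 0 < D ∧ ∀ T : ℝ, 1 ≤ T →
    (1 + Real.log T) ^ 5 ≤ D * T ^ ε := by
  refine ⟨(1 + 1 / (ε / 5)) ^ 5, by positivity, fun T hT => ?_⟩
  have hT0 : (0 : ℝ) ≤ T := by linarith
  have h1 : Real.log T ≤ T ^ (ε / 5) / (ε / 5) := Real.log_le_rpow_div hT0 (by positivity)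
  have h2 : (1 : ℝ) ≤ T ^ (ε / 5) := Real.one_le_rpow hT (by positivity)
  have h3 : 1 + Real.log T ≤ (1 + 1 / (ε / 5)) * T ^ (ε / 5) := by
    have : (1 + 1 / (ε / 5)) * T ^ (ε / 5) = T ^ (ε / 5) + T ^ (ε / 5) / (ε / 5) := by ring
    rw [this]
    linarith
  have h4 : 0 ≤ 1 + Real.log T := by
    have := Real.log_nonneg hT
    linarith
  calc (1 + Real.log T) ^ 5 ≤ ((1 + 1 / (ε / 5)) * T ^ (ε / 5)) ^ 5 := by gcongr
    _ = (1 + 1 / (ε / 5)) ^ 5 * T ^ ε := by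
      rw [mul_pow, ← Real.rpow_natCast (T ^ (ε / 5)) 5, ← Real.rpow_mul hT0]
      congr 2
      push_cast
      ring

private lemma fm34_id (A t ν : ℝ) (ht : 0 ≤ t) :
    F1 A (√(2 * t)) ν = ∑' i : ℕ, ze ^ (i + 1) * (((ν + (i + 1) : ℝ) ^ (-(3 / 2) : ℝ) : ℝ) : ℂ) *
        cexp (-((A : ℂ) / ((ν + (i + 1) : ℝ) : ℂ))) * ee (-(t / (ν + (i + 1)))) := by
  unfold F1
  refine tsum_congr fun i => ?_
  have h1 : ((√(2 * t) : ℝ) : ℂ) ^ 2 = 2 * t := by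
    rw [← Complex.ofReal_pow, Real.sq_sqrt (by positivity)]
    push_cast
    ring
  have h2 : cexp (-(((A : ℂ) + π * ((√(2 * t) : ℝ) : ℂ) ^ 2 * I) / ((ν + (i + 1) : ℝ) : ℂ)))
      = cexp (-((A : ℂ) / ((ν + (i + 1) : ℝ) : ℂ))) * ee (-(t / (ν + (i + 1)))) := by
    rw [h1, ee, ← Complex.exp_add]
    congr 1
    push_cast
    ring
  rw [h2]
  ring

private lemma fm34_cont (A ν : ℝ) (hA : 0 ≤ A) (hν : 0 < ν) : Continuous (fun s => F1 A s ν) := by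
  have h := g1_cont ν hν
  have h2 : ContinuousOn (fun s : ℝ => ((A, s) : ℝ × ℝ)) Set.univ := by fun_prop
  have h3 := h.comp h2 (fun s _ => ⟨hA, Set.mem_univ _⟩)
  exact continuousOn_univ.1 h3

private lemma fm34_sub (A S ν : ℝ) (hA : 0 ≤ A) (hν : 0 < ν) (hS : 0 < S) :
    ∫ s in S..(2 * S), ‖F1 A s ν‖ ^ 4 ≤
      (1 / S) * ∫ t in (S ^ 2 / 2)..(4 * (S ^ 2 / 2)), ‖F1 A (√(2 * t)) ν‖ ^ 4 := by
  have hc := fm34_cont A ν hA hν
  have h1 : ∫ s in S..(2 * S), ((fun t => ‖F1 A (√(2 * t)) ν‖ ^ 4) ∘ (fun s : ℝ => s ^ 2 / 2)) s * s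
      = ∫ t in (S ^ 2 / 2)..((2 * S) ^ 2 / 2), ‖F1 A (√(2 * t)) ν‖ ^ 4 := by
    apply intervalIntegral.integral_comp_mul_deriv
    · intro x _
      have := (hasDerivAt_pow 2 x).div_const 2
      simpa using this
    · exact continuousOn_id
    · fun_prop
  have h2 : (2 * S) ^ 2 / 2 = 4 * (S ^ 2 / 2) := by ring
  rw [← h2, ← h1, ← intervalIntegral.integral_const_mul]
  refine intervalIntegral.integral_mono_on (by linarith) ?_ ?_ fun s hs => ?_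
  · exact (Continuous.intervalIntegrable (by fun_prop) _ _)
  · exact (Continuous.intervalIntegrable (by fun_prop) _ _)
  · have hs0 : 0 < s := by linarith [hs.1]
    have h3 : √(2 * (s ^ 2 / 2)) = s := by
      rw [show 2 * (s ^ 2 / 2) = s ^ 2 by ring, Real.sqrt_sq hs0.le]
    simp only [Function.comp_apply]
    rw [h3]
    have h4 : 1 ≤ s / S := by
      rw [le_div_iff₀ hS]
      linarith [hs.1]
    have h5 : 0 ≤ ‖F1 A s ν‖ ^ 4 := by positivity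
    calc ‖F1 A s ν‖ ^ 4 = ‖F1 A s ν‖ ^ 4 * 1 := by ring
      _ ≤ ‖F1 A s ν‖ ^ 4 * (s / S) := by gcongr
      _ = 1 / S * (‖F1 A s ν‖ ^ 4 * s) := by ring

/-- `A³ ≤ S²`: `t = s²/2`, `di` with `T = S²/2`, `ρ = A`, `χ i = ze^(i+1)`, `β = 2 + ε` -/
theorem g1_lo (δ : ℝ) (hδ : 0 < δ) : ∃ C : ℝ, 0 < C ∧ ∀ A S ν : ℝ, 2 ≤ S → 1 ≤ A → A ^ 3 ≤ S ^ 2 →
    0 < ν → ν ≤ 1 → A ^ 3 * ∫ s in S..(2 * S), ‖F1 A s ν‖ ^ 4 ≤ C * (S ^ (1 + δ) / A) := by
  set ε : ℝ := min (δ / 3) 1 with hεd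
  have hε : 0 < ε := lt_min (by positivity) one_pos
  have hε1 : ε ≤ 1 := min_le_right _ _
  have hε3 : 3 * ε ≤ δ := by
    have := min_le_left (δ / 3) 1
    linarith
  obtain ⟨C, hC, hdi⟩ := di (2 + ε) (by linarith) (by linarith) (boot (2 + ε) (by linarith)).1
  obtain ⟨D, hD, hlog⟩ := fm34_log ε hε
  refine ⟨C * (3 * D + 1), by positivity, ?_⟩
  intro A S ν hS hA hAS hν hν1
  have hA0 : 0 < A := by linarith
  have hS0 : 0 < S := by linarith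
  have hS1 : 1 ≤ S := by linarith
  set T : ℝ := S ^ 2 / 2 with hT
  have hT1 : 1 ≤ T := by
    rw [hT]
    nlinarith
  have hT0 : 0 < T := by linarith
  have hTS : T ≤ S ^ 2 := by
    rw [hT]
    have : 0 < S ^ 2 := by positivity
    linarith
  have hAleS : A ≤ S := by
    by_contra hcon
    push Not at hcon
    have h1 : S ^ 3 < A ^ 3 := by gcongr
    have h2 : S ^ 2 ≤ S ^ 3 := pow_le_pow_right₀ hS1 (by norm_num)
    linarith
  have key := hdi ν A T (fun _ => (A : ℂ)) (fun _ => 0) (fun i => ze ^ (i + 1)) hν hν1 hA0 hT1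
    (fun k => by rw [norm_pow, fm32_ze, one_pow]) (fun t _ => hasDerivAt_const t (A : ℂ))
    continuousOn_const (fun t _ => by simp) (fun t _ => by simp only [norm_zero]; positivity)
  have h1 := fm34_sub A S ν hA0.le hν hS0
  have h2 : ∫ t in T..(4 * T), ‖F1 A (√(2 * t)) ν‖ ^ 4 ≤
      C * ((1 + Real.log T) ^ 5 * (A ^ (2 + ε - 6) * (T + A ^ 3)) + T ^ (-10 : ℝ)) := by
    refine le_trans (le_of_eq ?_) key
    refine intervalIntegral.integral_congr fun t ht => ?_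
    rw [Set.uIcc_of_le (by linarith)] at ht
    rw [fm34_id A t ν (by linarith [ht.1])]
  have h3 : T + A ^ 3 ≤ 3 * T := by
    have : S ^ 2 = 2 * T := by rw [hT]; ring
    linarith
  have h4 := hlog T hT1
  have h5 : T ^ ε ≤ S ^ (2 * ε) := by
    calc T ^ ε ≤ (S ^ 2) ^ ε := by gcongr
      _ = S ^ (2 * ε) := by
        rw [← Real.rpow_natCast S 2, ← Real.rpow_mul hS0.le]
        norm_num
  have h6 : A ^ ε ≤ S ^ ε := by gcongr
  have h7 : A ^ 3 * A ^ (2 + ε - 6) = A ^ ε / A := by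
    rw [← Real.rpow_natCast A 3, ← Real.rpow_add hA0, eq_div_iff hA0.ne']
    nth_rewrite 2 [← Real.rpow_one A]
    rw [← Real.rpow_add hA0]
    congr 1
    push_cast
    ring
  have h8 : T ^ (-10 : ℝ) ≤ 1 := Real.rpow_le_one_of_one_le_of_nonpos hT1 (by norm_num)
  have h9 : S ^ (3 * ε) ≤ S ^ δ := Real.rpow_le_rpow_of_exponent_le hS1 hε3
  have h10 : S ^ (1 + δ) = S * S ^ δ := by rw [Real.rpow_add hS0, Real.rpow_one]
  have h11 : S ^ ε * S ^ (2 * ε) = S ^ (3 * ε) := by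
    rw [← Real.rpow_add hS0]
    congr 1
    ring
  have hlogn : 0 ≤ (1 + Real.log T) ^ 5 := by
    have := Real.log_nonneg hT1
    positivity
  have hmain : A ^ 3 * ((1 / S) * (C * ((1 + Real.log T) ^ 5 * (A ^ (2 + ε - 6) * (T + A ^ 3)) +
      T ^ (-10 : ℝ)))) ≤ C * (3 * D + 1) * (S ^ (1 + δ) / A) := by
    have e1 : A ^ 3 * ((1 / S) * (C * ((1 + Real.log T) ^ 5 * (A ^ (2 + ε - 6) * (T + A ^ 3)) +
      T ^ (-10 : ℝ)))) = C * ((1 / S) * ((1 + Real.log T) ^ 5 * ((A ^ 3 * A ^ (2 + ε - 6)) * (T + A ^ 3)))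
        + (1 / S) * (A ^ 3 * T ^ (-10 : ℝ))) := by ring
    rw [e1, h7]
    have e2 : (1 / S) * ((1 + Real.log T) ^ 5 * ((A ^ ε / A) * (T + A ^ 3))) ≤
        3 * D * (S ^ (1 + δ) / A) := by
      calc (1 / S) * ((1 + Real.log T) ^ 5 * ((A ^ ε / A) * (T + A ^ 3)))
          ≤ (1 / S) * ((D * S ^ (2 * ε)) * ((S ^ ε / A) * (3 * S ^ 2))) := by
            gcongr
            · exact h4.trans (by gcongr)
            · exact h3.trans (by gcongr)
        _ = 3 * D * ((S * (S ^ ε * S ^ (2 * ε))) / A) := by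
            field_simp
        _ ≤ 3 * D * (S ^ (1 + δ) / A) := by
            rw [h11, h10]
            gcongr
    have e3 : (1 / S) * (A ^ 3 * T ^ (-10 : ℝ)) ≤ S ^ (1 + δ) / A := by
      have f1 : T ^ (-10 : ℝ) ≤ T ^ (-2 : ℝ) :=
        Real.rpow_le_rpow_of_exponent_le hT1 (by norm_num)
      have f2 : T ^ (-2 : ℝ) = 4 / S ^ 4 := by
        rw [Real.rpow_neg hT0.le, show (2 : ℝ) = ((2 : ℕ) : ℝ) by norm_num, Real.rpow_natCast, hT]
        field_simp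
        norm_num
      have f3 : 1 ≤ S ^ δ := Real.one_le_rpow hS1 hδ.le
      have f4 : A ^ 4 ≤ S ^ 4 := by gcongr
      have f5 : 4 ≤ S ^ 2 := by nlinarith
      have f6 : 4 * A ^ 4 ≤ S ^ 6 := by
        calc 4 * A ^ 4 ≤ S ^ 2 * S ^ 4 := by gcongr
          _ = S ^ 6 := by ring
      rw [f2] at f1
      calc (1 / S) * (A ^ 3 * T ^ (-10 : ℝ)) ≤ (1 / S) * (A ^ 3 * (4 / S ^ 4)) := by gcongr
        _ = (4 * A ^ 4) / (S ^ 5 * A) := by field_simp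
        _ ≤ S ^ 6 / (S ^ 5 * A) := by gcongr
        _ = S * 1 / A := by field_simp
        _ ≤ S ^ (1 + δ) / A := by rw [h10]; gcongr
    calc C * ((1 / S) * ((1 + Real.log T) ^ 5 * ((A ^ ε / A) * (T + A ^ 3)))
        + (1 / S) * (A ^ 3 * T ^ (-10 : ℝ))) ≤ C * (3 * D * (S ^ (1 + δ) / A) + S ^ (1 + δ) / A) := by
          gcongr
      _ = C * (3 * D + 1) * (S ^ (1 + δ) / A) := by ring
  calc A ^ 3 * ∫ s in S..(2 * S), ‖F1 A s ν‖ ^ 4
      ≤ A ^ 3 * ((1 / S) * ∫ t in T..(4 * T), ‖F1 A (√(2 * t)) ν‖ ^ 4) := by gcongr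
    _ ≤ _ := by gcongr
    _ ≤ _ := hmain

/-- Hölder with the weight `1/A` -/
theorem g1_hol (F : ℝ → ℂ) (S : ℝ) (hS : 1 ≤ S) (hF : ContinuousOn F (Set.Icc 1 S)) :
    ‖∫ A in (1 : ℝ)..S, F A‖ ^ 4 ≤ Real.log S ^ 3 * ∫ A in (1 : ℝ)..S, A ^ 3 * ‖F A‖ ^ 4 := by
  have hlog : 0 ≤ Real.log S := Real.log_nonneg hS
  have hFn : ContinuousOn (fun A => ‖F A‖) (Set.Icc 1 S) := hF.norm
  have hu : Set.uIcc 1 S = Set.Icc 1 S := Set.uIcc_of_le hS
  have hi1 : IntervalIntegrable (fun A => ‖F A‖) volume 1 S := by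
    apply ContinuousOn.intervalIntegrable
    rw [hu]; exact hFn
  have hi2 : IntervalIntegrable (fun A : ℝ => A ^ 3 * ‖F A‖ ^ 4) volume 1 S := by
    apply ContinuousOn.intervalIntegrable
    rw [hu]; exact (continuousOn_id.pow 3).mul (hFn.pow 4)
  have hi3 : IntervalIntegrable (fun A : ℝ => A⁻¹) volume 1 S := by
    apply ContinuousOn.intervalIntegrable
    rw [hu]
    exact continuousOn_id.inv₀ (fun x hx => by have := hx.1; simp only [id]; positivity)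
  set J := ∫ A in (1 : ℝ)..S, A ^ 3 * ‖F A‖ ^ 4 with hJ
  set T := ∫ A in (1 : ℝ)..S, ‖F A‖ with hT
  have hJ0 : 0 ≤ J := intervalIntegral.integral_nonneg hS fun A hA => by
    have := hA.1
    positivity
  have hn : ‖∫ A in (1 : ℝ)..S, F A‖ ≤ T := intervalIntegral.norm_integral_le_integral_norm hS
  have hT0 : 0 ≤ T := (norm_nonneg _).trans hn
  have hl : ∫ A in (1 : ℝ)..S, A⁻¹ = Real.log S := by
    rw [integral_inv_of_pos one_pos (by linarith), div_one]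
  have key : ∀ l : ℝ, 0 < l → T ≤ 3 / 4 * l * Real.log S + 1 / 4 * (l ^ 3)⁻¹ * J := by
    intro l hl0
    rw [← hl, hJ, ← intervalIntegral.integral_const_mul, ← intervalIntegral.integral_const_mul,
      ← intervalIntegral.integral_add (hi3.const_mul _) (hi2.const_mul _)]
    refine intervalIntegral.integral_mono_on hS hi1
      ((hi3.const_mul _).add (hi2.const_mul _)) fun A hA => ?_
    have hA0 : 0 < A := by linarith [hA.1]
    have ha : 0 ≤ ‖F A‖ := norm_nonneg _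
    set a := ‖F A‖
    have h1 : 0 ≤ (A * a - l) ^ 2 * ((A * a) ^ 2 + 2 * (A * a) * l + 3 * l ^ 2) := by
      have : 0 ≤ (A * a) ^ 2 + 2 * (A * a) * l + 3 * l ^ 2 := by positivity
      positivity
    have h2 : 3 / 4 * l * A⁻¹ + 1 / 4 * (l ^ 3)⁻¹ * (A ^ 3 * a ^ 4) - a
        = (A * a - l) ^ 2 * ((A * a) ^ 2 + 2 * (A * a) * l + 3 * l ^ 2) / (4 * A * l ^ 3) := by
      field_simp
      ring
    have h3 : 0 ≤ (A * a - l) ^ 2 * ((A * a) ^ 2 + 2 * (A * a) * l + 3 * l ^ 2) / (4 * A * l ^ 3) := by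
      positivity
    linarith
  have h4 : T ^ 4 ≤ Real.log S ^ 3 * J := by
    rcases hT0.eq_or_lt with h | h
    · rw [← h]; simp; positivity
    · rcases hlog.eq_or_lt with h0 | h0
      · have hS1 : S = 1 := by
          rcases hS.eq_or_lt with h5 | h5
          · exact h5.symm
          · exact absurd (Real.log_pos h5) (by rw [← h0]; exact lt_irrefl _)
        rw [hT, hS1, intervalIntegral.integral_same] at h
        exact absurd h (lt_irrefl _)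
      · have h5 := key (T / Real.log S) (by positivity)
        have h6 : 3 / 4 * (T / Real.log S) * Real.log S = 3 / 4 * T := by field_simp
        have h7 : 1 / 4 * ((T / Real.log S) ^ 3)⁻¹ * J = 1 / 4 * (Real.log S ^ 3 * J) / T ^ 3 := by
          field_simp
        rw [h6, h7] at h5
        have h8 : 1 / 4 * T ≤ 1 / 4 * (Real.log S ^ 3 * J) / T ^ 3 := by linarith
        rw [le_div_iff₀ (by positivity)] at h8
        nlinarith [h8]
  calc ‖∫ A in (1 : ℝ)..S, F A‖ ^ 4 ≤ T ^ 4 := by gcongr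
    _ ≤ _ := h4

private lemma fm35_log (η : ℝ) (hη : 0 < η) : ∃ D : ℝ, 0 < D ∧ ∀ S : ℝ, 1 ≤ S →
    Real.log S ^ 4 ≤ D * S ^ η := by
  refine ⟨(1 / (η / 4)) ^ 4, by positivity, fun S hS => ?_⟩
  have hS0 : (0 : ℝ) ≤ S := by linarith
  have h1 : Real.log S ≤ S ^ (η / 4) / (η / 4) := Real.log_le_rpow_div hS0 (by positivity)
  have h0 := Real.log_nonneg hS
  calc Real.log S ^ 4 ≤ (S ^ (η / 4) / (η / 4)) ^ 4 := by gcongr
    _ = (1 / (η / 4)) ^ 4 * S ^ η := by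
      rw [div_pow, ← Real.rpow_natCast (S ^ (η / 4)) 4, ← Real.rpow_mul hS0,
        show η / 4 * ((4 : ℕ) : ℝ) = η by push_cast; ring, one_div, inv_pow]
      ring

private lemma fm35_small (δ : ℝ) (hδ : 0 < δ) (ν S : ℝ) (hν : 0 < ν) (hS : 1 ≤ S) (h : S < 2) :
    ∫ s in S..(2 * S), ‖∫ A in (1 : ℝ)..S, F1 A s ν‖ ^ 4 ≤ 162 * S ^ (1 + δ) := by
  have hSpow : (1 : ℝ) ≤ S ^ (1 + δ) := Real.one_le_rpow hS (by positivity)
  have hb : ∀ s : ℝ, ‖∫ A in (1 : ℝ)..S, F1 A s ν‖ ^ 4 ≤ 81 := by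
    intro s
    have h3 : ‖∫ A in (1 : ℝ)..S, F1 A s ν‖ ≤ 3 * |S - 1| := by
      refine intervalIntegral.norm_integral_le_of_norm_le_const (fun A hA => ?_)
      rw [Set.uIoc_of_le hS] at hA
      exact g1_triv A s ν (by linarith [hA.1]) hν
    have h4 : |S - 1| ≤ 1 := by rw [abs_le]; constructor <;> linarith
    have h5 : ‖∫ A in (1 : ℝ)..S, F1 A s ν‖ ≤ 3 := by linarith
    calc ‖∫ A in (1 : ℝ)..S, F1 A s ν‖ ^ 4 ≤ (3 : ℝ) ^ 4 := by gcongr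
      _ = 81 := by norm_num
  have hi : ‖∫ s in S..(2 * S), ‖∫ A in (1 : ℝ)..S, F1 A s ν‖ ^ 4‖ ≤ 81 * |2 * S - S| := by
    refine intervalIntegral.norm_integral_le_of_norm_le_const (fun s _ => ?_)
    rw [Real.norm_of_nonneg (by positivity)]
    exact hb s
  have h6 : |2 * S - S| ≤ 2 := by rw [abs_le]; constructor <;> linarith
  have h7 := (le_abs_self _).trans hi
  linarith

private lemma fm35_int (ν S : ℝ) (hν : 0 < ν) :
    IntegrableOn (Function.uncurry fun s A : ℝ => A ^ 3 * ‖F1 A s ν‖ ^ 4)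
      (Set.Ioc S (2 * S) ×ˢ Set.Ioc 1 S) := by
  have hc : ContinuousOn (Function.uncurry fun s A : ℝ => A ^ 3 * ‖F1 A s ν‖ ^ 4)
      (Set.Icc S (2 * S) ×ˢ Set.Icc 1 S) := by
    have h1 : ContinuousOn (fun q : ℝ × ℝ => F1 q.2 q.1 ν) (Set.Icc S (2 * S) ×ˢ Set.Icc 1 S) := by
      refine (g1_cont ν hν).comp (f := fun q : ℝ × ℝ => (q.2, q.1)) (by fun_prop) ?_
      intro q hq
      refine ⟨?_, trivial⟩
      have := hq.2.1
      simp only [Set.mem_Ici]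
      linarith
    have h2 : ContinuousOn (fun q : ℝ × ℝ => q.2 ^ 3 * ‖F1 q.2 q.1 ν‖ ^ 4)
        (Set.Icc S (2 * S) ×ˢ Set.Icc 1 S) :=
      (continuous_snd.pow 3).continuousOn.mul (h1.norm.pow 4)
    exact h2
  exact (hc.integrableOn_compact (isCompact_Icc.prod isCompact_Icc)).mono_set
    (Set.prod_mono Set.Ioc_subset_Icc_self Set.Ioc_subset_Icc_self)

private lemma fm35_one (ν S : ℝ) (hν : 0 < ν) (hS : 1 ≤ S) :
    ∫ s in S..(2 * S), ‖∫ A in (1 : ℝ)..S, F1 A s ν‖ ^ 4 ≤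
      Real.log S ^ 3 * ∫ A in (1 : ℝ)..S, A ^ 3 * ∫ s in S..(2 * S), ‖F1 A s ν‖ ^ 4 := by
  have h2S : S ≤ 2 * S := by linarith
  have hint := fm35_int ν S hν
  have hsw : ∫ s in S..(2 * S), ∫ A in (1 : ℝ)..S, A ^ 3 * ‖F1 A s ν‖ ^ 4 =
      ∫ A in (1 : ℝ)..S, ∫ s in S..(2 * S), A ^ 3 * ‖F1 A s ν‖ ^ 4 := by
    refine intervalIntegral_intervalIntegral_swap ?_
    rw [Set.uIoc_of_le h2S, Set.uIoc_of_le hS]
    exact hint
  have hpt : ∀ s : ℝ, ‖∫ A in (1 : ℝ)..S, F1 A s ν‖ ^ 4 ≤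
      Real.log S ^ 3 * ∫ A in (1 : ℝ)..S, A ^ 3 * ‖F1 A s ν‖ ^ 4 := by
    intro s
    refine g1_hol (fun A => F1 A s ν) S hS ?_
    refine (g1_cont ν hν).comp (f := fun A : ℝ => (A, s)) (by fun_prop) ?_
    intro A hA
    refine ⟨?_, trivial⟩
    have := hA.1
    simp only [Set.mem_Ici]
    linarith
  have hR : Integrable (fun s : ℝ => ∫ A in (1 : ℝ)..S, A ^ 3 * ‖F1 A s ν‖ ^ 4)
      (volume.restrict (Set.Ioc S (2 * S))) := by
    have h1 : Integrable (Function.uncurry fun s A : ℝ => A ^ 3 * ‖F1 A s ν‖ ^ 4)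
        ((volume.restrict (Set.Ioc S (2 * S))).prod (volume.restrict (Set.Ioc 1 S))) := by
      rw [Measure.prod_restrict, ← Measure.volume_eq_prod]
      exact hint
    have h2 := h1.integral_prod_left
    simp only [intervalIntegral.integral_of_le hS]
    exact h2
  calc ∫ s in S..(2 * S), ‖∫ A in (1 : ℝ)..S, F1 A s ν‖ ^ 4
      ≤ ∫ s in S..(2 * S), Real.log S ^ 3 * ∫ A in (1 : ℝ)..S, A ^ 3 * ‖F1 A s ν‖ ^ 4 := by
        rw [intervalIntegral.integral_of_le h2S, intervalIntegral.integral_of_le h2S]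
        refine integral_mono_of_nonneg (Filter.Eventually.of_forall fun s => ?_)
          (hR.const_mul _) (Filter.Eventually.of_forall fun s => hpt s)
        simp only [Pi.zero_apply]
        positivity
    _ = Real.log S ^ 3 * ∫ s in S..(2 * S), ∫ A in (1 : ℝ)..S, A ^ 3 * ‖F1 A s ν‖ ^ 4 := by
        rw [intervalIntegral.integral_const_mul]
    _ = _ := by
        rw [hsw]
        simp only [intervalIntegral.integral_const_mul]

theorem g1 (δ : ℝ) (hδ : 0 < δ) : ∃ C : ℝ, 0 < C ∧ ∀ ν S : ℝ, 0 < ν → ν ≤ 1 → 1 ≤ S →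
    ∫ s in S..(2 * S), ‖∫ A in (1 : ℝ)..S, F1 A s ν‖ ^ 4 ≤ C * S ^ (1 + δ) := by
  obtain ⟨C1, hC1, h1⟩ := g1_hi (δ / 2) (by positivity)
  obtain ⟨C2, hC2, h2⟩ := g1_lo (δ / 2) (by positivity)
  obtain ⟨D, hD, h3⟩ := fm35_log (δ / 2) (by positivity)
  refine ⟨162 + (C1 + C2) * D, by positivity, fun ν S hν hν1 hS => ?_⟩
  have hS0 : 0 < S := by linarith
  have hSpow : (0 : ℝ) < S ^ (1 + δ) := by positivity
  rcases lt_or_ge S 2 with h | h
  · have h4 := fm35_small δ hδ ν S hν hS h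
    have h5 : 0 ≤ (C1 + C2) * D * S ^ (1 + δ) := by positivity
    linarith
  have hlog : 0 ≤ Real.log S := Real.log_nonneg hS
  have hpt : ∀ A ∈ Set.Ioc 1 S, A ^ 3 * ∫ s in S..(2 * S), ‖F1 A s ν‖ ^ 4 ≤
      (C1 + C2) * S ^ (1 + δ / 2) * A⁻¹ := by
    intro A hA
    have hA0 : 0 < A := by linarith [hA.1]
    have hq : 0 ≤ S ^ (1 + δ / 2) / A := by positivity
    rcases le_total (S ^ 2) (A ^ 3) with h6 | h6
    · have h7 := h1 A S ν h hA.1.le hA.2 h6 hν hν1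
      have h8 : 0 ≤ C2 * (S ^ (1 + δ / 2) / A) := by positivity
      calc _ ≤ C1 * (S ^ (1 + δ / 2) / A) + C2 * (S ^ (1 + δ / 2) / A) := by linarith
        _ = _ := by ring
    · have h7 := h2 A S ν h hA.1.le h6 hν hν1
      have h8 : 0 ≤ C1 * (S ^ (1 + δ / 2) / A) := by positivity
      calc _ ≤ C1 * (S ^ (1 + δ / 2) / A) + C2 * (S ^ (1 + δ / 2) / A) := by linarith
        _ = _ := by ring
  have hI : ∫ A in (1 : ℝ)..S, A ^ 3 * ∫ s in S..(2 * S), ‖F1 A s ν‖ ^ 4 ≤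
      (C1 + C2) * S ^ (1 + δ / 2) * Real.log S := by
    have hl : ∫ A in (1 : ℝ)..S, A⁻¹ = Real.log S := by
      rw [integral_inv_of_pos one_pos hS0, div_one]
    have hi3 : IntervalIntegrable (fun A : ℝ => A⁻¹) volume 1 S := by
      apply ContinuousOn.intervalIntegrable
      rw [Set.uIcc_of_le hS]
      exact continuousOn_id.inv₀ (fun x hx => by have := hx.1; simp only [id]; positivity)
    rw [← hl, ← intervalIntegral.integral_const_mul, intervalIntegral.integral_of_le hS,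
      intervalIntegral.integral_of_le hS]
    refine integral_mono_of_nonneg ?_ ((hi3.const_mul _).1) ?_
    · rw [Filter.EventuallyLE, ae_restrict_iff' measurableSet_Ioc]
      refine Filter.Eventually.of_forall fun A hA => ?_
      have hA0 : 0 < A := by linarith [hA.1]
      have : 0 ≤ ∫ s in S..(2 * S), ‖F1 A s ν‖ ^ 4 :=
        intervalIntegral.integral_nonneg (by linarith) fun s _ => by positivity
      simp only [Pi.zero_apply]
      positivity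
    · rw [Filter.EventuallyLE, ae_restrict_iff' measurableSet_Ioc]
      exact Filter.Eventually.of_forall fun A hA => hpt A hA
  have h9 : S ^ (1 + δ / 2) * S ^ (δ / 2) = S ^ (1 + δ) := by
    rw [← Real.rpow_add hS0]
    congr 1
    ring
  calc ∫ s in S..(2 * S), ‖∫ A in (1 : ℝ)..S, F1 A s ν‖ ^ 4
      ≤ Real.log S ^ 3 * ∫ A in (1 : ℝ)..S, A ^ 3 * ∫ s in S..(2 * S), ‖F1 A s ν‖ ^ 4 :=
        fm35_one ν S hν hS
    _ ≤ Real.log S ^ 3 * ((C1 + C2) * S ^ (1 + δ / 2) * Real.log S) := by gcongr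
    _ = (C1 + C2) * S ^ (1 + δ / 2) * Real.log S ^ 4 := by ring
    _ ≤ (C1 + C2) * S ^ (1 + δ / 2) * (D * S ^ (δ / 2)) := by
        gcongr
        exact h3 S hS
    _ = (C1 + C2) * D * (S ^ (1 + δ / 2) * S ^ (δ / 2)) := by ring
    _ = (C1 + C2) * D * S ^ (1 + δ) := by rw [h9]
    _ ≤ (162 + (C1 + C2) * D) * S ^ (1 + δ) := by
        have : 0 ≤ 162 * S ^ (1 + δ) := by positivity
        linarith

end Pool.Agent.Helper31.FM
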