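import Pool.Agent.Helper31.FM.G1
import Pool.Agent.Helper31.FI.MainSum

/-!
# FM-G2: pointwise bound of the rest

With `y = ν + i`, `e_i = ze^i exp (-π i s²/y) = ee (ph (s²) ν i)` (`FI.Diffs`): by `g2_int`
`mains (s²) ν m - fst - ∫_1^S F1 dA = ∑_{1 ≤ i < m} e_i y^(-1/2) (1 - exp (-1/y)) + ∑_{1 ≤ i < m} e_i y^(-1/2) exp (-S/y)
 - ∑_{i ≥ m} e_i y^(-1/2) (exp (-1/y) - exp (-S/y))`.
First sum: absolutely `≤ ∑ y^(-3/2) ≤ C`.  Second sum, dyadic blocks `i ∈ [K, min (2K, m))`: `g2_bv` with `g2_w1`; `K ≤ 4S`: `g2_e1`: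
`≤ C K^(-1/2) exp (-S/(4K)) (s K^(-1/2) + K^(3/2)/s) ≤ C`, `≤ C (1 + log m)` blocks; `K ≥ 4S ≥ 2s`: `g2_e2`, block `≤ C K^(-1/2)`.
Third sum (`m ≥ 4S`): dyadic blocks from `m`, `g2_e2`, `g2_w2`, block `≤ C K^(-1/2)`; the series converges absolutely, pass to the
limit of the initial sums.
`g2s`: `s ≤ 2`: `g2_e3` and the weight `y^(-1/2)` (decreasing): block `≤ C K^(-1/2)`.
-/

set_option autoImplicit false

namespace Pool.Agent.Helper31.FM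

open Complex Real Finset MeasureTheory
open Pool.Agent.Helper31.FI (ee ze mains)

/-- the term `i = 0` of `mains` -/
noncomputable def fst (ν s : ℝ) : ℂ := ((ν ^ (-(1 / 2) : ℝ) : ℝ) : ℂ) * cexp (-(π * I * s ^ 2 / ν))

private theorem fm36_ze : ‖ze‖ = 1 := by
  have : ze = cexp (((3 * π / 4 : ℝ) : ℂ) * I) := by
    unfold ze; congr 1; push_cast; ring
  rw [this, Complex.norm_exp_ofReal_mul_I]

private theorem fm36_summ : Summable (fun i : ℕ => ((i + 1 : ℕ) : ℝ) ^ (-(3 / 2) : ℝ)) :=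
  (summable_nat_add_iff 1).2 (Real.summable_nat_rpow.2 (by norm_num))

private theorem fm36_pow (y : ℝ) (hy : 0 < y) : y ^ (-(3 / 2) : ℝ) * y = y ^ (-(1 / 2) : ℝ) := by
  rw [← Real.rpow_add_one hy.ne']
  norm_num

private theorem fm36_le (ν : ℝ) (hν : 0 < ν) (i : ℕ) :
    (ν + (i + 1) : ℝ) ^ (-(3 / 2) : ℝ) ≤ ((i + 1 : ℕ) : ℝ) ^ (-(3 / 2) : ℝ) := by
  apply Real.rpow_le_rpow_of_nonpos
  · positivity
  · push_cast; linarith
  · norm_num

private theorem fm36_exp (y S : ℝ) (hy : 0 < y) :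
    ∫ A in (1 : ℝ)..S, Real.exp (-(A / y)) = y * (Real.exp (-(1 / y)) - Real.exp (-(S / y))) := by
  have h : ∀ A ∈ Set.uIcc 1 S, HasDerivAt (fun A => -(y * Real.exp (-(A / y))))
      (Real.exp (-(A / y))) A := by
    intro A _
    have h1 : HasDerivAt (fun A : ℝ => -(A / y)) (-(1 / y)) A :=
      ((hasDerivAt_id A).div_const y).neg
    have h2 := ((h1.exp).const_mul y).neg
    refine h2.congr_deriv ?_
    field_simp
  rw [intervalIntegral.integral_eq_sub_of_hasDerivAt h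
    (Continuous.intervalIntegrable (by fun_prop) _ _)]
  ring

/-- `∫_1^S y^(-3/2) exp (-A/y) dA = y^(-1/2) (exp (-1/y) - exp (-S/y))` termwise; the sum and the integral may be exchanged
(`‖term‖ ≤ (i+1)^(-3/2)`) -/
theorem g2_int (ν S s : ℝ) (hν : 0 < ν) (hS : 1 ≤ S) :
    (Summable fun i : ℕ => ‖(((ν + (i + 1) : ℝ) ^ (-(1 / 2) : ℝ) *
      (Real.exp (-(1 / (ν + (i + 1)))) - Real.exp (-(S / (ν + (i + 1))))) : ℝ) : ℂ)‖) ∧
    ∫ A in (1 : ℝ)..S, F1 A s ν = ∑' i : ℕ, (((ν + (i + 1) : ℝ) ^ (-(1 / 2) : ℝ) *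
      (Real.exp (-(1 / (ν + (i + 1)))) - Real.exp (-(S / (ν + (i + 1))))) : ℝ) : ℂ) *
        (ze ^ (i + 1) * cexp (-(π * I * s ^ 2 / ((ν + (i + 1) : ℝ) : ℂ)))) := by
  have hterm : ∀ (A : ℝ) (i : ℕ), (((ν + (i + 1) : ℝ) ^ (-(3 / 2) : ℝ) : ℝ) : ℂ) *
      cexp (-(((A : ℂ) + π * s ^ 2 * I) / ((ν + (i + 1) : ℝ) : ℂ))) * ze ^ (i + 1) =
      ((Real.exp (-(A / (ν + (i + 1)))) : ℝ) : ℂ) * ((((ν + (i + 1) : ℝ) ^ (-(3 / 2) : ℝ) : ℝ) : ℂ) *
        (ze ^ (i + 1) * cexp (-(π * I * s ^ 2 / ((ν + (i + 1) : ℝ) : ℂ))))) := by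
    intro A i
    have h1 : cexp (-(((A : ℂ) + π * s ^ 2 * I) / ((ν + (i + 1) : ℝ) : ℂ))) =
        ((Real.exp (-(A / (ν + (i + 1)))) : ℝ) : ℂ) *
          cexp (-(π * I * s ^ 2 / ((ν + (i + 1) : ℝ) : ℂ))) := by
      rw [Complex.ofReal_exp, ← Complex.exp_add]
      congr 1
      push_cast
      ring
    rw [h1]
    ring
  have hphase : ∀ i : ℕ, ‖ze ^ (i + 1) * cexp (-(π * I * s ^ 2 / ((ν + (i + 1) : ℝ) : ℂ)))‖ = 1 := by
    intro i
    have h2 : cexp (-(π * I * s ^ 2 / ((ν + (i + 1) : ℝ) : ℂ))) =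
        cexp (((-(π * s ^ 2 / (ν + (i + 1))) : ℝ) : ℂ) * I) := by
      congr 1; push_cast; ring
    rw [norm_mul, norm_pow, fm36_ze, h2, Complex.norm_exp_ofReal_mul_I, one_pow, one_mul]
  have hint : ∀ i : ℕ, ∫ A in (1 : ℝ)..S, (((ν + (i + 1) : ℝ) ^ (-(3 / 2) : ℝ) : ℝ) : ℂ) *
      cexp (-(((A : ℂ) + π * s ^ 2 * I) / ((ν + (i + 1) : ℝ) : ℂ))) * ze ^ (i + 1) =
      (((ν + (i + 1) : ℝ) ^ (-(1 / 2) : ℝ) *
        (Real.exp (-(1 / (ν + (i + 1)))) - Real.exp (-(S / (ν + (i + 1))))) : ℝ) : ℂ) *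
        (ze ^ (i + 1) * cexp (-(π * I * s ^ 2 / ((ν + (i + 1) : ℝ) : ℂ)))) := by
    intro i
    have hy : (0 : ℝ) < ν + (i + 1) := by positivity
    simp_rw [hterm]
    rw [intervalIntegral.integral_mul_const, intervalIntegral.integral_ofReal, fm36_exp _ S hy,
      ← fm36_pow _ hy]
    push_cast
    ring
  constructor
  · refine Summable.of_nonneg_of_le (fun i => norm_nonneg _) (fun i => ?_) (fm36_summ.mul_left (S - 1))
    have hy : (0 : ℝ) < ν + (i + 1) := by positivity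
    have e1 : (((ν + (i + 1) : ℝ) ^ (-(1 / 2) : ℝ) *
        (Real.exp (-(1 / (ν + (i + 1)))) - Real.exp (-(S / (ν + (i + 1))))) : ℝ) : ℂ) =
        (((ν + (i + 1) : ℝ) ^ (-(3 / 2) : ℝ) *
        ((ν + (i + 1)) * (Real.exp (-(1 / (ν + (i + 1)))) - Real.exp (-(S / (ν + (i + 1)))))) : ℝ) : ℂ) := by
      congr 1
      rw [← fm36_pow _ hy]
      ring
    have h3 : Real.exp (-(S / (ν + (i + 1)))) ≤ Real.exp (-(1 / (ν + (i + 1)))) := by
      refine Real.exp_le_exp.2 (neg_le_neg ?_)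
      exact div_le_div_of_nonneg_right hS hy.le
    have h4 : (ν + (i + 1)) * (Real.exp (-(1 / (ν + (i + 1)))) - Real.exp (-(S / (ν + (i + 1))))) ≤
        S - 1 := by
      rw [← fm36_exp _ S hy]
      calc ∫ A in (1 : ℝ)..S, Real.exp (-(A / (ν + (i + 1)))) ≤ ∫ A in (1 : ℝ)..S, (1 : ℝ) := by
            refine intervalIntegral.integral_mono_on hS
              (Continuous.intervalIntegrable (by fun_prop) _ _)
              (Continuous.intervalIntegrable (by fun_prop) _ _) (fun A hA => ?_)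
            rw [Real.exp_le_one_iff]
            have : 0 ≤ A / (ν + (i + 1)) := div_nonneg (by linarith [hA.1]) hy.le
            linarith
        _ = S - 1 := by simp
    rw [e1, Complex.norm_real, Real.norm_of_nonneg
      (mul_nonneg (Real.rpow_nonneg hy.le _) (mul_nonneg hy.le (by linarith)))]
    calc (ν + (i + 1) : ℝ) ^ (-(3 / 2) : ℝ) *
          ((ν + (i + 1)) * (Real.exp (-(1 / (ν + (i + 1)))) - Real.exp (-(S / (ν + (i + 1))))))
        ≤ ((i + 1 : ℕ) : ℝ) ^ (-(3 / 2) : ℝ) * (S - 1) :=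
          mul_le_mul (fm36_le ν hν i) h4 (mul_nonneg hy.le (by linarith)) (by positivity)
      _ = (S - 1) * ((i + 1 : ℕ) : ℝ) ^ (-(3 / 2) : ℝ) := mul_comm _ _
  · have hF : ∀ A : ℝ, F1 A s ν = ∑' i : ℕ, (((ν + (i + 1) : ℝ) ^ (-(3 / 2) : ℝ) : ℝ) : ℂ) *
      cexp (-(((A : ℂ) + π * s ^ 2 * I) / ((ν + (i + 1) : ℝ) : ℂ))) * ze ^ (i + 1) := fun A => rfl
    have hb : ∀ (A : ℝ), 0 ≤ A → ∀ i : ℕ, ‖(((ν + (i + 1) : ℝ) ^ (-(3 / 2) : ℝ) : ℝ) : ℂ) *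
        cexp (-(((A : ℂ) + π * s ^ 2 * I) / ((ν + (i + 1) : ℝ) : ℂ))) * ze ^ (i + 1)‖ ≤
        ((i + 1 : ℕ) : ℝ) ^ (-(3 / 2) : ℝ) := by
      intro A hA i
      have hy : (0 : ℝ) < ν + (i + 1) := by positivity
      rw [hterm, norm_mul, norm_mul, hphase, mul_one, Complex.norm_real, Complex.norm_real,
        Real.norm_of_nonneg (Real.exp_pos _).le, Real.norm_of_nonneg (Real.rpow_nonneg hy.le _)]
      have h4 : Real.exp (-(A / (ν + (i + 1)))) ≤ 1 := by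
        rw [Real.exp_le_one_iff]
        have : 0 ≤ A / (ν + (i + 1)) := by positivity
        linarith
      calc _ ≤ 1 * (ν + (i + 1) : ℝ) ^ (-(3 / 2) : ℝ) :=
            mul_le_mul_of_nonneg_right h4 (Real.rpow_nonneg hy.le _)
        _ ≤ _ := by rw [one_mul]; exact fm36_le ν hν i
    have hmem : ∀ t : ℝ, t ∈ Set.uIoc 1 S → 0 ≤ t := by
      intro t ht
      rw [Set.uIoc_of_le hS] at ht
      linarith [ht.1]
    have key := intervalIntegral.hasSum_integral_of_dominated_convergence (μ := volume) (a := (1 : ℝ))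
      (b := S) (F := fun (i : ℕ) (A : ℝ) => (((ν + (i + 1) : ℝ) ^ (-(3 / 2) : ℝ) : ℝ) : ℂ) *
        cexp (-(((A : ℂ) + π * s ^ 2 * I) / ((ν + (i + 1) : ℝ) : ℂ))) * ze ^ (i + 1))
      (f := fun A => F1 A s ν) (fun i _ => ((i + 1 : ℕ) : ℝ) ^ (-(3 / 2) : ℝ))
      (fun i => (Continuous.aestronglyMeasurable (by fun_prop)))
      (fun i => Filter.Eventually.of_forall fun t ht => hb t (hmem t ht) i)
      (Filter.Eventually.of_forall fun t _ => fm36_summ)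
      (intervalIntegrable_const)
      (Filter.Eventually.of_forall fun t ht => by
        rw [hF]
        exact (Summable.of_norm_bounded fm36_summ (fun i => hb t (hmem t ht) i)).hasSum)
    rw [← key.tsum_eq]
    exact tsum_congr hint

/-- summation by parts -/
theorem g2_bv (w : ℕ → ℝ) (e : ℕ → ℂ) (p q : ℕ) (B : ℝ) (hpq : p ≤ q)
    (hB : ∀ r, p ≤ r → r ≤ q → ‖∑ i ∈ Ico p r, e i‖ ≤ B) :
    ‖∑ i ∈ Ico p q, (w i : ℂ) * e i‖ ≤ B * (|w q| + ∑ i ∈ Ico p q, |w (i + 1) - w i|) := by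
  have key : ∀ q, p ≤ q → ∑ i ∈ Ico p q, (w i : ℂ) * e i =
      (w q : ℂ) * (∑ i ∈ Ico p q, e i) -
        ∑ i ∈ Ico p q, ((w (i + 1) - w i : ℝ) : ℂ) * (∑ j ∈ Ico p (i + 1), e j) := by
    intro q hq
    induction q, hq using Nat.le_induction with
    | base => simp
    | succ q hq ih =>
      rw [Finset.sum_Ico_succ_top hq, Finset.sum_Ico_succ_top hq, Finset.sum_Ico_succ_top hq,
        Finset.sum_Ico_succ_top hq, ih]
      push_cast
      ring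
  rw [key q hpq]
  refine (norm_sub_le _ _).trans ?_
  rw [mul_add]
  refine add_le_add ?_ ?_
  · rw [norm_mul, Complex.norm_real, Real.norm_eq_abs, mul_comm]
    exact mul_le_mul_of_nonneg_right (hB q hpq le_rfl) (abs_nonneg _)
  · refine (norm_sum_le _ _).trans ?_
    rw [Finset.mul_sum]
    refine Finset.sum_le_sum fun i hi => ?_
    rw [Finset.mem_Ico] at hi
    rw [norm_mul, Complex.norm_real, Real.norm_eq_abs, mul_comm]
    exact mul_le_mul_of_nonneg_right (hB (i + 1) (by omega) (by omega)) (abs_nonneg _)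

/-- the variation of a product of a decreasing and an increasing sequence -/
theorem g2_w1_aux (a b : ℕ → ℝ) (K : ℕ) (ha : ∀ i, K ≤ i → a (i + 1) ≤ a i) (hb : ∀ i, K ≤ i → b i ≤ b (i + 1))
    (ha0 : ∀ i, K ≤ i → 0 ≤ a i) (hb0 : ∀ i, K ≤ i → 0 ≤ b i) (q : ℕ) (hq : K ≤ q) :
    ∑ i ∈ Ico K q, |a (i + 1) * b (i + 1) - a i * b i| ≤ b q * (a K - a q) + a K * (b q - b K) ∧
      a q ≤ a K ∧ b K ≤ b q := by
  induction q, hq using Nat.le_induction with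
  | base => simp
  | succ q hq ih =>
    obtain ⟨h1, h2, h3⟩ := ih
    refine ⟨?_, (ha q hq).trans h2, h3.trans (hb q hq)⟩
    rw [Finset.sum_Ico_succ_top hq]
    have e1 : |a (q + 1) * b (q + 1) - a q * b q| ≤
        (a q - a (q + 1)) * b (q + 1) + a q * (b (q + 1) - b q) := by
      have h4 : 0 ≤ (a q - a (q + 1)) * b (q + 1) :=
        mul_nonneg (sub_nonneg.2 (ha q hq)) (hb0 (q + 1) (by omega))
      have h5 : 0 ≤ a q * (b (q + 1) - b q) := mul_nonneg (ha0 q hq) (sub_nonneg.2 (hb q hq))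
      rw [abs_le]
      constructor <;> nlinarith
    have h6 : b q * (a K - a q) ≤ b (q + 1) * (a K - a q) :=
      mul_le_mul_of_nonneg_right (hb q hq) (sub_nonneg.2 h2)
    have h7 : a q * (b (q + 1) - b q) ≤ a K * (b (q + 1) - b q) :=
      mul_le_mul_of_nonneg_right h2 (sub_nonneg.2 (hb q hq))
    nlinarith

/-- the weight `y^(-1/2) exp (-S/y)` -/
theorem g2_w1 : ∃ C : ℝ, 0 < C ∧ ∀ (ν S : ℝ) (K q : ℕ), 0 < ν → ν ≤ 1 → 0 ≤ S → 1 ≤ K → K ≤ q → q ≤ 2 * K →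
    |(ν + q : ℝ) ^ (-(1 / 2) : ℝ) * Real.exp (-(S / (ν + q)))| +
      ∑ i ∈ Ico K q, |(ν + (i + 1 : ℕ) : ℝ) ^ (-(1 / 2) : ℝ) * Real.exp (-(S / (ν + (i + 1 : ℕ)))) -
        (ν + i : ℝ) ^ (-(1 / 2) : ℝ) * Real.exp (-(S / (ν + i)))| ≤
      C * ((K : ℝ) ^ (-(1 / 2) : ℝ) * Real.exp (-(S / (6 * K)))) := by
  refine ⟨3, by norm_num, ?_⟩
  intro ν S K q hν hν1 hS hK hKq hq2
  have hK' : (1 : ℝ) ≤ K := by exact_mod_cast hK
  have hq' : (q : ℝ) ≤ 2 * K := by exact_mod_cast hq2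
  have pos : ∀ i : ℕ, (0 : ℝ) < ν + i := fun i => by positivity
  have h := g2_w1_aux (fun i : ℕ => (ν + i : ℝ) ^ (-(1 / 2) : ℝ)) (fun i : ℕ => Real.exp (-(S / (ν + i)))) K
    (fun i _ => by
      show (ν + ((i + 1 : ℕ) : ℝ)) ^ (-(1 / 2) : ℝ) ≤ (ν + i : ℝ) ^ (-(1 / 2) : ℝ)
      exact Real.rpow_le_rpow_of_nonpos (pos i) (by push_cast; linarith) (by norm_num))
    (fun i _ => by
      show Real.exp (-(S / (ν + i))) ≤ Real.exp (-(S / (ν + ((i + 1 : ℕ) : ℝ))))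
      refine Real.exp_le_exp.2 (neg_le_neg ?_)
      exact div_le_div_of_nonneg_left hS (pos i) (by push_cast; linarith))
    (fun i _ => Real.rpow_nonneg (pos i).le _) (fun i _ => (Real.exp_pos _).le) q hKq
  obtain ⟨h1, h2, h3⟩ := h
  have aq : (0 : ℝ) ≤ (ν + q : ℝ) ^ (-(1 / 2) : ℝ) := Real.rpow_nonneg (pos q).le _
  have bK : (0 : ℝ) ≤ Real.exp (-(S / (ν + K))) := (Real.exp_pos _).le
  have bq : (0 : ℝ) ≤ Real.exp (-(S / (ν + q))) := (Real.exp_pos _).le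
  have aK : (0 : ℝ) ≤ (ν + K : ℝ) ^ (-(1 / 2) : ℝ) := Real.rpow_nonneg (pos K).le _
  have aK2 : (ν + K : ℝ) ^ (-(1 / 2) : ℝ) ≤ (K : ℝ) ^ (-(1 / 2) : ℝ) :=
    Real.rpow_le_rpow_of_nonpos (by linarith) (by linarith) (by norm_num)
  have bq2 : Real.exp (-(S / (ν + q))) ≤ Real.exp (-(S / (6 * K))) := by
    refine Real.exp_le_exp.2 (neg_le_neg ?_)
    exact div_le_div_of_nonneg_left hS (pos q) (by linarith)
  rw [abs_of_nonneg (mul_nonneg aq bq)]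
  have h4 : (ν + q : ℝ) ^ (-(1 / 2) : ℝ) * Real.exp (-(S / (ν + q))) ≤
      (ν + K : ℝ) ^ (-(1 / 2) : ℝ) * Real.exp (-(S / (ν + q))) := mul_le_mul_of_nonneg_right h2 bq
  have h5 : (ν + K : ℝ) ^ (-(1 / 2) : ℝ) * Real.exp (-(S / (ν + q))) ≤
      (K : ℝ) ^ (-(1 / 2) : ℝ) * Real.exp (-(S / (6 * K))) :=
    mul_le_mul aK2 bq2 bq (Real.rpow_nonneg (by linarith) _)
  have h6 : 0 ≤ Real.exp (-(S / (ν + q))) * (ν + q : ℝ) ^ (-(1 / 2) : ℝ) := mul_nonneg bq aq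
  have h7 : 0 ≤ (ν + K : ℝ) ^ (-(1 / 2) : ℝ) * Real.exp (-(S / (ν + K))) := mul_nonneg aK bK
  nlinarith

private theorem g2_e_ee (ν s : ℝ) (i : ℕ) :
    ze ^ i * cexp (-(π * I * s ^ 2 / ((ν + i : ℝ) : ℂ))) = ee (FI.ph (s ^ 2) ν i) := by
  rw [← FI.ze_mul]
  push_cast
  rfl

private theorem g2_e_shift (ν s : ℝ) (K r : ℕ) :
    ∑ i ∈ Ico K r, ze ^ i * cexp (-(π * I * s ^ 2 / ((ν + i : ℝ) : ℂ))) =
      ∑ j ∈ range (r - K), ee ((fun j => FI.ph (s ^ 2) ν (K + j)) j) := by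
  rw [Finset.sum_Ico_eq_sum_range]
  exact Finset.sum_congr rfl fun j _ => g2_e_ee ν s (K + j)

/-- initial sums, second derivative test (`FI.vdc2'`, `FI.dl2_ph`) -/
theorem g2_e1 : ∃ C : ℝ, 0 < C ∧ ∀ (ν s : ℝ) (K r : ℕ), 0 < ν → ν ≤ 1 → 0 < s → 1 ≤ K → K ≤ r → r ≤ 2 * K →
    ‖∑ i ∈ Ico K r, ze ^ i * cexp (-(π * I * s ^ 2 / ((ν + i : ℝ) : ℂ)))‖ ≤
      C * (s * (K : ℝ) ^ (-(1 / 2) : ℝ) + (K : ℝ) ^ (3 / 2 : ℝ) / s) := by
  obtain ⟨C, hC, H⟩ := FI.vdc2'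
  refine ⟨5 * C, by positivity, fun ν s K r hν hν1 hs hK hKr hr => ?_⟩
  have hK1 : (1 : ℝ) ≤ K := by exact_mod_cast hK
  have hK0 : (0 : ℝ) < K := by linarith
  rw [g2_e_shift]
  have hdd : ∀ j, FI.dl (FI.dl (fun j => FI.ph (s ^ 2) ν (K + j))) j =
      FI.dl (FI.dl (FI.ph (s ^ 2) ν)) (K + j) := fun j => rfl
  set lam : ℝ := s ^ 2 / (24 * (K : ℝ) ^ 3) with hlam
  have hlam0 : 0 < lam := by positivity
  have hX : ∀ j : ℕ, j < r - K → (K : ℝ) ≤ ν + ((K + j : ℕ) : ℝ) ∧ ν + ((K + j : ℕ) : ℝ) ≤ 2 * K := by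
    intro j hj
    have h1 : K + j + 1 ≤ 2 * K := by omega
    have h2 : (K : ℝ) + j + 1 ≤ 2 * K := by exact_mod_cast h1
    have h3 : (0 : ℝ) ≤ j := Nat.cast_nonneg j
    push_cast
    constructor <;> linarith
  have hb := H (fun j => FI.ph (s ^ 2) ν (K + j)) (r - K) lam 24 hlam0 (by norm_num)
    (fun j hj => by
      obtain ⟨a1, a2⟩ := hX j hj
      rw [hdd, FI.dl2_ph hν, neg_neg, hlam]
      generalize ν + ((K + j : ℕ) : ℝ) = X at a1 a2 ⊢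
      have hX0 : 0 < X := by linarith
      apply div_le_div_of_nonneg_left (by positivity) (by positivity)
      have h1 : X * (X + 1) ≤ 2 * K * (3 * K) := by
        apply mul_le_mul a2 (by linarith) (by linarith) (by linarith)
      calc X * (X + 1) * (X + 2) ≤ 2 * K * (3 * K) * (4 * K) := by
            apply mul_le_mul h1 (by linarith) (by linarith) (by positivity)
        _ = 24 * (K : ℝ) ^ 3 := by ring)
    (fun j hj => by
      obtain ⟨a1, a2⟩ := hX j hj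
      rw [hdd, FI.dl2_ph hν, neg_neg, hlam]
      generalize ν + ((K + j : ℕ) : ℝ) = X at a1 a2 ⊢
      have hX0 : 0 < X := by linarith
      have h0 : 24 * (s ^ 2 / (24 * (K : ℝ) ^ 3)) = s ^ 2 / (K : ℝ) ^ 3 := by
        field_simp
      rw [h0]
      apply div_le_div_of_nonneg_left (by positivity) (by positivity)
      have h1 : (K : ℝ) * K ≤ X * (X + 1) := by
        apply mul_le_mul a1 (by linarith) (by linarith) (by linarith)
      calc (K : ℝ) ^ 3 = K * K * K := by ring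
        _ ≤ X * (X + 1) * (X + 2) := by
            apply mul_le_mul h1 (by linarith) (by linarith) (by positivity))
  refine hb.trans ?_
  have hsq : √lam = s * (K : ℝ) ^ (-(3 / 2) : ℝ) / √24 := by
    rw [hlam, Real.sqrt_div (by positivity), Real.sqrt_sq hs.le, Real.sqrt_mul (by norm_num)]
    have h1 : √((K : ℝ) ^ 3) = (K : ℝ) ^ (3 / 2 : ℝ) := by
      rw [Real.sqrt_eq_rpow, ← Real.rpow_natCast, ← Real.rpow_mul hK0.le]
      norm_num
    rw [h1, Real.rpow_neg hK0.le]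
    have h2 : (K : ℝ) ^ (3 / 2 : ℝ) ≠ 0 := by positivity
    field_simp
  have h24 : √24 ≤ 5 := by
    rw [Real.sqrt_le_left (by norm_num)]
    norm_num
  have h24' : (0 : ℝ) < √24 := by positivity
  have h24s : √24 * √24 = 24 := Real.mul_self_sqrt (by norm_num)
  have hN : ((r - K : ℕ) : ℝ) ≤ K := by
    have : r - K ≤ K := by omega
    exact_mod_cast this
  have t1 : 24 * ((r - K : ℕ) : ℝ) * √lam ≤ 5 * (s * (K : ℝ) ^ (-(1 / 2) : ℝ)) := by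
    have h1 : (K : ℝ) * (K : ℝ) ^ (-(3 / 2) : ℝ) = (K : ℝ) ^ (-(1 / 2) : ℝ) := by
      nth_rewrite 1 [← Real.rpow_one (K : ℝ)]
      rw [← Real.rpow_add hK0]
      norm_num
    calc 24 * ((r - K : ℕ) : ℝ) * √lam ≤ 24 * K * √lam := by gcongr
      _ = √24 * (s * ((K : ℝ) * (K : ℝ) ^ (-(3 / 2) : ℝ))) := by
          rw [hsq]
          field_simp
          rw [Real.sq_sqrt (by norm_num)]
      _ = √24 * (s * (K : ℝ) ^ (-(1 / 2) : ℝ)) := by rw [h1]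
      _ ≤ 5 * (s * (K : ℝ) ^ (-(1 / 2) : ℝ)) := by gcongr
  have t2 : 1 / √lam ≤ 5 * ((K : ℝ) ^ (3 / 2 : ℝ) / s) := by
    have h1 : 1 / √lam = √24 * ((K : ℝ) ^ (3 / 2 : ℝ) / s) := by
      rw [hsq, Real.rpow_neg hK0.le]
      have h2 : (K : ℝ) ^ (3 / 2 : ℝ) ≠ 0 := by positivity
      field_simp
    rw [h1]
    gcongr
  calc C * (24 * ((r - K : ℕ) : ℝ) * √lam + 1 / √lam)
      ≤ C * (5 * (s * (K : ℝ) ^ (-(1 / 2) : ℝ)) + 5 * ((K : ℝ) ^ (3 / 2 : ℝ) / s)) := by gcongr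
    _ = 5 * C * (s * (K : ℝ) ^ (-(1 / 2) : ℝ) + (K : ℝ) ^ (3 / 2 : ℝ) / s) := by ring

/-- initial sums, Kusmin-Landau (`FI.kl'`, `FI.dl_ph`), `K ≥ 2s` -/
theorem g2_e2 : ∃ C : ℝ, 0 < C ∧ ∀ (ν s : ℝ) (K r : ℕ), 0 < ν → ν ≤ 1 → 0 ≤ s → 1 ≤ K → 2 * s ≤ K → K ≤ r →
    ‖∑ i ∈ Ico K r, ze ^ i * cexp (-(π * I * s ^ 2 / ((ν + i : ℝ) : ℂ)))‖ ≤ C := by
  refine ⟨4, by norm_num, fun ν s K r hν hν1 hs hK hsK hKr => ?_⟩
  have hK1 : (1 : ℝ) ≤ K := by exact_mod_cast hK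
  have hK0 : (0 : ℝ) < K := by linarith
  rcases Nat.eq_or_lt_of_le hKr with h | h
  · rw [h]
    simp
  · rw [g2_e_shift]
    obtain ⟨N, hN⟩ : ∃ N, r - K = N + 1 := ⟨r - K - 1, by omega⟩
    rw [hN]
    have hdl : ∀ j, FI.dl (fun j => FI.ph (s ^ 2) ν (K + j)) j =
        FI.dl (FI.ph (s ^ 2) ν) (K + j) := fun j => rfl
    have hX : ∀ j : ℕ, (K : ℝ) ≤ ν + ((K + j : ℕ) : ℝ) := by
      intro j
      have h3 : (0 : ℝ) ≤ j := Nat.cast_nonneg j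
      push_cast
      linarith
    have hb := FI.kl' (fun j => FI.ph (s ^ 2) ν (K + j)) N (3 / 8) 0 (by norm_num) (by norm_num)
      (fun j _ => by
        rw [hdl, hdl, FI.dl_ph hν, FI.dl_ph hν]
        have a1 := hX j
        have e1 : ν + ((K + (j + 1) : ℕ) : ℝ) = ν + ((K + j : ℕ) : ℝ) + 1 := by push_cast; ring
        rw [e1]
        generalize ν + ((K + j : ℕ) : ℝ) = X at a1 ⊢
        have hX0 : 0 < X := by linarith
        gcongr
        · linarith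
        · linarith)
      (fun j _ => by
        rw [hdl, FI.dl_ph hν]
        have a1 := hX j
        generalize ν + ((K + j : ℕ) : ℝ) = X at a1 ⊢
        have hX0 : 0 < X := by linarith
        have : 0 ≤ s ^ 2 / (2 * X * (X + 1)) := by positivity
        push_cast
        linarith)
      (fun j _ => by
        rw [hdl, FI.dl_ph hν]
        have a1 := hX j
        generalize ν + ((K + j : ℕ) : ℝ) = X at a1 ⊢
        have hX0 : 0 < X := by linarith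
        have : s ^ 2 / (2 * X * (X + 1)) ≤ 1 / 8 := by
          rw [div_le_div_iff₀ (by positivity) (by norm_num)]
          have h1 : 2 * s ≤ X := hsK.trans a1
          nlinarith
        push_cast
        linarith)
    refine hb.trans ?_
    norm_num

/-- initial sums, `s ≤ 2` (finitely many terms and `g2_e2`) -/
theorem g2_e3 : ∃ C : ℝ, 0 < C ∧ ∀ (ν s : ℝ) (K r : ℕ), 0 < ν → ν ≤ 1 → 0 ≤ s → s ≤ 2 → 1 ≤ K → K ≤ r →
    ‖∑ i ∈ Ico K r, ze ^ i * cexp (-(π * I * s ^ 2 / ((ν + i : ℝ) : ℂ)))‖ ≤ C := by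
  obtain ⟨C, hC, H⟩ := g2_e2
  refine ⟨3 + C, by positivity, fun ν s K r hν hν1 hs hs2 hK hKr => ?_⟩
  have htriv : ∀ a b : ℕ, b ≤ a + 3 →
      ‖∑ i ∈ Ico a b, ze ^ i * cexp (-(π * I * s ^ 2 / ((ν + i : ℝ) : ℂ)))‖ ≤ 3 := by
    intro a b hab
    refine (norm_sum_le _ _).trans ?_
    have h1 : ∀ i ∈ Ico a b, ‖ze ^ i * cexp (-(π * I * s ^ 2 / ((ν + i : ℝ) : ℂ)))‖ ≤ 1 := by
      intro i _
      rw [g2_e_ee, ee]
      have : (2 * π * I * (FI.ph (s ^ 2) ν i) : ℂ) = ((2 * π * FI.ph (s ^ 2) ν i : ℝ) : ℂ) * I := by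
        push_cast; ring
      rw [this, Complex.norm_exp_ofReal_mul_I]
    refine (Finset.sum_le_sum h1).trans ?_
    rw [Finset.sum_const, Nat.card_Ico, nsmul_eq_mul, mul_one]
    have : b - a ≤ 3 := by omega
    exact_mod_cast this
  by_cases h4 : 4 ≤ K
  · have h5 : (4 : ℝ) ≤ K := by exact_mod_cast h4
    refine (H ν s K r hν hν1 hs hK (by linarith) hKr).trans (by linarith)
  · by_cases hr : r ≤ 4
    · exact (htriv K r (by omega)).trans (by linarith)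
    · rw [← Finset.sum_Ico_consecutive _ (by omega : K ≤ 4) (by omega : 4 ≤ r)]
      refine (norm_add_le _ _).trans (add_le_add (htriv K 4 (by omega)) ?_)
      exact H ν s 4 r hν hν1 hs (by norm_num) (by push_cast; linarith) (by omega)

private theorem g2_two_block : ∃ D : ℝ, 0 < D ∧ ∀ (ν S s : ℝ) (K q : ℕ), 0 < ν → ν ≤ 1 → 1 ≤ S →
    S ≤ s → s ≤ 2 * S → 1 ≤ K → K ≤ q → q ≤ 2 * K →
    ‖∑ i ∈ Ico K q, (((ν + i : ℝ) ^ (-(1 / 2) : ℝ) * Real.exp (-(S / (ν + i))) : ℝ) : ℂ) *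
      (ze ^ i * cexp (-(π * I * s ^ 2 / ((ν + i : ℝ) : ℂ))))‖ ≤ D := by
  obtain ⟨C1, hC1, h1⟩ := g2_w1
  obtain ⟨C2, hC2, h2⟩ := g2_e1
  obtain ⟨C3, hC3, h3⟩ := g2_e2
  refine ⟨C1 * (14 * C2 + C3), by positivity, fun ν S s K q hν hν1 hS hs hs2 hK hKq hq => ?_⟩
  have hK0 : (0 : ℝ) < K := by exact_mod_cast hK
  have hK1 : (1 : ℝ) ≤ K := by exact_mod_cast hK
  have hs0 : 0 < s := by linarith
  have hw := h1 ν S K q hν hν1 (by linarith) hK hKq hq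
  have hK2 : 0 ≤ (K : ℝ) ^ (-(1 / 2) : ℝ) := Real.rpow_nonneg hK0.le _
  have hE0 : 0 ≤ Real.exp (-(S / (6 * K))) := (Real.exp_pos _).le
  by_cases hc : 2 * s ≤ K
  · have hb := g2_bv (fun i => (ν + i : ℝ) ^ (-(1 / 2) : ℝ) * Real.exp (-(S / (ν + i))))
      (fun i => ze ^ i * cexp (-(π * I * s ^ 2 / ((ν + i : ℝ) : ℂ)))) K q C3 hKq
      (fun r hr _ => h3 ν s K r hν hν1 hs0.le hK hc hr)
    refine hb.trans ?_
    have e1 : (K : ℝ) ^ (-(1 / 2) : ℝ) ≤ 1 :=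
      Real.rpow_le_one_of_one_le_of_nonpos hK1 (by norm_num)
    have e2 : Real.exp (-(S / (6 * K))) ≤ 1 := by
      rw [Real.exp_le_one_iff]
      have : 0 ≤ S / (6 * K) := by positivity
      linarith
    have e3 : (K : ℝ) ^ (-(1 / 2) : ℝ) * Real.exp (-(S / (6 * K))) ≤ 1 :=
      mul_le_one₀ e1 hE0 e2
    calc _ ≤ C3 * (C1 * ((K : ℝ) ^ (-(1 / 2) : ℝ) * Real.exp (-(S / (6 * K))))) :=
          mul_le_mul_of_nonneg_left hw hC3.le
      _ ≤ C3 * (C1 * 1) :=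
          mul_le_mul_of_nonneg_left (mul_le_mul_of_nonneg_left e3 hC1.le) hC3.le
      _ ≤ C1 * (14 * C2 + C3) := by nlinarith [mul_pos hC1 hC2]
  · have hc' : (K : ℝ) < 2 * s := not_le.1 hc
    set B : ℝ := C2 * (s * (K : ℝ) ^ (-(1 / 2) : ℝ) + (K : ℝ) ^ (3 / 2 : ℝ) / s) with hB
    have hB0 : 0 ≤ B := by positivity
    have hb := g2_bv (fun i => (ν + i : ℝ) ^ (-(1 / 2) : ℝ) * Real.exp (-(S / (ν + i))))
      (fun i => ze ^ i * cexp (-(π * I * s ^ 2 / ((ν + i : ℝ) : ℂ)))) K q B hKq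
      (fun r hr hrq => h2 ν s K r hν hν1 hs0 hK hr (hrq.trans hq))
    refine hb.trans ?_
    have e1 : (s * (K : ℝ) ^ (-(1 / 2) : ℝ) + (K : ℝ) ^ (3 / 2 : ℝ) / s) * (K : ℝ) ^ (-(1 / 2) : ℝ)
        = s / K + K / s := by
      have a1 : (K : ℝ) ^ (-(1 / 2) : ℝ) * (K : ℝ) ^ (-(1 / 2) : ℝ) = (K : ℝ)⁻¹ := by
        rw [← Real.rpow_add hK0, ← Real.rpow_neg_one]; norm_num
      have a2 : (K : ℝ) ^ (3 / 2 : ℝ) * (K : ℝ) ^ (-(1 / 2) : ℝ) = K := by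
        rw [← Real.rpow_add hK0]; norm_num
      calc _ = s * ((K : ℝ) ^ (-(1 / 2) : ℝ) * (K : ℝ) ^ (-(1 / 2) : ℝ)) +
            ((K : ℝ) ^ (3 / 2 : ℝ) * (K : ℝ) ^ (-(1 / 2) : ℝ)) / s := by ring
        _ = _ := by rw [a1, a2]; ring
    have e2 : s / K * Real.exp (-(S / (6 * K))) ≤ 12 := by
      have b1 : S / (6 * K) ≤ Real.exp (S / (6 * K)) := by
        have := Real.add_one_le_exp (S / (6 * (K : ℝ)))
        linarith
      have b2 : S / (6 * K) * Real.exp (-(S / (6 * K))) ≤ 1 := by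
        calc S / (6 * K) * Real.exp (-(S / (6 * K)))
            ≤ Real.exp (S / (6 * K)) * Real.exp (-(S / (6 * K))) :=
              mul_le_mul_of_nonneg_right b1 hE0
          _ = 1 := by rw [← Real.exp_add]; simp
      have b3 : s / K ≤ 12 * (S / (6 * K)) := by
        have : 12 * (S / (6 * K)) = 2 * S / K := by field_simp; norm_num
        rw [this]
        gcongr
      calc s / K * Real.exp (-(S / (6 * K))) ≤ 12 * (S / (6 * K)) * Real.exp (-(S / (6 * K))) :=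
            mul_le_mul_of_nonneg_right b3 hE0
        _ = 12 * (S / (6 * K) * Real.exp (-(S / (6 * K)))) := by ring
        _ ≤ 12 * 1 := mul_le_mul_of_nonneg_left b2 (by norm_num)
        _ = 12 := by norm_num
    have e3 : K / s * Real.exp (-(S / (6 * K))) ≤ 2 := by
      have b1 : K / s ≤ 2 := by
        rw [div_le_iff₀ hs0]; linarith
      have b2 : Real.exp (-(S / (6 * K))) ≤ 1 := by
        rw [Real.exp_le_one_iff]
        have : 0 ≤ S / (6 * K) := by positivity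
        linarith
      calc K / s * Real.exp (-(S / (6 * K))) ≤ 2 * 1 := by
            apply mul_le_mul b1 b2 hE0 (by norm_num)
        _ = 2 := by norm_num
    calc _ ≤ B * (C1 * ((K : ℝ) ^ (-(1 / 2) : ℝ) * Real.exp (-(S / (6 * K))))) :=
          mul_le_mul_of_nonneg_left hw hB0
      _ = C1 * C2 * (((s * (K : ℝ) ^ (-(1 / 2) : ℝ) + (K : ℝ) ^ (3 / 2 : ℝ) / s) *
            (K : ℝ) ^ (-(1 / 2) : ℝ)) * Real.exp (-(S / (6 * K)))) := by rw [hB]; ring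
      _ = C1 * C2 * (s / K * Real.exp (-(S / (6 * K))) + K / s * Real.exp (-(S / (6 * K)))) := by
          rw [e1]; ring
      _ ≤ C1 * C2 * (12 + 2) :=
          mul_le_mul_of_nonneg_left (add_le_add e2 e3) (by positivity)
      _ ≤ C1 * (14 * C2 + C3) := by nlinarith [mul_pos hC1 hC3]

private theorem g2_two_dy (f : ℕ → ℂ) (D : ℝ) (hD : 0 ≤ D)
    (h : ∀ K q : ℕ, 1 ≤ K → K ≤ q → q ≤ 2 * K → ‖∑ i ∈ Ico K q, f i‖ ≤ D) (m : ℕ) (hm : 1 ≤ m)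
    (J : ℕ) : ‖∑ i ∈ Ico 1 (min (2 ^ J) m), f i‖ ≤ D * J := by
  induction J with
  | zero =>
    have : min (2 ^ 0) m = 1 := by simpa using hm
    rw [this]
    simp
  | succ J ih =>
    by_cases hJ : 2 ^ J ≤ m
    · have h1 : min (2 ^ J) m = 2 ^ J := min_eq_left hJ
      have h2 : 2 ^ J ≤ min (2 ^ (J + 1)) m := le_min (Nat.pow_le_pow_right (by norm_num)
        (Nat.le_succ J)) hJ
      have h3 : min (2 ^ (J + 1)) m ≤ 2 * 2 ^ J := by
        refine (min_le_left _ _).trans ?_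
        rw [pow_succ, mul_comm]
      have h4 : 1 ≤ 2 ^ J := Nat.one_le_two_pow
      rw [h1] at ih
      rw [← Finset.sum_Ico_consecutive f h4 h2]
      calc _ ≤ ‖∑ i ∈ Ico 1 (2 ^ J), f i‖ + ‖∑ i ∈ Ico (2 ^ J) (min (2 ^ (J + 1)) m), f i‖ :=
            norm_add_le _ _
        _ ≤ D * J + D := add_le_add ih (h _ _ h4 h2 h3)
        _ = D * ((J + 1 : ℕ) : ℝ) := by push_cast; ring
    · have hJ' : m ≤ 2 ^ J := (not_le.1 hJ).le
      have h1 : min (2 ^ J) m = m := min_eq_right hJ'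
      have h2 : min (2 ^ (J + 1)) m = m := min_eq_right (hJ'.trans
        (Nat.pow_le_pow_right (by norm_num) (Nat.le_succ J)))
      rw [h1] at ih
      rw [h2]
      refine ih.trans ?_
      push_cast
      nlinarith

/-- the second sum -/
theorem g2_two : ∃ C : ℝ, 0 < C ∧ ∀ (ν S s : ℝ) (m : ℕ), 0 < ν → ν ≤ 1 → 1 ≤ S → S ≤ s → s ≤ 2 * S → 1 ≤ m →
    ‖∑ i ∈ Ico 1 m, (((ν + i : ℝ) ^ (-(1 / 2) : ℝ) * Real.exp (-(S / (ν + i))) : ℝ) : ℂ) *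
      (ze ^ i * cexp (-(π * I * s ^ 2 / ((ν + i : ℝ) : ℂ))))‖ ≤ C * (1 + Real.log m) := by
  obtain ⟨D, hD, h⟩ := g2_two_block
  refine ⟨2 * D, by positivity, fun ν S s m hν hν1 hS hs hs2 hm => ?_⟩
  have hdy := g2_two_dy (fun i => (((ν + i : ℝ) ^ (-(1 / 2) : ℝ) * Real.exp (-(S / (ν + i))) : ℝ) : ℂ) *
      (ze ^ i * cexp (-(π * I * s ^ 2 / ((ν + i : ℝ) : ℂ))))) D hD.le
      (fun K q hK hKq hq => h ν S s K q hν hν1 hS hs hs2 hK hKq hq) m hm (Nat.log 2 m + 1)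
  have h1 : min (2 ^ (Nat.log 2 m + 1)) m = m :=
    min_eq_right (Nat.lt_pow_succ_log_self (by norm_num) m).le
  rw [h1] at hdy
  refine hdy.trans ?_
  have hm0 : (0 : ℝ) < m := by exact_mod_cast hm
  have h2 : (Nat.log 2 m : ℝ) * Real.log 2 ≤ Real.log m := by
    rw [← Real.log_pow]
    apply Real.log_le_log (by positivity)
    exact_mod_cast Nat.pow_log_le_self 2 (by omega)
  have h3 : (Nat.log 2 m : ℝ) ≤ 2 * Real.log m := by
    have h4 : (0.5 : ℝ) ≤ Real.log 2 := by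
      have := Real.log_two_gt_d9
      linarith
    have h5 : (0 : ℝ) ≤ (Nat.log 2 m : ℝ) := Nat.cast_nonneg _
    nlinarith
  push_cast
  have h6 : 0 ≤ Real.log m := Real.log_nonneg (by exact_mod_cast hm)
  nlinarith

private theorem g2_three_dy (f : ℕ → ℂ) (D ρ : ℝ) (hD : 0 ≤ D) (hρ : 0 ≤ ρ) (m q : ℕ)
    (hm : 1 ≤ m) (hmq : m ≤ q)
    (h : ∀ J r : ℕ, 2 ^ J * m ≤ r → r ≤ 2 * (2 ^ J * m) → ‖∑ i ∈ Ico (2 ^ J * m) r, f i‖ ≤ D * ρ ^ J)
    (J : ℕ) : ‖∑ i ∈ Ico m (min (2 ^ J * m) q), f i‖ ≤ D * ∑ j ∈ range J, ρ ^ j := by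
  induction J with
  | zero =>
    have : min (2 ^ 0 * m) q = m := by simpa using hmq
    rw [this]
    simp
  | succ J ih =>
    rw [Finset.sum_range_succ, mul_add]
    have hle : 2 ^ J * m ≤ 2 ^ (J + 1) * m :=
      Nat.mul_le_mul_right m (Nat.pow_le_pow_right (by norm_num) (Nat.le_succ J))
    by_cases hJ : 2 ^ J * m ≤ q
    · have h1 : min (2 ^ J * m) q = 2 ^ J * m := min_eq_left hJ
      have h2 : 2 ^ J * m ≤ min (2 ^ (J + 1) * m) q := le_min hle hJ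
      have h3 : min (2 ^ (J + 1) * m) q ≤ 2 * (2 ^ J * m) := by
        refine (min_le_left _ _).trans ?_
        rw [pow_succ]
        apply le_of_eq
        ring
      have h4 : m ≤ 2 ^ J * m := Nat.le_mul_of_pos_left m (by positivity)
      rw [h1] at ih
      rw [← Finset.sum_Ico_consecutive f h4 h2]
      exact (norm_add_le _ _).trans (add_le_add ih (h _ _ h2 h3))
    · have hJ' : q ≤ 2 ^ J * m := (not_le.1 hJ).le
      have h1 : min (2 ^ J * m) q = q := min_eq_right hJ'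
      have h2 : min (2 ^ (J + 1) * m) q = q := min_eq_right (hJ'.trans hle)
      rw [h1] at ih
      rw [h2]
      refine ih.trans ?_
      have : 0 ≤ D * ρ ^ J := by positivity
      linarith

/-- the third sum, finite pieces; dyadic blocks, `g2_bv` twice with the two monotone-type weights of `g2_w1` (`S = 1` and `S`) -/
theorem g2_three : ∃ C : ℝ, 0 < C ∧ ∀ (ν S s : ℝ) (m q : ℕ), 0 < ν → ν ≤ 1 → 1 ≤ S → 0 ≤ s → s ≤ 2 * S →
    4 * S ≤ m → m ≤ q →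
    ‖∑ i ∈ Ico m q, (((ν + i : ℝ) ^ (-(1 / 2) : ℝ) * (Real.exp (-(1 / (ν + i))) - Real.exp (-(S / (ν + i)))) : ℝ) : ℂ) *
      (ze ^ i * cexp (-(π * I * s ^ 2 / ((ν + i : ℝ) : ℂ))))‖ ≤ C := by
  obtain ⟨C1, hC1, h1⟩ := g2_w1
  obtain ⟨C3, hC3, h3⟩ := g2_e2
  set ρ : ℝ := (2 : ℝ) ^ (-(1 / 2) : ℝ) with hρ
  have hρ0 : 0 < ρ := Real.rpow_pos_of_pos (by norm_num) _
  have hρ1 : ρ < 1 := Real.rpow_lt_one_of_one_lt_of_neg (by norm_num) (by norm_num)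
  set D : ℝ := 2 * (C1 * C3) with hD
  have hD0 : 0 < D := by positivity
  refine ⟨D * (1 - ρ)⁻¹, by
    have : 0 < 1 - ρ := by linarith
    positivity, fun ν S s m q hν hν1 hS hs hs2 hm hmq => ?_⟩
  have hm1' : (1 : ℝ) ≤ m := by linarith
  have hm1 : 1 ≤ m := by exact_mod_cast hm1'
  set E : ℕ → ℂ := fun i => ze ^ i * cexp (-(π * I * s ^ 2 / ((ν + i : ℝ) : ℂ))) with hE
  set f : ℕ → ℂ := fun i => (((ν + i : ℝ) ^ (-(1 / 2) : ℝ) * (Real.exp (-(1 / (ν + i))) -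
    Real.exp (-(S / (ν + i)))) : ℝ) : ℂ) * E i with hf
  have hblock : ∀ J r : ℕ, 2 ^ J * m ≤ r → r ≤ 2 * (2 ^ J * m) →
      ‖∑ i ∈ Ico (2 ^ J * m) r, f i‖ ≤ D * ρ ^ J := by
    intro J r hr1 hr2
    set K : ℕ := 2 ^ J * m with hK
    have hKm : m ≤ K := Nat.le_mul_of_pos_left m (by positivity)
    have hK1 : 1 ≤ K := hm1.trans hKm
    have hKm' : (m : ℝ) ≤ K := by exact_mod_cast hKm
    have hK0 : (0 : ℝ) < K := by linarith
    have hK2 : 2 * s ≤ K := by linarith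
    have hwt : ∀ T : ℝ, 0 ≤ T →
        ‖∑ i ∈ Ico K r, (((ν + i : ℝ) ^ (-(1 / 2) : ℝ) * Real.exp (-(T / (ν + i))) : ℝ) : ℂ) * E i‖
          ≤ C1 * C3 * ρ ^ J := by
      intro T hT
      have hb := g2_bv (fun i => (ν + i : ℝ) ^ (-(1 / 2) : ℝ) * Real.exp (-(T / (ν + i))))
        E K r C3 hr1 (fun r' hr' _ => h3 ν s K r' hν hν1 hs hK1 hK2 hr')
      refine hb.trans ?_
      have hw := h1 ν T K r hν hν1 hT hK1 hr1 hr2
      have e2 : Real.exp (-(T / (6 * K))) ≤ 1 := by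
        rw [Real.exp_le_one_iff]
        have : 0 ≤ T / (6 * K) := by positivity
        linarith
      have e1 : (K : ℝ) ^ (-(1 / 2) : ℝ) ≤ ρ ^ J := by
        have a1 : (K : ℝ) = (2 : ℝ) ^ J * m := by rw [hK]; push_cast; ring
        have a2 : (m : ℝ) ^ (-(1 / 2) : ℝ) ≤ 1 :=
          Real.rpow_le_one_of_one_le_of_nonpos hm1' (by norm_num)
        rw [a1, Real.mul_rpow (by positivity) (by positivity), hρ, ← Real.rpow_natCast,
          ← Real.rpow_natCast, ← Real.rpow_mul (by norm_num), ← Real.rpow_mul (by norm_num),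
          mul_comm (J : ℝ)]
        exact mul_le_of_le_one_right (by positivity) a2
      have e3 : (K : ℝ) ^ (-(1 / 2) : ℝ) * Real.exp (-(T / (6 * K))) ≤ ρ ^ J := by
        calc _ ≤ ρ ^ J * 1 := mul_le_mul e1 e2 (Real.exp_pos _).le (by positivity)
          _ = ρ ^ J := mul_one _
      calc _ ≤ C3 * (C1 * ((K : ℝ) ^ (-(1 / 2) : ℝ) * Real.exp (-(T / (6 * K))))) :=
            mul_le_mul_of_nonneg_left hw hC3.le
        _ ≤ C3 * (C1 * ρ ^ J) :=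
            mul_le_mul_of_nonneg_left (mul_le_mul_of_nonneg_left e3 hC1.le) hC3.le
        _ = C1 * C3 * ρ ^ J := by ring
    have hsplit : ∑ i ∈ Ico K r, f i =
        ∑ i ∈ Ico K r, (((ν + i : ℝ) ^ (-(1 / 2) : ℝ) * Real.exp (-(1 / (ν + i))) : ℝ) : ℂ) * E i -
        ∑ i ∈ Ico K r, (((ν + i : ℝ) ^ (-(1 / 2) : ℝ) * Real.exp (-(S / (ν + i))) : ℝ) : ℂ) * E i := by
      rw [← Finset.sum_sub_distrib]
      refine Finset.sum_congr rfl fun i _ => ?_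
      simp only [hf]
      push_cast
      ring
    rw [hsplit]
    calc _ ≤ C1 * C3 * ρ ^ J + C1 * C3 * ρ ^ J :=
          (norm_sub_le _ _).trans (add_le_add (hwt 1 (by norm_num)) (hwt S (by linarith)))
      _ = D * ρ ^ J := by rw [hD]; ring
  have hdy := g2_three_dy f D ρ hD0.le hρ0.le m q hm1 hmq hblock q
  have hq : min (2 ^ q * m) q = q := by
    apply min_eq_right
    calc q ≤ 2 ^ q := Nat.lt_two_pow_self.le
      _ ≤ 2 ^ q * m := Nat.le_mul_of_pos_right _ (by omega)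
  rw [hq] at hdy
  refine hdy.trans ?_
  apply mul_le_mul_of_nonneg_left _ hD0.le
  have hgeo := tsum_geometric_of_lt_one hρ0.le hρ1
  rw [← hgeo]
  exact (summable_geometric_of_lt_one hρ0.le hρ1).sum_le_tsum _ fun i _ => by positivity

private theorem g2_e_norm (ν s : ℝ) (i : ℕ) :
    ‖ze ^ i * cexp (-(π * I * s ^ 2 / ((ν + i : ℝ) : ℂ)))‖ = 1 := by
  have h1 : ‖ze‖ = 1 := by
    have : ze = cexp (((3 * π / 4 : ℝ) : ℂ) * I) := by
      unfold ze; congr 1; push_cast; ring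
    rw [this, Complex.norm_exp_ofReal_mul_I]
  have h2 : cexp (-(π * I * s ^ 2 / ((ν + i : ℝ) : ℂ))) =
      cexp (((-(π * s ^ 2 / (ν + i)) : ℝ) : ℂ) * I) := by
    congr 1; push_cast; ring
  rw [norm_mul, norm_pow, h1, h2, Complex.norm_exp_ofReal_mul_I, one_pow, one_mul]

private theorem g2_mains (ν s : ℝ) (m : ℕ) (hm : 1 ≤ m) :
    mains (s ^ 2) ν m - fst ν s = ∑ i ∈ Ico 1 m, (((ν + i : ℝ) ^ (-(1 / 2) : ℝ) : ℝ) : ℂ) *
      (ze ^ i * cexp (-(π * I * s ^ 2 / ((ν + i : ℝ) : ℂ)))) := by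
  unfold mains fst
  rw [Finset.range_eq_Ico, Finset.sum_eq_sum_Ico_succ_bot (by omega : 0 < m)]
  have h0 : (ze ^ 0 * (((ν + ((0 : ℕ) : ℝ) : ℝ) ^ (-(1 / 2) : ℝ) : ℝ) : ℂ) *
      cexp (-(π * I * ((s ^ 2 : ℝ) : ℂ) / ((ν : ℂ) + ((0 : ℕ) : ℂ))))) =
      ((ν ^ (-(1 / 2) : ℝ) : ℝ) : ℂ) * cexp (-(π * I * s ^ 2 / ν)) := by
    simp
  rw [h0, add_sub_cancel_left]
  refine Finset.sum_congr rfl fun i _ => ?_
  push_cast
  ring

theorem g2 : ∃ C : ℝ, 0 < C ∧ ∀ (ν S s : ℝ) (m : ℕ), 0 < ν → ν ≤ 1 → 1 ≤ S → S ≤ s → s ≤ 2 * S → 4 * S ≤ m →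
    ‖mains (s ^ 2) ν m - fst ν s - ∫ A in (1 : ℝ)..S, F1 A s ν‖ ≤ C * (1 + Real.log m) := by
  obtain ⟨C2, hC2, h2⟩ := g2_two
  obtain ⟨C3, hC3, h3⟩ := g2_three
  have hsum : Summable fun i : ℕ => ((i : ℝ) + 1) ^ (-(3 / 2) : ℝ) := by
    have := (summable_nat_add_iff 1).mpr
      (Real.summable_nat_rpow.mpr (by norm_num : (-(3 / 2) : ℝ) < -1))
    simpa using this
  set C1 : ℝ := ∑' i : ℕ, ((i : ℝ) + 1) ^ (-(3 / 2) : ℝ) with hC1
  have hC1' : 0 ≤ C1 := tsum_nonneg fun i => by positivity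
  refine ⟨C1 + C2 + C3, by positivity, fun ν S s m hν hν1 hS hs hs2 hm => ?_⟩
  have hm4 : (4 : ℝ) ≤ m := by linarith
  have hm1 : 1 ≤ m := by
    have : (1 : ℝ) ≤ m := by linarith
    exact_mod_cast this
  have hlog : 0 ≤ Real.log m := Real.log_nonneg (by linarith)
  obtain ⟨hsm, hint⟩ := g2_int ν S s hν hS
  set E : ℕ → ℂ := fun i => ze ^ i * cexp (-(π * I * s ^ 2 / ((ν + i : ℝ) : ℂ))) with hE
  set w : ℕ → ℝ := fun i => (ν + i : ℝ) ^ (-(1 / 2) : ℝ) *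
    (Real.exp (-(1 / (ν + i))) - Real.exp (-(S / (ν + i)))) with hw
  set G : ℕ → ℂ := fun i => (w i : ℂ) * E i with hG
  have hG1 : ∀ i : ℕ, G (i + 1) = (((ν + (i + 1) : ℝ) ^ (-(1 / 2) : ℝ) *
      (Real.exp (-(1 / (ν + (i + 1)))) - Real.exp (-(S / (ν + (i + 1))))) : ℝ) : ℂ) *
        (ze ^ (i + 1) * cexp (-(π * I * s ^ 2 / ((ν + (i + 1) : ℝ) : ℂ)))) := by
    intro i
    simp only [hG, hw, hE, Nat.cast_add, Nat.cast_one]
  have hEn : ∀ i, ‖E i‖ = 1 := fun i => g2_e_norm ν s i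
  have hGs1 : Summable fun i => G (i + 1) := by
    refine Summable.of_norm (hsm.congr fun i => ?_)
    rw [hG]
    simp only [hw, norm_mul, hEn, mul_one, Nat.cast_add, Nat.cast_one]
  have hGs : Summable G := (summable_nat_add_iff 1).mp hGs1
  have hint' : ∫ A in (1 : ℝ)..S, F1 A s ν = ∑' i : ℕ, G (i + 1) := by
    rw [hint]
    exact tsum_congr fun i => (hG1 i).symm
  have hsplit : ∑' i : ℕ, G (i + 1) = ∑ i ∈ Ico 1 m, G i + ∑' i : ℕ, G (i + m) := by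
    have ha := hGs.sum_add_tsum_nat_add m
    have hb := hGs.sum_add_tsum_nat_add 1
    rw [Finset.sum_range_one] at hb
    rw [Finset.range_eq_Ico, Finset.sum_eq_sum_Ico_succ_bot (by omega : 0 < m)] at ha
    have : G 0 + ∑' i : ℕ, G (i + 1) = G 0 + (∑ i ∈ Ico 1 m, G i + ∑' i : ℕ, G (i + m)) := by
      rw [hb, ← add_assoc]
      exact ha.symm
    exact add_left_cancel this
  have htail : ‖∑' i : ℕ, G (i + m)‖ ≤ C3 := by
    have ht : Filter.Tendsto (fun n => ∑ i ∈ range n, G (i + m)) Filter.atTop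
        (nhds (∑' i : ℕ, G (i + m))) :=
      ((summable_nat_add_iff m).mpr hGs).hasSum.tendsto_sum_nat
    refine le_of_tendsto ht.norm (Filter.Eventually.of_forall fun n => ?_)
    have h := h3 ν S s m (m + n) hν hν1 hS (by linarith) hs2 hm (by omega)
    have he : ∑ i ∈ range n, G (i + m) = ∑ i ∈ Ico m (m + n), G i := by
      rw [Finset.sum_Ico_eq_sum_range]
      rw [Nat.add_sub_cancel_left]
      exact Finset.sum_congr rfl fun i _ => by rw [add_comm]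
    rw [he]
    exact h
  have htwo := h2 ν S s m hν hν1 hS hs hs2 hm1
  -- the first sum
  have hone : ‖∑ i ∈ Ico 1 m, (((ν + i : ℝ) ^ (-(1 / 2) : ℝ) * (1 - Real.exp (-(1 / (ν + i)))) : ℝ) : ℂ) *
      E i‖ ≤ C1 := by
    refine (norm_sum_le _ _).trans ?_
    have hle : ∀ i ∈ Ico 1 m, ‖(((ν + i : ℝ) ^ (-(1 / 2) : ℝ) * (1 - Real.exp (-(1 / (ν + i)))) : ℝ) : ℂ) *
        E i‖ ≤ (i : ℝ) ^ (-(3 / 2) : ℝ) := by
      intro i hi
      have hi1 : 1 ≤ i := (Finset.mem_Ico.mp hi).1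
      have hi0 : (0 : ℝ) < i := by exact_mod_cast hi1
      have hy : (0 : ℝ) < ν + i := by linarith
      have h1 : 0 ≤ 1 - Real.exp (-(1 / (ν + i))) := by
        have : Real.exp (-(1 / (ν + i))) ≤ 1 := Real.exp_le_one_iff.mpr (by
          have : 0 < 1 / (ν + (i : ℝ)) := by positivity
          linarith)
        linarith
      have h2' : 1 - Real.exp (-(1 / (ν + i))) ≤ (ν + i)⁻¹ := by
        have := Real.add_one_le_exp (-(1 / (ν + (i : ℝ))))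
        rw [one_div] at this ⊢
        linarith
      rw [norm_mul, hEn, mul_one, Complex.norm_real, Real.norm_of_nonneg (by positivity)]
      calc (ν + i : ℝ) ^ (-(1 / 2) : ℝ) * (1 - Real.exp (-(1 / (ν + i))))
          ≤ (ν + i : ℝ) ^ (-(1 / 2) : ℝ) * (ν + i)⁻¹ :=
            mul_le_mul_of_nonneg_left h2' (by positivity)
        _ = (ν + i : ℝ) ^ (-(3 / 2) : ℝ) := by
            rw [← Real.rpow_neg_one, ← Real.rpow_add hy]
            norm_num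
        _ ≤ (i : ℝ) ^ (-(3 / 2) : ℝ) :=
            Real.rpow_le_rpow_of_nonpos hi0 (by linarith) (by norm_num)
    refine (Finset.sum_le_sum hle).trans ?_
    rw [Finset.sum_Ico_eq_sum_range]
    have : ∑ k ∈ range (m - 1), (((1 + k : ℕ) : ℝ)) ^ (-(3 / 2) : ℝ) =
        ∑ k ∈ range (m - 1), ((k : ℝ) + 1) ^ (-(3 / 2) : ℝ) :=
      Finset.sum_congr rfl fun k _ => by push_cast; rw [add_comm]
    rw [this]
    exact hsum.sum_le_tsum _ fun i _ => by positivity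
  have hdec : mains (s ^ 2) ν m - fst ν s - ∫ A in (1 : ℝ)..S, F1 A s ν =
      ∑ i ∈ Ico 1 m, (((ν + i : ℝ) ^ (-(1 / 2) : ℝ) * (1 - Real.exp (-(1 / (ν + i)))) : ℝ) : ℂ) * E i +
      ∑ i ∈ Ico 1 m, (((ν + i : ℝ) ^ (-(1 / 2) : ℝ) * Real.exp (-(S / (ν + i))) : ℝ) : ℂ) * E i -
      ∑' i : ℕ, G (i + m) := by
    rw [g2_mains ν s m hm1, hint', hsplit, ← sub_sub, ← Finset.sum_sub_distrib, ← Finset.sum_add_distrib]
    congr 1
    refine Finset.sum_congr rfl fun i _ => ?_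
    simp only [hG, hw, hE]
    push_cast
    ring
  rw [hdec]
  calc _ ≤ C1 + C2 * (1 + Real.log m) + C3 :=
        (norm_sub_le _ _).trans (add_le_add ((norm_add_le _ _).trans (add_le_add hone htwo)) htail)
    _ ≤ (C1 + C2 + C3) * (1 + Real.log m) := by nlinarith

theorem g2s : ∃ C : ℝ, 0 < C ∧ ∀ (ν s : ℝ) (m : ℕ), 0 < ν → ν ≤ 1 → 0 ≤ s → s ≤ 2 → 1 ≤ m →
    ‖mains (s ^ 2) ν m - fst ν s‖ ≤ C := by
  obtain ⟨C, hC, h⟩ := g2_e3
  refine ⟨C, hC, fun ν s m hν hν1 hs hs2 hm => ?_⟩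
  rw [g2_mains ν s m hm]
  have hb := g2_bv (fun i => (ν + i : ℝ) ^ (-(1 / 2) : ℝ))
    (fun i => ze ^ i * cexp (-(π * I * s ^ 2 / ((ν + i : ℝ) : ℂ)))) 1 m C hm
    (fun r hr _ => h ν s 1 r hν hν1 hs hs2 le_rfl hr)
  refine hb.trans ?_
  have hmono : ∀ i j : ℕ, i ≤ j → (ν + j : ℝ) ^ (-(1 / 2) : ℝ) ≤ (ν + i : ℝ) ^ (-(1 / 2) : ℝ) := by
    intro i j hij
    have : (i : ℝ) ≤ j := by exact_mod_cast hij
    exact Real.rpow_le_rpow_of_nonpos (by positivity) (by linarith) (by norm_num)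
  have htel : ∑ i ∈ Ico 1 m, |(ν + (i + 1 : ℕ) : ℝ) ^ (-(1 / 2) : ℝ) - (ν + i : ℝ) ^ (-(1 / 2) : ℝ)| =
      (ν + (1 : ℕ) : ℝ) ^ (-(1 / 2) : ℝ) - (ν + m : ℝ) ^ (-(1 / 2) : ℝ) := by
    have h1 : ∀ i ∈ Ico 1 m, |(ν + (i + 1 : ℕ) : ℝ) ^ (-(1 / 2) : ℝ) - (ν + i : ℝ) ^ (-(1 / 2) : ℝ)| =
        -((ν + (i + 1 : ℕ) : ℝ) ^ (-(1 / 2) : ℝ) - (ν + i : ℝ) ^ (-(1 / 2) : ℝ)) := fun i _ =>
      abs_of_nonpos (sub_nonpos.mpr (hmono i (i + 1) (by omega)))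
    rw [Finset.sum_congr rfl h1, Finset.sum_neg_distrib,
      Finset.sum_Ico_sub (fun i : ℕ => (ν + i : ℝ) ^ (-(1 / 2) : ℝ)) hm]
    ring
  have hm0 : 0 ≤ (ν + m : ℝ) ^ (-(1 / 2) : ℝ) := by positivity
  have h1 : (ν + (1 : ℕ) : ℝ) ^ (-(1 / 2) : ℝ) ≤ 1 := by
    rw [Nat.cast_one]
    exact Real.rpow_le_one_of_one_le_of_nonpos (by linarith) (by norm_num)
  have : |(ν + m : ℝ) ^ (-(1 / 2) : ℝ)| + ∑ i ∈ Ico 1 m,
      |(ν + (i + 1 : ℕ) : ℝ) ^ (-(1 / 2) : ℝ) - (ν + i : ℝ) ^ (-(1 / 2) : ℝ)| ≤ 1 := by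
    rw [htel, abs_of_nonneg hm0]
    linarith
  calc _ ≤ C * 1 := mul_le_mul_of_nonneg_left this hC.le
    _ = C := mul_one C

end Pool.Agent.Helper31.FM
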