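import Pool.Agent.Helper31.FM.G2

/-!
# FM-M4: fourth moment of the main sums

Dyadic `s ∈ [S, 2S]`, `2S ≤ X`, `S ≥ 1` (so `4S ≤ m`): `g1`, `g2`, `‖a + b‖⁴ ≤ 8 (‖a‖⁴ + ‖b‖⁴)`; `s ≤ 2`: `g2s`.
-/

set_option autoImplicit false

namespace Pool.Agent.Helper31.FM

open Complex Real Finset MeasureTheory
open Pool.Agent.Helper31.FI (ee ze mains)

private lemma ms4_cont (ν : ℝ) (m : ℕ) : Continuous fun s : ℝ => mains (s ^ 2) ν m - fst ν s := by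
  unfold mains fst
  fun_prop

private lemma ms4_contF (ν S : ℝ) (hν : 0 < ν) (hS : 1 ≤ S) :
    Continuous fun s : ℝ => ∫ A in (1 : ℝ)..S, F1 A s ν := by
  have h1 : ContinuousOn (fun p : ℝ × ℝ => F1 p.1 p.2 ν) (Set.Ici 0 ×ˢ Set.univ) := g1_cont ν hν
  obtain ⟨G, hG⟩ : ∃ G : ℝ × ℝ → ℂ, ∀ p, G p = F1 p.1 p.2 ν := ⟨_, fun p => rfl⟩
  have h1' : ContinuousOn G (Set.Ici 0 ×ˢ Set.univ) := h1.congr fun p _ => hG p
  have h3 : Continuous fun p : ℝ × ℝ => ((max p.2 0, p.1) : ℝ × ℝ) := by fun_prop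
  have h2 : Continuous (Function.uncurry fun s A : ℝ => G (max A 0, s)) :=
    h1'.comp_continuous h3 fun p => by
      rw [Set.mem_prod]
      exact ⟨Set.mem_Ici.2 (le_max_right p.2 0), Set.mem_univ _⟩
  have h4 := intervalIntegral.continuous_parametric_intervalIntegral_of_continuous' (μ := volume)
    h2 1 S
  refine h4.congr fun s => ?_
  refine intervalIntegral.integral_congr fun A hA => ?_
  rw [Set.uIcc_of_le hS] at hA
  have h5 : max A 0 = A := max_eq_left (by linarith [hA.1])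
  simp only [h5, hG]

private lemma ms4_log (δ : ℝ) (hδ : 0 < δ) (m : ℕ) (hm : 1 ≤ m) :
    (1 + Real.log m) ^ 4 ≤ (1 + 4 / δ) ^ 4 * (m : ℝ) ^ δ := by
  have h1 : (1 : ℝ) ≤ m := by exact_mod_cast hm
  have h2 : Real.log m ≤ (m : ℝ) ^ (δ / 4) / (δ / 4) := Real.log_le_rpow_div (by linarith) (by linarith)
  have h3 : (1 : ℝ) ≤ (m : ℝ) ^ (δ / 4) := Real.one_le_rpow h1 (by linarith)
  have h4 : 1 + Real.log m ≤ (1 + 4 / δ) * (m : ℝ) ^ (δ / 4) := by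
    have h5 : (m : ℝ) ^ (δ / 4) / (δ / 4) = 4 / δ * (m : ℝ) ^ (δ / 4) := by
      field_simp
    rw [h5] at h2
    linarith
  have h5 : 0 ≤ 1 + Real.log m := by linarith [Real.log_nonneg h1]
  calc (1 + Real.log m) ^ 4 ≤ ((1 + 4 / δ) * (m : ℝ) ^ (δ / 4)) ^ 4 := by gcongr
    _ = (1 + 4 / δ) ^ 4 * (m : ℝ) ^ δ := by
        rw [mul_pow, ← Real.rpow_mul_natCast (by linarith)]
        congr 2
        push_cast
        ring

private lemma ms4_four (a b : ℂ) : ‖a + b‖ ^ 4 ≤ 8 * (‖a‖ ^ 4 + ‖b‖ ^ 4) := by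
  have h1 : ‖a + b‖ ^ 4 ≤ (‖a‖ + ‖b‖) ^ 4 := by
    gcongr
    exact norm_add_le a b
  have h2 : ∀ x y : ℝ, (x + y) ^ 4 ≤ 8 * (x ^ 4 + y ^ 4) := by
    intro x y
    nlinarith [sq_nonneg (x ^ 2 - y ^ 2), sq_nonneg (x - y), sq_nonneg (x + y),
      mul_nonneg (sq_nonneg (x - y)) (sq_nonneg (x + y)), mul_nonneg (sq_nonneg (x - y)) (sq_nonneg x),
      mul_nonneg (sq_nonneg (x - y)) (sq_nonneg y), sq_nonneg ((x - y) ^ 2)]
  exact h1.trans (h2 _ _)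

/-- one dyadic block -/
private lemma ms4_block (δ : ℝ) (hδ : 0 < δ) : ∃ D : ℝ, 0 < D ∧ ∀ (ν S : ℝ) (m : ℕ), 0 < ν → ν ≤ 1 →
    1 ≤ S → 4 * S ≤ m →
    ∫ s in S..(2 * S), ‖mains (s ^ 2) ν m - fst ν s‖ ^ 4 ≤ D * (S * (m : ℝ) ^ δ) := by
  obtain ⟨C1, hC1, h1⟩ := g1 δ hδ
  obtain ⟨C2, hC2, h2⟩ := g2
  refine ⟨8 * C1 + 8 * (C2 ^ 4 * (1 + 4 / δ) ^ 4), by positivity, fun ν S m hν hν1 hS hm => ?_⟩
  have hmR : (1 : ℝ) ≤ m := by linarith
  have hm1 : 1 ≤ m := by exact_mod_cast hmR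
  have hlog := ms4_log δ hδ m hm1
  have hSS : S ≤ 2 * S := by linarith
  have hc1 := ms4_cont ν m
  have hc2 := ms4_contF ν S hν hS
  have hb : ∀ s ∈ Set.Icc S (2 * S), ‖mains (s ^ 2) ν m - fst ν s‖ ^ 4 ≤
      8 * (‖∫ A in (1 : ℝ)..S, F1 A s ν‖ ^ 4) + 8 * (C2 * (1 + Real.log m)) ^ 4 := by
    intro s hs
    have h3 := h2 ν S s m hν hν1 hS hs.1 hs.2 hm
    have h4 := ms4_four (∫ A in (1 : ℝ)..S, F1 A s ν)
      (mains (s ^ 2) ν m - fst ν s - ∫ A in (1 : ℝ)..S, F1 A s ν)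
    rw [add_sub_cancel] at h4
    have h5 : ‖mains (s ^ 2) ν m - fst ν s - ∫ A in (1 : ℝ)..S, F1 A s ν‖ ^ 4 ≤
        (C2 * (1 + Real.log m)) ^ 4 := by gcongr
    linarith
  have hi1 : IntervalIntegrable (fun s => ‖mains (s ^ 2) ν m - fst ν s‖ ^ 4) volume S (2 * S) :=
    ((hc1.norm).pow 4).intervalIntegrable _ _
  have hi2 : IntervalIntegrable (fun s => 8 * (‖∫ A in (1 : ℝ)..S, F1 A s ν‖ ^ 4)) volume S
      (2 * S) := (((hc2.norm).pow 4).const_mul 8).intervalIntegrable _ _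
  have hi3 : IntervalIntegrable (fun _ : ℝ => 8 * (C2 * (1 + Real.log m)) ^ 4) volume S (2 * S) :=
    intervalIntegrable_const
  have hm' := intervalIntegral.integral_mono_on hSS hi1 (hi2.add hi3) hb
  refine hm'.trans ?_
  rw [intervalIntegral.integral_add hi2 hi3, intervalIntegral.integral_const_mul,
    intervalIntegral.integral_const, smul_eq_mul]
  have h6 := h1 ν S hν hν1 hS
  have h7 : S ^ (1 + δ) ≤ S * (m : ℝ) ^ δ := by
    rw [Real.rpow_add (by linarith), Real.rpow_one]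
    gcongr
    linarith
  have h8 : (C2 * (1 + Real.log m)) ^ 4 ≤ C2 ^ 4 * ((1 + 4 / δ) ^ 4 * (m : ℝ) ^ δ) := by
    rw [mul_pow]
    gcongr
  have h9 : 8 * ∫ s in S..(2 * S), ‖∫ A in (1 : ℝ)..S, F1 A s ν‖ ^ 4 ≤ 8 * (C1 * (S * (m : ℝ) ^ δ)) := by
    have h10 : C1 * S ^ (1 + δ) ≤ C1 * (S * (m : ℝ) ^ δ) := by gcongr
    linarith
  have h11 : (2 * S - S) * (8 * (C2 * (1 + Real.log m)) ^ 4) ≤
      S * (8 * (C2 ^ 4 * ((1 + 4 / δ) ^ 4 * (m : ℝ) ^ δ))) := by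
    have h12 : 2 * S - S = S := by ring
    rw [h12]
    gcongr
  calc _ ≤ 8 * (C1 * (S * (m : ℝ) ^ δ)) + S * (8 * (C2 ^ 4 * ((1 + 4 / δ) ^ 4 * (m : ℝ) ^ δ))) :=
        add_le_add h9 h11
    _ = _ := by ring

theorem ms4 (δ : ℝ) (hδ : 0 < δ) : ∃ C : ℝ, 0 < C ∧ ∀ (ν X : ℝ) (m : ℕ), 0 < ν → ν ≤ 1 → 1 ≤ X → 2 * X ≤ m →
    ∫ s in (0 : ℝ)..X, ‖mains (s ^ 2) ν m - fst ν s‖ ^ 4 ≤ C * (X * (m : ℝ) ^ δ) := by
  obtain ⟨D, hD, hblock⟩ := ms4_block δ hδ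
  obtain ⟨C0, hC0, hs⟩ := g2s
  refine ⟨D + C0 ^ 4, by positivity, ?_⟩
  intro ν X m hν hν1 hX hm
  have hc : Continuous fun s : ℝ => ‖mains (s ^ 2) ν m - fst ν s‖ ^ 4 := ((ms4_cont ν m).norm).pow 4
  have base : ∀ X : ℝ, 1 ≤ X → X ≤ 2 → 2 * X ≤ m →
      ∫ s in (0 : ℝ)..X, ‖mains (s ^ 2) ν m - fst ν s‖ ^ 4 ≤ (D + C0 ^ 4) * (X * (m : ℝ) ^ δ) := by
    intro X hX hX2 hm
    have hmR : (1 : ℝ) ≤ m := by linarith
    have hm1 : 1 ≤ m := by exact_mod_cast hmR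
    have hmd : (1 : ℝ) ≤ (m : ℝ) ^ δ := Real.one_le_rpow hmR hδ.le
    have hi : IntervalIntegrable (fun _ : ℝ => C0 ^ 4) volume 0 X := intervalIntegrable_const
    have hb : ∀ s ∈ Set.Icc 0 X, ‖mains (s ^ 2) ν m - fst ν s‖ ^ 4 ≤ C0 ^ 4 := by
      intro s hs'
      have h2 := hs ν s m hν hν1 hs'.1 (by linarith [hs'.2]) hm1
      gcongr
    have h1 := intervalIntegral.integral_mono_on (by linarith : (0 : ℝ) ≤ X)
      (hc.intervalIntegrable 0 X) hi hb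
    refine h1.trans ?_
    rw [intervalIntegral.integral_const, smul_eq_mul, sub_zero]
    have h3 : X * C0 ^ 4 ≤ C0 ^ 4 * (X * (m : ℝ) ^ δ) := by
      have h4 : X * 1 ≤ X * (m : ℝ) ^ δ := by gcongr
      have h5 : 0 ≤ C0 ^ 4 := by positivity
      nlinarith
    have h6 : 0 ≤ D * (X * (m : ℝ) ^ δ) := by positivity
    linarith
  have key : ∀ (n : ℕ) (X : ℝ), 1 ≤ X → X ≤ 2 ^ n → 2 * X ≤ m →
      ∫ s in (0 : ℝ)..X, ‖mains (s ^ 2) ν m - fst ν s‖ ^ 4 ≤ (D + C0 ^ 4) * (X * (m : ℝ) ^ δ) := by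
    intro n
    induction n with
    | zero =>
      intro X hX hX1 hm
      have hmR : (1 : ℝ) ≤ m := by linarith
      have hm1 : 1 ≤ m := by exact_mod_cast hmR
      have hmd : (1 : ℝ) ≤ (m : ℝ) ^ δ := Real.one_le_rpow hmR hδ.le
      rw [pow_zero] at hX1
      exact base X hX (by linarith) hm
    | succ n ih =>
      intro X hX hX1 hm
      have hmR : (1 : ℝ) ≤ m := by linarith
      have hm1 : 1 ≤ m := by exact_mod_cast hmR
      have hmd : (1 : ℝ) ≤ (m : ℝ) ^ δ := Real.one_le_rpow hmR hδ.le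
      by_cases hX2 : X ≤ 2
      · exact base X hX hX2 hm
      · have hX3 : 2 < X := not_le.1 hX2
        have h1 := ih (X / 2) (by linarith) (by rw [pow_succ] at hX1; linarith) (by linarith)
        have h2 := hblock ν (X / 2) m hν hν1 (by linarith) (by linarith)
        have h3 : 2 * (X / 2) = X := by ring
        rw [h3] at h2
        rw [← intervalIntegral.integral_add_adjacent_intervals (hc.intervalIntegrable 0 (X / 2))
          (hc.intervalIntegrable (X / 2) X)]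
        have h4 : D * (X / 2 * (m : ℝ) ^ δ) ≤ (D + C0 ^ 4) * (X / 2 * (m : ℝ) ^ δ) := by
          have h5 : 0 ≤ C0 ^ 4 * (X / 2 * (m : ℝ) ^ δ) := by positivity
          linarith
        calc _ ≤ (D + C0 ^ 4) * (X / 2 * (m : ℝ) ^ δ) + D * (X / 2 * (m : ℝ) ^ δ) := add_le_add h1 h2
          _ ≤ (D + C0 ^ 4) * (X / 2 * (m : ℝ) ^ δ) + (D + C0 ^ 4) * (X / 2 * (m : ℝ) ^ δ) := by
              linarith
          _ = _ := by ring
  obtain ⟨n, hn⟩ := pow_unbounded_of_one_lt X (by norm_num : (1 : ℝ) < 2)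
  exact key n X hX hn.le hm

end Pool.Agent.Helper31.FM
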