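import Pool.Agent.Helper31.FM.Defs
import Pool.Agent.Helper31.FI.Fresnel

/-!
# FM-PO1: the integral `∫_0^∞ x^(-3/2) exp (-z/x - s x) dx = √(π/z) exp (-2 √z √s)`, `Re z > 0`, `Re s ≥ 0`

First `Re s > 0`.  Put `p = z^(1/2)`, `q = s^(1/2)` (both have argument in `(-π/4, π/4)`), `c = p q`, and for `x > 0`
`U∓(x) = (p/√x ∓ q √x)`.  `U∓' = -(p ± q x)/(2 x^(3/2))`, `U∓² = z/x ∓ 2c + s x`.  Let `G` be the entire function with
`G' (u) = exp (-u²)`, `G 0 = 0` (`G u = √π e^(-πi/4) Fr (e^(πi/4) u/√π)` with `Fr`, `Wc` of `FI.Fresnel`).  Then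
`d/dx [-(1/p) (G (U₋ x) exp (-2c) + G (U₊ x) exp (2c))] = x^(-3/2) exp (-z/x - s x)`, because `(p + q x) + (p - q x) = 2p`.  Limits: `G u → √π/2` when `Re (u²) → ∞` and `Re u > 0` (`Fr_eq`, `norm_Wc_le`), `G` is odd.
As `x → 0`: both `U → ∞`; as `x → ∞`: `U₋ → -∞`, `U₊ → ∞`.  So the integral is
`-(1/p)(√π/2)[(-e^(-2c) + e^(2c)) - (e^(-2c) + e^(2c))] = √π/p · exp (-2c)`.
`Re s = 0`: let `s + ε`, `ε → 0`, dominated convergence (`x^(-3/2) exp (-Re z/x)` is integrable), continuity of `cpow`.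
For `s = 2 π i ξ` with `ξ` real: `√z √s = (2 π i ξ z)^(1/2)` because the arguments add up to less than `π` (`ξ = 0` trivial).
-/

set_option autoImplicit false

namespace Pool.Agent.Helper31.FM

open Complex Real Finset MeasureTheory
open Pool.Agent.Helper31.FI (ee ze mains)

/-- the kernel, extended by `0` -/
noncomputable def gz (z : ℂ) (x : ℝ) : ℂ :=
  if 0 < x then ((x ^ (-(3 / 2) : ℝ) : ℝ) : ℂ) * cexp (-(z / x)) else 0

private theorem four_int_base (a : ℝ) (ha : 0 < a) :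
    IntegrableOn (fun x : ℝ => x ^ (-(3 / 2) : ℝ) * Real.exp (-(a / x))) (Set.Ioi 0) := by
  have h0 : IntegrableOn (fun y : ℝ => y ^ (-(1 / 2) : ℝ) * Real.exp (-a * y)) (Set.Ioi 0) := by
    have := integrableOn_rpow_mul_exp_neg_mul_rpow (s := -(1 / 2)) (p := 1) (b := a)
      (by norm_num) (by norm_num) ha
    refine this.congr_fun (fun y hy => ?_) measurableSet_Ioi
    simp only [Real.rpow_one]
  have h1 := (integrableOn_Ioi_comp_rpow_iff'
    (fun y : ℝ => y ^ (-(1 / 2) : ℝ) * Real.exp (-a * y)) (p := -1) (by norm_num)).2 h0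
  refine h1.congr_fun (fun x hx => ?_) measurableSet_Ioi
  have hx : 0 < x := hx
  simp only [smul_eq_mul]
  rw [← Real.rpow_mul hx.le, ← mul_assoc, ← Real.rpow_add hx, Real.rpow_neg_one]
  congr 2
  · norm_num
  · rw [div_eq_mul_inv, neg_mul]

private theorem gz_norm (z : ℂ) (x : ℝ) (hx : 0 < x) :
    ‖((x ^ (-(3 / 2) : ℝ) : ℝ) : ℂ) * cexp (-(z / x))‖
      = x ^ (-(3 / 2) : ℝ) * Real.exp (-(z.re / x)) := by
  rw [norm_mul, Complex.norm_exp, Complex.norm_real, Real.norm_eq_abs,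
    abs_of_nonneg (Real.rpow_nonneg hx.le _)]
  congr 2
  rw [Complex.neg_re, Complex.div_ofReal_re]

private theorem gz_meas (z : ℂ) :
    Measurable (fun x : ℝ => ((x ^ (-(3 / 2) : ℝ) : ℝ) : ℂ) * cexp (-(z / x))) := by
  fun_prop

private theorem gz_intOn (z : ℂ) (hz : 0 < z.re) :
    IntegrableOn (fun x : ℝ => ((x ^ (-(3 / 2) : ℝ) : ℝ) : ℂ) * cexp (-(z / x)))
      (Set.Ioi 0) := by
  refine (four_int_base z.re hz).mono' (gz_meas z).aestronglyMeasurable ?_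
  filter_upwards [ae_restrict_mem measurableSet_Ioi] with x hx
  exact (gz_norm z x hx).le

theorem gz_integrable (z : ℂ) (hz : 0 < z.re) : Integrable (gz z) := by
  have h := (integrable_indicator_iff measurableSet_Ioi).2 (gz_intOn z hz)
  refine h.congr (Filter.Eventually.of_forall fun x => ?_)
  by_cases hx : 0 < x
  · simp [gz, hx]
  · simp [gz, hx]

/-- the entire antiderivative of `exp (-u²)` -/
private noncomputable def four_int_G (u : ℂ) : ℂ :=
  ((√π : ℝ) : ℂ) * cexp (-(π * I / 4)) * FI.Fr (cexp (π * I / 4) * u / ((√π : ℝ) : ℂ))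

private theorem four_int_sqpi : (((√π : ℝ) : ℂ)) ^ 2 = (π : ℂ) := by
  rw [← Complex.ofReal_pow, Real.sq_sqrt Real.pi_pos.le]

private theorem four_int_sqpi0 : (((√π : ℝ) : ℂ)) ≠ 0 := by
  simp [Real.sqrt_ne_zero'.2 Real.pi_pos]

private theorem four_int_w2 : cexp (π * I / 4) ^ 2 = I := by
  rw [← Complex.exp_nat_mul]
  have : ((2 : ℕ) : ℂ) * (π * I / 4) = (π / 2 : ℂ) * I := by push_cast; ring
  rw [this, Complex.exp_pi_div_two_mul_I]

private theorem four_int_sq (u : ℂ) :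
    π * I * (cexp (π * I / 4) * u / ((√π : ℝ) : ℂ)) ^ 2 = -u ^ 2 := by
  rw [div_pow, mul_pow, four_int_w2, four_int_sqpi]
  have : (π : ℂ) ≠ 0 := by exact_mod_cast Real.pi_ne_zero
  field_simp
  linear_combination u ^ 2 * I_sq

private theorem four_int_G_deriv (u : ℂ) : HasDerivAt four_int_G (cexp (-u ^ 2)) u := by
  have h1 : HasDerivAt (fun u : ℂ => cexp (π * I / 4) * u / ((√π : ℝ) : ℂ))
      (cexp (π * I / 4) / ((√π : ℝ) : ℂ)) u := by
    have := ((hasDerivAt_id u).const_mul (cexp (π * I / 4))).div_const ((√π : ℝ) : ℂ)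
    simpa using this
  have h2 := (FI.hasDerivAt_Fr (cexp (π * I / 4) * u / ((√π : ℝ) : ℂ))).comp u h1
  have h3 := h2.const_mul (((√π : ℝ) : ℂ) * cexp (-(π * I / 4)))
  refine h3.congr_deriv ?_
  rw [four_int_sq]
  have h4 : cexp (-(π * I / 4)) * cexp (π * I / 4) = 1 := by
    rw [← Complex.exp_add]; simp
  have h5 := four_int_sqpi0
  calc ((√π : ℝ) : ℂ) * cexp (-(π * I / 4)) *
        (cexp (-u ^ 2) * (cexp (π * I / 4) / ((√π : ℝ) : ℂ)))
      = (cexp (-(π * I / 4)) * cexp (π * I / 4)) * cexp (-u ^ 2)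
          * (((√π : ℝ) : ℂ) / ((√π : ℝ) : ℂ)) := by ring
    _ = cexp (-u ^ 2) := by rw [h4, div_self h5, one_mul, mul_one]

private theorem four_int_G_neg (u : ℂ) : four_int_G (-u) = -four_int_G u := by
  unfold four_int_G
  rw [show cexp (π * I / 4) * -u / ((√π : ℝ) : ℂ) = -(cexp (π * I / 4) * u / ((√π : ℝ) : ℂ))
    by ring, FI.Fr_neg]
  ring

private theorem four_int_G_bound (u : ℂ) (hu : 0 ≤ u.re) :
    ‖four_int_G u - (((√π / 2 : ℝ)) : ℂ)‖ ≤ √π / 2 * Real.exp (-(u ^ 2).re) := by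
  have h4 : cexp (-(π * I / 4)) * cexp (π * I / 4) = 1 := by
    rw [← Complex.exp_add]; simp
  have h1 : four_int_G u - (((√π / 2 : ℝ)) : ℂ) =
      -(((√π : ℝ) : ℂ) * cexp (-(π * I / 4)) * cexp (-u ^ 2) *
        FI.Wc (cexp (π * I / 4) * u / ((√π : ℝ) : ℂ))) := by
    unfold four_int_G
    rw [FI.Fr_eq, four_int_sq]
    push_cast
    linear_combination (((√π : ℝ) : ℂ) / 2) * h4
  have h2 : ‖FI.Wc (cexp (π * I / 4) * u / ((√π : ℝ) : ℂ))‖ ≤ 1 / 2 := by
    apply FI.norm_Wc_le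
    have e1 : cexp (π * I / 4) = ((√2 / 2 : ℝ) : ℂ) + ((√2 / 2 : ℝ) : ℂ) * I := by
      rw [show (π * I / 4 : ℂ) = ((π / 4 : ℝ) : ℂ) * I by push_cast; ring, Complex.exp_mul_I,
        ← Complex.ofReal_cos, ← Complex.ofReal_sin, Real.cos_pi_div_four, Real.sin_pi_div_four]
    rw [Complex.div_ofReal_re, Complex.div_ofReal_im, ← add_div]
    apply div_nonneg _ (Real.sqrt_nonneg _)
    rw [e1, Complex.mul_re, Complex.mul_im]
    simp only [Complex.add_re, Complex.add_im, Complex.ofReal_re, Complex.ofReal_im,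
      Complex.mul_re, Complex.mul_im, Complex.I_re, Complex.I_im]
    have : 0 ≤ √2 * u.re := mul_nonneg (Real.sqrt_nonneg _) hu
    nlinarith
  rw [h1, norm_neg, norm_mul, norm_mul, norm_mul]
  have n1 : ‖((√π : ℝ) : ℂ)‖ = √π := by
    rw [Complex.norm_real, Real.norm_eq_abs, abs_of_nonneg (Real.sqrt_nonneg _)]
  have n2 : ‖cexp (-(π * I / 4))‖ = 1 := by
    rw [show (-(π * I / 4) : ℂ) = ((-(π / 4) : ℝ) : ℂ) * I by push_cast; ring,
      Complex.norm_exp_ofReal_mul_I]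
  have n3 : ‖cexp (-u ^ 2)‖ = Real.exp (-(u ^ 2).re) := by
    rw [Complex.norm_exp, Complex.neg_re]
  rw [n1, n2, n3, mul_one]
  calc √π * Real.exp (-(u ^ 2).re) * ‖FI.Wc (cexp (π * I / 4) * u / ((√π : ℝ) : ℂ))‖
      ≤ √π * Real.exp (-(u ^ 2).re) * (1 / 2) := by
        apply mul_le_mul_of_nonneg_left h2
        positivity
    _ = √π / 2 * Real.exp (-(u ^ 2).re) := by ring

private theorem four_int_G_lim {l : Filter ℝ} (f : ℝ → ℂ) (h0 : ∀ᶠ x in l, 0 ≤ (f x).re)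
    (h1 : Filter.Tendsto (fun x => (f x ^ 2).re) l Filter.atTop) :
    Filter.Tendsto (fun x => four_int_G (f x)) l (nhds (((√π / 2 : ℝ)) : ℂ)) := by
  rw [tendsto_iff_norm_sub_tendsto_zero]
  have h2 : Filter.Tendsto (fun x => √π / 2 * Real.exp (-(f x ^ 2).re)) l (nhds 0) := by
    have := (Real.tendsto_exp_neg_atTop_nhds_zero.comp h1).const_mul (√π / 2)
    simpa using this
  refine squeeze_zero' (Filter.Eventually.of_forall fun x => norm_nonneg _) ?_ h2
  filter_upwards [h0] with x hx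
  exact four_int_G_bound _ hx

private theorem four_int_U_deriv (p q : ℂ) (x : ℝ) (hx : 0 < x) :
    HasDerivAt (fun x : ℝ => p / ((√x : ℝ) : ℂ) + q * ((√x : ℝ) : ℂ))
      (-(p - q * x) / (2 * (x * ((√x : ℝ) : ℂ)))) x := by
  have h1 : HasDerivAt (fun x : ℝ => ((√x : ℝ) : ℂ)) (((1 / (2 * √x) : ℝ)) : ℂ) x :=
    (Real.hasDerivAt_sqrt hx.ne').ofReal_comp
  have hs : ((√x : ℝ) : ℂ) ≠ 0 := by
    simp [Real.sqrt_ne_zero'.2 hx]
  have hs2 : ((√x : ℝ) : ℂ) ^ 2 = (x : ℂ) := by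
    rw [← Complex.ofReal_pow, Real.sq_sqrt hx.le]
  have hx0 : (x : ℂ) ≠ 0 := by exact_mod_cast hx.ne'
  have h2 := ((hasDerivAt_const x p).fun_div h1 hs).fun_add (h1.const_mul q)
  refine h2.congr_deriv ?_
  push_cast
  rw [← hs2]
  field_simp
  ring

private theorem four_int_pos (p q : ℂ) (hp : 0 < p.re) (hp2 : 0 < (p ^ 2).re) (hq : 0 < q.re)
    (hq2 : 0 < (q ^ 2).re) :
    ∫ x in Set.Ioi (0 : ℝ), ((x ^ (-(3 / 2) : ℝ) : ℝ) : ℂ) * cexp (-(p ^ 2 / x)) *
      cexp (-(q ^ 2 * x)) = ((√π : ℝ) : ℂ) / p * cexp (-(2 * (p * q))) := by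
  have hp0 : p ≠ 0 := by
    rintro rfl
    simp at hp
  set H : ℝ → ℂ := fun x => -(1 / p) *
    (four_int_G (p / ((√x : ℝ) : ℂ) + (-q) * ((√x : ℝ) : ℂ)) * cexp (-(2 * (p * q))) +
      four_int_G (p / ((√x : ℝ) : ℂ) + q * ((√x : ℝ) : ℂ)) * cexp (2 * (p * q))) with hH
  -- limits
  have hsq : Filter.Tendsto (fun x : ℝ => √x) Filter.atTop Filter.atTop :=
    Real.tendsto_sqrt_atTop
  have hsq0 : Filter.Tendsto (fun x : ℝ => √x) (nhdsWithin 0 (Set.Ioi 0)) (nhds 0) := by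
    have : Filter.Tendsto (fun x : ℝ => √x) (nhds 0) (nhds (√0)) :=
      Real.continuous_sqrt.tendsto 0
    rw [Real.sqrt_zero] at this
    exact this.mono_left nhdsWithin_le_nhds
  have hsq0' : Filter.Tendsto (fun x : ℝ => √x) (nhdsWithin 0 (Set.Ioi 0))
      (nhdsWithin 0 (Set.Ioi 0)) := by
    refine tendsto_nhdsWithin_iff.2 ⟨hsq0, ?_⟩
    filter_upwards [self_mem_nhdsWithin] with x hx
    exact Real.sqrt_pos.2 hx
  have hre : ∀ (r : ℂ) (x : ℝ), 0 < x →
      (p / ((√x : ℝ) : ℂ) + r * ((√x : ℝ) : ℂ)).re = p.re / √x + r.re * √x := by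
    intro r x hx
    rw [Complex.add_re, Complex.div_ofReal_re, Complex.re_mul_ofReal]
  have hsqre : ∀ (r : ℂ) (x : ℝ), 0 < x →
      ((p / ((√x : ℝ) : ℂ) + r * ((√x : ℝ) : ℂ)) ^ 2) = p ^ 2 / x + r ^ 2 * x + 2 * (p * r) := by
    intro r x hx
    have hs : ((√x : ℝ) : ℂ) ≠ 0 := by
      simp [Real.sqrt_ne_zero'.2 hx]
    have hs2 : ((√x : ℝ) : ℂ) ^ 2 = (x : ℂ) := by
      rw [← Complex.ofReal_pow, Real.sq_sqrt hx.le]
    rw [← hs2]
    field_simp
    ring
  have hsqre' : ∀ (r : ℂ) (x : ℝ), 0 < x →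
      ((p / ((√x : ℝ) : ℂ) + r * ((√x : ℝ) : ℂ)) ^ 2).re
        = (p ^ 2).re / x + (r ^ 2).re * x + (2 * (p * r)).re := by
    intro r x hx
    rw [hsqre r x hx, Complex.add_re, Complex.add_re, Complex.div_ofReal_re,
      Complex.re_mul_ofReal]
  have hinv0 : Filter.Tendsto (fun x : ℝ => x⁻¹) (nhdsWithin 0 (Set.Ioi 0)) Filter.atTop :=
    tendsto_inv_nhdsGT_zero
  have hpos0 : ∀ᶠ x : ℝ in nhdsWithin 0 (Set.Ioi 0), 0 < x := self_mem_nhdsWithin
  -- x → 0
  have hL0 : ∀ r : ℂ, Filter.Tendsto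
      (fun x : ℝ => four_int_G (p / ((√x : ℝ) : ℂ) + r * ((√x : ℝ) : ℂ)))
      (nhdsWithin 0 (Set.Ioi 0)) (nhds (((√π / 2 : ℝ)) : ℂ)) := by
    intro r
    apply four_int_G_lim
    · have t1 : Filter.Tendsto (fun x : ℝ => p.re * (√x)⁻¹ + r.re * √x)
          (nhdsWithin 0 (Set.Ioi 0)) Filter.atTop := by
        have a1 : Filter.Tendsto (fun x : ℝ => p.re * (√x)⁻¹) (nhdsWithin 0 (Set.Ioi 0))
            Filter.atTop := (hinv0.comp hsq0').const_mul_atTop hp
        exact a1.atTop_add (hsq0.const_mul r.re)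
      filter_upwards [hpos0, t1.eventually_ge_atTop 0] with x hx h
      rw [hre r x hx, div_eq_mul_inv]
      exact h
    · have t1 : Filter.Tendsto (fun x : ℝ => (p ^ 2).re * x⁻¹ +
          ((r ^ 2).re * x + (2 * (p * r)).re)) (nhdsWithin 0 (Set.Ioi 0)) Filter.atTop := by
        have a1 : Filter.Tendsto (fun x : ℝ => (p ^ 2).re * x⁻¹) (nhdsWithin 0 (Set.Ioi 0))
            Filter.atTop := hinv0.const_mul_atTop hp2
        have a2 : Filter.Tendsto (fun x : ℝ => (r ^ 2).re * x + (2 * (p * r)).re)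
            (nhdsWithin 0 (Set.Ioi 0)) (nhds ((r ^ 2).re * 0 + (2 * (p * r)).re)) := by
          refine Filter.Tendsto.mono_left ?_ nhdsWithin_le_nhds
          exact ((continuous_const.mul continuous_id).add continuous_const).tendsto 0
        exact a1.atTop_add a2
      refine t1.congr' ?_
      filter_upwards [hpos0] with x hx
      rw [hsqre' r x hx, div_eq_mul_inv]
      ring
  -- x → ∞
  have hLi : ∀ r : ℂ, 0 < r.re → 0 < (r ^ 2).re → ∀ p' : ℂ, Filter.Tendsto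
      (fun x : ℝ => four_int_G (p' / ((√x : ℝ) : ℂ) + r * ((√x : ℝ) : ℂ)))
      Filter.atTop (nhds (((√π / 2 : ℝ)) : ℂ)) := by
    intro r hr hr2 p'
    apply four_int_G_lim
    · have t1 : Filter.Tendsto (fun x : ℝ => p'.re * (√x)⁻¹ + r.re * √x)
          Filter.atTop Filter.atTop := by
        have a1 : Filter.Tendsto (fun x : ℝ => p'.re * (√x)⁻¹) Filter.atTop
            (nhds (p'.re * 0)) := (tendsto_inv_atTop_zero.comp hsq).const_mul _
        exact a1.add_atTop (hsq.const_mul_atTop hr)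
      filter_upwards [Filter.eventually_gt_atTop 0, t1.eventually_ge_atTop 0] with x hx h
      rw [Complex.add_re, Complex.div_ofReal_re, Complex.re_mul_ofReal, div_eq_mul_inv]
      exact h
    · have t1 : Filter.Tendsto (fun x : ℝ => ((p' ^ 2).re * x⁻¹ + (2 * (p' * r)).re) +
          (r ^ 2).re * x) Filter.atTop Filter.atTop := by
        have a1 : Filter.Tendsto (fun x : ℝ => (p' ^ 2).re * x⁻¹ + (2 * (p' * r)).re)
            Filter.atTop (nhds ((p' ^ 2).re * 0 + (2 * (p' * r)).re)) :=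
          (tendsto_inv_atTop_zero.const_mul _).add_const _
        exact a1.add_atTop (Filter.tendsto_id.const_mul_atTop hr2)
      refine t1.congr' ?_
      filter_upwards [Filter.eventually_gt_atTop 0] with x hx
      have hs : ((√x : ℝ) : ℂ) ≠ 0 := by
        simp [Real.sqrt_ne_zero'.2 hx]
      have hs2 : ((√x : ℝ) : ℂ) ^ 2 = (x : ℂ) := by
        rw [← Complex.ofReal_pow, Real.sq_sqrt hx.le]
      have e : ((p' / ((√x : ℝ) : ℂ) + r * ((√x : ℝ) : ℂ)) ^ 2)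
          = p' ^ 2 / x + r ^ 2 * x + 2 * (p' * r) := by
        rw [← hs2]
        field_simp
        ring
      rw [e, Complex.add_re, Complex.add_re, Complex.div_ofReal_re,
        Complex.re_mul_ofReal, div_eq_mul_inv]
      ring
  set K0 : ℂ := -(1 / p) * ((((√π / 2 : ℝ)) : ℂ) * cexp (-(2 * (p * q))) +
    (((√π / 2 : ℝ)) : ℂ) * cexp (2 * (p * q))) with hK0
  set K1 : ℂ := -(1 / p) * (-(((√π / 2 : ℝ)) : ℂ) * cexp (-(2 * (p * q))) +
    (((√π / 2 : ℝ)) : ℂ) * cexp (2 * (p * q))) with hK1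
  have hlim0 : Filter.Tendsto H (nhdsWithin 0 (Set.Ioi 0)) (nhds K0) :=
    (((hL0 (-q)).mul_const _).add ((hL0 q).mul_const _)).const_mul _
  have hlim1 : Filter.Tendsto H Filter.atTop (nhds K1) := by
    have h1 : Filter.Tendsto
        (fun x : ℝ => four_int_G (p / ((√x : ℝ) : ℂ) + (-q) * ((√x : ℝ) : ℂ)))
        Filter.atTop (nhds (-(((√π / 2 : ℝ)) : ℂ))) := by
      refine (hLi q hq hq2 (-p)).neg.congr (fun x => ?_)
      rw [← four_int_G_neg]
      congr 1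
      ring
    exact ((h1.mul_const _).add ((hLi q hq hq2 p).mul_const _)).const_mul _
  -- the derivative
  have hder : ∀ x ∈ Set.Ioi (0 : ℝ), HasDerivAt H
      (((x ^ (-(3 / 2) : ℝ) : ℝ) : ℂ) * cexp (-(p ^ 2 / x)) * cexp (-(q ^ 2 * x))) x := by
    intro x hx
    have hx : 0 < x := hx
    have h1 := (four_int_G_deriv _).comp x (four_int_U_deriv p (-q) x hx)
    have h2 := (four_int_G_deriv _).comp x (four_int_U_deriv p q x hx)
    have h3 := ((h1.mul_const (cexp (-(2 * (p * q))))).add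
      (h2.mul_const (cexp (2 * (p * q))))).const_mul (-(1 / p))
    refine h3.congr_deriv ?_
    have hs : ((√x : ℝ) : ℂ) ≠ 0 := by
      simp [Real.sqrt_ne_zero'.2 hx]
    have hx0 : (x : ℂ) ≠ 0 := by exact_mod_cast hx.ne'
    have e1 : cexp (-(p / ((√x : ℝ) : ℂ) + (-q) * ((√x : ℝ) : ℂ)) ^ 2) * cexp (-(2 * (p * q)))
        = cexp (-(p ^ 2 / x)) * cexp (-(q ^ 2 * x)) := by
      rw [hsqre (-q) x hx, ← Complex.exp_add, ← Complex.exp_add]
      congr 1
      ring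
    have e2 : cexp (-(p / ((√x : ℝ) : ℂ) + q * ((√x : ℝ) : ℂ)) ^ 2) * cexp (2 * (p * q))
        = cexp (-(p ^ 2 / x)) * cexp (-(q ^ 2 * x)) := by
      rw [hsqre q x hx, ← Complex.exp_add, ← Complex.exp_add]
      congr 1
      ring
    have e3 : ((x ^ (-(3 / 2) : ℝ) : ℝ) : ℂ) = 1 / (x * ((√x : ℝ) : ℂ)) := by
      have : x ^ (-(3 / 2) : ℝ) = 1 / (x * √x) := by
        rw [Real.rpow_neg hx.le, show (3 / 2 : ℝ) = 1 + 1 / 2 by norm_num,
          Real.rpow_add hx, Real.rpow_one, Real.sqrt_eq_rpow, one_div (_ * _)]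
      rw [this]
      push_cast
      rfl
    rw [e3]
    calc -(1 / p) * (cexp (-(p / ((√x : ℝ) : ℂ) + (-q) * ((√x : ℝ) : ℂ)) ^ 2) *
            (-(p - (-q) * x) / (2 * (x * ((√x : ℝ) : ℂ)))) * cexp (-(2 * (p * q))) +
          cexp (-(p / ((√x : ℝ) : ℂ) + q * ((√x : ℝ) : ℂ)) ^ 2) *
            (-(p - q * x) / (2 * (x * ((√x : ℝ) : ℂ)))) * cexp (2 * (p * q)))
        = -(1 / p) * ((cexp (-(p / ((√x : ℝ) : ℂ) + (-q) * ((√x : ℝ) : ℂ)) ^ 2)
            * cexp (-(2 * (p * q)))) * (-(p - (-q) * x) / (2 * (x * ((√x : ℝ) : ℂ)))) +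
          (cexp (-(p / ((√x : ℝ) : ℂ) + q * ((√x : ℝ) : ℂ)) ^ 2) * cexp (2 * (p * q))) *
            (-(p - q * x) / (2 * (x * ((√x : ℝ) : ℂ))))) := by ring
      _ = 1 / (x * ((√x : ℝ) : ℂ)) * cexp (-(p ^ 2 / x)) * cexp (-(q ^ 2 * x)) := by
          rw [e1, e2]
          field_simp
          ring
  -- integrability
  have hint : IntegrableOn (fun x : ℝ => ((x ^ (-(3 / 2) : ℝ) : ℝ) : ℂ) * cexp (-(p ^ 2 / x)) *
      cexp (-(q ^ 2 * x))) (Set.Ioi 0) := by
    refine (four_int_base (p ^ 2).re hp2).mono' ?_ ?_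
    · exact ((gz_meas _).mul (by fun_prop)).aestronglyMeasurable
    · filter_upwards [ae_restrict_mem measurableSet_Ioi] with x hx
      have hx : 0 < x := hx
      rw [norm_mul, gz_norm _ x hx, Complex.norm_exp, Complex.neg_re, Complex.re_mul_ofReal]
      have : Real.exp (-((q ^ 2).re * x)) ≤ 1 := by
        rw [Real.exp_le_one_iff]
        have := mul_pos hq2 hx
        linarith
      calc x ^ (-(3 / 2) : ℝ) * Real.exp (-((p ^ 2).re / x)) * Real.exp (-((q ^ 2).re * x))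
          ≤ x ^ (-(3 / 2) : ℝ) * Real.exp (-((p ^ 2).re / x)) * 1 := by
            apply mul_le_mul_of_nonneg_left this
            have := Real.rpow_nonneg hx.le (-(3 / 2))
            positivity
        _ = _ := by rw [mul_one]
  have hcont : ContinuousWithinAt (Function.update H 0 K0) (Set.Ici 0) 0 := by
    rw [← Set.Ioi_union_left, continuousWithinAt_union]
    refine ⟨?_, continuousWithinAt_singleton⟩
    rw [ContinuousWithinAt, Function.update_self]
    refine hlim0.congr' ?_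
    filter_upwards [self_mem_nhdsWithin] with x hx
    rw [Function.update_of_ne (ne_of_gt hx)]
  have hder' : ∀ x ∈ Set.Ioi (0 : ℝ), HasDerivAt (Function.update H 0 K0)
      (((x ^ (-(3 / 2) : ℝ) : ℝ) : ℂ) * cexp (-(p ^ 2 / x)) * cexp (-(q ^ 2 * x))) x := by
    intro x hx
    refine (hder x hx).congr_of_eventuallyEq ?_
    filter_upwards [isOpen_Ioi.mem_nhds hx] with y hy
    rw [Function.update_of_ne (ne_of_gt hy)]
  have hlim1' : Filter.Tendsto (Function.update H 0 K0) Filter.atTop (nhds K1) := by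
    refine hlim1.congr' ?_
    filter_upwards [Filter.eventually_gt_atTop 0] with y hy
    rw [Function.update_of_ne (ne_of_gt hy)]
  have hfin := integral_Ioi_of_hasDerivAt_of_tendsto hcont hder' hint hlim1'
  rw [hfin, Function.update_self, hK0, hK1]
  push_cast
  field_simp
  ring

private theorem four_int_mul_cpow (a b : ℂ) (ha : a ≠ 0) (hb : b ≠ 0) (ha' : 0 ≤ a.re)
    (hb' : 0 < b.re) : (a * b) ^ (1 / 2 : ℂ) = a ^ (1 / 2 : ℂ) * b ^ (1 / 2 : ℂ) := by
  have h1 : |arg a| ≤ π / 2 := Complex.abs_arg_le_pi_div_two_iff.2 ha'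
  have h2 : |arg b| < π / 2 := Complex.abs_arg_lt_pi_div_two_iff.2 (Or.inl hb')
  have h3 := abs_le.1 h1
  have h4 := abs_lt.1 h2
  have h5 : arg a + arg b ∈ Set.Ioc (-π) π := ⟨by linarith, by linarith⟩
  rw [Complex.cpow_def_of_ne_zero (mul_ne_zero ha hb), Complex.cpow_def_of_ne_zero ha,
    Complex.cpow_def_of_ne_zero hb, (Complex.log_mul_eq_add_log_iff ha hb).2 h5, add_mul,
    Complex.exp_add]

private theorem four_int_re_pos (s : ℂ) (hs : 0 < s.re) : 0 < (s ^ (1 / 2 : ℂ)).re := by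
  have hs0 : s ≠ 0 := by
    rintro rfl
    simp at hs
  have h2 : |arg s| < π / 2 := Complex.abs_arg_lt_pi_div_two_iff.2 (Or.inl hs)
  have h4 := abs_lt.1 h2
  rw [Complex.cpow_def_of_ne_zero hs0, Complex.exp_re]
  have h5 : (Complex.log s * (1 / 2 : ℂ)).im = arg s / 2 := by
    have : (Complex.log s * (1 / 2 : ℂ)) = Complex.log s * (((1 / 2 : ℝ)) : ℂ) := by
      push_cast; rfl
    rw [this, Complex.im_mul_ofReal, Complex.log_im]
    ring
  rw [h5]
  apply mul_pos (Real.exp_pos _)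
  apply Real.cos_pos_of_mem_Ioo
  constructor <;> linarith [Real.pi_pos]

private theorem four_int_sq_cpow (s : ℂ) : (s ^ (1 / 2 : ℂ)) ^ 2 = s := by
  have := Complex.cpow_nat_inv_pow s (n := 2) (by norm_num)
  rw [show (1 / 2 : ℂ) = ((2 : ℕ) : ℂ)⁻¹ by norm_num]
  exact this

private theorem four_int_eps (z s : ℂ) (hz : 0 < z.re) (hs : 0 < s.re) :
    ∫ x in Set.Ioi (0 : ℝ), ((x ^ (-(3 / 2) : ℝ) : ℝ) : ℂ) * cexp (-(z / x)) *
      cexp (-(s * x)) = ((√π : ℝ) : ℂ) / z ^ (1 / 2 : ℂ) *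
        cexp (-(2 * (z ^ (1 / 2 : ℂ) * s ^ (1 / 2 : ℂ)))) := by
  have h := four_int_pos (z ^ (1 / 2 : ℂ)) (s ^ (1 / 2 : ℂ)) (four_int_re_pos z hz)
    (by rw [four_int_sq_cpow]; exact hz) (four_int_re_pos s hs)
    (by rw [four_int_sq_cpow]; exact hs)
  rw [four_int_sq_cpow, four_int_sq_cpow] at h
  exact h

theorem four_int (z : ℂ) (ξ : ℝ) (hz : 0 < z.re) :
    ∫ x : ℝ, gz z x * cexp (-(2 * π * I * ξ * x)) = (π / z) ^ (1 / 2 : ℂ) * Lz z ξ := by
  have hz0 : z ≠ 0 := by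
    rintro rfl
    simp at hz
  have hpi0 : (π : ℂ) ≠ 0 := by exact_mod_cast Real.pi_ne_zero
  have hs0re : (2 * π * I * ξ : ℂ).re = 0 := by simp
  -- step 1: the integral over the half line
  have h1 : ∫ x : ℝ, gz z x * cexp (-(2 * π * I * ξ * x)) =
      ∫ x in Set.Ioi (0 : ℝ), ((x ^ (-(3 / 2) : ℝ) : ℝ) : ℂ) * cexp (-(z / x)) *
        cexp (-(2 * π * I * ξ * x)) := by
    rw [← integral_indicator measurableSet_Ioi]
    refine integral_congr_ae (Filter.Eventually.of_forall fun x => ?_)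
    by_cases hx : 0 < x
    · simp [gz, hx]
    · simp [gz, hx]
  -- step 2: the limit
  have h2 : Filter.Tendsto (fun e : ℝ => ∫ x in Set.Ioi (0 : ℝ),
      ((x ^ (-(3 / 2) : ℝ) : ℝ) : ℂ) * cexp (-(z / x)) * cexp (-((e + 2 * π * I * ξ) * x)))
      (nhdsWithin 0 (Set.Ioi 0))
      (nhds (∫ x in Set.Ioi (0 : ℝ), ((x ^ (-(3 / 2) : ℝ) : ℝ) : ℂ) * cexp (-(z / x)) *
        cexp (-(2 * π * I * ξ * x)))) := by
    apply tendsto_integral_filter_of_dominated_convergence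
      (fun x : ℝ => x ^ (-(3 / 2) : ℝ) * Real.exp (-(z.re / x)))
    · refine Filter.Eventually.of_forall fun e => ?_
      exact ((gz_meas z).mul (by fun_prop)).aestronglyMeasurable
    · filter_upwards [self_mem_nhdsWithin] with e he
      have he : 0 < e := he
      filter_upwards [ae_restrict_mem measurableSet_Ioi] with x hx
      have hx : 0 < x := hx
      rw [norm_mul, gz_norm _ x hx, Complex.norm_exp, Complex.neg_re, Complex.re_mul_ofReal,
        Complex.add_re, Complex.ofReal_re, hs0re, add_zero]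
      have : Real.exp (-(e * x)) ≤ 1 := by
        rw [Real.exp_le_one_iff]
        have := mul_pos he hx
        linarith
      calc x ^ (-(3 / 2) : ℝ) * Real.exp (-(z.re / x)) * Real.exp (-(e * x))
          ≤ x ^ (-(3 / 2) : ℝ) * Real.exp (-(z.re / x)) * 1 := by
            apply mul_le_mul_of_nonneg_left this
            have := Real.rpow_nonneg hx.le (-(3 / 2))
            positivity
        _ = _ := by rw [mul_one]
    · exact four_int_base z.re hz
    · filter_upwards with x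
      have hc : Continuous (fun e : ℝ =>
          ((x ^ (-(3 / 2) : ℝ) : ℝ) : ℂ) * cexp (-(z / x)) * cexp (-((e + 2 * π * I * ξ) * x))) := by
        fun_prop
      have := (hc.tendsto 0).mono_left (nhdsWithin_le_nhds (s := Set.Ioi 0))
      simpa using this
  -- step 3: the limit of the right side
  have h3 : Filter.Tendsto (fun e : ℝ => ((√π : ℝ) : ℂ) / z ^ (1 / 2 : ℂ) *
        cexp (-(2 * (z ^ (1 / 2 : ℂ) * ((e : ℂ) + 2 * π * I * ξ) ^ (1 / 2 : ℂ)))))
      (nhdsWithin 0 (Set.Ioi 0))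
      (nhds (((√π : ℝ) : ℂ) / z ^ (1 / 2 : ℂ) *
        cexp (-(2 * (z ^ (1 / 2 : ℂ) * (2 * π * I * ξ) ^ (1 / 2 : ℂ)))))) := by
    have c1 : ContinuousAt (fun w : ℂ => w ^ (1 / 2 : ℂ)) (2 * π * I * ξ) :=
      continuousAt_cpow_const_of_re_pos (Or.inl hs0re.ge) (by norm_num)
    have c2 : Filter.Tendsto (fun e : ℝ => (e : ℂ) + 2 * π * I * ξ) (nhdsWithin 0 (Set.Ioi 0))
        (nhds (2 * π * I * ξ)) := by
      have hc : Continuous (fun e : ℝ => (e : ℂ) + 2 * π * I * ξ) := by fun_prop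
      have := (hc.tendsto 0).mono_left (nhdsWithin_le_nhds (s := Set.Ioi 0))
      simpa using this
    have c3 := c1.tendsto.comp c2
    have c4 : Continuous (fun w : ℂ => ((√π : ℝ) : ℂ) / z ^ (1 / 2 : ℂ) *
        cexp (-(2 * (z ^ (1 / 2 : ℂ) * w)))) := by fun_prop
    exact (c4.tendsto _).comp c3
  have h4 : ∫ x in Set.Ioi (0 : ℝ), ((x ^ (-(3 / 2) : ℝ) : ℝ) : ℂ) * cexp (-(z / x)) *
        cexp (-(2 * π * I * ξ * x)) = ((√π : ℝ) : ℂ) / z ^ (1 / 2 : ℂ) *
        cexp (-(2 * (z ^ (1 / 2 : ℂ) * (2 * π * I * ξ) ^ (1 / 2 : ℂ)))) := by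
    refine tendsto_nhds_unique h2 (h3.congr' ?_)
    filter_upwards [self_mem_nhdsWithin] with e he
    have he : 0 < e := he
    rw [four_int_eps z _ hz]
    rw [Complex.add_re, Complex.ofReal_re, hs0re, add_zero]
    exact he
  have h5 : z ^ (1 / 2 : ℂ) * (2 * π * I * ξ) ^ (1 / 2 : ℂ) =
      (2 * π * I * ξ * z) ^ (1 / 2 : ℂ) := by
    by_cases hξ : ξ = 0
    · subst hξ
      simp
    · have hne : (2 * π * I * ξ : ℂ) ≠ 0 := by
        have : (ξ : ℂ) ≠ 0 := by exact_mod_cast hξ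
        simp [this, hpi0]
      rw [four_int_mul_cpow _ z hne hz0 hs0re.ge hz, mul_comm]
  have h6 : ((√π : ℝ) : ℂ) / z ^ (1 / 2 : ℂ) = (π / z) ^ (1 / 2 : ℂ) := by
    have hinv : 0 < (z⁻¹).re := by
      rw [Complex.inv_re]
      exact div_pos hz (Complex.normSq_pos.2 hz0)
    have harg : z.arg ≠ π := by
      intro h
      have := Complex.abs_arg_lt_pi_div_two_iff.2 (Or.inl hz)
      rw [h, abs_of_pos Real.pi_pos] at this
      linarith [Real.pi_pos]
    rw [div_eq_mul_inv _ (z ^ (1 / 2 : ℂ)), div_eq_mul_inv (π : ℂ) z,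
      four_int_mul_cpow _ _ hpi0 (inv_ne_zero hz0)
      (by rw [Complex.ofReal_re]; exact Real.pi_pos.le) hinv, Complex.inv_cpow _ _ harg]
    congr 1
    rw [show (1 / 2 : ℂ) = (((1 / 2 : ℝ)) : ℂ) by push_cast; rfl,
      ← Complex.ofReal_cpow Real.pi_pos.le, Real.sqrt_eq_rpow]
  rw [h1, h4, h5, h6]
  rfl

end Pool.Agent.Helper31.FM
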